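import Pool.Agent.Lib.MP_3b2d6a_co.Phase

/-! Phases of symmetric matrices and the pivot formula. -/

set_option autoImplicit false
set_option linter.unusedSectionVars false

open Finset Filter Topology Matrix

namespace Pool.Agent.MP3b2d6a

variable {V : Type*} [Fintype V] [DecidableEq V]

/-- the complexification of a real matrix -/
noncomputable def cm (M : Matrix V V ℝ) : Matrix V V ℂ := M.map Complex.ofRealHom

/-- the complexification of a real vector -/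
noncomputable def cv (a : V → ℝ) : V → ℂ := fun i => (a i : ℂ)

/-- `x + i M` -/
noncomputable def NN (M : Matrix V V ℝ) (x : ℝ) : Matrix V V ℂ :=
  (x : ℂ) • (1 : Matrix V V ℂ) + Complex.I • cm M

/-- the phase `∑ arctan (λ / x)` of `x + i M` -/
noncomputable def TT (M : Matrix V V ℝ) (x : ℝ) : ℝ :=
  if h : M.IsHermitian then ∑ i, Real.arctan (h.eigenvalues i / x) else 0

/-- `aᵀ (x + i M)⁻¹ a` -/
noncomputable def qq (M : Matrix V V ℝ) (a : V → ℝ) (x : ℝ) : ℂ :=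
  cv a ⬝ᵥ ((NN M x)⁻¹ *ᵥ cv a)

theorem spec_decomp {M : Matrix V V ℝ} (hM : M.IsHermitian) :
    ∃ U : Matrix V V ℝ, U * Uᵀ = 1 ∧ Uᵀ * U = 1 ∧ M = U * diagonal hM.eigenvalues * Uᵀ := by
  have h1 := hM.spectral_theorem
  refine ⟨(hM.eigenvectorUnitary : Matrix V V ℝ), ?_, ?_, ?_⟩
  · have := (Unitary.mem_iff.1 hM.eigenvectorUnitary.2).2
    rwa [star_eq_conjTranspose, conjTranspose_eq_transpose_of_trivial] at this
  · have := (Unitary.mem_iff.1 hM.eigenvectorUnitary.2).1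
    rwa [star_eq_conjTranspose, conjTranspose_eq_transpose_of_trivial] at this
  · rw [Unitary.conjStarAlgAut_apply] at h1
    conv_lhs => rw [h1]
    rw [star_eq_conjTranspose, conjTranspose_eq_transpose_of_trivial]
    rfl

theorem cm_mul (A B : Matrix V V ℝ) : cm (A * B) = cm A * cm B := Matrix.map_mul

theorem cm_one : cm (1 : Matrix V V ℝ) = 1 := by
  unfold cm
  rw [Matrix.map_one _ (map_zero _) (map_one _)]

theorem cm_transpose (A : Matrix V V ℝ) : cm Aᵀ = (cm A)ᵀ := rfl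

theorem cm_add (A B : Matrix V V ℝ) : cm (A + B) = cm A + cm B := by
  unfold cm
  rw [Matrix.map_add _ (map_add _)]

theorem cm_zero : cm (0 : Matrix V V ℝ) = 0 := by
  unfold cm
  rw [Matrix.map_zero _ (map_zero _)]

theorem cm_mulVec (A : Matrix V V ℝ) (a : V → ℝ) : cm A *ᵥ cv a = cv (A *ᵥ a) := by
  ext i
  simp [cm, cv, Matrix.mulVec, dotProduct]

theorem NN_decomp {M U : Matrix V V ℝ} {d : V → ℝ} (h1 : U * Uᵀ = 1)
    (h3 : M = U * diagonal d * Uᵀ) (x : ℝ) :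
    NN M x = cm U * diagonal (fun j => (x : ℂ) + d j * Complex.I) * (cm U)ᵀ := by
  have h4 : cm (diagonal d) = diagonal fun j => (d j : ℂ) := by
    unfold cm
    rw [Matrix.diagonal_map (map_zero _)]
    rfl
  have h5 : (diagonal (fun j => (x : ℂ) + d j * Complex.I) : Matrix V V ℂ) =
      (x : ℂ) • 1 + Complex.I • cm (diagonal d) := by
    rw [h4]
    ext i j
    by_cases hij : i = j
    · subst hij
      simp [mul_comm]
    · simp [hij]
  have h6 : cm U * (cm U)ᵀ = 1 := by rw [← cm_transpose, ← cm_mul, h1, cm_one]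
  rw [h5, Matrix.mul_add, Matrix.add_mul, Matrix.mul_smul, Matrix.smul_mul, Matrix.mul_one, h6,
    Matrix.mul_smul, Matrix.smul_mul, ← cm_transpose, ← cm_mul, ← cm_mul, ← h3]
  rfl

theorem ne_zero_of_pos {x d : ℝ} (hx : 0 < x) : (x : ℂ) + d * Complex.I ≠ 0 := by
  intro h
  have := congrArg Complex.re h
  simp at this
  exact hx.ne' this

theorem det_NN {M : Matrix V V ℝ} (hM : M.IsHermitian) (x : ℝ) :
    (NN M x).det = ∏ j, ((x : ℂ) + hM.eigenvalues j * Complex.I) := by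
  obtain ⟨U, h1, -, h3⟩ := spec_decomp hM
  have h6 : cm U * (cm U)ᵀ = 1 := by rw [← cm_transpose, ← cm_mul, h1, cm_one]
  have h7 : (cm U).det * ((cm U)ᵀ).det = 1 := by rw [← Matrix.det_mul, h6, Matrix.det_one]
  rw [NN_decomp h1 h3, Matrix.det_mul, Matrix.det_mul, Matrix.det_diagonal]
  linear_combination (∏ j, ((x : ℂ) + hM.eigenvalues j * Complex.I)) * h7

theorem det_NN_ne {M : Matrix V V ℝ} (hM : M.IsHermitian) {x : ℝ} (hx : 0 < x) :
    (NN M x).det ≠ 0 := by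
  rw [det_NN hM]
  exact Finset.prod_ne_zero_iff.2 fun j _ => ne_zero_of_pos hx

theorem ph_NN {M : Matrix V V ℝ} (hM : M.IsHermitian) {x : ℝ} (hx : 0 < x) :
    Ph (NN M x).det (TT M x) := by
  rw [det_NN hM, TT, dif_pos hM]
  exact ph_prod _ fun j => ph_arctan hx

theorem qq_of_sol {M : Matrix V V ℝ} (hM : M.IsHermitian) {x : ℝ} (hx : 0 < x) {a : V → ℝ}
    {y : V → ℂ} (hy : NN M x *ᵥ y = cv a) : qq M a x = cv a ⬝ᵥ y := by
  have h1 : IsUnit (NN M x).det := isUnit_iff_ne_zero.2 (det_NN_ne hM hx)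
  unfold qq
  congr 1
  rw [← hy, Matrix.mulVec_mulVec, Matrix.nonsing_inv_mul _ h1, Matrix.one_mulVec]

theorem exists_sol {M : Matrix V V ℝ} (hM : M.IsHermitian) {x : ℝ} (hx : 0 < x) (a : V → ℝ) :
    ∃ y : V → ℂ, NN M x *ᵥ y = cv a := by
  have h1 : IsUnit (NN M x).det := isUnit_iff_ne_zero.2 (det_NN_ne hM hx)
  refine ⟨(NN M x)⁻¹ *ᵥ cv a, ?_⟩
  rw [Matrix.mulVec_mulVec, Matrix.mul_nonsing_inv _ h1, Matrix.one_mulVec]

/-- The spectral formula. -/
theorem qq_spec {M : Matrix V V ℝ} (hM : M.IsHermitian) (a : V → ℝ) :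
    ∃ c : V → ℝ, ∀ x : ℝ, 0 < x →
      qq M a x = ∑ j, ((c j ^ 2 : ℝ) : ℂ) * ((x : ℂ) + hM.eigenvalues j * Complex.I)⁻¹ := by
  obtain ⟨U, h1, h2, h3⟩ := spec_decomp hM
  refine ⟨Uᵀ *ᵥ a, fun x hx => ?_⟩
  have h6 : (cm U)ᵀ * cm U = 1 := by rw [← cm_transpose, ← cm_mul, h2, cm_one]
  have h7 : cm U * (cm U)ᵀ = 1 := by rw [← cm_transpose, ← cm_mul, h1, cm_one]
  have hD : (diagonal (fun j => (x : ℂ) + hM.eigenvalues j * Complex.I) : Matrix V V ℂ) *
      diagonal (fun j => ((x : ℂ) + hM.eigenvalues j * Complex.I)⁻¹) = 1 := by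
    rw [Matrix.diagonal_mul_diagonal, ← Matrix.diagonal_one]
    congr 1
    ext j
    exact mul_inv_cancel₀ (ne_zero_of_pos hx)
  have hy : NN M x *ᵥ (cm U *ᵥ (diagonal (fun j => ((x : ℂ) + hM.eigenvalues j * Complex.I)⁻¹) *ᵥ
      ((cm U)ᵀ *ᵥ cv a))) = cv a := by
    rw [NN_decomp h1 h3, Matrix.mulVec_mulVec, Matrix.mulVec_mulVec, Matrix.mulVec_mulVec]
    have h8 : (cm U * diagonal (fun j => (x : ℂ) + hM.eigenvalues j * Complex.I) * (cm U)ᵀ * cm U *
        diagonal (fun j => ((x : ℂ) + hM.eigenvalues j * Complex.I)⁻¹)) * (cm U)ᵀ = 1 := by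
      calc _ = cm U * (diagonal (fun j => (x : ℂ) + hM.eigenvalues j * Complex.I) *
            ((cm U)ᵀ * cm U) * diagonal (fun j => ((x : ℂ) + hM.eigenvalues j * Complex.I)⁻¹)) *
              (cm U)ᵀ := by simp only [Matrix.mul_assoc]
        _ = 1 := by rw [h6, Matrix.mul_one, hD, Matrix.mul_one, h7]
    rw [h8, Matrix.one_mulVec]
  rw [qq_of_sol hM hx hy]
  have h9 : (cm U)ᵀ *ᵥ cv a = cv (Uᵀ *ᵥ a) := by rw [← cm_transpose, cm_mulVec]
  rw [Matrix.dotProduct_mulVec, ← Matrix.mulVec_transpose, h9]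
  rw [dotProduct]
  refine Finset.sum_congr rfl fun j _ => ?_
  rw [Matrix.mulVec_diagonal]
  simp only [cv]
  push_cast
  ring

end Pool.Agent.MP3b2d6a
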