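import Pool.Agent.Lib.MP_3b2d6a_co.Sign
import Pool.Agent.Lib.MP_3b2d6a_co.Spec

/-! The sign of the entries of `|A|` for a bipartite graph. -/

set_option autoImplicit false
set_option linter.unusedSectionVars false

open Finset Filter Topology Matrix

namespace Pool.Agent.MP3b2d6a

variable {V : Type*} [Fintype V] [DecidableEq V]

/-- `|l| arctan (R / |l|)` -/
noncomputable def ha (l R : ℝ) : ℝ := |l| * Real.arctan (R / |l|)

theorem ha_deriv (l : ℝ) {R : ℝ} (hR : 0 < R) : HasDerivAt (ha l) (l ^ 2 / (l ^ 2 + R ^ 2)) R := by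
  unfold ha
  by_cases hl : l = 0
  · subst hl
    simp only [abs_zero, zero_mul]
    refine (hasDerivAt_const R (0 : ℝ)).congr_deriv ?_
    simp
  · have hl' : 0 < |l| := abs_pos.2 hl
    have h1 : HasDerivAt (fun x : ℝ => x / |l|) (1 / |l|) R := (hasDerivAt_id' R).div_const _
    refine (h1.arctan.const_mul |l|).congr_deriv ?_
    have h2 : l ^ 2 = |l| ^ 2 := (sq_abs l).symm
    rw [h2]
    have h3 : 0 < |l| ^ 2 + R ^ 2 := by positivity
    field_simp

theorem ha_zero (l : ℝ) : ha l 0 = 0 := by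
  unfold ha
  simp

theorem ha_cont (l : ℝ) : Continuous (ha l) := by
  unfold ha
  exact continuous_const.mul (Real.continuous_arctan.comp (continuous_id.div_const _))

theorem ha_lim (l : ℝ) : Tendsto (ha l) atTop (𝓝 (|l| * (Real.pi / 2))) := by
  unfold ha
  by_cases hl : l = 0
  · subst hl
    simp
  · have hl' : 0 < |l| := abs_pos.2 hl
    refine Tendsto.const_mul _ ?_
    exact (Real.tendsto_arctan_atTop.mono_right nhdsWithin_le_nhds).comp
      (tendsto_id.atTop_div_const hl')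

theorem inv_add_inv {A U K : Matrix V V ℝ} {lam : V → ℝ} (h1 : U * Uᵀ = 1) (h2 : Uᵀ * U = 1)
    (h3 : A = U * diagonal lam * Uᵀ) (hK : Kᵀ = -K) (hKA : K * K = -(A * A)) {s : ℝ} (hs : 0 < s)
    (u v : V) :
    (s • (1 : Matrix V V ℝ) + K)⁻¹ u v + (s • (1 : Matrix V V ℝ) + K)⁻¹ v u =
      2 * s * ∑ i, (s ^ 2 + lam i ^ 2)⁻¹ * (U u i * U v i) := by
  have hU := isUnit_M hK hs
  set M := s • (1 : Matrix V V ℝ) + K with hM
  have hMT : Mᵀ = s • (1 : Matrix V V ℝ) - K := by
    rw [hM, Matrix.transpose_add, Matrix.transpose_smul, Matrix.transpose_one, hK, sub_eq_add_neg]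
  set Q : Matrix V V ℝ := U * diagonal (fun i => (s ^ 2 + lam i ^ 2)⁻¹) * Uᵀ with hQ
  have hAA : A * A = U * diagonal (fun i => lam i ^ 2) * Uᵀ := by
    rw [h3]
    calc U * diagonal lam * Uᵀ * (U * diagonal lam * Uᵀ) =
        U * (diagonal lam * (Uᵀ * U) * diagonal lam) * Uᵀ := by simp only [Matrix.mul_assoc]
      _ = _ := by
          rw [h2, Matrix.mul_one, Matrix.diagonal_mul_diagonal]
          congr 3
          ext i
          ring
  have hMM : Mᵀ * M = U * diagonal (fun i => s ^ 2 + lam i ^ 2) * Uᵀ := by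
    have e1 : Mᵀ * M = (s ^ 2) • (1 : Matrix V V ℝ) + A * A := by
      rw [hMT, hM, Matrix.mul_add, Matrix.sub_mul, Matrix.sub_mul, hKA]
      simp only [Matrix.smul_mul, Matrix.mul_smul, Matrix.one_mul, Matrix.mul_one, smul_smul,
        sub_neg_eq_add, pow_two]
      abel
    have e2 : (diagonal (fun i => s ^ 2 + lam i ^ 2) : Matrix V V ℝ) =
        (s ^ 2) • (1 : Matrix V V ℝ) + diagonal (fun i => lam i ^ 2) := by
      ext i j
      by_cases hij : i = j
      · subst hij
        simp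
      · simp [hij]
    rw [e1, e2, Matrix.mul_add, Matrix.add_mul, hAA, Matrix.mul_smul, Matrix.smul_mul,
      Matrix.mul_one, h1]
  have hMQ : (Mᵀ * M) * Q = 1 := by
    rw [hMM, hQ]
    calc U * diagonal (fun i => s ^ 2 + lam i ^ 2) * Uᵀ *
          (U * diagonal (fun i => (s ^ 2 + lam i ^ 2)⁻¹) * Uᵀ) =
        U * (diagonal (fun i => s ^ 2 + lam i ^ 2) * (Uᵀ * U) *
          diagonal (fun i => (s ^ 2 + lam i ^ 2)⁻¹)) * Uᵀ := by simp only [Matrix.mul_assoc]
      _ = U * 1 * Uᵀ := by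
          rw [h2, Matrix.mul_one, Matrix.diagonal_mul_diagonal]
          congr 2
          rw [← Matrix.diagonal_one]
          congr 1
          ext i
          have : 0 < s ^ 2 + lam i ^ 2 := by positivity
          exact mul_inv_cancel₀ this.ne'
      _ = 1 := by rw [Matrix.mul_one, h1]
  have hinv : M⁻¹ * (M⁻¹)ᵀ = Q := by
    rw [Matrix.transpose_nonsing_inv, ← Matrix.mul_inv_rev]
    exact Matrix.inv_eq_right_inv hMQ
  have hUT : IsUnit Mᵀ.det := by rwa [Matrix.det_transpose]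
  have hsum : M⁻¹ + (M⁻¹)ᵀ = (2 * s) • Q := by
    have e1 : M + Mᵀ = (2 * s) • (1 : Matrix V V ℝ) := by
      rw [hMT, hM, two_mul, add_smul]
      abel
    have e2 : M⁻¹ * (M + Mᵀ) * (M⁻¹)ᵀ = (M⁻¹)ᵀ + M⁻¹ := by
      rw [Matrix.mul_add, Matrix.add_mul, Matrix.nonsing_inv_mul _ hU, Matrix.one_mul,
        Matrix.transpose_nonsing_inv, Matrix.mul_assoc, Matrix.mul_nonsing_inv _ hUT,
        Matrix.mul_one]
    rw [e1, Matrix.mul_smul, Matrix.mul_one, Matrix.smul_mul, hinv] at e2
    rw [e2, add_comm]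
  have h4 := congrFun (congrFun hsum u) v
  rw [Matrix.add_apply, Matrix.transpose_apply, Matrix.smul_apply, smul_eq_mul] at h4
  rw [h4, hQ, Matrix.mul_apply]
  congr 1
  refine Finset.sum_congr rfl fun i _ => ?_
  rw [Matrix.mul_diagonal, Matrix.transpose_apply]
  ring

theorem abs_entry {A U K : Matrix V V ℝ} {lam : V → ℝ} {τ : ℝ} (h1 : U * Uᵀ = 1) (h2 : Uᵀ * U = 1)
    (h3 : A = U * diagonal lam * Uᵀ) (hK : Kᵀ = -K) (hKA : K * K = -(A * A)) {u v : V}
    (huv : u ≠ v)
    (hs : ∀ s : ℝ, 0 < s → τ * (s • (1 : Matrix V V ℝ) + K)⁻¹ u v ≤ 0 ∧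
      τ * (s • (1 : Matrix V V ℝ) + K)⁻¹ v u ≤ 0) :
    0 ≤ τ * ∑ i, |lam i| * (U u i * U v i) ∧
    ((∀ s : ℝ, 0 < s → τ * (s • (1 : Matrix V V ℝ) + K)⁻¹ u v < 0) →
      0 < τ * ∑ i, |lam i| * (U u i * U v i)) := by
  set g : ℝ → ℝ := fun R => τ * ∑ i, ha (lam i) R * (U u i * U v i) with hg
  have hW : ∑ i, U u i * U v i = 0 := by
    have := congrFun (congrFun h1 u) v
    rw [Matrix.mul_apply, Matrix.one_apply_ne huv] at this
    exact this
  have hgd : ∀ R : ℝ, 0 < R → HasDerivAt g (-(R / 2) * (τ * (R • (1 : Matrix V V ℝ) + K)⁻¹ u v +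
      τ * (R • (1 : Matrix V V ℝ) + K)⁻¹ v u)) R := by
    intro R hR
    have h4 : HasDerivAt g (τ * ∑ i, lam i ^ 2 / (lam i ^ 2 + R ^ 2) * (U u i * U v i)) R := by
      rw [hg]
      exact (HasDerivAt.fun_sum fun i _ => (ha_deriv (lam i) hR).mul_const _).const_mul τ
    refine h4.congr_deriv ?_
    rw [← mul_add τ, inv_add_inv h1 h2 h3 hK hKA hR u v]
    have h5 : ∀ i, lam i ^ 2 / (lam i ^ 2 + R ^ 2) * (U u i * U v i) =
        U u i * U v i - R ^ 2 * ((R ^ 2 + lam i ^ 2)⁻¹ * (U u i * U v i)) := by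
      intro i
      have : 0 < R ^ 2 + lam i ^ 2 := by positivity
      rw [add_comm (lam i ^ 2)]
      field_simp
      ring
    rw [Finset.sum_congr rfl fun i _ => h5 i, Finset.sum_sub_distrib, hW, ← Finset.mul_sum]
    ring
  have hgc : ContinuousOn g (Set.Ici 0) := by
    refine Continuous.continuousOn ?_
    rw [hg]
    exact continuous_const.mul
      (continuous_finsetSum _ fun i _ => (ha_cont _).mul continuous_const)
  have hg0 : g 0 = 0 := by
    simp only [hg, ha_zero, zero_mul, Finset.sum_const_zero, mul_zero]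
  have hmono : MonotoneOn g (Set.Ici 0) := by
    refine monotoneOn_of_deriv_nonneg (convex_Ici 0) hgc ?_ ?_
    · rw [interior_Ici]
      exact fun x hx => (hgd x hx).differentiableAt.differentiableWithinAt
    · rw [interior_Ici]
      intro x hx
      rw [(hgd x hx).deriv]
      have := hs x hx
      have hx' : (0 : ℝ) < x := hx
      nlinarith [this.1, this.2]
  have hlim : Tendsto g atTop (𝓝 (τ * ∑ i, (|lam i| * (Real.pi / 2)) * (U u i * U v i))) := by
    rw [hg]
    exact (tendsto_finsetSum _ fun i _ => (ha_lim (lam i)).mul_const _).const_mul τ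
  have hval : τ * ∑ i, (|lam i| * (Real.pi / 2)) * (U u i * U v i) =
      Real.pi / 2 * (τ * ∑ i, |lam i| * (U u i * U v i)) := by
    have h5 : ∑ i, (|lam i| * (Real.pi / 2)) * (U u i * U v i) =
        Real.pi / 2 * ∑ i, |lam i| * (U u i * U v i) := by
      rw [Finset.mul_sum]
      exact Finset.sum_congr rfl fun i _ => by ring
    rw [h5]
    ring
  rw [hval] at hlim
  have hpi := Real.pi_pos
  have hge : ∀ a : ℝ, 0 ≤ a → g a ≤ Real.pi / 2 * (τ * ∑ i, |lam i| * (U u i * U v i)) := by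
    intro a ha0
    refine ge_of_tendsto hlim ?_
    filter_upwards [eventually_ge_atTop a] with x hx
    exact hmono ha0 (ha0.trans hx) hx
  constructor
  · have := hge 0 le_rfl
    rw [hg0] at this
    by_contra hneg
    push Not at hneg
    nlinarith
  · intro hlt
    have hstrict : StrictMonoOn g (Set.Ici 0) := by
      refine strictMonoOn_of_deriv_pos (convex_Ici 0) hgc ?_
      rw [interior_Ici]
      intro x hx
      rw [(hgd x hx).deriv]
      have h5 := hs x hx
      have h6 := hlt x hx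
      have hx' : (0 : ℝ) < x := hx
      nlinarith [h5.2]
    have h7 : g 0 < g 1 := hstrict (Set.mem_Ici.2 le_rfl) (Set.mem_Ici.2 zero_le_one) one_pos
    rw [hg0] at h7
    have := hge 1 zero_le_one
    by_contra hneg
    push Not at hneg
    nlinarith

end Pool.Agent.MP3b2d6a
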