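import Pool.Agent.Lib.MP_3b2d6a_co.Two

/-! Bounds for the phase of a deleted vertex by the spectral measure: mass, mean, support. -/

set_option autoImplicit false
set_option linter.unusedSectionVars false

open Finset Filter Topology Matrix

namespace Pool.Agent.MP3b2d6a

/-- (i): the bound from the mass alone. -/
theorem sp_one {ι : Type*} (s : Finset ι) (w l : ι → ℝ) (hw : ∀ i ∈ s, 0 ≤ w i) {x d : ℝ}
    (hx : 0 < x) (hd : 0 < d) (hs : ∑ i ∈ s, w i = d) :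
    (∑ i ∈ s, w i * (-l i / (x ^ 2 + l i ^ 2))) / (x + ∑ i ∈ s, w i * (x / (x ^ 2 + l i ^ 2))) ≤
      d / (2 * x * √(x ^ 2 + d)) := by
  obtain ⟨t, ht⟩ : ∃ t, t = √(x ^ 2 + d) := ⟨_, rfl⟩
  have ht0 : 0 < t := by rw [ht]; exact Real.sqrt_pos.2 (by positivity)
  have ht2 : t ^ 2 = x ^ 2 + d := by rw [ht]; exact Real.sq_sqrt (by positivity)
  rw [← ht]
  have hre : 0 ≤ ∑ i ∈ s, w i * (x / (x ^ 2 + l i ^ 2)) :=
    Finset.sum_nonneg fun i hi => mul_nonneg (hw i hi) (by positivity)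
  rw [div_le_iff₀ (by linarith)]
  have h1 : ∀ i ∈ s, w i * (-l i / (x ^ 2 + l i ^ 2)) ≤
      d / (2 * x * t) * (w i * (x / d) + w i * (x / (x ^ 2 + l i ^ 2))) := by
    intro i hi
    have h2 : -l i / (x ^ 2 + l i ^ 2) ≤ d / (2 * x * t) * (x / d + x / (x ^ 2 + l i ^ 2)) := by
      have hp : 0 < x ^ 2 + l i ^ 2 := by positivity
      have e : d / (2 * x * t) * (x / d + x / (x ^ 2 + l i ^ 2)) =
          ((x ^ 2 + l i ^ 2 + d) / (2 * t)) / (x ^ 2 + l i ^ 2) := by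
        field_simp
      rw [e]
      refine div_le_div_of_nonneg_right ?_ hp.le
      rw [le_div_iff₀ (by positivity)]
      nlinarith [sq_nonneg (t + l i)]
    calc w i * (-l i / (x ^ 2 + l i ^ 2)) ≤
        w i * (d / (2 * x * t) * (x / d + x / (x ^ 2 + l i ^ 2))) :=
          mul_le_mul_of_nonneg_left h2 (hw i hi)
      _ = _ := by ring
  refine (Finset.sum_le_sum h1).trans ?_
  rw [← Finset.mul_sum, Finset.sum_add_distrib, ← Finset.sum_mul, hs]
  have e : d * (x / d) = x := by field_simp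
  rw [e]

/-- (ii): the bound which uses the support and the nonnegative mean. -/
theorem sp_two {ι : Type*} (s : Finset ι) (w l : ι → ℝ) (hw : ∀ i ∈ s, 0 ≤ w i) {x d L : ℝ}
    (hx : 0 < x) (hL : 0 < L) (hs : ∑ i ∈ s, w i = d) (hm : 0 ≤ ∑ i ∈ s, w i * l i)
    (hl : ∀ i ∈ s, |l i| ≤ L) :
    (∑ i ∈ s, w i * (-l i / (x ^ 2 + l i ^ 2))) / (x + ∑ i ∈ s, w i * (x / (x ^ 2 + l i ^ 2))) ≤
      d * L ^ 3 / (4 * x ^ 3 * (x ^ 2 + L ^ 2)) := by
  have hre : 0 ≤ ∑ i ∈ s, w i * (x / (x ^ 2 + l i ^ 2)) :=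
    Finset.sum_nonneg fun i hi => mul_nonneg (hw i hi) (by positivity)
  have hd : 0 ≤ d := by rw [← hs]; exact Finset.sum_nonneg hw
  have h1 : ∀ i ∈ s, w i * (-l i / (x ^ 2 + l i ^ 2)) ≤
      w i * (L ^ 3 / (4 * x ^ 2 * (x ^ 2 + L ^ 2))) -
        (w i * l i) * ((1 - 3 / 4 * L ^ 2 / (x ^ 2 + L ^ 2)) / x ^ 2) := by
    intro i hi
    have h2 : -l i / (x ^ 2 + l i ^ 2) ≤ L ^ 3 / (4 * x ^ 2 * (x ^ 2 + L ^ 2)) -
        l i * ((1 - 3 / 4 * L ^ 2 / (x ^ 2 + L ^ 2)) / x ^ 2) := by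
      have hp : 0 < x ^ 2 + l i ^ 2 := by positivity
      have hq : 0 < x ^ 2 + L ^ 2 := by positivity
      have e : L ^ 3 / (4 * x ^ 2 * (x ^ 2 + L ^ 2)) -
          l i * ((1 - 3 / 4 * L ^ 2 / (x ^ 2 + L ^ 2)) / x ^ 2) - -l i / (x ^ 2 + l i ^ 2) =
          (L - l i) * (x ^ 2 * (L + 2 * l i) ^ 2 + L ^ 2 * l i ^ 2) /
            (4 * x ^ 2 * (x ^ 2 + L ^ 2) * (x ^ 2 + l i ^ 2)) := by
        field_simp
        ring
      have h3 : 0 ≤ (L - l i) * (x ^ 2 * (L + 2 * l i) ^ 2 + L ^ 2 * l i ^ 2) /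
            (4 * x ^ 2 * (x ^ 2 + L ^ 2) * (x ^ 2 + l i ^ 2)) := by
        have := (abs_le.1 (hl i hi)).2
        refine div_nonneg (mul_nonneg (by linarith) (by positivity)) (by positivity)
      linarith
    calc w i * (-l i / (x ^ 2 + l i ^ 2)) ≤ w i * (L ^ 3 / (4 * x ^ 2 * (x ^ 2 + L ^ 2)) -
        l i * ((1 - 3 / 4 * L ^ 2 / (x ^ 2 + L ^ 2)) / x ^ 2)) :=
          mul_le_mul_of_nonneg_left h2 (hw i hi)
      _ = _ := by ring
  have h4 : ∑ i ∈ s, w i * (-l i / (x ^ 2 + l i ^ 2)) ≤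
      d * (L ^ 3 / (4 * x ^ 2 * (x ^ 2 + L ^ 2))) := by
    refine (Finset.sum_le_sum h1).trans ?_
    rw [Finset.sum_sub_distrib, ← Finset.sum_mul, ← Finset.sum_mul, hs]
    have h5 : 0 ≤ (1 - 3 / 4 * L ^ 2 / (x ^ 2 + L ^ 2)) / x ^ 2 := by
      refine div_nonneg ?_ (by positivity)
      rw [sub_nonneg, div_le_one (by positivity)]
      nlinarith [sq_nonneg x, sq_nonneg L]
    nlinarith [mul_nonneg hm h5]
  have hB : 0 ≤ d * (L ^ 3 / (4 * x ^ 2 * (x ^ 2 + L ^ 2))) := by positivity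
  rw [div_le_iff₀ (by linarith)]
  refine h4.trans ?_
  have e : d * (L ^ 3 / (4 * x ^ 2 * (x ^ 2 + L ^ 2))) =
      d * L ^ 3 / (4 * x ^ 3 * (x ^ 2 + L ^ 2)) * x := by
    field_simp
  rw [e]
  refine mul_le_mul_of_nonneg_left (by linarith) (by positivity)

variable {V : Type*} [Fintype V] [DecidableEq V]

/-- The spectral formula with mass and mean of the spectral measure. -/
theorem qq_spec' {M : Matrix V V ℝ} (hM : M.IsHermitian) (a : V → ℝ) :
    ∃ c : V → ℝ, (∑ j, c j ^ 2 = a ⬝ᵥ a) ∧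
      (∑ j, c j ^ 2 * hM.eigenvalues j = a ⬝ᵥ (M *ᵥ a)) ∧ ∀ x : ℝ, 0 < x →
      qq M a x = ∑ j, ((c j ^ 2 : ℝ) : ℂ) * ((x : ℂ) + hM.eigenvalues j * Complex.I)⁻¹ := by
  obtain ⟨U, h1, h2, h3⟩ := spec_decomp hM
  refine ⟨Uᵀ *ᵥ a, (norm_eq h1 a).symm, ?_, fun x hx => ?_⟩
  · rw [form_eq h3 a]
    exact Finset.sum_congr rfl fun j _ => mul_comm _ _
  have h6 : (cm U)ᵀ * cm U = 1 := by rw [← cm_transpose, ← cm_mul, h2, cm_one]
  have h7 : cm U * (cm U)ᵀ = 1 := by rw [← cm_transpose, ← cm_mul, h1, cm_one]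
  have hD : (diagonal (fun j => (x : ℂ) + hM.eigenvalues j * Complex.I) : Matrix V V ℂ) *
      diagonal (fun j => ((x : ℂ) + hM.eigenvalues j * Complex.I)⁻¹) = 1 := by
    rw [Matrix.diagonal_mul_diagonal, ← Matrix.diagonal_one]
    congr 1
    ext j
    exact mul_inv_cancel₀ (ne_zero_of_pos hx)
  have hy : NN M x *ᵥ (cm U *ᵥ (diagonal (fun j => ((x : ℂ) + hM.eigenvalues j * Complex.I)⁻¹) *ᵥ
      ((cm U)ᵀ *ᵥ cv a))) = cv a := by
    rw [NN_decomp h1 h3, Matrix.mulVec_mulVec, Matrix.mulVec_mulVec, Matrix.mulVec_mulVec]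
    have h8 : (cm U * diagonal (fun j => (x : ℂ) + hM.eigenvalues j * Complex.I) * (cm U)ᵀ * cm U *
        diagonal (fun j => ((x : ℂ) + hM.eigenvalues j * Complex.I)⁻¹)) * (cm U)ᵀ = 1 := by
      calc _ = cm U * (diagonal (fun j => (x : ℂ) + hM.eigenvalues j * Complex.I) *
            ((cm U)ᵀ * cm U) * diagonal (fun j => ((x : ℂ) + hM.eigenvalues j * Complex.I)⁻¹)) *
              (cm U)ᵀ := by simp only [Matrix.mul_assoc]
        _ = 1 := by rw [h6, Matrix.mul_one, hD, Matrix.mul_one, h7]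
    rw [h8, Matrix.one_mulVec]
  rw [qq_of_sol hM hx hy]
  have h9 : (cm U)ᵀ *ᵥ cv a = cv (Uᵀ *ᵥ a) := by rw [← cm_transpose, cm_mulVec]
  rw [Matrix.dotProduct_mulVec, ← Matrix.mulVec_transpose, h9]
  rw [dotProduct]
  refine Finset.sum_congr rfl fun j _ => ?_
  rw [Matrix.mulVec_diagonal]
  simp only [cv]
  push_cast
  ring

theorem term_im {r x d : ℝ} : ((r : ℂ) * ((x : ℂ) + d * Complex.I)⁻¹).im =
    r * (-d / (x ^ 2 + d ^ 2)) := by
  rw [Complex.im_ofReal_mul, Complex.inv_im]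
  congr 1
  simp [Complex.normSq_apply]
  ring_nf

/-- The phase contribution of a vertex with `d` neighbours (indicator `a`). -/
theorem qq_le {M : Matrix V V ℝ} (hM : M.IsHermitian) (a : V → ℝ) {d L x : ℝ} (hd : 0 < d)
    (hL : 0 < L) (ha : a ⬝ᵥ a = d) (hm : 0 ≤ a ⬝ᵥ (M *ᵥ a))
    (hev : ∀ i, |hM.eigenvalues i| ≤ L) (hx : 0 < x) :
    (qq M a x).im / (x + (qq M a x).re) ≤ d / (2 * x * √(x ^ 2 + d)) ∧
    (qq M a x).im / (x + (qq M a x).re) ≤ d * L ^ 3 / (4 * x ^ 3 * (x ^ 2 + L ^ 2)) := by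
  obtain ⟨c, h1, h2, h3⟩ := qq_spec' hM a
  rw [h3 x hx, Complex.re_sum, Complex.im_sum, Finset.sum_congr rfl fun j _ => term_re,
    Finset.sum_congr rfl fun j _ => term_im]
  rw [ha] at h1
  rw [← h2] at hm
  exact ⟨sp_one univ _ _ (fun i _ => sq_nonneg _) hx hd h1,
    sp_two univ _ _ (fun i _ => sq_nonneg _) hx hL h1 hm fun i _ => hev i⟩

/-- Row sums of absolute values bound the eigenvalues. -/
theorem eig_le_row {M : Matrix V V ℝ} (hM : M.IsHermitian) {L : ℝ}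
    (hL : ∀ u, ∑ v, |M u v| ≤ L) (i : V) : |hM.eigenvalues i| ≤ L := by
  obtain ⟨y, hy⟩ : ∃ y : V → ℝ, y = ⇑(hM.eigenvectorBasis i) := ⟨_, rfl⟩
  have h1 : M *ᵥ y = hM.eigenvalues i • y := by
    rw [hy]
    exact hM.mulVec_eigenvectorBasis i
  have hne : y ≠ 0 := by
    intro h0
    have h2 := hM.eigenvectorBasis.orthonormal.ne_zero i
    apply h2
    ext v
    have := congrFun (hy.symm.trans h0) v
    simpa using this
  obtain ⟨u, -, hu⟩ := Finset.exists_max_image univ (fun v => |y v|) ⟨i, Finset.mem_univ _⟩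
  have hu0 : 0 < |y u| := by
    obtain ⟨v, hv⟩ := Function.ne_iff.1 hne
    have hv' : y v ≠ 0 := hv
    exact (abs_pos.2 hv').trans_le (hu v (Finset.mem_univ _))
  have h3 : hM.eigenvalues i * y u = ∑ v, M u v * y v := by
    have := congrFun h1 u
    rw [Matrix.mulVec, dotProduct, Pi.smul_apply, smul_eq_mul] at this
    exact this.symm
  have h4 : |hM.eigenvalues i| * |y u| ≤ L * |y u| := by
    rw [← abs_mul, h3]
    refine (Finset.abs_sum_le_sum_abs _ _).trans ?_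
    calc ∑ v, |M u v * y v| ≤ ∑ v, |M u v| * |y u| := by
          refine Finset.sum_le_sum fun v _ => ?_
          rw [abs_mul]
          exact mul_le_mul_of_nonneg_left (hu v (Finset.mem_univ _)) (abs_nonneg _)
      _ = (∑ v, |M u v|) * |y u| := by rw [Finset.sum_mul]
      _ ≤ _ := mul_le_mul_of_nonneg_right (hL u) hu0.le
  exact le_of_mul_le_mul_right h4 hu0

variable (G : SimpleGraph V)

theorem AW_row {W : Set V} (u : V) (hu : u ∈ W) :
    ∑ v, |AW G W u v| = (({v | v ∈ W ∧ G.Adj u v} : Set V).ncard : ℝ) := by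
  classical
  rw [Set.ncard_eq_toFinset_card']
  have h1 : ∀ v, |AW G W u v| = if v ∈ W ∧ G.Adj u v then 1 else 0 := by
    intro v
    unfold AW
    by_cases h : v ∈ W ∧ G.Adj u v
    · rw [if_pos ⟨hu, h⟩, if_pos h, abs_one]
    · rw [if_neg fun h' => h h'.2, if_neg h, abs_zero]
  rw [Finset.sum_congr rfl fun v _ => h1 v, Finset.sum_boole]
  congr 2
  ext v
  simp

theorem AW_eig_le {W : Set V} {L : ℝ} (hL0 : 0 ≤ L)
    (hL : ∀ u ∈ W, (({v | v ∈ W ∧ G.Adj u v} : Set V).ncard : ℝ) ≤ L)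
    (i : V) : |(AW_herm G W).eigenvalues i| ≤ L := by
  refine eig_le_row _ (fun u => ?_) i
  by_cases hu : u ∈ W
  · rw [AW_row G u hu]
    exact hL u hu
  · refine le_trans (le_of_eq ?_) hL0
    refine Finset.sum_eq_zero fun v _ => ?_
    rw [AW_zero_left G hu, abs_zero]

theorem av_dot (W : Set V) (r : V) :
    av G W r ⬝ᵥ av G W r = (({v | v ∈ W ∧ G.Adj r v} : Set V).ncard : ℝ) := by
  classical
  rw [Set.ncard_eq_toFinset_card', dotProduct]
  have h1 : ∀ v, av G W r v * av G W r v = if v ∈ W ∧ G.Adj r v then 1 else 0 := by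
    intro v
    unfold av
    by_cases h : v ∈ W ∧ G.Adj r v
    · rw [if_pos h, one_mul]
    · rw [if_neg h, mul_zero]
  rw [Finset.sum_congr rfl fun v _ => h1 v, Finset.sum_boole]
  congr 2
  ext v
  simp

theorem av_nonneg (W : Set V) (r v : V) : 0 ≤ av G W r v := by
  unfold av
  split_ifs
  · exact zero_le_one
  · exact le_rfl

theorem av_mean (W W' : Set V) (r : V) : 0 ≤ av G W r ⬝ᵥ (AW G W' *ᵥ av G W r) := by
  rw [dotProduct]
  refine Finset.sum_nonneg fun u _ => mul_nonneg (av_nonneg G W r u) ?_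
  rw [Matrix.mulVec, dotProduct]
  exact Finset.sum_nonneg fun v _ => mul_nonneg (AW_nonneg G W' u v) (av_nonneg G W r v)

/-- Deletion of a vertex `r` of degree `d` of a graph of maximum degree at most `L`. -/
theorem T_del {W : Set V} {r : V} (hr : r ∈ W) {d L x : ℝ}
    (hd : (({v | v ∈ W ∧ G.Adj r v} : Set V).ncard : ℝ) = d) (hd0 : 0 < d) (hL0 : 0 < L)
    (hL : ∀ u ∈ W, (({v | v ∈ W ∧ G.Adj u v} : Set V).ncard : ℝ) ≤ L) (hx : 0 < x) :
    T G W x ≤ T G (W \ {r}) x +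
      Real.arctan (min (d / (2 * x * √(x ^ 2 + d))) (d * L ^ 3 / (4 * x ^ 3 * (x ^ 2 + L ^ 2)))) := by
  rw [T_pivot G hr hx]
  have h := qq_le (AW_herm G (W \ {r})) (av G W r) hd0 hL0 (by rw [av_dot, hd])
    (av_mean G W (W \ {r}) r) (AW_eig_le G hL0.le fun u hu => ?_) hx
  · have h2 := Real.arctan_strictMono.monotone (le_min h.1 h.2)
    unfold Q
    linarith
  · refine le_trans ?_ (hL u hu.1)
    have h3 : ({v | v ∈ W \ {r} ∧ G.Adj u v} : Set V).ncard ≤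
        ({v | v ∈ W ∧ G.Adj u v} : Set V).ncard :=
      Set.ncard_le_ncard (fun v hv => ⟨hv.1.1, hv.2⟩) (Set.toFinite _)
    exact_mod_cast h3

/-- The angle `arctan (min (d / (2 x √(x² + d))) (d⁴ / (4 x³ (x² + d²))))`. -/
noncomputable def ad (d : ℕ) (x : ℝ) : ℝ :=
  Real.arctan (min (d / (2 * x * √(x ^ 2 + d))) ((d : ℝ) ^ 4 / (4 * x ^ 3 * (x ^ 2 + (d : ℝ) ^ 2))))

theorem ad_nonneg (d : ℕ) {x : ℝ} (hx : 0 < x) : 0 ≤ ad d x := by
  unfold ad
  rw [← Real.arctan_zero]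
  exact Real.arctan_strictMono.monotone (le_min (by positivity) (by positivity))

/-- The first bound is monotone in the degree. -/
theorem mono_one {d e x : ℝ} (hx : 0 < x) (hd : 0 < d) (h : d ≤ e) :
    d / (2 * x * √(x ^ 2 + d)) ≤ e / (2 * x * √(x ^ 2 + e)) := by
  have he : 0 < e := hd.trans_le h
  obtain ⟨s, hs⟩ : ∃ s, s = √(x ^ 2 + d) := ⟨_, rfl⟩
  obtain ⟨t, ht⟩ : ∃ t, t = √(x ^ 2 + e) := ⟨_, rfl⟩
  have hs0 : 0 < s := by rw [hs]; exact Real.sqrt_pos.2 (by positivity)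
  have ht0 : 0 < t := by rw [ht]; exact Real.sqrt_pos.2 (by positivity)
  have hs2 : s ^ 2 = x ^ 2 + d := by rw [hs]; exact Real.sq_sqrt (by positivity)
  have ht2 : t ^ 2 = x ^ 2 + e := by rw [ht]; exact Real.sq_sqrt (by positivity)
  rw [← hs, ← ht, div_le_div_iff₀ (by positivity) (by positivity)]
  have h1 : d * t ≤ e * s := by
    have h2 : (d * t) ^ 2 ≤ (e * s) ^ 2 := by
      rw [mul_pow, mul_pow, hs2, ht2]
      nlinarith [mul_nonneg (sub_nonneg.2 h) (mul_nonneg (add_pos hd he).le (sq_nonneg x)),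
        mul_nonneg (sub_nonneg.2 h) (mul_pos hd he).le]
    exact le_of_sq_le_sq h2 (by positivity)
  nlinarith

theorem T_del_ad {W : Set V} {r : V} (hr : r ∈ W) {d : ℕ} {x : ℝ}
    (hL : ∀ u ∈ W, ({v | v ∈ W ∧ G.Adj u v} : Set V).ncard ≤ d) (hx : 0 < x) :
    T G W x ≤ T G (W \ {r}) x + ad d x := by
  rcases Nat.eq_zero_or_pos ({v | v ∈ W ∧ G.Adj r v} : Set V).ncard with h0 | h0
  · have hav : av G W r = 0 := by
      rw [Set.ncard_eq_zero (Set.toFinite _)] at h0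
      ext v
      unfold av
      rw [if_neg]
      · rfl
      · intro hv
        have : v ∈ ({v | v ∈ W ∧ G.Adj r v} : Set V) := hv
        rw [h0] at this
        exact this
    have hQ : Q G W r x = 0 := by
      unfold Q qq
      rw [hav, cv_zero, zero_dotProduct]
    rw [T_pivot G hr hx, hQ, Complex.zero_im, zero_div, Real.arctan_zero, add_zero]
    have := ad_nonneg d hx
    linarith
  · obtain ⟨e, he⟩ : ∃ e, e = ({v | v ∈ W ∧ G.Adj r v} : Set V).ncard := ⟨_, rfl⟩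
    rw [← he] at h0
    have hed : (e : ℝ) ≤ d := by
      rw [he]
      exact_mod_cast hL r hr
    have he0 : (0 : ℝ) < e := by exact_mod_cast h0
    have hd0 : (0 : ℝ) < d := he0.trans_le hed
    refine (T_del G hr (d := e) (L := d) (by rw [he]) he0 hd0
      (fun u hu => by exact_mod_cast hL u hu) hx).trans (add_le_add le_rfl ?_)
    unfold ad
    refine Real.arctan_strictMono.monotone (min_le_min (mono_one hx he0 hed) ?_)
    refine div_le_div_of_nonneg_right ?_ (by positivity)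
    calc (e : ℝ) * (d : ℝ) ^ 3 ≤ d * (d : ℝ) ^ 3 := mul_le_mul_of_nonneg_right hed (by positivity)
      _ = _ := by ring

/-- Hereditary form: deletion of a vertex of a graph of maximum degree at most `d`. -/
theorem del_bound {W : Set V} (r : V) {d : ℕ} {x β : ℝ}
    (hL : ∀ u ∈ W, ({v | v ∈ W ∧ G.Adj u v} : Set V).ncard ≤ d) (hx : 0 < x)
    (h : ∀ W' ⊆ W \ {r}, T G W' x ≤ β) : ∀ W' ⊆ W, T G W' x ≤ β + ad d x := by
  intro W' hW
  by_cases hr : r ∈ W'
  · refine (T_del_ad G hr (d := d) (fun u hu => ?_) hx).trans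
      (add_le_add (h _ (Set.sdiff_subset_sdiff_left hW)) le_rfl)
    refine le_trans ?_ (hL u (hW hu))
    exact Set.ncard_le_ncard (fun v hv => ⟨hW hv.1, hv.2⟩) (Set.toFinite _)
  · have h1 := h W' (Set.subset_sdiff_singleton hW hr)
    have := ad_nonneg d hx
    linarith

end Pool.Agent.MP3b2d6a
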