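import Pool.Agent.Lib.MP_3b2d6a_co.Int
import Pool.Agent.Lib.MP_3b2d6a_co.SpB

/-! A primitive of `x a_d (x)` and its total increment. -/

set_option autoImplicit false
set_option linter.unusedSectionVars false

open Finset Filter Topology Matrix

namespace Pool.Agent.MP3b2d6a

/-! analytic half -/

noncomputable def adE (d : ℝ) : ℝ := d ^ 2 / 8 * Real.arctan (1 / √(d ^ 2 / 4 + d)) +
  d / 2 * Real.log (d / 2 + √(d ^ 2 / 4 + d)) - d / 2 * Real.arctan (d / 2 / √(d ^ 2 / 4 + d)) -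
  d / 4 * Real.log d + d / 4 * (2 - Real.pi / 2 + Real.arctan (1 / 2))

noncomputable def ndh (D x : ℝ) : ℝ := Real.log (x + √(x ^ 2 + D)) - Real.arctan (x / √(x ^ 2 + D))

noncomputable def ndA (D x : ℝ) : ℝ := x ^ 2 / 2 * Real.arctan (D / (2 * x * √(x ^ 2 + D))) +
  D / 2 * ndh D x

noncomputable def ndB (D x : ℝ) : ℝ := D ^ 2 / 4 * (-x⁻¹ - Real.arctan (x / D) / D)

theorem nd_sqrt_deriv {D x : ℝ} (hD : 0 < D) :
    HasDerivAt (fun x => √(x ^ 2 + D)) (x / √(x ^ 2 + D)) x := by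
  have h0 : x ^ 2 + D ≠ 0 := by positivity
  have h1 := ((hasDerivAt_pow 2 x).add_const D).sqrt h0
  refine h1.congr_deriv ?_
  have hs : √(x ^ 2 + D) ≠ 0 := (Real.sqrt_pos.mpr (by positivity)).ne'
  norm_num
  field_simp

theorem ndh_deriv {D x : ℝ} (hD : 0 < D) (hx : 0 ≤ x) :
    HasDerivAt (ndh D) (2 * x ^ 2 / (√(x ^ 2 + D) * (2 * x ^ 2 + D))) x := by
  have hr : 0 < √(x ^ 2 + D) := Real.sqrt_pos.mpr (by positivity)
  have hr2 : √(x ^ 2 + D) ^ 2 = x ^ 2 + D := Real.sq_sqrt (by positivity)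
  have hs := nd_sqrt_deriv (x := x) hD
  have h1 := ((hasDerivAt_id x).fun_add hs).log (by positivity : x + √(x ^ 2 + D) ≠ 0)
  have h2 := ((hasDerivAt_id x).fun_div hs hr.ne').arctan
  have h3 := h1.fun_sub h2
  refine h3.congr_deriv ?_
  obtain ⟨r, hrdef⟩ : ∃ r, r = √(x ^ 2 + D) := ⟨_, rfl⟩
  simp only [id, ← hrdef] at hr hr2 ⊢
  have e1 : (1 + x / r) / (x + r) = 1 / r := by
    field_simp
    ring
  have h4 : (0 : ℝ) < 2 * x ^ 2 + D := by positivity
  have e2 : 1 / (1 + (x / r) ^ 2) * ((1 * r - x * (x / r)) / r ^ 2) = D / (r * (2 * x ^ 2 + D)) := by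
    have e3 : 1 + (x / r) ^ 2 = (2 * x ^ 2 + D) / r ^ 2 := by
      field_simp
      linarith
    have e4 : 1 * r - x * (x / r) = D / r := by
      field_simp
      linarith
    rw [e3, e4]
    field_simp
  rw [e1, e2]
  field_simp
  ring

theorem ndh_ge {D x : ℝ} (hD : 0 < D) (hx : 0 ≤ x) : Real.log D / 2 ≤ ndh D x := by
  have hmono : MonotoneOn (ndh D) (Set.Ici 0) := by
    refine monotoneOn_of_deriv_nonneg (convex_Ici 0)
      (fun y hy => (ndh_deriv hD hy).continuousAt.continuousWithinAt)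
      (fun y hy => (ndh_deriv hD (interior_subset hy)).differentiableAt.differentiableWithinAt) ?_
    intro y hy
    rw [(ndh_deriv hD (interior_subset hy)).deriv]
    positivity
  have h := hmono (Set.mem_Ici.2 (le_refl (0 : ℝ))) (Set.mem_Ici.2 hx) hx
  have e : ndh D 0 = Real.log D / 2 := by
    unfold ndh
    have : (0 : ℝ) ^ 2 + D = D := by ring
    rw [this, zero_div, Real.arctan_zero, zero_add, sub_zero, Real.log_sqrt hD.le]
  rw [e] at h
  exact h

theorem ndA_deriv {D x : ℝ} (hD : 0 < D) (hx : 0 < x) :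
    HasDerivAt (ndA D) (x * Real.arctan (D / (2 * x * √(x ^ 2 + D)))) x := by
  have hr : 0 < √(x ^ 2 + D) := Real.sqrt_pos.mpr (by positivity)
  have hr2 : √(x ^ 2 + D) ^ 2 = x ^ 2 + D := Real.sq_sqrt (by positivity)
  have hs := nd_sqrt_deriv (x := x) hD
  have h1 := ((hasDerivAt_id x).const_mul 2).fun_mul hs
  have h2 := ((hasDerivAt_const x D).fun_div h1
    (by simp only [id]; positivity : (2 * id x * √(x ^ 2 + D)) ≠ 0)).arctan
  have h3 := (((hasDerivAt_pow 2 x).div_const 2).fun_mul h2).fun_add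
    ((ndh_deriv hD hx.le).const_mul (D / 2))
  refine h3.congr_deriv ?_
  obtain ⟨r, hrdef⟩ : ∃ r, r = √(x ^ 2 + D) := ⟨_, rfl⟩
  simp only [id, ← hrdef] at hr hr2 ⊢
  have h4 : (0 : ℝ) < 2 * x ^ 2 + D := by positivity
  have e1 : 1 / (1 + (D / (2 * x * r)) ^ 2) * ((0 * (2 * x * r) -
      D * (2 * 1 * r + 2 * x * (x / r))) / (2 * x * r) ^ 2) = -(2 * D / (r * (2 * x ^ 2 + D))) := by
    have e2 : 1 + (D / (2 * x * r)) ^ 2 = (2 * x ^ 2 + D) ^ 2 / (2 * x * r) ^ 2 := by
      field_simp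
      rw [hr2]
      ring
    have e3 : 0 * (2 * x * r) - D * (2 * 1 * r + 2 * x * (x / r)) =
        -(2 * D * (2 * x ^ 2 + D) / r) := by
      field_simp
      rw [hr2]
      ring
    rw [e2, e3]
    field_simp
  rw [e1]
  field_simp
  ring

theorem ndB_deriv {D x : ℝ} (hD : 0 < D) (hx : 0 < x) :
    HasDerivAt (ndB D) (D ^ 4 / (4 * x ^ 2 * (x ^ 2 + D ^ 2))) x := by
  have d1 : HasDerivAt (fun y : ℝ => y⁻¹) (-(x ^ 2)⁻¹) x := hasDerivAt_inv hx.ne'
  have d2 : HasDerivAt (fun y : ℝ => Real.arctan (y / D)) (1 / (1 + (x / D) ^ 2) * (1 / D)) x :=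
    ((hasDerivAt_id x).div_const D).arctan
  have d3 := (d1.fun_neg.fun_sub (d2.div_const D)).const_mul (D ^ 2 / 4)
  refine d3.congr_deriv ?_
  have h9 : (0 : ℝ) < x ^ 2 + D ^ 2 := by positivity
  have h10 : (0 : ℝ) < 1 + (x / D) ^ 2 := by positivity
  have e : 1 / (1 + (x / D) ^ 2) = D ^ 2 / (x ^ 2 + D ^ 2) := by
    rw [div_eq_div_iff h10.ne' h9.ne']
    field_simp
    ring
  rw [e]
  field_simp
  ring

theorem ndB_le {D y : ℝ} (hD : 0 < D) (hy : 0 < y) : ndB D y ≤ -(D * Real.pi / 8) := by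
  have h1 : Real.arctan (D / y) ≤ D / y := by
    have h2 : Real.arctan (D / y) < D / y := by
      have h3 : 0 < D / y := by positivity
      have h4 := Real.lt_tan (x := Real.arctan (D / y)) (by rw [← Real.arctan_zero]; exact Real.arctan_strictMono h3)
        (Real.arctan_lt_pi_div_two _)
      rwa [Real.tan_arctan] at h4
    exact h2.le
  have h5 : Real.arctan (D / y) = Real.pi / 2 - Real.arctan (y / D) := by
    have := Real.arctan_inv_of_pos (x := y / D) (by positivity)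
    rw [inv_div] at this
    exact this
  rw [h5] at h1
  unfold ndB
  have h6 : -y⁻¹ - Real.arctan (y / D) / D ≤ -(Real.pi / (2 * D)) := by
    have h7 : (Real.pi / 2 - Real.arctan (y / D)) / D ≤ y⁻¹ := by
      rw [div_le_iff₀ hD]
      calc _ ≤ D / y := h1
        _ = _ := by field_simp
    have e : (Real.pi / 2 - Real.arctan (y / D)) / D = Real.pi / (2 * D) -
      Real.arctan (y / D) / D := by
      field_simp
    rw [e] at h7
    linarith
  calc D ^ 2 / 4 * (-y⁻¹ - Real.arctan (y / D) / D) ≤ D ^ 2 / 4 * (-(Real.pi / (2 * D))) :=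
      mul_le_mul_of_nonneg_left h6 (by positivity)
    _ = _ := by field_simp; ring

/-- comparison of increments -/
theorem nd_comp {P A : ℝ → ℝ} {p a : ℝ → ℝ} (hP : ∀ x, 0 < x → HasDerivAt P (p x) x)
    (hA : ∀ x, 0 < x → HasDerivAt A (a x) x) (h : ∀ x, 0 < x → p x ≤ a x) {x y : ℝ}
    (hx : 0 < x) (hxy : x ≤ y) : P y - P x ≤ A y - A x := by
  have hd : ∀ z, 0 < z → HasDerivAt (fun z => P z - A z) (p z - a z) z := fun z hz =>
    (hP z hz).fun_sub (hA z hz)
  have hanti : AntitoneOn (fun z => P z - A z) (Set.Ioi 0) := by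
    refine antitoneOn_of_deriv_nonpos (convex_Ioi 0)
      (fun z hz => (hd z hz).continuousAt.continuousWithinAt)
      (fun z hz => (hd z (interior_subset hz)).differentiableAt.differentiableWithinAt) ?_
    intro z hz
    have hz' : 0 < z := interior_subset hz
    rw [(hd z hz').deriv]
    linarith [h z hz']
  have h1 := hanti (Set.mem_Ioi.2 hx) (Set.mem_Ioi.2 (hx.trans_le hxy)) hxy
  simp only at h1
  linarith

theorem ad_cont {d : ℕ} (hd : 0 < d) {x : ℝ} (hx : 0 < x) : ContinuousAt (fun x => x * ad d x) x := by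
  have hD : (0 : ℝ) < d := by exact_mod_cast hd
  have hr : 0 < √(x ^ 2 + d) := Real.sqrt_pos.mpr (by positivity)
  have c1 : ContinuousAt (fun x : ℝ => (d : ℝ) / (2 * x * √(x ^ 2 + d))) x :=
    ContinuousAt.div continuousAt_const (by fun_prop) (by positivity)
  have c2 : ContinuousAt (fun x : ℝ => (d : ℝ) ^ 4 / (4 * x ^ 3 * (x ^ 2 + d ^ 2))) x :=
    ContinuousAt.div continuousAt_const (by fun_prop) (by positivity)
  have c3 : ContinuousAt (fun x : ℝ => min ((d : ℝ) / (2 * x * √(x ^ 2 + d)))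
      ((d : ℝ) ^ 4 / (4 * x ^ 3 * (x ^ 2 + d ^ 2)))) x := Filter.Tendsto.min c1 c2
  exact continuousAt_id.mul (Real.continuous_arctan.continuousAt.comp c3)

theorem ad_prim0 {d : ℕ} (h3 : 3 ≤ d) : ∃ P : ℝ → ℝ,
    (∀ x, 0 < x → HasDerivAt P (x * ad d x) x) ∧
    (∀ x y, 0 < x → x ≤ y → P y - P x ≤ adE d) := by
  have hD : (0 : ℝ) < d := by exact_mod_cast (by omega : 0 < d)
  obtain ⟨D, hDd⟩ : ∃ D : ℝ, D = (d : ℝ) := ⟨_, rfl⟩
  rw [← hDd] at hD ⊢
  have hcont : ContinuousOn (fun x => x * ad d x) (Set.Ioi 0) := fun x hx =>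
    (ad_cont (by omega) hx).continuousWithinAt
  refine ⟨fun x => ∫ t in (1 : ℝ)..x, t * ad d t, ?_, ?_⟩
  · intro x hx
    have hsub : Set.uIcc 1 x ⊆ Set.Ioi (0 : ℝ) := by
      intro t ht
      have : min 1 x ≤ t := ht.1
      exact (lt_min one_pos hx).trans_le this
    refine intervalIntegral.integral_hasDerivAt_right ?_ ?_ (ad_cont (by omega) hx)
    · exact (hcont.mono hsub).intervalIntegrable
    · exact hcont.stronglyMeasurableAtFilter isOpen_Ioi x hx
  · obtain ⟨P, hP⟩ : ∃ P : ℝ → ℝ, P = fun x => ∫ t in (1 : ℝ)..x, t * ad d t := ⟨_, rfl⟩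
    have hPd : ∀ x, 0 < x → HasDerivAt P (x * ad d x) x := by
      intro x hx
      rw [hP]
      have hsub : Set.uIcc 1 x ⊆ Set.Ioi (0 : ℝ) := by
        intro t ht
        have : min 1 x ≤ t := ht.1
        exact (lt_min one_pos hx).trans_le this
      refine intervalIntegral.integral_hasDerivAt_right ?_ ?_ (ad_cont (by omega) hx)
      · exact (hcont.mono hsub).intervalIntegrable
      · exact hcont.stronglyMeasurableAtFilter isOpen_Ioi x hx
    intro x y hx hxy
    have e0 : (∫ t in (1 : ℝ)..y, t * ad d t) - ∫ t in (1 : ℝ)..x, t * ad d t = P y - P x := by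
      rw [hP]
    show (∫ t in (1 : ℝ)..y, t * ad d t) - ∫ t in (1 : ℝ)..x, t * ad d t ≤ adE D
    rw [e0]
    -- the two comparisons
    have cA : ∀ {u v : ℝ}, 0 < u → u ≤ v → P v - P u ≤ ndA D v - ndA D u := by
      intro u v hu huv
      refine nd_comp hPd (fun z hz => ndA_deriv hD hz) ?_ hu huv
      intro z hz
      apply mul_le_mul_of_nonneg_left _ hz.le
      unfold ad
      rw [← hDd]
      exact Real.arctan_strictMono.monotone (min_le_left _ _)
    have cB : ∀ {u v : ℝ}, 0 < u → u ≤ v → P v - P u ≤ ndB D v - ndB D u := by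
      intro u v hu huv
      refine nd_comp hPd (fun z hz => ndB_deriv hD hz) ?_ hu huv
      intro z hz
      unfold ad
      rw [← hDd]
      have h1 : Real.arctan (min (D / (2 * z * √(z ^ 2 + D)))
          (D ^ 4 / (4 * z ^ 3 * (z ^ 2 + D ^ 2)))) ≤ D ^ 4 / (4 * z ^ 3 * (z ^ 2 + D ^ 2)) := by
        have h0 : 0 < D ^ 4 / (4 * z ^ 3 * (z ^ 2 + D ^ 2)) := by positivity
        have h2 := Real.lt_tan (x := Real.arctan (D ^ 4 / (4 * z ^ 3 * (z ^ 2 + D ^ 2))))
          (by rw [← Real.arctan_zero]; exact Real.arctan_strictMono h0)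
          (Real.arctan_lt_pi_div_two _)
        rw [Real.tan_arctan] at h2
        exact (Real.arctan_strictMono.monotone (min_le_right _ _)).trans h2.le
      calc z * _ ≤ z * (D ^ 4 / (4 * z ^ 3 * (z ^ 2 + D ^ 2))) :=
          mul_le_mul_of_nonneg_left h1 hz.le
        _ = _ := by field_simp
    -- monotonicity of the comparison functions
    have mA : ∀ {u v : ℝ}, 0 < u → u ≤ v → ndA D u ≤ ndA D v := by
      intro u v hu huv
      have := nd_comp (P := fun _ => (0 : ℝ)) (p := fun _ => (0 : ℝ))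
        (fun z _ => hasDerivAt_const z 0) (fun z hz => ndA_deriv hD hz) (fun z hz => by
          have : 0 ≤ Real.arctan (D / (2 * z * √(z ^ 2 + D))) := by
            rw [← Real.arctan_zero]
            exact Real.arctan_strictMono.monotone (by positivity)
          positivity) hu huv
      linarith
    have mB : ∀ {u v : ℝ}, 0 < u → u ≤ v → ndB D u ≤ ndB D v := by
      intro u v hu huv
      have := nd_comp (P := fun _ => (0 : ℝ)) (p := fun _ => (0 : ℝ))
        (fun z _ => hasDerivAt_const z 0) (fun z hz => ndB_deriv hD hz) (fun z hz => by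
          positivity) hu huv
      linarith
    have lA : ∀ {u : ℝ}, 0 < u → D / 4 * Real.log D ≤ ndA D u := by
      intro u hu
      have h1 := ndh_ge hD hu.le
      have h2 : 0 ≤ Real.arctan (D / (2 * u * √(u ^ 2 + D))) := by
        rw [← Real.arctan_zero]
        exact Real.arctan_strictMono.monotone (by positivity)
      unfold ndA
      have h3 : 0 ≤ u ^ 2 / 2 * Real.arctan (D / (2 * u * √(u ^ 2 + D))) := by positivity
      have h4 := mul_le_mul_of_nonneg_left h1 (by positivity : 0 ≤ D / 2)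
      linarith
    have hc : 0 < D / 2 := by positivity
    have eA : ndA D (D / 2) = D ^ 2 / 8 * Real.arctan (1 / √(D ^ 2 / 4 + D)) +
        D / 2 * Real.log (D / 2 + √(D ^ 2 / 4 + D)) -
        D / 2 * Real.arctan (D / 2 / √(D ^ 2 / 4 + D)) := by
      unfold ndA ndh
      have e1 : (D / 2) ^ 2 + D = D ^ 2 / 4 + D := by ring
      have hr : 0 < √(D ^ 2 / 4 + D) := Real.sqrt_pos.mpr (by positivity)
      have e2 : D / (2 * (D / 2) * √(D ^ 2 / 4 + D)) = 1 / √(D ^ 2 / 4 + D) := by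
        field_simp
      rw [e1, e2]
      ring
    have eB : ndB D (D / 2) = -(D / 4 * (2 + Real.arctan (1 / 2))) := by
      unfold ndB
      have e1 : D / 2 / D = 1 / 2 := by field_simp
      rw [e1, inv_div]
      field_simp
      ring
    have eE : adE D = (ndA D (D / 2) - D / 4 * Real.log D) +
        (-(D * Real.pi / 8) - ndB D (D / 2)) := by
      rw [eA, eB]
      unfold adE
      ring
    have pA := lA hc
    have pB := ndB_le hD hc
    rw [eE]
    rcases le_total y (D / 2) with hy | hy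
    · have h1 := cA hx hxy
      have h2 := mA (hx.trans_le hxy) hy
      have h3 := lA hx
      linarith
    · rcases le_total x (D / 2) with hx2 | hx2
      · have h1 := cA hx hx2
        have h2 := cB hc hy
        have h3 := lA hx
        have h4 := ndB_le hD (hx.trans_le hxy)
        linarith
      · have h1 := cB hx hxy
        have h2 := mB hc hx2
        have h4 := ndB_le hD (hx.trans_le hxy)
        linarith

/-! numerical half -/

theorem nd_arctan_le {t : ℝ} (ht : 0 ≤ t) : Real.arctan t ≤ t := by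
  rcases ht.eq_or_lt with rfl | h0
  · simp
  have h2 := Real.lt_tan (x := Real.arctan t)
    (by rw [← Real.arctan_zero]; exact Real.arctan_strictMono h0) (Real.arctan_lt_pi_div_two _)
  rw [Real.tan_arctan] at h2
  exact h2.le

theorem nd_arctan_ge {r : ℝ} (h0 : 0 ≤ r) (h1 : r ≤ 1) :
    Real.pi / 4 - (1 - r) / (1 + r) ≤ Real.arctan r := by
  have hp : (0 : ℝ) < 1 + r := by linarith
  have hy : 0 ≤ (1 - r) / (1 + r) := div_nonneg (by linarith) hp.le
  have h2 : r * ((1 - r) / (1 + r)) < 1 := by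
    rw [mul_div_assoc', div_lt_one hp]
    nlinarith
  have h3 := Real.arctan_add h2
  have h4 : (r + (1 - r) / (1 + r)) / (1 - r * ((1 - r) / (1 + r))) = 1 := by
    have h5 : 1 - r * ((1 - r) / (1 + r)) ≠ 0 := by linarith
    rw [div_eq_one_iff_eq h5]
    field_simp
    ring
  rw [h4, Real.arctan_one] at h3
  have h6 := nd_arctan_le hy
  linarith

theorem adE_red {D : ℝ} (hD : 3 ≤ D) :
    adE D ≤ D / 2 * (179 / 100 + Real.log (D + 2) / 2 - Real.pi / 2) := by
  have hD0 : 0 < D := by linarith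
  obtain ⟨r, hr⟩ : ∃ r, r = √(D ^ 2 / 4 + D) := ⟨_, rfl⟩
  have hr0 : 0 < r := by rw [hr]; exact Real.sqrt_pos.2 (by positivity)
  have hr2 : r ^ 2 = D ^ 2 / 4 + D := by rw [hr]; exact Real.sq_sqrt (by positivity)
  obtain ⟨q, hq⟩ : ∃ q, q = D / 2 / r := ⟨_, rfl⟩
  have hqr : q * r = D / 2 := by rw [hq]; field_simp
  have hq0 : 0 < q := by rw [hq]; positivity
  have hq1 : q ≤ 1 := by
    rw [hq, div_le_one hr0]
    nlinarith
  have hq65 : 0.65 ≤ q := by
    rw [hq, le_div_iff₀ hr0]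
    nlinarith
  have a1 : D ^ 2 / 8 * Real.arctan (1 / r) ≤ D / 4 * q := by
    have h1 := nd_arctan_le (t := 1 / r) (by positivity)
    calc D ^ 2 / 8 * Real.arctan (1 / r) ≤ D ^ 2 / 8 * (1 / r) :=
        mul_le_mul_of_nonneg_left h1 (by positivity)
      _ = D / 4 * q := by
        rw [hq]
        field_simp
        ring
  have a2 : Real.log (D / 2 + r) ≤ (Real.log D + Real.log (D + 2)) / 2 := by
    have hle : (D / 2 + r) ^ 2 ≤ D * (D + 2) := by
      have : r ≤ D / 2 + 1 := by nlinarith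
      nlinarith
    have h1 : Real.log ((D / 2 + r) ^ 2) ≤ Real.log (D * (D + 2)) :=
      Real.log_le_log (by positivity) hle
    rw [Real.log_pow, Real.log_mul hD0.ne' (by linarith)] at h1
    push_cast at h1
    linarith
  have a3 := nd_arctan_ge hq0.le hq1
  have a4 : Real.arctan (1 / 2) ≤ 1 / 2 := nd_arctan_le (by norm_num)
  have a5 : q / 2 + (1 - q) / (1 + q) ≤ 0.54 := by
    have hp : (0 : ℝ) < 1 + q := by linarith
    rw [← sub_nonneg]
    have : 0.54 - (q / 2 + (1 - q) / (1 + q)) =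
        (0.54 * (1 + q) - q / 2 * (1 + q) - (1 - q)) / (1 + q) := by
      field_simp
      ring
    rw [this]
    apply div_nonneg _ hp.le
    nlinarith [mul_nonneg (sub_nonneg.2 hq65) (sub_nonneg.2 hq1)]
  unfold adE
  rw [← hr, ← hq]
  have b2 := mul_le_mul_of_nonneg_left a2 (by positivity : 0 ≤ D / 2)
  have b3 := mul_le_mul_of_nonneg_left a3 (by positivity : 0 ≤ D / 2)
  have b4 := mul_le_mul_of_nonneg_left a4 (by positivity : 0 ≤ D / 4)
  have b5 := mul_le_mul_of_nonneg_left a5 (by positivity : 0 ≤ D / 2)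
  nlinarith [a1, b2, b3, b4, b5]

theorem num_ok {d : ℕ} (h3 : 3 ≤ d) (h300 : d ≤ 300) :
    179 / 100 + Real.log ((d : ℝ) + 2) / 2 < Real.pi * (3 / 2 - 2 / (d : ℝ)) := by
  have hpi := Real.pi_gt_d4
  have hl2 := Real.log_two_lt_d9
  have key : ∀ (a b : ℕ) (c : ℝ), 3 ≤ a → a ≤ d → d ≤ b → Real.log ((b : ℝ) + 2) ≤ c →
      179 / 100 + c / 2 < 3.1415 * (3 / 2 - 2 / (a : ℝ)) →
      179 / 100 + Real.log ((d : ℝ) + 2) / 2 < Real.pi * (3 / 2 - 2 / (d : ℝ)) := by
    intro a b c ha had hdb hc hlt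
    have ha' : (3 : ℝ) ≤ a := by exact_mod_cast ha
    have had' : (a : ℝ) ≤ d := by exact_mod_cast had
    have hdb' : (d : ℝ) ≤ b := by exact_mod_cast hdb
    have h1 : Real.log ((d : ℝ) + 2) ≤ Real.log ((b : ℝ) + 2) :=
      Real.log_le_log (by positivity) (by linarith)
    have h2 : 2 / (d : ℝ) ≤ 2 / (a : ℝ) :=
      div_le_div_of_nonneg_left (by norm_num) (by linarith) had'
    have h3 : 2 / (a : ℝ) ≤ 2 / 3 := div_le_div_of_nonneg_left (by norm_num) (by norm_num) ha'
    have h4 : 3.1415 * (3 / 2 - 2 / (a : ℝ)) ≤ Real.pi * (3 / 2 - 2 / (d : ℝ)) := by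
      apply mul_le_mul hpi.le (by linarith) (by linarith) Real.pi_pos.le
    linarith
  have lpow : ∀ n : ℕ, Real.log ((2 : ℝ) ^ n) = n * Real.log 2 := fun n => Real.log_pow 2 n
  rcases Nat.lt_or_ge d 4 with h | h
  · refine key 3 3 1.6363 (by norm_num) h3 (by omega) ?_ (by norm_num)
    have e : ((3 : ℕ) : ℝ) + 2 = 2 ^ 2 * (5 / 4) := by norm_num
    rw [e, Real.log_mul (by norm_num) (by norm_num), lpow]
    have h5 := Real.log_le_sub_one_of_pos (show (0 : ℝ) < 5 / 4 by norm_num)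
    push_cast
    linarith
  rcases Nat.lt_or_ge d 7 with h7 | h7
  · refine key 4 6 2.08 (by norm_num) h (by omega) ?_ (by norm_num)
    have e : ((6 : ℕ) : ℝ) + 2 = 2 ^ 3 := by norm_num
    rw [e, lpow]
    push_cast
    linarith
  rcases Nat.lt_or_ge d 15 with h15 | h15
  · refine key 7 14 2.78 (by norm_num) h7 (by omega) ?_ (by norm_num)
    have e : ((14 : ℕ) : ℝ) + 2 = 2 ^ 4 := by norm_num
    rw [e, lpow]
    push_cast
    linarith
  rcases Nat.lt_or_ge d 63 with h63 | h63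
  · refine key 15 62 4.16 (by norm_num) h15 (by omega) ?_ (by norm_num)
    have e : ((62 : ℕ) : ℝ) + 2 = 2 ^ 6 := by norm_num
    rw [e, lpow]
    push_cast
    linarith
  rcases Nat.lt_or_ge d 255 with h255 | h255
  · refine key 63 254 5.546 (by norm_num) h63 (by omega) ?_ (by norm_num)
    have e : ((254 : ℕ) : ℝ) + 2 = 2 ^ 8 := by norm_num
    rw [e, lpow]
    push_cast
    linarith
  · refine key 255 300 5.7254 (by norm_num) h255 h300 ?_ (by norm_num)
    have e : ((300 : ℕ) : ℝ) + 2 = 2 ^ 8 * (302 / 256) := by norm_num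
    rw [e, Real.log_mul (by norm_num) (by norm_num), lpow]
    have h5 := Real.log_le_sub_one_of_pos (show (0 : ℝ) < 302 / 256 by norm_num)
    push_cast
    linarith

theorem adE_lt {d : ℕ} (h3 : 3 ≤ d) (h300 : d ≤ 300) : adE d < Real.pi / 2 * (d - 2) := by
  have hd : (3 : ℝ) ≤ d := by exact_mod_cast h3
  have hd0 : (0 : ℝ) < d := by linarith
  have h1 := adE_red hd
  have h2 := num_ok h3 h300
  refine h1.trans_lt ?_
  calc (d : ℝ) / 2 * (179 / 100 + Real.log ((d : ℝ) + 2) / 2 - Real.pi / 2)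
      < (d : ℝ) / 2 * (Real.pi * (3 / 2 - 2 / (d : ℝ)) - Real.pi / 2) :=
        mul_lt_mul_of_pos_left (by linarith) (by positivity)
    _ = _ := by
        field_simp
        ring

theorem ad_prim {d : ℕ} (h3 : 3 ≤ d) (h300 : d ≤ 300) : ∃ (P : ℝ → ℝ) (S : ℝ),
    (∀ x, 0 < x → HasDerivAt P (x * ad d x) x) ∧
    (∀ x y, 0 < x → x ≤ y → P y - P x ≤ S) ∧ S < Real.pi / 2 * (d - 2) := by
  obtain ⟨P, h1, h2⟩ := ad_prim0 h3
  exact ⟨P, adE d, h1, h2, adE_lt h3 h300⟩

end Pool.Agent.MP3b2d6a
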