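import Pool.Agent.Lib.MP_3b2d6a_co.SCD

set_option autoImplicit false
set_option linter.unusedSectionVars false

open Finset Filter Topology Matrix

namespace Pool.Agent.MP3b2d6a

/-! row N, second half -/

theorem nd_deriv (L : Multiset ℕ) (P : ℕ → ℝ → ℝ) (p : ℕ → ℝ) (x : ℝ)
    (h : ∀ d ∈ L, HasDerivAt (P d) (p d) x) :
    HasDerivAt (fun y => (L.map (fun d => P d y)).sum) (L.map p).sum x := by
  induction L using Multiset.induction_on with
  | empty => simpa using hasDerivAt_const x (0 : ℝ)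
  | cons a L ih =>
    simp only [Multiset.map_cons, Multiset.sum_cons]
    exact (h a (Multiset.mem_cons_self a L)).fun_add
      (ih fun d hd => h d (Multiset.mem_cons_of_mem hd))

theorem nd_diff (L : Multiset ℕ) (P : ℕ → ℝ → ℝ) (S : ℕ → ℝ) (x y : ℝ)
    (h : ∀ d ∈ L, P d y - P d x ≤ S d) :
    (L.map (fun d => P d y)).sum - (L.map (fun d => P d x)).sum ≤ (L.map S).sum := by
  induction L using Multiset.induction_on with
  | empty => simp
  | cons a L ih =>
    simp only [Multiset.map_cons, Multiset.sum_cons]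
    have h1 := h a (Multiset.mem_cons_self a L)
    have h2 := ih fun d hd => h d (Multiset.mem_cons_of_mem hd)
    linarith

theorem nd_sum (L : Multiset ℕ) (S S' : ℕ → ℝ) (h : ∀ d ∈ L, S d < S' d) :
    (L.map S).sum ≤ (L.map S').sum ∧ (L ≠ 0 → (L.map S).sum < (L.map S').sum) := by
  induction L using Multiset.induction_on with
  | empty => simp
  | cons a L ih =>
    simp only [Multiset.map_cons, Multiset.sum_cons]
    have h1 := h a (Multiset.mem_cons_self a L)
    have h2 := (ih fun d hd => h d (Multiset.mem_cons_of_mem hd)).1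
    exact ⟨by linarith, fun _ => by linarith⟩

theorem nd_mul (L : Multiset ℕ) (p : ℕ → ℝ) (x : ℝ) :
    (L.map (fun d => x * p d)).sum = x * (L.map p).sum := by
  induction L using Multiset.induction_on with
  | empty => simp
  | cons a L ih =>
    simp only [Multiset.map_cons, Multiset.sum_cons]
    rw [ih]
    ring

variable {V : Type*} [Fintype V] [DecidableEq V]

/-- The lower bound for `∑ λ |λ|` from `T ≤ k tau + ∑ a_d`. -/
theorem sum_ge_ad {M : Matrix V V ℝ} (hM : M.IsHermitian) (htr : ∑ i, hM.eigenvalues i = 0)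
    {k : ℝ} (_hk : 0 ≤ k) (L : Multiset ℕ) (hL : ∀ d ∈ L, 3 ≤ d)
    (h : ∀ x, 0 < x → TT M x ≤ k * tau x + (L.map (fun d => aE d x)).sum) :
    -(2 * (√5 - 2) * k + (L.map (fun d : ℕ => 2 * ((d : ℝ) - 2))).sum) ≤
        ∑ i, hM.eigenvalues i * |hM.eigenvalues i| ∧
      (L ≠ 0 → -(2 * (√5 - 2) * k + (L.map (fun d : ℕ => 2 * ((d : ℝ) - 2))).sum) <
        ∑ i, hM.eigenvalues i * |hM.eigenvalues i|) := by
  have hs := sqrt5_gt
  have hpi := Real.pi_pos
  -- the primitives
  have hch : ∀ d : ℕ, ∃ (P : ℝ → ℝ) (S : ℝ), 3 ≤ d →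
      (∀ x, 0 < x → HasDerivAt P (x * aE d x) x) ∧
      (∀ x y, 0 < x → x ≤ y → P y - P x ≤ S) ∧ S < Real.pi / 2 * (d - 2) := by
    intro d
    by_cases hd : 3 ≤ d
    · obtain ⟨P, S, h1⟩ := aE_prim hd
      exact ⟨P, S, fun _ => h1⟩
    · exact ⟨fun _ => 0, 0, fun h' => absurd h' hd⟩
  choose Q S hQ using hch
  obtain ⟨P, hP⟩ : ∃ P : ℝ → ℝ, P = fun x => Fi 2 x + 2 * Fi ((√5 - 1) / 2) x +
    2 * Fi (-(√5 + 1) / 2) x := ⟨_, rfl⟩
  have hPd : ∀ x, 0 < x → HasDerivAt P (x * tau x) x := fun x hx => by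
    rw [hP]
    exact tau_prim hx
  have hP0 : Tendsto P (𝓝[>] 0) (𝓝 (Real.pi / 4 * (4 - 2 * √5))) := by
    have h1 := ((Fi_zero 2).add ((Fi_zero ((√5 - 1) / 2)).const_mul 2)).add
      ((Fi_zero (-(√5 + 1) / 2)).const_mul 2)
    rw [hP]
    have e1 : |(2 : ℝ)| = 2 := abs_of_pos (by norm_num)
    have e2 : |(√5 - 1) / 2| = (√5 - 1) / 2 := abs_of_pos (by linarith)
    have e3 : |-(√5 + 1) / 2| = (√5 + 1) / 2 := by
      rw [abs_of_neg (by linarith)]
      ring
    rw [e1, e2, e3] at h1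
    have e4 : Real.pi / 4 * (4 - 2 * √5) = Real.pi / 4 * (2 * 2) +
        2 * (Real.pi / 4 * ((√5 - 1) / 2 * ((√5 - 1) / 2))) +
        2 * (Real.pi / 4 * (-(√5 + 1) / 2 * ((√5 + 1) / 2))) := by
      ring
    rw [e4]
    exact h1
  have hPi : Tendsto P atTop (𝓝 0) := by
    have h1 := ((Fi_atTop 2).add ((Fi_atTop ((√5 - 1) / 2)).const_mul 2)).add
      ((Fi_atTop (-(√5 + 1) / 2)).const_mul 2)
    rw [mul_zero, add_zero, add_zero] at h1
    rw [hP]
    refine h1.congr fun x => ?_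
    ring
  obtain ⟨T, hT⟩ : ∃ T : ℝ, T = (L.map S).sum := ⟨_, rfl⟩
  obtain ⟨Z, hZ⟩ : ∃ Z : ℝ, Z = ∑ i, hM.eigenvalues i * |hM.eigenvalues i| := ⟨_, rfl⟩
  -- one increment
  have hinc : ∀ x y, 0 < x → x ≤ y → Hs M y - Hs M x ≤ k * (P y - P x) + T := by
    intro x y hx hxy
    have hd : ∀ z ∈ Set.Icc x y, HasDerivAt (fun z => Hs M z - (k * P z +
        (L.map (fun d => Q d z)).sum)) (z * TT M z - (k * (z * tau z) +
        (L.map (fun d => z * aE d z)).sum)) z := by
      intro z hz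
      have hz0 : 0 < z := hx.trans_le hz.1
      exact (Hs_deriv hM hz0).fun_sub (((hPd z hz0).const_mul k).fun_add
        (nd_deriv L Q (fun d => z * aE d z) z fun d hd => (hQ d (hL d hd)).1 z hz0))
    have hanti : AntitoneOn (fun z => Hs M z - (k * P z + (L.map (fun d => Q d z)).sum))
        (Set.Icc x y) := by
      refine antitoneOn_of_deriv_nonpos (convex_Icc x y)
        (fun z hz => (hd z hz).continuousAt.continuousWithinAt)
        (fun z hz => (hd z (interior_subset hz)).differentiableAt.differentiableWithinAt) ?_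
      intro z hz
      have hz' := interior_subset hz
      have hz0 : 0 < z := hx.trans_le hz'.1
      rw [(hd z hz').deriv, nd_mul]
      have := mul_le_mul_of_nonneg_left (h z hz0) hz0.le
      linarith
    have h1 := hanti ⟨le_refl x, hxy⟩ ⟨hxy, le_refl y⟩ hxy
    simp only at h1
    have h2 := nd_diff L Q S x y fun d hd => (hQ d (hL d hd)).2.1 x y hx hxy
    rw [← hT] at h2
    linarith
  -- the limit at infinity
  have hinf : ∀ x, 0 < x → 0 - Hs M x ≤ k * (0 - P x) + T := by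
    intro x hx
    have l1 : Tendsto (fun y => Hs M y - Hs M x) atTop (𝓝 (0 - Hs M x)) :=
      (Hs_atTop hM htr).sub tendsto_const_nhds
    have l2 : Tendsto (fun y => k * (P y - P x) + T) atTop (𝓝 (k * (0 - P x) + T)) :=
      ((hPi.sub tendsto_const_nhds).const_mul k).add tendsto_const_nhds
    refine le_of_tendsto_of_tendsto l1 l2 ?_
    filter_upwards [eventually_ge_atTop x] with y hy
    exact hinc x y hx hy
  have hzero : 0 - Real.pi / 4 * Z ≤ k * (0 - Real.pi / 4 * (4 - 2 * √5)) + T := by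
    have hz := Hs_zero hM
    rw [← hZ] at hz
    have l1 : Tendsto (fun x => 0 - Hs M x) (𝓝[>] 0) (𝓝 (0 - Real.pi / 4 * Z)) :=
      tendsto_const_nhds.sub hz
    have l2 : Tendsto (fun x => k * (0 - P x) + T) (𝓝[>] 0)
        (𝓝 (k * (0 - Real.pi / 4 * (4 - 2 * √5)) + T)) :=
      ((tendsto_const_nhds.sub hP0).const_mul k).add tendsto_const_nhds
    refine le_of_tendsto_of_tendsto l1 l2 ?_
    filter_upwards [self_mem_nhdsWithin] with x hx
    exact hinf x hx
  have hlt := nd_sum L S (fun d => Real.pi / 2 * ((d : ℝ) - 2)) fun d hd => (hQ d (hL d hd)).2.2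
  rw [nd_mul, ← hT] at hlt
  have hm : (L.map (fun d : ℕ => 2 * ((d : ℝ) - 2))).sum =
      2 * (L.map (fun d : ℕ => (d : ℝ) - 2)).sum := nd_mul L (fun d : ℕ => (d : ℝ) - 2) 2
  obtain ⟨W, hW⟩ : ∃ W : ℝ, W = (L.map (fun d : ℕ => (d : ℝ) - 2)).sum := ⟨_, rfl⟩
  rw [← hW] at hm
  rw [← hW] at hlt
  rw [hm, ← hZ]
  constructor
  · have h1 := hlt.1
    have h9 : Real.pi / 4 * -(2 * (√5 - 2) * k + 2 * W) ≤ Real.pi / 4 * Z := by linarith
    exact le_of_mul_le_mul_left h9 (by positivity)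
  · intro hne
    have h1 := hlt.2 hne
    have h9 : Real.pi / 4 * -(2 * (√5 - 2) * k + 2 * W) < Real.pi / 4 * Z := by linarith
    exact lt_of_mul_lt_mul_left h9 (by positivity)

end Pool.Agent.MP3b2d6a
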