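import Pool.Agent.Lib.MP_3b2d6a_co.Glue

/-! Two-colourable vertex sets. -/

set_option autoImplicit false
set_option linter.unusedSectionVars false

open Finset Filter Topology Matrix

namespace Pool.Agent.MP3b2d6a

variable {V : Type*} [Fintype V] [DecidableEq V]

/-- The graph induced on `W` is bipartite. -/
def Col (G : SimpleGraph V) (W : Set V) : Prop :=
  ∃ c : V → Bool, ∀ u ∈ W, ∀ v ∈ W, G.Adj u v → c u ≠ c v

theorem Ph.conj {z : ℂ} {θ : ℝ} (h : Ph z θ) : Ph ((starRingEnd ℂ) z) (-θ) := by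
  obtain ⟨r, hr, rfl⟩ := h
  refine ⟨r, hr, ?_⟩
  rw [map_mul, Complex.conj_ofReal, ← Complex.exp_conj, map_mul, Complex.conj_ofReal,
    Complex.conj_I]
  push_cast
  rw [mul_neg, neg_mul]

theorem TT_eq_zero {M : Matrix V V ℝ} (hM : M.IsHermitian) {s : V → ℝ} (hs : ∀ i, s i * s i = 1)
    (h : ∀ i j, s i * M i j * s j = -M i j) {x : ℝ} (hx : 0 < x) : TT M x = 0 := by
  have hF := lift_zero (F := fun x => TT M x + TT M x) ?_ ?_ ?_ hx
  · linarith
  · exact (TT_continuousOn _).add (TT_continuousOn _)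
  · have := (TT_tendsto M).add (TT_tendsto M)
    simpa using this
  · intro x hx
    have h1 := ph_NN hM hx
    have hD : (diagonal (fun i => (s i : ℂ)) : Matrix V V ℂ) * diagonal (fun i => (s i : ℂ)) = 1 := by
      rw [Matrix.diagonal_mul_diagonal, ← Matrix.diagonal_one]
      congr 1
      ext i
      exact_mod_cast hs i
    have h2 : (starRingEnd ℂ) (NN M x).det = (NN M x).det := by
      rw [RingHom.map_det]
      have h3 : (starRingEnd ℂ).mapMatrix (NN M x) = diagonal (fun i => (s i : ℂ)) * NN M x *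
          diagonal (fun i => (s i : ℂ)) := by
        ext i j
        rw [Matrix.mul_diagonal, Matrix.diagonal_mul, RingHom.mapMatrix_apply, Matrix.map_apply]
        unfold NN cm
        rw [Matrix.add_apply, Matrix.smul_apply, Matrix.smul_apply, Matrix.map_apply, map_add,
          smul_eq_mul, smul_eq_mul, map_mul, map_mul, Complex.conj_I, Complex.conj_ofReal]
        change _ + _ * (starRingEnd ℂ) ((M i j : ℝ) : ℂ) = _ * (_ + _ * ((M i j : ℝ) : ℂ)) * _
        rw [Complex.conj_ofReal]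
        have h4 : (s i : ℂ) * (M i j : ℂ) * (s j : ℂ) = -(M i j : ℂ) := by
          have := h i j
          exact_mod_cast this
        by_cases hij : i = j
        · subst hij
          rw [Matrix.one_apply_eq, map_one]
          have h5 : (s i : ℂ) * (s i : ℂ) = 1 := by exact_mod_cast hs i
          linear_combination (-(x : ℂ)) * h5 + (-Complex.I) * h4
        · rw [Matrix.one_apply_ne hij, map_zero]
          linear_combination (-Complex.I) * h4
      rw [h3, Matrix.det_mul, Matrix.det_mul]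
      have h5 : (diagonal (fun i => (s i : ℂ)) : Matrix V V ℂ).det *
          (diagonal (fun i => (s i : ℂ)) : Matrix V V ℂ).det = 1 := by
        rw [← Matrix.det_mul, hD, Matrix.det_one]
      linear_combination (NN M x).det * h5
    have h6 := h1.conj
    rw [h2] at h6
    obtain ⟨n, hn⟩ := h1.diff h6
    exact ⟨n, by rw [← hn]; ring⟩

variable {G : SimpleGraph V}

theorem Col.mono {W W' : Set V} (h : Col G W) (hW : W' ⊆ W) : Col G W' := by
  obtain ⟨c, hc⟩ := h
  exact ⟨c, fun u hu v hv => hc u (hW hu) v (hW hv)⟩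

theorem Col.T_eq_zero {W : Set V} (h : Col G W) {x : ℝ} (hx : 0 < x) : T G W x = 0 := by
  obtain ⟨c, hc⟩ := h
  refine TT_eq_zero (AW_herm G W) (s := fun v => if c v then 1 else -1) ?_ ?_ hx
  · intro i
    split_ifs <;> norm_num
  · intro u v
    unfold AW
    by_cases h1 : u ∈ W ∧ v ∈ W ∧ G.Adj u v
    · rw [if_pos h1]
      have h2 := hc u h1.1 v h1.2.1 h1.2.2
      cases hu : c u <;> cases hv : c v <;> simp_all
    · rw [if_neg h1]
      simp

theorem Col.union {W₁ W₂ : Set V} {r : V} (h : Cut G W₁ W₂ r) (h1 : Col G W₁) (h2 : Col G W₂) :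
    Col G (W₁ ∪ W₂) := by
  classical
  obtain ⟨c₁, hc₁⟩ := h1
  obtain ⟨c₂, hc₂⟩ := h2
  obtain ⟨b, hb⟩ : ∃ b, b = (c₁ r ^^ c₂ r) := ⟨_, rfl⟩
  have hr : (c₂ r ^^ b) = c₁ r := by
    rw [hb]
    cases c₁ r <;> cases c₂ r <;> rfl
  obtain ⟨c, hc⟩ : ∃ c : V → Bool, c = fun v => if v ∈ W₁ then c₁ v else (c₂ v ^^ b) := ⟨_, rfl⟩
  have e1 : ∀ v ∈ W₁, c v = c₁ v := fun v hv => by rw [hc]; exact if_pos hv
  have e2 : ∀ v ∈ W₂, c v = (c₂ v ^^ b) := fun v hv => by
    by_cases hv1 : v ∈ W₁
    · have := h.inter v hv1 hv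
      subst this
      rw [e1 _ hv1, hr]
    · rw [hc]
      exact if_neg hv1
  refine ⟨c, fun u hu v hv ha => ?_⟩
  have key1 : u ∈ W₁ → v ∈ W₁ → c u ≠ c v := fun h3 h4 => by
    rw [e1 u h3, e1 v h4]
    exact hc₁ u h3 v h4 ha
  have key2 : u ∈ W₂ → v ∈ W₂ → c u ≠ c v := fun h3 h4 => by
    rw [e2 u h3, e2 v h4]
    have h5 := hc₂ u h3 v h4 ha
    intro h6
    refine h5 ?_
    generalize c₂ u = p at h6 ⊢
    generalize c₂ v = q at h6 ⊢
    clear * - h6
    revert h6
    revert p q b
    decide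
  by_cases hur : u = r
  · subst hur
    rcases hv with hv | hv
    · exact key1 h.mem₁ hv
    · exact key2 h.mem₂ hv
  · by_cases hvr : v = r
    · subst hvr
      rcases hu with hu | hu
      · exact key1 hu h.mem₁
      · exact key2 hu h.mem₂
    · rcases hu with hu | hu <;> rcases hv with hv | hv
      · exact key1 hu hv
      · exact absurd ha (h.adj u hu v hv hur hvr)
      · exact absurd ha.symm (h.adj v hv u hu hvr hur)
      · exact key2 hu hv

end Pool.Agent.MP3b2d6a
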