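import Pool.Agent.Lib.MP_3b2d6a_co.Int

/-! Conversions: edges, induced subgraphs, cycles. -/

set_option autoImplicit false
set_option linter.unusedSectionVars false

open Finset Filter Topology Matrix

namespace Pool.Agent.MP3b2d6a

theorem adj_herm {U : Type*} (H : SimpleGraph U) [DecidableRel H.Adj] :
    (H.adjMatrix ℝ).IsHermitian := by
  rw [Matrix.IsHermitian, Matrix.conjTranspose_eq_transpose_of_trivial]
  exact H.isSymm_adjMatrix

/-- The number of positive eigenvalues of a finite graph. -/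
noncomputable def numPos {U : Type*} [Finite U] (H : SimpleGraph U) : ℕ :=
  letI := Fintype.ofFinite U
  letI := Classical.decEq U
  letI := Classical.decRel H.Adj
  (Finset.univ.filter fun i => 0 < (adj_herm H).eigenvalues i).card

section

open Classical in
theorem sum_adj {U : Type*} [Fintype U] (H : SimpleGraph U) :
    ∑ u, ∑ v, (if H.Adj u v then (1 : ℝ) else 0) = 2 * (Nat.card H.edgeSet : ℝ) := by
  have h1 : ∀ u, ∑ v, (if H.Adj u v then (1 : ℝ) else 0) = (H.degree u : ℝ) := by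
    intro u
    rw [Finset.sum_ite, Finset.sum_const_zero, add_zero, Finset.sum_const, nsmul_eq_mul, mul_one,
      ← H.card_neighborFinset_eq_degree]
    congr 2
    ext v
    simp
  rw [Finset.sum_congr rfl fun u _ => h1 u]
  have h2 := H.sum_degrees_eq_twice_card_edges
  have h3 : Nat.card H.edgeSet = #H.edgeFinset := by
    rw [Nat.card_eq_fintype_card, SimpleGraph.edgeFinset, Set.toFinset_card]
  rw [h3]
  exact_mod_cast h2

end

variable {V : Type*} [Fintype V] [DecidableEq V] (G : SimpleGraph V)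

/-- The number of edges inside `W`. -/
noncomputable def ed (W : Set V) : ℝ := (∑ u, ∑ v, AW G W u v) / 2

open Classical in
theorem sum_sub {W : Set V} {f : V → ℝ} (hf : ∀ u, u ∉ W → f u = 0) : ∑ u, f u = ∑ u : W, f u := by
  rw [← Finset.sum_subset (Finset.subset_univ W.toFinset) (fun u _ hu => hf u (by simpa using hu)),
    Finset.sum_subtype W.toFinset (p := fun u => u ∈ W) (fun u => by simp)]

theorem ed_eq (W : Set V) : ed G W = (Nat.card (G.induce W).edgeSet : ℝ) := by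
  classical
  have h1 : ∑ u, ∑ v, AW G W u v = ∑ u : W, ∑ v : W, AW G W u v := by
    rw [sum_sub (W := W) fun u hu => Finset.sum_eq_zero fun v _ => AW_zero_left G hu]
    exact Finset.sum_congr rfl fun u _ => sum_sub fun v hv => AW_zero_right G hv
  have h2 : ∑ u : W, ∑ v : W, AW G W u v =
      ∑ u : W, ∑ v : W, (if (G.induce W).Adj u v then (1 : ℝ) else 0) := by
    refine Finset.sum_congr rfl fun u _ => Finset.sum_congr rfl fun v _ => ?_
    unfold AW
    by_cases h : G.Adj u v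
    · rw [if_pos ⟨u.2, v.2, h⟩, if_pos (by simpa using h)]
    · rw [if_neg fun h' => h h'.2.2, if_neg (by simpa using h)]
  have h3 := sum_adj (G.induce W)
  have h4 : ∑ u : W, ∑ v : W, (if (G.induce W).Adj u v then (1 : ℝ) else 0) =
      2 * (Nat.card (G.induce W).edgeSet : ℝ) := by
    convert h3
  rw [ed, h1, h2, h4]
  ring

theorem ed_univ : ed G Set.univ = (Nat.card G.edgeSet : ℝ) := by
  classical
  have h2 : ∑ u, ∑ v, AW G Set.univ u v = ∑ u, ∑ v, (if G.Adj u v then (1 : ℝ) else 0) := by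
    refine Finset.sum_congr rfl fun u _ => Finset.sum_congr rfl fun v _ => ?_
    unfold AW
    by_cases h : G.Adj u v
    · rw [if_pos ⟨trivial, trivial, h⟩, if_pos h]
    · rw [if_neg fun h' => h h'.2.2, if_neg h]
  rw [ed, h2, sum_adj]
  ring

variable {G}

theorem Cut.ed_add {W₁ W₂ : Set V} {r : V} (h : Cut G W₁ W₂ r) :
    ed G (W₁ ∪ W₂) = ed G W₁ + ed G W₂ := by
  have h1 : AW G (W₁ ∪ W₂) = AW G W₁ + AW G W₂ := by
    ext u v
    rw [Matrix.add_apply]
    unfold AW
    by_cases hadj : G.Adj u v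
    · have h2 : ¬((u ∈ W₁ ∧ v ∈ W₁ ∧ G.Adj u v) ∧ (u ∈ W₂ ∧ v ∈ W₂ ∧ G.Adj u v)) := by
        rintro ⟨⟨a1, a2, -⟩, ⟨b1, b2, -⟩⟩
        exact hadj.ne ((h.inter u a1 b1).trans (h.inter v a2 b2).symm)
      have h3 : (u ∈ W₁ ∪ W₂ ∧ v ∈ W₁ ∪ W₂ ∧ G.Adj u v) ↔
          (u ∈ W₁ ∧ v ∈ W₁ ∧ G.Adj u v) ∨ (u ∈ W₂ ∧ v ∈ W₂ ∧ G.Adj u v) := by
        constructor
        · rintro ⟨hu, hv, -⟩
          by_cases hur : u = r
          · subst hur
            rcases hv with hv | hv
            · exact Or.inl ⟨h.mem₁, hv, hadj⟩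
            · exact Or.inr ⟨h.mem₂, hv, hadj⟩
          · by_cases hvr : v = r
            · subst hvr
              rcases hu with hu | hu
              · exact Or.inl ⟨hu, h.mem₁, hadj⟩
              · exact Or.inr ⟨hu, h.mem₂, hadj⟩
            · rcases hu with hu | hu <;> rcases hv with hv | hv
              · exact Or.inl ⟨hu, hv, hadj⟩
              · exact absurd hadj (h.adj u hu v hv hur hvr)
              · exact absurd hadj.symm (h.adj v hv u hu hvr hur)
              · exact Or.inr ⟨hu, hv, hadj⟩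
        · rintro (⟨hu, hv, -⟩ | ⟨hu, hv, -⟩)
          · exact ⟨Or.inl hu, Or.inl hv, hadj⟩
          · exact ⟨Or.inr hu, Or.inr hv, hadj⟩
      by_cases c1 : u ∈ W₁ ∧ v ∈ W₁ ∧ G.Adj u v
      · rw [if_pos (h3.2 (Or.inl c1)), if_pos c1, if_neg fun c2 => h2 ⟨c1, c2⟩, add_zero]
      · by_cases c2 : u ∈ W₂ ∧ v ∈ W₂ ∧ G.Adj u v
        · rw [if_pos (h3.2 (Or.inr c2)), if_neg c1, if_pos c2, zero_add]
        · rw [if_neg fun c3 => (not_or.2 ⟨c1, c2⟩) (h3.1 c3), if_neg c1, if_neg c2, add_zero]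
    · rw [if_neg fun h => hadj h.2.2, if_neg fun h => hadj h.2.2, if_neg fun h => hadj h.2.2,
        add_zero]
  unfold ed
  rw [h1]
  simp only [Matrix.add_apply, Finset.sum_add_distrib]
  ring

theorem Cut.card_add {W₁ W₂ : Set V} {r : V} (h : Cut G W₁ W₂ r) :
    (W₁ ∪ W₂).ncard + 1 = W₁.ncard + W₂.ncard := by
  rw [← Set.ncard_union_add_ncard_inter W₁ W₂]
  congr 1
  have h1 : W₁ ∩ W₂ = {r} := by
    ext v
    constructor
    · rintro ⟨h1, h2⟩
      exact h.inter v h1 h2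
    · rintro rfl
      exact ⟨h.mem₁, h.mem₂⟩
  rw [h1, Set.ncard_singleton]

variable (G)

theorem posCount_le (W : Set V) : posCount G W ≤ numPos (G.induce W) := by
  let := Fintype.ofFinite W
  let := Classical.decEq W
  let := Classical.decRel (G.induce W).Adj
  unfold posCount numPos
  obtain ⟨P, hP⟩ : ∃ P : Matrix W V ℝ, ∀ w v, P w v = if (w : V) = v then (1 : ℝ) else 0 :=
    ⟨fun w v => if (w : V) = v then (1 : ℝ) else 0, fun _ _ => rfl⟩
  refine pos_le (P := P) (adj_herm (G.induce W)) (AW_herm G W) ?_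
  ext u v
  rw [Matrix.mul_apply]
  have h1 : ∀ w : W, (Pᵀ * (G.induce W).adjMatrix ℝ) u w * P w v =
      (∑ z : W, (if (z : V) = u then (1 : ℝ) else 0) * (if (G.induce W).Adj z w then 1 else 0)) *
        (if (w : V) = v then (1 : ℝ) else 0) := by
    intro w
    rw [Matrix.mul_apply, hP]
    congr 1
    refine Finset.sum_congr rfl fun z _ => ?_
    rw [Matrix.transpose_apply, SimpleGraph.adjMatrix_apply, hP]
  rw [Finset.sum_congr rfl fun w _ => h1 w]
  by_cases hu : u ∈ W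
  · by_cases hv : v ∈ W
    · rw [Finset.sum_eq_single_of_mem (⟨v, hv⟩ : W) (Finset.mem_univ _),
        Finset.sum_eq_single_of_mem (⟨u, hu⟩ : W) (Finset.mem_univ _)]
      · rw [if_pos rfl, if_pos rfl, one_mul, mul_one]
        unfold AW
        by_cases ha : G.Adj u v
        · rw [if_pos ⟨hu, hv, ha⟩, if_pos (show (G.induce W).Adj ⟨u, hu⟩ ⟨v, hv⟩ from ha)]
        · rw [if_neg fun h => ha h.2.2, if_neg (show ¬ (G.induce W).Adj ⟨u, hu⟩ ⟨v, hv⟩ from ha)]
      · intro z _ hz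
        rw [if_neg fun h => hz (Subtype.ext h), zero_mul]
      · intro z _ hz
        rw [if_neg fun h => hz (Subtype.ext h), mul_zero]
    · rw [AW_zero_right G hv, eq_comm]
      refine Finset.sum_eq_zero fun w _ => ?_
      rw [if_neg (show ¬ (w : V) = v from fun h => hv (h ▸ w.2)), mul_zero]
  · rw [AW_zero_left G hu, eq_comm]
    refine Finset.sum_eq_zero fun w _ => ?_
    have h2 : ∀ z : W, (if (z : V) = u then (1 : ℝ) else 0) = 0 := fun z =>
      if_neg (show ¬ (z : V) = u from fun h => hu (h ▸ z.2))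
    simp only [h2, zero_mul, Finset.sum_const_zero]

theorem cycle_adj {q : ℕ} {i j : ℕ} (hi : i < 2 * q + 1) (hj : j < 2 * q + 1) (hq : 1 ≤ q) :
    (SimpleGraph.cycleGraph (2 * q + 1)).Adj ⟨i, hi⟩ ⟨j, hj⟩ ↔
      (j = i + 1 ∨ i = j + 1 ∨ (i = 0 ∧ j = 2 * q) ∨ (i = 2 * q ∧ j = 0)) := by
  rw [SimpleGraph.cycleGraph_adj']
  have key : ∀ a b : ℕ, ∀ (ha : a < 2 * q + 1) (hb : b < 2 * q + 1),
      (((⟨a, ha⟩ - ⟨b, hb⟩ : Fin (2 * q + 1)) : ℕ) = 1 ↔ (a = b + 1 ∨ (a = 0 ∧ b = 2 * q))) := by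
    intro a b ha hb
    rw [Fin.val_sub]
    change (2 * q + 1 - b + a) % (2 * q + 1) = 1 ↔ _
    by_cases hab : b ≤ a
    · rw [show 2 * q + 1 - b + a = (2 * q + 1) + (a - b) by omega, Nat.add_mod_left,
        Nat.mod_eq_of_lt (by omega)]
      omega
    · rw [Nat.mod_eq_of_lt (by omega)]
      omega
  rw [key, key]
  omega

variable {G}

theorem cyc_of_iso {W : Set V} {q : ℕ} (hq : 1 ≤ q)
    (e : SimpleGraph.cycleGraph (2 * q + 1) ≃g G.induce W) :
    ∃ p : ℕ → V, Cyc G W q p := by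
  have hlt : ∀ i : ℕ, i % (2 * q + 1) < 2 * q + 1 := fun i => Nat.mod_lt _ (by omega)
  refine ⟨fun i => (e ⟨i % (2 * q + 1), hlt i⟩ : V), hq, ?_, ?_, ?_⟩
  · intro i hi j hj h
    have h1 := e.injective (Subtype.ext h)
    have h2 := congrArg Fin.val h1
    change i % (2 * q + 1) = j % (2 * q + 1) at h2
    rw [Nat.mod_eq_of_lt (by omega), Nat.mod_eq_of_lt (by omega)] at h2
    exact h2
  · intro v
    constructor
    · intro hv
      obtain ⟨⟨i, hi⟩, h1⟩ := e.surjective ⟨v, hv⟩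
      refine ⟨i, by omega, ?_⟩
      have h2 : (⟨i % (2 * q + 1), hlt i⟩ : Fin (2 * q + 1)) = ⟨i, hi⟩ :=
        Fin.ext (Nat.mod_eq_of_lt hi)
      rw [h2, h1]
    · rintro ⟨i, -, rfl⟩
      exact (e _).2
  · intro i hi j hj
    have h1 : i % (2 * q + 1) = i := Nat.mod_eq_of_lt (by omega)
    have h2 : j % (2 * q + 1) = j := Nat.mod_eq_of_lt (by omega)
    have h3 : G.Adj (e ⟨i % (2 * q + 1), hlt i⟩ : V) (e ⟨j % (2 * q + 1), hlt j⟩ : V) ↔
        (SimpleGraph.cycleGraph (2 * q + 1)).Adj ⟨i % (2 * q + 1), hlt i⟩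
          ⟨j % (2 * q + 1), hlt j⟩ := by
      rw [← e.map_rel_iff]
      simp
    rw [h3, cycle_adj _ _ hq, h1, h2]

theorem card_of_iso {W : Set V} {q : ℕ} (hq : 1 ≤ q)
    (e : SimpleGraph.cycleGraph (2 * q + 1) ≃g G.induce W) :
    W.ncard = 2 * q + 1 ∧ ed G W = 2 * q + 1 := by
  classical
  constructor
  · rw [← Nat.card_coe_set_eq, ← Nat.card_congr e.toEquiv, Nat.card_eq_fintype_card,
      Fintype.card_fin]
  · rw [ed_eq, ← Nat.card_congr e.mapEdgeSet]
    obtain ⟨m, rfl⟩ := Nat.exists_eq_add_of_le hq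
    have h1 := (SimpleGraph.cycleGraph (2 * (1 + m) + 1)).sum_degrees_eq_twice_card_edges
    have h2 : ∀ v : Fin (2 * (1 + m) + 1), (SimpleGraph.cycleGraph (2 * (1 + m) + 1)).degree v = 2 := by
      have h3 : 2 * (1 + m) + 1 = 2 * m + 3 := by ring
      rw [h3]
      exact fun v => SimpleGraph.cycleGraph_degree_three_le
    rw [Finset.sum_congr rfl fun v _ => h2 v, Finset.sum_const, Finset.card_univ, Fintype.card_fin,
      smul_eq_mul] at h1
    rw [Nat.card_eq_fintype_card, ← Set.toFinset_card]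
    have h4 : #(SimpleGraph.cycleGraph (2 * (1 + m) + 1)).edgeFinset = 2 * (1 + m) + 1 := by
      omega
    rw [SimpleGraph.edgeFinset] at h4
    exact_mod_cast h4

end Pool.Agent.MP3b2d6a
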