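import Pool.Agent.Lib.MP_3b2d6a_co.Pivot

/-! Additivity and cut vertices. -/

set_option autoImplicit false
set_option linter.unusedSectionVars false

open Finset Filter Topology Matrix

namespace Pool.Agent.MP3b2d6a

variable {V : Type*} [Fintype V] [DecidableEq V]

theorem TT_add {M₁ M₂ : Matrix V V ℝ} (h₁ : M₁.IsHermitian) (h₂ : M₂.IsHermitian)
    (h : M₁ * M₂ = 0) {x : ℝ} (hx : 0 < x) : TT (M₁ + M₂) x = TT M₁ x + TT M₂ x := by
  have hF := lift_zero (F := fun x => TT (M₁ + M₂) x - (TT M₁ x + TT M₂ x)) ?_ ?_ ?_ hx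
  · linarith
  · exact (TT_continuousOn _).sub ((TT_continuousOn _).add (TT_continuousOn _))
  · have := (TT_tendsto (M₁ + M₂)).sub ((TT_tendsto M₁).add (TT_tendsto M₂))
    simpa using this
  · intro x hx
    have hm : NN M₁ x * NN M₂ x = (x : ℂ) • NN (M₁ + M₂) x := by
      have h0 : cm M₁ * cm M₂ = 0 := by rw [← cm_mul, h, cm_zero]
      unfold NN
      rw [cm_add, Matrix.add_mul, Matrix.mul_add, Matrix.mul_add, Matrix.smul_mul, Matrix.smul_mul,
        Matrix.smul_mul, Matrix.smul_mul, Matrix.mul_smul, Matrix.mul_smul, Matrix.mul_smul,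
        Matrix.mul_smul, h0, Matrix.mul_one, Matrix.one_mul, Matrix.mul_one, smul_zero, smul_zero,
        add_zero, smul_add, smul_add, smul_add, smul_smul Complex.I (x : ℂ),
        mul_comm Complex.I (x : ℂ), ← smul_smul (x : ℂ) Complex.I]
      abel
    have h3 := (ph_NN h₁ hx).mul (ph_NN h₂ hx)
    rw [← Matrix.det_mul, hm, Matrix.det_smul] at h3
    have h4 : Ph (((x : ℂ) ^ Fintype.card V) * (NN (M₁ + M₂) x).det) (0 + TT (M₁ + M₂) x) := by
      refine Ph.mul ?_ (ph_NN (h₁.add h₂) hx)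
      have := ph_pos (pow_pos hx (Fintype.card V))
      push_cast at this
      exact this
    obtain ⟨n, hn⟩ := h4.diff h3
    exact ⟨n, by rw [← hn]; ring⟩

theorem NN_mulVec (M : Matrix V V ℝ) (x : ℝ) (y : V → ℂ) :
    NN M x *ᵥ y = (x : ℂ) • y + Complex.I • (cm M *ᵥ y) := by
  unfold NN
  rw [Matrix.add_mulVec, Matrix.smul_mulVec, Matrix.smul_mulVec, Matrix.one_mulVec]

theorem cv_add (a b : V → ℝ) : cv (a + b) = cv a + cv b := by
  ext i
  simp [cv]

theorem cv_dot (a b : V → ℝ) : cv a ⬝ᵥ cv b = ((a ⬝ᵥ b : ℝ) : ℂ) := by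
  simp [cv, dotProduct]

theorem cv_zero : cv (0 : V → ℝ) = 0 := by
  ext i
  simp [cv]

theorem qq_add {M₁ M₂ : Matrix V V ℝ} (h₁ : M₁.IsHermitian) (h₂ : M₂.IsHermitian)
    (h12 : M₁ * M₂ = 0) (h21 : M₂ * M₁ = 0) {a b : V → ℝ} (hb : M₁ *ᵥ b = 0) (ha : M₂ *ᵥ a = 0)
    (hab : a ⬝ᵥ b = 0) {x : ℝ} (hx : 0 < x) :
    qq (M₁ + M₂) (a + b) x = qq M₁ a x + qq M₂ b x := by
  have hxc : (x : ℂ) ≠ 0 := by exact_mod_cast hx.ne'
  obtain ⟨y, hy⟩ := exists_sol h₁ hx a
  obtain ⟨z, hz⟩ := exists_sol h₂ hx b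
  have ts : ∀ {M : Matrix V V ℝ}, M.IsHermitian → (cm M)ᵀ = cm M := by
    intro M hM
    have hM' : Mᵀ = M := by
      rw [← conjTranspose_eq_transpose_of_trivial]
      exact hM
    rw [← cm_transpose, hM']
  -- the other matrix kills the solution
  have kill : ∀ {M N : Matrix V V ℝ} {c : V → ℝ} {w : V → ℂ}, N * M = 0 → N *ᵥ c = 0 →
      NN M x *ᵥ w = cv c → cm N *ᵥ w = 0 := by
    intro M N c w hNM hc hw
    have e1 : cm N *ᵥ (NN M x *ᵥ w) = 0 := by rw [hw, cm_mulVec, hc, cv_zero]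
    rw [NN_mulVec, Matrix.mulVec_add, Matrix.mulVec_smul, Matrix.mulVec_smul, Matrix.mulVec_mulVec,
      ← cm_mul, hNM, cm_zero, Matrix.zero_mulVec, smul_zero, add_zero] at e1
    exact (smul_eq_zero.1 e1).resolve_left hxc
  have hy2 : cm M₂ *ᵥ y = 0 := kill h21 ha hy
  have hz1 : cm M₁ *ᵥ z = 0 := kill h12 hb hz
  -- orthogonality
  have orth : ∀ {M : Matrix V V ℝ} {c d : V → ℝ} {w : V → ℂ}, M.IsHermitian → M *ᵥ d = 0 →
      d ⬝ᵥ c = 0 → NN M x *ᵥ w = cv c → cv d ⬝ᵥ w = 0 := by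
    intro M c d w hM hd hdc hw
    have e1 : cv d ⬝ᵥ (NN M x *ᵥ w) = 0 := by
      rw [hw, cv_dot, hdc]
      simp
    rw [NN_mulVec, dotProduct_add, dotProduct_smul, dotProduct_smul, Matrix.dotProduct_mulVec,
      ← Matrix.mulVec_transpose, ts hM, cm_mulVec, hd, cv_zero, zero_dotProduct, smul_zero,
      add_zero, smul_eq_mul] at e1
    exact (mul_eq_zero.1 e1).resolve_left hxc
  have o1 : cv a ⬝ᵥ z = 0 := orth h₂ ha hab hz
  have o2 : cv b ⬝ᵥ y = 0 := orth h₁ hb (by rw [dotProduct_comm]; exact hab) hy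
  have hs : NN (M₁ + M₂) x *ᵥ (y + z) = cv (a + b) := by
    rw [cv_add, ← hy, ← hz, NN_mulVec, NN_mulVec, NN_mulVec, cm_add, Matrix.add_mulVec,
      Matrix.mulVec_add, Matrix.mulVec_add, hy2, hz1, add_zero, zero_add, smul_add, smul_add]
    abel
  rw [qq_of_sol (h₁.add h₂) hx hs, qq_of_sol h₁ hx hy, qq_of_sol h₂ hx hz, cv_add,
    add_dotProduct, dotProduct_add, dotProduct_add, o1, o2]
  ring

open Classical in
/-- The adjacency matrix of `G` restricted to the vertex set `W`, extended by zero. -/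
noncomputable def AW (G : SimpleGraph V) (W : Set V) : Matrix V V ℝ :=
  fun u v => if u ∈ W ∧ v ∈ W ∧ G.Adj u v then 1 else 0

/-- The phase of a vertex set. -/
noncomputable def T (G : SimpleGraph V) (W : Set V) (x : ℝ) : ℝ := TT (AW G W) x

open Classical in
/-- The neighbours of `r` in `W`. -/
noncomputable def av (G : SimpleGraph V) (W : Set V) (r : V) : V → ℝ :=
  fun v => if v ∈ W ∧ G.Adj r v then 1 else 0

/-- `aᵀ (x + i A)⁻¹ a` -/
noncomputable def Q (G : SimpleGraph V) (W : Set V) (r : V) (x : ℝ) : ℂ :=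
  qq (AW G (W \ {r})) (av G W r) x

variable (G : SimpleGraph V)

theorem AW_herm (W : Set V) : (AW G W).IsHermitian := by
  rw [Matrix.IsHermitian, conjTranspose_eq_transpose_of_trivial]
  ext u v
  simp only [Matrix.transpose_apply, AW]
  congr 1
  rw [G.adj_comm]
  exact propext ⟨fun h => ⟨h.2.1, h.1, h.2.2⟩, fun h => ⟨h.2.1, h.1, h.2.2⟩⟩

theorem AW_zero_left {W : Set V} {u v : V} (h : u ∉ W) : AW G W u v = 0 := if_neg fun h' => h h'.1

theorem AW_zero_right {W : Set V} {u v : V} (h : v ∉ W) : AW G W u v = 0 :=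
  if_neg fun h' => h h'.2.1

theorem AW_mul {W₁ W₂ : Set V} (hd : Disjoint W₁ W₂) : AW G W₁ * AW G W₂ = 0 := by
  ext u v
  rw [Matrix.mul_apply, Matrix.zero_apply]
  refine Finset.sum_eq_zero fun w _ => ?_
  by_cases h1 : w ∈ W₁
  · rw [AW_zero_left G (fun h2 => Set.disjoint_left.1 hd h1 h2), mul_zero]
  · rw [AW_zero_right G h1, zero_mul]

theorem AW_union {W₁ W₂ : Set V} (hd : Disjoint W₁ W₂)
    (he : ∀ u ∈ W₁, ∀ v ∈ W₂, ¬ G.Adj u v) : AW G (W₁ ∪ W₂) = AW G W₁ + AW G W₂ := by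
  ext u v
  rw [Matrix.add_apply]
  unfold AW
  by_cases hadj : G.Adj u v
  · have hadj' := hadj.symm
    by_cases u1 : u ∈ W₁
    · have u2 : u ∉ W₂ := Set.disjoint_left.1 hd u1
      by_cases v1 : v ∈ W₁
      · rw [if_pos ⟨Or.inl u1, Or.inl v1, hadj⟩, if_pos ⟨u1, v1, hadj⟩, if_neg fun h => u2 h.1,
          add_zero]
      · have v2 : v ∉ W₂ := fun h => he u u1 v h hadj
        rw [if_neg fun h => h.2.1.elim v1 v2, if_neg fun h => v1 h.2.1, if_neg fun h => u2 h.1,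
          add_zero]
    · by_cases u2 : u ∈ W₂
      · have v1 : v ∉ W₁ := fun h => he v h u u2 hadj'
        by_cases v2 : v ∈ W₂
        · rw [if_pos ⟨Or.inr u2, Or.inr v2, hadj⟩, if_neg fun h => u1 h.1, if_pos ⟨u2, v2, hadj⟩,
            zero_add]
        · rw [if_neg fun h => h.2.1.elim v1 v2, if_neg fun h => u1 h.1, if_neg fun h => v2 h.2.1,
            add_zero]
      · rw [if_neg fun h => h.1.elim u1 u2, if_neg fun h => u1 h.1, if_neg fun h => u2 h.1,
          add_zero]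
  · rw [if_neg fun h => hadj h.2.2, if_neg fun h => hadj h.2.2, if_neg fun h => hadj h.2.2,
      add_zero]

theorem T_union {W₁ W₂ : Set V} (hd : Disjoint W₁ W₂)
    (he : ∀ u ∈ W₁, ∀ v ∈ W₂, ¬ G.Adj u v) {x : ℝ} (hx : 0 < x) :
    T G (W₁ ∪ W₂) x = T G W₁ x + T G W₂ x := by
  unfold T
  rw [AW_union G hd he]
  exact TT_add (AW_herm G _) (AW_herm G _) (AW_mul G hd) hx

theorem T_pivot {W : Set V} {r : V} (hr : r ∈ W) {x : ℝ} (hx : 0 < x) :
    T G W x = T G (W \ {r}) x + Real.arctan ((Q G W r x).im / (x + (Q G W r x).re)) := by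
  unfold T Q
  refine pivot (r := r) (AW_herm G _) (AW_herm G _) ?_ ?_ ?_ ?_ hx
  · exact if_neg fun h => G.loopless.irrefl r h.2
  · exact fun i => AW_zero_right G fun h => h.2 rfl
  · exact fun i => AW_zero_left G fun h => h.2 rfl
  · ext u v
    rw [Matrix.add_apply, Matrix.add_apply, vecMulVec_apply, vecMulVec_apply]
    simp only [Pi.single_apply]
    by_cases hu : u = r
    · subst hu
      rw [if_pos rfl, one_mul, AW_zero_left G (fun h => h.2 rfl : u ∉ W \ {u}), zero_add]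
      by_cases hv : v = u
      · subst hv
        have hl := G.loopless.irrefl v
        rw [if_pos rfl, mul_one]
        unfold AW av
        rw [if_neg fun h => hl h.2.2, if_neg fun h => hl h.2, add_zero]
      · rw [if_neg hv, mul_zero, zero_add]
        unfold AW av
        by_cases hc : v ∈ W ∧ G.Adj u v
        · rw [if_pos ⟨hr, hc.1, hc.2⟩, if_pos hc]
        · rw [if_neg fun h => hc h.2, if_neg hc]
    · rw [if_neg hu, zero_mul, add_zero]
      by_cases hv : v = r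
      · subst hv
        rw [if_pos rfl, mul_one, AW_zero_right G (fun h => h.2 rfl : v ∉ W \ {v}), zero_add]
        unfold AW av
        by_cases hc : u ∈ W ∧ G.Adj v u
        · rw [if_pos ⟨hc.1, hr, hc.2.symm⟩, if_pos hc]
        · rw [if_neg fun h => hc ⟨h.1, h.2.2.symm⟩, if_neg hc]
      · rw [if_neg hv, mul_zero, add_zero]
        unfold AW
        by_cases hc : u ∈ W ∧ v ∈ W ∧ G.Adj u v
        · rw [if_pos hc, if_pos ⟨⟨hc.1, hu⟩, ⟨hc.2.1, hv⟩, hc.2.2⟩]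
        · rw [if_neg hc, if_neg fun h => hc ⟨h.1.1, h.2.1.1, h.2.2⟩]

theorem Q_add {W₁ W₂ : Set V} {r : V}
    (hd : ∀ v, v ∈ W₁ → v ∈ W₂ → v = r)
    (he : ∀ u ∈ W₁, ∀ v ∈ W₂, u ≠ r → v ≠ r → ¬ G.Adj u v) {x : ℝ} (hx : 0 < x) :
    Q G (W₁ ∪ W₂) r x = Q G W₁ r x + Q G W₂ r x := by
  have hdis : Disjoint (W₁ \ {r}) (W₂ \ {r}) := by
    rw [Set.disjoint_left]
    rintro v ⟨hv1, hvr⟩ ⟨hv2, -⟩
    exact hvr (hd v hv1 hv2)
  have hset : (W₁ ∪ W₂) \ {r} = (W₁ \ {r}) ∪ (W₂ \ {r}) := Set.union_sdiff_distrib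
  have hav : av G (W₁ ∪ W₂) r = av G W₁ r + av G W₂ r := by
    ext v
    rw [Pi.add_apply]
    unfold av
    by_cases hadj : G.Adj r v
    · have hvr : v ≠ r := hadj.ne'
      by_cases v1 : v ∈ W₁
      · have v2 : v ∉ W₂ := fun h => hvr (hd v v1 h)
        rw [if_pos ⟨Or.inl v1, hadj⟩, if_pos ⟨v1, hadj⟩, if_neg fun h => v2 h.1, add_zero]
      · by_cases v2 : v ∈ W₂
        · rw [if_pos ⟨Or.inr v2, hadj⟩, if_neg fun h => v1 h.1, if_pos ⟨v2, hadj⟩, zero_add]
        · rw [if_neg fun h => h.1.elim v1 v2, if_neg fun h => v1 h.1, if_neg fun h => v2 h.1,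
            add_zero]
    · rw [if_neg fun h => hadj h.2, if_neg fun h => hadj h.2, if_neg fun h => hadj h.2, add_zero]
  unfold Q
  rw [hset, AW_union G hdis, hav]
  · refine qq_add (AW_herm G _) (AW_herm G _) (AW_mul G hdis) (AW_mul G hdis.symm) ?_ ?_ ?_ hx
    · ext u
      rw [Matrix.mulVec, dotProduct]
      refine Finset.sum_eq_zero fun v _ => ?_
      by_cases v1 : v ∈ W₁ \ {r}
      · have v2 : v ∉ W₂ := fun h => v1.2 (hd v v1.1 h)
        unfold av
        rw [if_neg fun h => v2 h.1, mul_zero]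
      · rw [AW_zero_right G v1, zero_mul]
    · ext u
      rw [Matrix.mulVec, dotProduct]
      refine Finset.sum_eq_zero fun v _ => ?_
      by_cases v1 : v ∈ W₂ \ {r}
      · have v2 : v ∉ W₁ := fun h => v1.2 (hd v h v1.1)
        unfold av
        rw [if_neg fun h => v2 h.1, mul_zero]
      · rw [AW_zero_right G v1, zero_mul]
    · rw [dotProduct]
      refine Finset.sum_eq_zero fun v _ => ?_
      unfold av
      by_cases v1 : v ∈ W₁ ∧ G.Adj r v
      · have v2 : v ∉ W₂ := fun h => v1.2.ne' (hd v v1.1 h)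
        rw [if_neg (fun h => v2 h.1 : ¬ (v ∈ W₂ ∧ G.Adj r v)), mul_zero]
      · rw [if_neg v1, zero_mul]
  · rintro u ⟨hu, hur⟩ v ⟨hv, hvr⟩
    exact he u hu v hv hur hvr

theorem Q_re_nonneg (W : Set V) (r : V) {x : ℝ} (hx : 0 < x) : 0 ≤ (Q G W r x).re :=
  qq_re_nonneg (AW_herm G _) _ hx

end Pool.Agent.MP3b2d6a
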