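import Pool.Agent.Lib.MP_3b2d6a_co.Two

/-! From the phase to `∑ λ |λ|`. -/

set_option autoImplicit false
set_option linter.unusedSectionVars false

open Finset Filter Topology Matrix

namespace Pool.Agent.MP3b2d6a

/-- A primitive of `x arctan (l / x)`. -/
noncomputable def Fi (l x : ℝ) : ℝ := (x ^ 2 + l ^ 2) / 2 * Real.arctan (l / x) + l * x / 2

theorem Fi_deriv (l : ℝ) {x : ℝ} (hx : 0 < x) :
    HasDerivAt (Fi l) (x * Real.arctan (l / x)) x := by
  have h1 : HasDerivAt (fun x : ℝ => l / x) (-l / x ^ 2) x := by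
    simp only [div_eq_mul_inv]
    refine ((hasDerivAt_inv hx.ne').const_mul l).congr_deriv ?_
    ring
  have h2 := h1.arctan
  have h3 : HasDerivAt (fun x : ℝ => (x ^ 2 + l ^ 2) / 2) x x := by
    refine (((hasDerivAt_pow 2 x).add_const (l ^ 2)).div_const 2).congr_deriv ?_
    norm_num
  have h4 := (h3.fun_mul h2).fun_add (((hasDerivAt_id' x).const_mul l).div_const 2)
  refine h4.congr_deriv ?_
  have hxx : 0 < x ^ 2 + l ^ 2 := by positivity
  have h5 : 1 + (l / x) ^ 2 = (x ^ 2 + l ^ 2) / x ^ 2 := by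
    field_simp
  rw [h5]
  field_simp
  ring

theorem arctan_sub_le {t : ℝ} (ht : 0 ≤ t) : |Real.arctan t - t| ≤ t ^ 3 := by
  rcases ht.eq_or_lt with rfl | ht'
  · simp
  have h0 : 0 < Real.arctan t := by
    rw [← Real.arctan_zero]
    exact Real.arctan_strictMono ht'
  have h1 : Real.arctan t ≤ t := by
    have := Real.lt_tan h0 (Real.arctan_lt_pi_div_two t)
    rw [Real.tan_arctan] at this
    exact this.le
  have h2 : t / (1 + t ^ 2) ≤ Real.arctan t := by
    have h3 : Real.sin (Real.arctan t) ≤ Real.arctan t := Real.sin_le h0.le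
    have h4 : t / (1 + t ^ 2) = Real.sin (Real.arctan t) * Real.cos (Real.arctan t) := by
      rw [Real.sin_arctan, Real.cos_arctan]
      have hs : √(1 + t ^ 2) * √(1 + t ^ 2) = 1 + t ^ 2 := Real.mul_self_sqrt (by positivity)
      rw [div_mul_div_comm, hs, mul_one]
    have h5 : 0 ≤ Real.sin (Real.arctan t) := by
      rw [Real.sin_arctan]
      positivity
    rw [h4]
    calc Real.sin (Real.arctan t) * Real.cos (Real.arctan t) ≤ Real.sin (Real.arctan t) * 1 :=
          mul_le_mul_of_nonneg_left (Real.cos_le_one _) h5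
      _ ≤ _ := by rw [mul_one]; exact h3
  rw [abs_le]
  constructor
  · have h6 : t - t ^ 3 ≤ t / (1 + t ^ 2) := by
      rw [le_div_iff₀ (by positivity)]
      have : 0 ≤ t ^ 5 := by positivity
      nlinarith
    linarith
  · have : 0 ≤ t ^ 3 := by positivity
    linarith

theorem arctan_sub_abs (t : ℝ) : |Real.arctan t - t| ≤ |t| ^ 3 := by
  rcases le_total 0 t with h | h
  · rw [abs_of_nonneg h]
    exact arctan_sub_le h
  · have h1 := arctan_sub_le (neg_nonneg.2 h)
    rw [Real.arctan_neg, ← neg_add', abs_neg] at h1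
    rw [abs_of_nonpos h, sub_eq_add_neg]
    exact h1

theorem Fi_atTop (l : ℝ) : Tendsto (fun x => Fi l x - l * x) atTop (𝓝 0) := by
  have h1 : ∀ᶠ x : ℝ in atTop, Fi l x - l * x =
      x ^ 2 / 2 * (Real.arctan (l / x) - l / x) + l ^ 2 / 2 * Real.arctan (l / x) := by
    filter_upwards [eventually_gt_atTop 0] with x hx
    unfold Fi
    field_simp
    ring
  have hl : Tendsto (fun x : ℝ => l / x) atTop (𝓝 0) := tendsto_const_nhds.div_atTop tendsto_id
  have h2 : Tendsto (fun x : ℝ => l ^ 2 / 2 * Real.arctan (l / x)) atTop (𝓝 0) := by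
    have := ((Real.continuous_arctan.tendsto 0).comp hl).const_mul (l ^ 2 / 2)
    rw [Real.arctan_zero, mul_zero] at this
    exact this
  have h3 : Tendsto (fun x : ℝ => x ^ 2 / 2 * (Real.arctan (l / x) - l / x)) atTop (𝓝 0) := by
    have h4 : Tendsto (fun x : ℝ => |l| ^ 3 / 2 / x) atTop (𝓝 0) :=
      tendsto_const_nhds.div_atTop tendsto_id
    refine squeeze_zero_norm' ?_ h4
    filter_upwards [eventually_gt_atTop 0] with x hx
    rw [Real.norm_eq_abs, abs_mul, abs_of_pos (by positivity : (0 : ℝ) < x ^ 2 / 2)]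
    have h5 := arctan_sub_abs (l / x)
    rw [abs_div, abs_of_pos hx] at h5
    calc x ^ 2 / 2 * |Real.arctan (l / x) - l / x| ≤ x ^ 2 / 2 * (|l| / x) ^ 3 :=
          mul_le_mul_of_nonneg_left h5 (by positivity)
      _ = |l| ^ 3 / 2 / x := by
          field_simp
  have h6 := h3.add h2
  rw [add_zero] at h6
  exact h6.congr' (h1.mono fun x hx => hx.symm)

theorem Fi_zero (l : ℝ) : Tendsto (Fi l) (𝓝[>] 0) (𝓝 (Real.pi / 4 * (l * |l|))) := by
  have hx0 : Tendsto (fun x : ℝ => x) (𝓝[>] 0) (𝓝 0) := tendsto_nhdsWithin_of_tendsto_nhds tendsto_id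
  have h1 : Tendsto (fun x : ℝ => (x ^ 2 + l ^ 2) / 2) (𝓝[>] 0) (𝓝 (l ^ 2 / 2)) := by
    have := ((hx0.pow 2).add_const (l ^ 2)).div_const 2
    simpa using this
  have h2 : Tendsto (fun x : ℝ => l * x / 2) (𝓝[>] 0) (𝓝 0) := by
    have := (hx0.const_mul l).div_const 2
    simpa using this
  have hinv : Tendsto (fun x : ℝ => x⁻¹) (𝓝[>] 0) atTop := tendsto_inv_nhdsGT_zero
  have h3 : Tendsto (fun x : ℝ => Real.arctan (l / x)) (𝓝[>] 0)
      (𝓝 (if 0 < l then Real.pi / 2 else if l < 0 then -(Real.pi / 2) else 0)) := by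
    rcases lt_trichotomy l 0 with h | h | h
    · rw [if_neg (not_lt.2 h.le), if_pos h]
      have h4 : Tendsto (fun x : ℝ => l / x) (𝓝[>] 0) atBot := by
        simp only [div_eq_mul_inv]
        exact hinv.const_mul_atTop_of_neg h
      exact (tendsto_nhds_of_tendsto_nhdsWithin Real.tendsto_arctan_atBot).comp h4
    · subst h
      simp
    · rw [if_pos h]
      have h4 : Tendsto (fun x : ℝ => l / x) (𝓝[>] 0) atTop := by
        simp only [div_eq_mul_inv]
        exact hinv.const_mul_atTop h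
      exact (tendsto_nhds_of_tendsto_nhdsWithin Real.tendsto_arctan_atTop).comp h4
  have h5 := (h1.mul h3).add h2
  rw [add_zero] at h5
  have h6 : Real.pi / 4 * (l * |l|) = l ^ 2 / 2 *
      (if 0 < l then Real.pi / 2 else if l < 0 then -(Real.pi / 2) else 0) := ?_
  · rw [h6]
    exact h5
  rcases lt_trichotomy l 0 with h | h | h
  · rw [if_neg (not_lt.2 h.le), if_pos h, abs_of_neg h]
    ring
  · subst h
    simp
  · rw [if_pos h, abs_of_pos h]
    ring

theorem lim_anti {g : ℝ → ℝ} {a b : ℝ} (hg : AntitoneOn g (Set.Ioi 0))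
    (h0 : Tendsto g (𝓝[>] 0) (𝓝 a)) (h1 : Tendsto g atTop (𝓝 b)) {x : ℝ} (hx : 0 < x) :
    b ≤ g x ∧ g x ≤ a := by
  constructor
  · refine le_of_tendsto h1 ?_
    filter_upwards [eventually_ge_atTop x] with y hy
    exact hg (Set.mem_Ioi.2 hx) (Set.mem_Ioi.2 (hx.trans_le hy)) hy
  · refine ge_of_tendsto h0 ?_
    filter_upwards [Ioc_mem_nhdsGT hx] with y hy
    exact hg (Set.mem_Ioi.2 hy.1) (Set.mem_Ioi.2 hx) hy.2

variable {V : Type*} [Fintype V] [DecidableEq V]

/-- the primitive of `x T (x)` -/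
noncomputable def Hs (M : Matrix V V ℝ) (x : ℝ) : ℝ :=
  if h : M.IsHermitian then ∑ i, Fi (h.eigenvalues i) x else 0

theorem Hs_deriv {M : Matrix V V ℝ} (hM : M.IsHermitian) {x : ℝ} (hx : 0 < x) :
    HasDerivAt (Hs M) (x * TT M x) x := by
  have h1 : Hs M = fun x => ∑ i, Fi (hM.eigenvalues i) x := by
    ext x
    rw [Hs, dif_pos hM]
  rw [h1, TT, dif_pos hM, Finset.mul_sum]
  exact HasDerivAt.fun_sum fun i _ => Fi_deriv _ hx

theorem Hs_atTop {M : Matrix V V ℝ} (hM : M.IsHermitian) (htr : ∑ i, hM.eigenvalues i = 0) :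
    Tendsto (Hs M) atTop (𝓝 0) := by
  have h1 : Hs M = fun x => ∑ i, (Fi (hM.eigenvalues i) x - hM.eigenvalues i * x) := by
    ext x
    rw [Hs, dif_pos hM, Finset.sum_sub_distrib, ← Finset.sum_mul, htr, zero_mul, sub_zero]
  rw [h1]
  have h2 := tendsto_finsetSum (univ : Finset V) fun i _ => Fi_atTop (hM.eigenvalues i)
  rw [Finset.sum_const_zero] at h2
  exact h2

theorem Hs_zero {M : Matrix V V ℝ} (hM : M.IsHermitian) :
    Tendsto (Hs M) (𝓝[>] 0) (𝓝 (Real.pi / 4 * ∑ i, hM.eigenvalues i * |hM.eigenvalues i|)) := by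
  have h1 : Hs M = fun x => ∑ i, Fi (hM.eigenvalues i) x := by
    ext x
    rw [Hs, dif_pos hM]
  rw [h1, Finset.mul_sum]
  exact tendsto_finsetSum (univ : Finset V) fun i _ => Fi_zero (hM.eigenvalues i)

/-- The phase of the five-cycle in terms of its eigenvalues. -/
theorem tau_eq {x : ℝ} (hx : 0 < x) :
    tau x = Real.arctan (2 / x) + 2 * Real.arctan ((√5 - 1) / 2 / x) +
      2 * Real.arctan (-(√5 + 1) / 2 / x) := by
  obtain ⟨F, hFd⟩ : ∃ F : ℝ → ℝ, F = fun x => tau x - (Real.arctan (2 / x) +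
      2 * Real.arctan ((√5 - 1) / 2 / x) + 2 * Real.arctan (-(√5 + 1) / 2 / x)) := ⟨_, rfl⟩
  have hF := lift_zero (F := F) ?_ ?_ ?_ hx
  · rw [hFd] at hF
    linarith
  · have h1 : ∀ l : ℝ, ContinuousOn (fun x : ℝ => Real.arctan (l / x)) (Set.Ioi 0) := fun l =>
      Real.continuous_arctan.comp_continuousOn
        (continuousOn_const.div continuousOn_id fun x hx => (Set.mem_Ioi.1 hx).ne')
    have h2 : ContinuousOn tau (Set.Ioi 0) := by
      unfold tau
      refine Real.continuous_arctan.comp_continuousOn (continuousOn_const.div ?_ fun x hx => ?_)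
      · exact Continuous.continuousOn (by fun_prop)
      · have : 0 < x := hx
        positivity
    rw [hFd]
    exact h2.sub (((h1 _).add (continuousOn_const.mul (h1 _))).add (continuousOn_const.mul (h1 _)))
  · have h1 : ∀ l : ℝ, Tendsto (fun x : ℝ => Real.arctan (l / x)) atTop (𝓝 0) := by
      intro l
      have h2 : Tendsto (fun x : ℝ => l / x) atTop (𝓝 0) :=
        tendsto_const_nhds.div_atTop tendsto_id
      have h3 := (Real.continuous_arctan.tendsto 0).comp h2
      rw [Real.arctan_zero] at h3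
      exact h3
    have h2 : Tendsto tau atTop (𝓝 0) := by
      have h3 : Tendsto (fun x : ℝ => 2 / (x ^ 5 + 5 * x ^ 3 + 5 * x)) atTop (𝓝 0) := by
        refine tendsto_const_nhds.div_atTop (tendsto_atTop_mono' _ ?_ tendsto_id)
        filter_upwards [eventually_gt_atTop 0] with x hx
        have h4 : 0 < x ^ 5 := by positivity
        have h5 : 0 < x ^ 3 := by positivity
        change x ≤ _
        linarith
      have h4 := (Real.continuous_arctan.tendsto 0).comp h3
      rw [Real.arctan_zero] at h4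
      exact h4
    rw [hFd]
    have h3 := h2.sub (((h1 2).add ((h1 ((√5 - 1) / 2)).const_mul 2)).add
      ((h1 (-(√5 + 1) / 2)).const_mul 2))
    simpa using h3
  · intro x hx
    have h5 : √5 ^ 2 = 5 := Real.sq_sqrt (by norm_num)
    have e1 := ph_arctan (v := 2) hx
    have e2 := ph_arctan (v := (√5 - 1) / 2) hx
    have e3 := ph_arctan (v := -(√5 + 1) / 2) hx
    have e4 := (e1.mul (e2.mul e2)).mul (e3.mul e3)
    have e5 := ph_arctan (v := 2) (by positivity : 0 < x ^ 5 + 5 * x ^ 3 + 5 * x)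
    have e6 : ((x : ℂ) + (2 : ℝ) * Complex.I) * (((x : ℂ) + ((√5 - 1) / 2 : ℝ) * Complex.I) *
        ((x : ℂ) + ((√5 - 1) / 2 : ℝ) * Complex.I)) *
        (((x : ℂ) + (-(√5 + 1) / 2 : ℝ) * Complex.I) *
        ((x : ℂ) + (-(√5 + 1) / 2 : ℝ) * Complex.I)) =
        ((x ^ 5 + 5 * x ^ 3 + 5 * x : ℝ) : ℂ) + (2 : ℝ) * Complex.I := by
      have h6 : (√5 : ℂ) ^ 2 = 5 := by exact_mod_cast h5
      push_cast
      generalize (√5 : ℂ) = s at h6
      have e7 : ((x : ℂ) + (s - 1) / 2 * Complex.I) * ((x : ℂ) + -(s + 1) / 2 * Complex.I) =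
          (x : ℂ) ^ 2 - x * Complex.I + 1 := by
        linear_combination (-(s ^ 2 - 1) / 4) * Complex.I_sq + (1 / 4) * h6
      calc _ = ((x : ℂ) + 2 * Complex.I) *
            (((x : ℂ) + (s - 1) / 2 * Complex.I) * ((x : ℂ) + -(s + 1) / 2 * Complex.I)) ^ 2 := by ring
        _ = ((x : ℂ) + 2 * Complex.I) * ((x : ℂ) ^ 2 - x * Complex.I + 1) ^ 2 := by rw [e7]
        _ = _ := by
          linear_combination (-3 * (x : ℂ) ^ 3 - 4 * x + 2 * (x : ℂ) ^ 2 * Complex.I) * Complex.I_sq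
    rw [e6] at e4
    obtain ⟨n, hn⟩ := e5.diff e4
    refine ⟨n, ?_⟩
    rw [hFd, ← hn]
    unfold tau
    ring

/-- The primitive of `x tau x`. -/
theorem tau_prim {x : ℝ} (hx : 0 < x) : HasDerivAt (fun x => Fi 2 x + 2 * Fi ((√5 - 1) / 2) x +
    2 * Fi (-(√5 + 1) / 2) x) (x * tau x) x := by
  have h := ((Fi_deriv 2 hx).fun_add ((Fi_deriv ((√5 - 1) / 2) hx).const_mul 2)).fun_add
    ((Fi_deriv (-(√5 + 1) / 2) hx).const_mul 2)
  refine h.congr_deriv ?_
  rw [tau_eq hx]
  ring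

theorem sqrt5_gt : 2 < √5 := by
  rw [Real.lt_sqrt (by norm_num)]
  norm_num

/-- The lower bound for `∑ λ |λ|`. -/
theorem sum_ge {M : Matrix V V ℝ} (hM : M.IsHermitian) (htr : ∑ i, hM.eigenvalues i = 0) {k : ℝ}
    (h : ∀ x, 0 < x → TT M x ≤ k * tau x) :
    -(2 * (√5 - 2) * k) ≤ ∑ i, hM.eigenvalues i * |hM.eigenvalues i| := by
  have h5 : √5 ^ 2 = 5 := Real.sq_sqrt (by norm_num)
  have hs := sqrt5_gt
  obtain ⟨P, hP⟩ : ∃ P : ℝ → ℝ, P = fun x => Fi 2 x + 2 * Fi ((√5 - 1) / 2) x +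
    2 * Fi (-(√5 + 1) / 2) x := ⟨_, rfl⟩
  have hPd : ∀ x, 0 < x → HasDerivAt P (x * tau x) x := fun x hx => by
    rw [hP]
    exact tau_prim hx
  have hP0 : Tendsto P (𝓝[>] 0) (𝓝 (Real.pi / 4 * (4 - 2 * √5))) := by
    have h1 := ((Fi_zero 2).add ((Fi_zero ((√5 - 1) / 2)).const_mul 2)).add
      ((Fi_zero (-(√5 + 1) / 2)).const_mul 2)
    rw [hP]
    have e1 : |(2 : ℝ)| = 2 := abs_of_pos (by norm_num)
    have e2 : |(√5 - 1) / 2| = (√5 - 1) / 2 := abs_of_pos (by linarith)
    have e3 : |-(√5 + 1) / 2| = (√5 + 1) / 2 := by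
      rw [abs_of_neg (by linarith)]
      ring
    rw [e1, e2, e3] at h1
    have e4 : Real.pi / 4 * (4 - 2 * √5) = Real.pi / 4 * (2 * 2) +
        2 * (Real.pi / 4 * ((√5 - 1) / 2 * ((√5 - 1) / 2))) +
        2 * (Real.pi / 4 * (-(√5 + 1) / 2 * ((√5 + 1) / 2))) := by
      ring
    rw [e4]
    exact h1
  have hPi : Tendsto P atTop (𝓝 0) := by
    have h1 := ((Fi_atTop 2).add ((Fi_atTop ((√5 - 1) / 2)).const_mul 2)).add
      ((Fi_atTop (-(√5 + 1) / 2)).const_mul 2)
    rw [mul_zero, add_zero, add_zero] at h1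
    rw [hP]
    refine h1.congr fun x => ?_
    ring
  obtain ⟨g, hg⟩ : ∃ g : ℝ → ℝ, g = fun x => Hs M x - k * P x := ⟨_, rfl⟩
  have hd : ∀ x, 0 < x → HasDerivAt g (x * TT M x - k * (x * tau x)) x := by
    intro x hx
    rw [hg]
    exact (Hs_deriv hM hx).fun_sub ((hPd x hx).const_mul _)
  have hanti : AntitoneOn g (Set.Ioi 0) := by
    refine antitoneOn_of_deriv_nonpos (convex_Ioi 0)
      (fun x hx => (hd x hx).continuousAt.continuousWithinAt)
      (fun x hx => (hd x (interior_subset hx)).differentiableAt.differentiableWithinAt) ?_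
    intro x hx
    have hx' : 0 < x := interior_subset hx
    rw [(hd x hx').deriv]
    have h1 := mul_le_mul_of_nonneg_left (h x hx') hx'.le
    linarith
  have h0 : Tendsto g (𝓝[>] 0) (𝓝 (Real.pi / 4 * ∑ i, hM.eigenvalues i * |hM.eigenvalues i| -
      k * (Real.pi / 4 * (4 - 2 * √5)))) := by
    rw [hg]
    exact (Hs_zero hM).sub (hP0.const_mul _)
  have h1 : Tendsto g atTop (𝓝 (0 - k * 0)) := by
    rw [hg]
    exact (Hs_atTop hM htr).sub (hPi.const_mul _)
  obtain ⟨h6, h7⟩ := lim_anti hanti h0 h1 one_pos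
  have h8 := h6.trans h7
  have hpi := Real.pi_pos
  have h9 : Real.pi / 4 * -(2 * (√5 - 2) * k) ≤
      Real.pi / 4 * ∑ i, hM.eigenvalues i * |hM.eigenvalues i| := by
    linarith
  exact le_of_mul_le_mul_left h9 (by positivity)

/-- If the phase never vanishes, then `∑ λ |λ| ≠ 0`. -/
theorem sum_ne {M : Matrix V V ℝ} (hM : M.IsHermitian) (htr : ∑ i, hM.eigenvalues i = 0) {σ : ℝ}
    (h : ∀ x, 0 < x → 0 < σ * TT M x) :
    ∑ i, hM.eigenvalues i * |hM.eigenvalues i| ≠ 0 := by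
  intro hS
  obtain ⟨g, hg⟩ : ∃ g : ℝ → ℝ, g = fun x => -σ * Hs M x := ⟨_, rfl⟩
  have hd : ∀ x, 0 < x → HasDerivAt g (-σ * (x * TT M x)) x := by
    intro x hx
    rw [hg]
    exact (Hs_deriv hM hx).const_mul _
  have hanti : StrictAntiOn g (Set.Ioi 0) := by
    refine strictAntiOn_of_deriv_neg (convex_Ioi 0)
      (fun x hx => (hd x hx).continuousAt.continuousWithinAt) ?_
    intro x hx
    have hx' : 0 < x := interior_subset hx
    rw [(hd x hx').deriv]
    have h1 := mul_pos hx' (h x hx')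
    nlinarith
  have h0 : Tendsto g (𝓝[>] 0) (𝓝 0) := by
    have h2 := (Hs_zero hM).const_mul (-σ)
    rw [hS, mul_zero, mul_zero] at h2
    rw [hg]
    exact h2
  have h1 : Tendsto g atTop (𝓝 0) := by
    have h2 := (Hs_atTop hM htr).const_mul (-σ)
    rw [mul_zero] at h2
    rw [hg]
    exact h2
  have h3 := (lim_anti hanti.antitoneOn h0 h1 one_pos).2
  have h4 := (lim_anti hanti.antitoneOn h0 h1 two_pos).1
  have h5 := hanti (Set.mem_Ioi.2 one_pos) (Set.mem_Ioi.2 two_pos) one_lt_two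
  linarith

/-- If the phase vanishes identically, then `∑ λ |λ| = 0`. -/
theorem sum_eq {M : Matrix V V ℝ} (hM : M.IsHermitian) (htr : ∑ i, hM.eigenvalues i = 0)
    (h : ∀ x, 0 < x → TT M x = 0) :
    ∑ i, hM.eigenvalues i * |hM.eigenvalues i| = 0 := by
  have hd : ∀ x, 0 < x → HasDerivAt (Hs M) 0 x := by
    intro x hx
    have := Hs_deriv hM hx
    rw [h x hx, mul_zero] at this
    exact this
  have hanti : AntitoneOn (Hs M) (Set.Ioi 0) := by
    refine antitoneOn_of_deriv_nonpos (convex_Ioi 0)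
      (fun x hx => (hd x hx).continuousAt.continuousWithinAt)
      (fun x hx => (hd x (interior_subset hx)).differentiableAt.differentiableWithinAt) ?_
    intro x hx
    rw [(hd x (interior_subset hx)).deriv]
  have hmono : AntitoneOn (fun x => -Hs M x) (Set.Ioi 0) := by
    refine antitoneOn_of_deriv_nonpos (convex_Ioi 0)
      (fun x hx => (hd x hx).fun_neg.continuousAt.continuousWithinAt)
      (fun x hx => (hd x (interior_subset hx)).fun_neg.differentiableAt.differentiableWithinAt) ?_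
    intro x hx
    rw [(hd x (interior_subset hx)).fun_neg.deriv, neg_zero]
  have h1 := lim_anti hanti (Hs_zero hM) (Hs_atTop hM htr) one_pos
  have h2 := lim_anti hmono (Hs_zero hM).neg (Hs_atTop hM htr).neg one_pos
  rw [neg_zero] at h2
  have hpi := Real.pi_pos
  have h3 : Real.pi / 4 * ∑ i, hM.eigenvalues i * |hM.eigenvalues i| = 0 := by linarith [h1.1, h1.2, h2.1, h2.2]
  exact (mul_eq_zero.1 h3).resolve_left (by positivity)

end Pool.Agent.MP3b2d6a
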