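import Pool.Agent.Lib.MP_3b2d6a_co.AbsE
import Pool.Agent.Lib.MP_3b2d6a_co.Int

/-! The test matrix `A_B⁺` of the cut graph of a colouring. -/

set_option autoImplicit false
set_option linter.unusedSectionVars false

open Finset Filter Topology Matrix

namespace Pool.Agent.MP3b2d6a

variable {V : Type*} [Fintype V] [DecidableEq V]

/-- The variational bound. -/
theorem testM {M U W : Matrix V V ℝ} {lam p : V → ℝ} (h1 : U * Uᵀ = 1)
    (h2 : Uᵀ * U = 1) (h3 : M = U * diagonal lam * Uᵀ) (w1 : W * Wᵀ = 1)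
    (hp : ∀ k, 0 ≤ p k)
    (h0 : 0 ≤ ∑ k, p k * ∑ s, ∑ t, M s t * (W s k * W t k)) :
    (∑ k, p k * ∑ s, ∑ t, M s t * (W s k * W t k)) ^ 2 ≤
      (∑ i with 0 < lam i, lam i ^ 2) * ∑ k, p k ^ 2 := by
  have w2 : Wᵀ * W = 1 := mul_eq_one_comm.1 w1
  set Z : Matrix V V ℝ := Uᵀ * W with hZ
  have hZT : Zᵀ = Wᵀ * U := by rw [hZ, Matrix.transpose_mul, Matrix.transpose_transpose]
  have hZZ : ∀ i, ∑ k, Z i k ^ 2 = 1 := by
    intro i
    have h4 : Z * Zᵀ = 1 := by
      rw [hZT, hZ, Matrix.mul_assoc, ← Matrix.mul_assoc W, w1, Matrix.one_mul, h2]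
    have := congrFun (congrFun h4 i) i
    rw [Matrix.mul_apply, Matrix.one_apply_eq] at this
    rw [← this]
    exact Finset.sum_congr rfl fun k _ => by rw [Matrix.transpose_apply, pow_two]
  have hZZ' : ∀ k, ∑ i, Z i k ^ 2 = 1 := by
    intro k
    have h4 : Zᵀ * Z = 1 := by
      rw [hZT, hZ, Matrix.mul_assoc, ← Matrix.mul_assoc U, h1, Matrix.one_mul, w2]
    have := congrFun (congrFun h4 k) k
    rw [Matrix.mul_apply, Matrix.one_apply_eq] at this
    rw [← this]
    exact Finset.sum_congr rfl fun i _ => by rw [Matrix.transpose_apply, pow_two]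
  have hq : ∀ k, ∑ s, ∑ t, M s t * (W s k * W t k) = ∑ i, lam i * Z i k ^ 2 := by
    intro k
    have h4 : Wᵀ * M * W = Zᵀ * diagonal lam * Z := by
      rw [hZT, hZ, h3]
      simp only [Matrix.mul_assoc]
    have h5 := congrFun (congrFun h4 k) k
    rw [Matrix.mul_apply, Matrix.mul_apply] at h5
    calc ∑ s, ∑ t, M s t * (W s k * W t k) = ∑ t, (Wᵀ * M) k t * W t k := by
          rw [Finset.sum_comm]
          refine Finset.sum_congr rfl fun t _ => ?_
          rw [Matrix.mul_apply, Finset.sum_mul]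
          refine Finset.sum_congr rfl fun s _ => ?_
          rw [Matrix.transpose_apply]
          ring
      _ = _ := h5
      _ = _ := by
          refine Finset.sum_congr rfl fun i _ => ?_
          rw [Matrix.mul_diagonal, Matrix.transpose_apply]
          ring
  set y : V → ℝ := fun i => ∑ k, p k * Z i k ^ 2 with hy
  have hy0 : ∀ i, 0 ≤ y i := fun i => Finset.sum_nonneg fun k _ => mul_nonneg (hp k) (sq_nonneg _)
  have hT : ∑ k, p k * ∑ s, ∑ t, M s t * (W s k * W t k) = ∑ i, lam i * y i := by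
    simp only [hq, hy, Finset.mul_sum]
    rw [Finset.sum_comm]
    exact Finset.sum_congr rfl fun i _ => Finset.sum_congr rfl fun k _ => by ring
  rw [hT] at h0 ⊢
  have hle : ∑ i, lam i * y i ≤ ∑ i with 0 < lam i, lam i * y i := by
    rw [Finset.sum_filter]
    refine Finset.sum_le_sum fun i _ => ?_
    split_ifs with h
    · exact le_rfl
    · exact mul_nonpos_of_nonpos_of_nonneg (not_lt.1 h) (hy0 i)
  have hyi : ∀ i, y i ^ 2 ≤ ∑ k, p k ^ 2 * Z i k ^ 2 := by
    intro i
    have h4 := Finset.sum_mul_sq_le_sq_mul_sq Finset.univ (fun k => p k * Z i k) fun k => Z i k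
    rw [hZZ i, mul_one] at h4
    calc y i ^ 2 = (∑ k, p k * Z i k * Z i k) ^ 2 := by
          rw [hy]
          congr 1
          exact Finset.sum_congr rfl fun k _ => by ring
      _ ≤ _ := h4
      _ = _ := Finset.sum_congr rfl fun k _ => by ring
  calc (∑ i, lam i * y i) ^ 2 ≤ (∑ i with 0 < lam i, lam i * y i) ^ 2 :=
        pow_le_pow_left₀ h0 hle 2
    _ ≤ (∑ i with 0 < lam i, lam i ^ 2) * ∑ i with 0 < lam i, y i ^ 2 :=
        Finset.sum_mul_sq_le_sq_mul_sq _ _ _
    _ ≤ (∑ i with 0 < lam i, lam i ^ 2) * ∑ i, y i ^ 2 := by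
        refine mul_le_mul_of_nonneg_left ?_ (Finset.sum_nonneg fun i _ => sq_nonneg _)
        exact Finset.sum_le_sum_of_subset_of_nonneg (Finset.filter_subset _ _)
          fun i _ _ => sq_nonneg _
    _ ≤ _ := by
        refine mul_le_mul_of_nonneg_left ?_ (Finset.sum_nonneg fun i _ => sq_nonneg _)
        calc ∑ i, y i ^ 2 ≤ ∑ i, ∑ k, p k ^ 2 * Z i k ^ 2 :=
              Finset.sum_le_sum fun i _ => hyi i
          _ = ∑ k, p k ^ 2 := by
              rw [Finset.sum_comm]
              refine Finset.sum_congr rfl fun k _ => ?_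
              rw [← Finset.mul_sum, hZZ' k, mul_one]

theorem sum_abs {A : Matrix V V ℝ} (hA : A.IsHermitian) (c : V → Bool)
    (hc : ∀ s t, c s = c t → A s t = 0) :
    ∑ i, hA.eigenvalues i * |hA.eigenvalues i| = 0 := by
  refine sum_eq hA ?_ fun x hx => TT_eq_zero hA (s := fun v => if c v then 1 else -1) ?_ ?_ hx
  · have := hA.trace_eq_sum_eigenvalues
    simp only [RCLike.ofReal_real_eq_id, id_eq] at this
    rw [← this]
    exact Finset.sum_eq_zero fun i _ => hc i i rfl
  · intro i
    split_ifs <;> norm_num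
  · intro u v
    by_cases h : c u = c v
    · rw [hc u v h]
      simp
    · cases hu : c u <;> cases hv : c v <;> simp_all

theorem sum_sq {A W : Matrix V V ℝ} {mu : V → ℝ} (w2 : Wᵀ * W = 1)
    (h3 : A = W * diagonal mu * Wᵀ) (hA : Aᵀ = A) : ∑ i, mu i ^ 2 = ∑ s, ∑ t, A s t ^ 2 := by
  have hAA : A * A = W * diagonal (fun i => mu i ^ 2) * Wᵀ := by
    rw [h3]
    calc W * diagonal mu * Wᵀ * (W * diagonal mu * Wᵀ) =
        W * (diagonal mu * (Wᵀ * W) * diagonal mu) * Wᵀ := by simp only [Matrix.mul_assoc]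
      _ = _ := by
          rw [w2, Matrix.mul_one, Matrix.diagonal_mul_diagonal]
          congr 3
          ext i
          ring
  have h4 : (A * A).trace = ∑ i, mu i ^ 2 := by
    rw [hAA, Matrix.trace_mul_comm, ← Matrix.mul_assoc, w2, Matrix.one_mul, Matrix.trace_diagonal]
  rw [← h4, Matrix.trace]
  refine Finset.sum_congr rfl fun s _ => ?_
  rw [Matrix.diag_apply, Matrix.mul_apply]
  refine Finset.sum_congr rfl fun t _ => ?_
  have : A t s = A s t := congrFun (congrFun hA s) t
  rw [this, pow_two]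

/-- The subgraph of the edges between the two colour classes. -/
def cutGraph (G : SimpleGraph V) (c : V → Bool) : SimpleGraph V where
  Adj u v := G.Adj u v ∧ c u ≠ c v
  symm := ⟨fun _ _ h => ⟨h.1.symm, h.2.symm⟩⟩
  loopless := ⟨fun _ h => h.2 rfl⟩

instance (G : SimpleGraph V) [DecidableRel G.Adj] (c : V → Bool) :
    DecidableRel (cutGraph G c).Adj := fun _ _ => inferInstanceAs (Decidable (_ ∧ _))

theorem cutGraph_le (G : SimpleGraph V) (c : V → Bool) : cutGraph G c ≤ G := fun _ _ h => h.1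

variable {G : SimpleGraph V} [DecidableRel G.Adj]

theorem sk_sq (c : V → Bool) : sk (cutGraph G c).Adj c Finset.univ * sk (cutGraph G c).Adj c Finset.univ =
    -((cutGraph G c).adjMatrix ℝ * (cutGraph G c).adjMatrix ℝ) := by
  ext a b
  rw [Matrix.mul_apply, Matrix.neg_apply, Matrix.mul_apply, ← Finset.sum_neg_distrib]
  refine Finset.sum_congr rfl fun w _ => ?_
  rw [SimpleGraph.adjMatrix_apply, SimpleGraph.adjMatrix_apply]
  by_cases h1 : (cutGraph G c).Adj a w
  · by_cases h2 : (cutGraph G c).Adj w b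
    · have h3 := h1.2
      have e1 : sk (cutGraph G c).Adj c Finset.univ a w = if c a then -1 else 1 :=
        if_pos ⟨Finset.mem_univ _, Finset.mem_univ _, h1⟩
      have e2 : sk (cutGraph G c).Adj c Finset.univ w b = if c w then -1 else 1 :=
        if_pos ⟨Finset.mem_univ _, Finset.mem_univ _, h2⟩
      rw [e1, e2, if_pos h1, if_pos h2]
      cases ha : c a <;> cases hw : c w <;> simp_all
    · have e2 : sk (cutGraph G c).Adj c Finset.univ w b = 0 := if_neg fun h => h2 h.2.2
      rw [e2, if_neg h2]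
      simp
  · have e1 : sk (cutGraph G c).Adj c Finset.univ a w = 0 := if_neg fun h => h1 h.2.2
    rw [e1, if_neg h1]
    simp

/-- The main estimate. -/
theorem cut_main (c : V → Bool) {τ : ℝ} (hτ : τ * τ = 1)
    {U : Matrix V V ℝ} {lam : V → ℝ} (h1 : U * Uᵀ = 1)
    (h2 : Uᵀ * U = 1) (h3 : G.adjMatrix ℝ = U * diagonal lam * Uᵀ)
    (hpath : ∀ u v, G.Adj u v → c u = c v →
      ∀ k, PathIn (cutGraph G c).Adj Finset.univ u v k → eps (c u) k = -τ) :
    ∃ T : ℝ, ((cutGraph G c).edgeFinset.card : ℝ) ≤ T ∧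
      T ^ 2 ≤ (∑ i with 0 < τ * lam i, lam i ^ 2) * (cutGraph G c).edgeFinset.card ∧
      ((∃ u v, G.Adj u v ∧ c u = c v ∧ ∃ k, PathIn (cutGraph G c).Adj Finset.univ u v k) →
        ((cutGraph G c).edgeFinset.card : ℝ) < T) := by
  have hr : ∀ a b, (cutGraph G c).Adj a b → (cutGraph G c).Adj b a := fun a b h => h.symm
  have hc : ∀ a b, (cutGraph G c).Adj a b → c a ≠ c b := fun a b h => h.2
  set A := (cutGraph G c).adjMatrix ℝ with hA
  have hAT : Aᵀ = A := SimpleGraph.isSymm_adjMatrix _
  have hAh : A.IsHermitian := by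
    rw [Matrix.IsHermitian, Matrix.conjTranspose_eq_transpose_of_trivial]
    exact hAT
  obtain ⟨W, w1, w2, w3⟩ := spec_decomp hAh
  set mu := hAh.eigenvalues with hmu
  have hA0 : ∀ s t, c s = c t → A s t = 0 := fun s t h => by
    rw [hA, SimpleGraph.adjMatrix_apply]
    exact if_neg fun h' => h'.2 h
  have hm1 : ∑ i, mu i * |mu i| = 0 := sum_abs hAh c hA0
  have hm2 : ∑ i, mu i ^ 2 = 2 * ((cutGraph G c).edgeFinset.card : ℝ) := by
    rw [sum_sq w2 w3 hAT]
    have h4 : ∀ s t, A s t ^ 2 = A s t := fun s t => by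
      rw [hA, SimpleGraph.adjMatrix_apply]
      split_ifs <;> norm_num
    have h5 := (cutGraph G c).sum_degrees_eq_twice_card_edges
    have h6 : ∀ s, ∑ t, A s t = ((cutGraph G c).degree s : ℝ) := by
      intro s
      rw [← SimpleGraph.card_neighborFinset_eq_degree, SimpleGraph.neighborFinset_eq_filter]
      simp [hA, SimpleGraph.adjMatrix_apply]
    simp only [h4, h6]
    exact_mod_cast h5
  set m : ℝ := ((cutGraph G c).edgeFinset.card : ℝ) with hm
  set p : V → ℝ := fun k => (|mu k| + τ * mu k) / 2 with hp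
  have hτ' : |τ| = 1 := by
    have : |τ| * |τ| = 1 := by rw [← abs_mul, hτ, abs_one]
    nlinarith [abs_nonneg τ]
  have hp0 : ∀ k, 0 ≤ p k := by
    intro k
    have h4 : -(τ * mu k) ≤ |mu k| := by
      calc -(τ * mu k) ≤ |τ * mu k| := neg_le_abs _
        _ = |mu k| := by rw [abs_mul, hτ', one_mul]
    have : 0 ≤ |mu k| + τ * mu k := by linarith
    simp only [hp]
    linarith
  have hpp : ∀ k, p k ^ 2 = (mu k ^ 2 + τ * (mu k * |mu k|)) / 2 := by
    intro k
    simp only [hp]
    have h4 : |mu k| ^ 2 = mu k ^ 2 := sq_abs _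
    linear_combination (1 / 4 : ℝ) * h4 + (mu k ^ 2 / 4) * hτ
  have hsp : ∑ k, p k ^ 2 = m := by
    rw [Finset.sum_congr rfl fun k _ => hpp k, ← Finset.sum_div, Finset.sum_add_distrib,
      ← Finset.mul_sum, hm1, hm2]
    ring
  -- the entries of the test matrix
  have hWA : ∀ s t, A s t = ∑ k, mu k * (W s k * W t k) := by
    intro s t
    rw [w3, Matrix.mul_apply]
    refine Finset.sum_congr rfl fun k _ => ?_
    rw [Matrix.mul_diagonal, Matrix.transpose_apply]
    ring
  set E : V → V → ℝ := fun s t => ∑ k, |mu k| * (W s k * W t k) with hE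
  have hP : ∀ s t, ∑ k, p k * (W s k * W t k) = (E s t + τ * A s t) / 2 := by
    intro s t
    rw [hWA, hE, Finset.mul_sum, ← Finset.sum_add_distrib, Finset.sum_div]
    refine Finset.sum_congr rfl fun k _ => ?_
    simp only [hp]
    ring
  -- signs
  have hsign : ∀ u v, G.Adj u v → c u = c v → 0 ≤ τ * E u v ∧
      ((∃ k, PathIn (cutGraph G c).Adj Finset.univ u v k) → 0 < τ * E u v) := by
    intro u v huv hcuv
    have hne : u ≠ v := huv.ne
    have hk1 := hpath u v huv hcuv
    have hk2 := hpath v u huv.symm hcuv.symm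
    have hsk := sk_skew hr hc Finset.univ
    have key := abs_entry (τ := τ) w1 w2 w3 hsk (sk_sq (G := G) c) hne ?_
    · refine ⟨key.1, fun hk => key.2 fun s hs => ?_⟩
      have := (sign_inv hr hc hs _ Finset.univ rfl u (Finset.mem_univ _) v (Finset.mem_univ _)
        (-τ) hk1).2 hk
      linarith
    · intro s hs
      have a1 := (sign_inv hr hc hs _ Finset.univ rfl u (Finset.mem_univ _) v (Finset.mem_univ _)
        (-τ) hk1).1
      have a2 := (sign_inv hr hc hs _ Finset.univ rfl v (Finset.mem_univ _) u (Finset.mem_univ _)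
        (-τ) hk2).1
      constructor <;> linarith
  -- the trace
  set T : ℝ := ∑ k, p k * ∑ s, ∑ t, (τ • G.adjMatrix ℝ) s t * (W s k * W t k) with hT
  have hT1 : T = ∑ s, ∑ t, (τ * (if G.Adj s t then 1 else 0)) * ((E s t + τ * A s t) / 2) := by
    rw [hT]
    simp only [← hP, Finset.mul_sum]
    rw [Finset.sum_comm]
    refine Finset.sum_congr rfl fun s _ => ?_
    rw [Finset.sum_comm]
    refine Finset.sum_congr rfl fun t _ => ?_
    refine Finset.sum_congr rfl fun k _ => ?_
    rw [Matrix.smul_apply, SimpleGraph.adjMatrix_apply, smul_eq_mul]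
    ring
  have hT2 : m = ∑ s, ∑ t, (τ * A s t) * ((E s t + τ * A s t) / 2) := by
    have h4 : ∀ k, p k ^ 2 = p k * (τ * mu k) := by
      intro k
      rw [hpp k]
      simp only [hp]
      linear_combination -(mu k ^ 2 / 2) * hτ
    have h5 : ∀ k, ∑ s, ∑ t, A s t * (W s k * W t k) = mu k := by
      intro k
      have h6 : Wᵀ * A * W = diagonal mu := by
        rw [w3]
        calc Wᵀ * (W * diagonal mu * Wᵀ) * W = (Wᵀ * W) * diagonal mu * (Wᵀ * W) := by
              simp only [Matrix.mul_assoc]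
          _ = _ := by rw [w2, Matrix.one_mul, Matrix.mul_one]
      have h7 := congrFun (congrFun h6 k) k
      rw [Matrix.mul_apply, Matrix.diagonal_apply_eq] at h7
      rw [← h7, Finset.sum_comm]
      refine Finset.sum_congr rfl fun t _ => ?_
      rw [Matrix.mul_apply, Finset.sum_mul]
      refine Finset.sum_congr rfl fun s _ => ?_
      rw [Matrix.transpose_apply]
      ring
    rw [← hsp, Finset.sum_congr rfl fun k _ => h4 k]
    have h8 : ∀ k, p k * (τ * mu k) = ∑ s, ∑ t, p k * (τ * (A s t * (W s k * W t k))) := by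
      intro k
      rw [← h5 k]
      simp only [Finset.mul_sum]
    rw [Finset.sum_congr rfl fun k _ => h8 k]
    simp only [← hP, Finset.mul_sum]
    rw [Finset.sum_comm]
    refine Finset.sum_congr rfl fun s _ => ?_
    rw [Finset.sum_comm]
    refine Finset.sum_congr rfl fun t _ => ?_
    refine Finset.sum_congr rfl fun k _ => ?_
    ring
  have hterm : ∀ s t, (τ * A s t) * ((E s t + τ * A s t) / 2) ≤
      (τ * (if G.Adj s t then 1 else 0)) * ((E s t + τ * A s t) / 2) ∧
      ((G.Adj s t ∧ c s = c t ∧ ∃ k, PathIn (cutGraph G c).Adj Finset.univ s t k) →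
      (τ * A s t) * ((E s t + τ * A s t) / 2) <
      (τ * (if G.Adj s t then 1 else 0)) * ((E s t + τ * A s t) / 2)) := by
    intro s t
    by_cases hst : G.Adj s t
    · by_cases hcst : c s = c t
      · rw [hA0 s t hcst, if_pos hst]
        have := hsign s t hst hcst
        constructor
        · linarith [this.1]
        · rintro ⟨-, -, hk⟩
          linarith [this.2 hk]
      · have : A s t = 1 := by
          rw [hA, SimpleGraph.adjMatrix_apply]
          exact if_pos ⟨hst, hcst⟩
        rw [this, if_pos hst]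
        exact ⟨le_rfl, fun h => absurd h.2.1 hcst⟩
    · have : A s t = 0 := by
        rw [hA, SimpleGraph.adjMatrix_apply]
        exact if_neg fun h => hst h.1
      rw [this, if_neg hst]
      exact ⟨le_rfl, fun h => absurd h.1 hst⟩
  have hmT : m ≤ T := by
    rw [hT1, hT2]
    exact Finset.sum_le_sum fun s _ => Finset.sum_le_sum fun t _ => (hterm s t).1
  refine ⟨T, hmT, ?_, ?_⟩
  · have h4 : τ • G.adjMatrix ℝ = U * diagonal (fun i => τ * lam i) * Uᵀ := by
      have h5 : (diagonal (fun i => τ * lam i) : Matrix V V ℝ) = τ • diagonal lam := by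
        ext i j
        by_cases hij : i = j
        · subst hij
          simp
        · simp [hij]
      rw [h5, Matrix.mul_smul, Matrix.smul_mul, ← h3]
    have h5 := testM (p := p) h1 h2 h4 w1 hp0 ((Nat.cast_nonneg _).trans hmT)
    rw [hsp] at h5
    refine h5.trans (le_of_eq ?_)
    congr 1
    refine Finset.sum_congr rfl fun i _ => ?_
    rw [mul_pow, pow_two τ, hτ, one_mul]
  · rintro ⟨u, v, huv, hcuv, hk⟩
    rw [hT1, hT2]
    refine Finset.sum_lt_sum (fun s _ => Finset.sum_le_sum fun t _ => (hterm s t).1)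
      ⟨u, Finset.mem_univ _, ?_⟩
    exact Finset.sum_lt_sum (fun t _ => (hterm u t).1)
      ⟨v, Finset.mem_univ _, (hterm u v).2 ⟨huv, hcuv, hk⟩⟩

end Pool.Agent.MP3b2d6a
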