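import Pool.Agent.Lib.MP_3b2d6a_co.CutB

/-! Paths, cycles and connected maximal cuts. -/

set_option autoImplicit false
set_option linter.unusedSectionVars false

open Finset

namespace Pool.Agent.MP3b2d6a

variable {V : Type*} [Fintype V] [DecidableEq V]

theorem pathIn_of_walk {B : SimpleGraph V} {u v : V} (p : B.Walk u v) :
    p.IsPath → ∀ W : Finset V, (∀ x ∈ p.support, x ∈ W) → PathIn B.Adj W u v p.length := by
  induction p with
  | nil =>
    intro _ W h
    exact PathIn.nil (h _ (by simp))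
  | cons hadj p ih =>
    intro hp W h
    rw [SimpleGraph.Walk.cons_isPath_iff] at hp
    refine PathIn.cons (h _ (by simp)) hadj (ih hp.1 _ fun x hx => ?_)
    exact Finset.mem_erase.2 ⟨fun hxu => hp.2 (hxu ▸ hx), h x (by simp [hx])⟩

theorem walk_of_pathIn {B : SimpleGraph V} {W : Finset V} {u v : V} {k : ℕ}
    (h : PathIn B.Adj W u v k) :
    ∃ p : B.Walk u v, p.IsPath ∧ p.length = k ∧ ∀ x ∈ p.support, x ∈ W := by
  induction h with
  | nil hv => exact ⟨.nil, by simp, rfl, by simpa using hv⟩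
  | cons hu h hp ih =>
    obtain ⟨p, h1, h2, h3⟩ := ih
    refine ⟨.cons h p, ?_, by simp [h2], ?_⟩
    · rw [SimpleGraph.Walk.cons_isPath_iff]
      exact ⟨h1, fun hmem => (Finset.mem_erase.1 (h3 _ hmem)).1 rfl⟩
    · intro x hx
      rw [SimpleGraph.Walk.support_cons, List.mem_cons] at hx
      rcases hx with rfl | hx
      · exact hu
      · exact (Finset.mem_erase.1 (h3 _ hx)).2

theorem parity {G : SimpleGraph V} {c : V → Bool} {W : Finset V} {u v : V} {k : ℕ}
    (h : PathIn (cutGraph G c).Adj W u v k) : (c u = c v ↔ k % 2 = 0) := by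
  induction h with
  | nil hv => simp
  | @cons W u w v k hu h hp ih =>
    have h1 := h.2
    have h2 : (c u = c v) ↔ ¬ (c w = c v) := by
      cases h3 : c u <;> cases h4 : c w <;> cases h5 : c v <;> simp_all
    rw [h2, ih]
    omega

theorem exists_cycle {G : SimpleGraph V} {c : V → Bool} {u v : V} {k : ℕ} (huv : G.Adj u v)
    (hc : c u = c v) (h : PathIn (cutGraph G c).Adj Finset.univ u v k) :
    ∃ p : G.Walk v v, p.IsCycle ∧ p.length = k + 1 := by
  obtain ⟨p, h1, h2, -⟩ := walk_of_pathIn h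
  refine ⟨.cons huv.symm (p.mapLe (cutGraph_le G c)), ?_, ?_⟩
  · rw [SimpleGraph.Walk.cons_isCycle_iff]
    refine ⟨h1.mapLe _, fun hmem => ?_⟩
    rw [SimpleGraph.Walk.edges_mapLe_eq_edges] at hmem
    have := p.adj_of_mem_edges hmem
    exact this.2 hc.symm
  · rw [SimpleGraph.Walk.length_cons, SimpleGraph.Walk.length_mapLe, h2]

theorem exists_pathIn {B : SimpleGraph V} {u v : V} (h : B.Reachable u v) :
    ∃ k, PathIn B.Adj Finset.univ u v k := by
  obtain ⟨p, hp⟩ := h.exists_isPath
  exact ⟨_, pathIn_of_walk p hp _ fun x _ => Finset.mem_univ x⟩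

/-- A colouring with a connected cut graph in which all given edges are cut. -/
theorem exists_conn {G : SimpleGraph V} (hG : G.Connected) (E0 : V → V → Prop) (v0 : V)
    (c0 : V → Bool) (h0 : ∀ x y, E0 x y → c0 x ≠ c0 y)
    (hE : ∀ c : V → Bool, (∀ x y, E0 x y → c x ≠ c y) → ∀ x y, E0 x y →
      (cutGraph G c).Reachable v0 x ∧ (cutGraph G c).Reachable v0 y) :
    ∃ c : V → Bool, (∀ x y, E0 x y → c x ≠ c y) ∧ (cutGraph G c).Connected ∧
      ∀ c1 : V → Bool, (∀ x y, E0 x y → c1 x ≠ c1 y) →
        (cutGraph G c1).edgeSet.ncard ≤ (cutGraph G c).edgeSet.ncard := by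
  classical
  obtain ⟨c, hc, hmax⟩ := Finset.exists_max_image
    (Finset.univ.filter fun c : V → Bool => ∀ x y, E0 x y → c x ≠ c y)
    (fun c => (cutGraph G c).edgeSet.ncard) ⟨c0, by simpa using h0⟩
  have hc' : ∀ x y, E0 x y → c x ≠ c y := by simpa using hc
  refine ⟨c, hc', ?_, fun c1 h1 => hmax c1 (by simpa using h1)⟩
  by_contra hcon
  -- a vertex which is not reachable
  obtain ⟨z, hz⟩ : ∃ z, ¬ (cutGraph G c).Reachable v0 z := by
    by_contra hall
    push Not at hall
    have : Nonempty V := ⟨v0⟩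
    exact hcon (SimpleGraph.Connected.mk fun a b => (hall a).symm.trans (hall b))
  set S : Set V := {x | (cutGraph G c).Reachable v0 x} with hS
  obtain ⟨w⟩ := hG.preconnected v0 z
  obtain ⟨d, -, hd1, hd2⟩ := w.exists_boundary_dart S (SimpleGraph.Reachable.refl v0) hz
  set c' : V → Bool := fun x => if x ∈ S then c x else !c x with hc'def
  have hin : ∀ x ∈ S, c' x = c x := fun x hx => if_pos hx
  have hout : ∀ x, x ∉ S → c' x = !c x := fun x hx => if_neg hx
  have hc'E : ∀ x y, E0 x y → c' x ≠ c' y := by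
    intro x y hxy
    have h1 := hE c hc' x y hxy
    rw [hin x h1.1, hin y h1.2]
    exact hc' x y hxy
  have hadjS : ∀ x y, (cutGraph G c).Adj x y → (x ∈ S ↔ y ∈ S) := by
    intro x y hxy
    exact ⟨fun h => SimpleGraph.Reachable.trans h hxy.reachable,
      fun h => SimpleGraph.Reachable.trans h hxy.symm.reachable⟩
  have hsub : cutGraph G c < cutGraph G c' := by
    rw [lt_iff_le_not_ge]
    constructor
    · intro x y hxy
      refine ⟨hxy.1, ?_⟩
      by_cases hx : x ∈ S
      · rw [hin x hx, hin y ((hadjS x y hxy).1 hx)]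
        exact hxy.2
      · rw [hout x hx, hout y fun h => hx ((hadjS x y hxy).2 h)]
        have := hxy.2
        simpa using this
    · intro hle
      have h3 : ¬ (cutGraph G c).Adj d.fst d.snd := fun h => hd2 ((hadjS _ _ h).1 hd1)
      apply h3
      apply hle
      refine ⟨d.adj, ?_⟩
      rw [hin _ hd1, hout _ hd2]
      have h4 : c d.fst = c d.snd := by
        by_contra h5
        exact h3 ⟨d.adj, h5⟩
      rw [h4]
      cases c d.snd <;> simp
  have h1 := hmax c' (by simpa using hc'E)
  refine absurd h1 (not_le.2 (Set.ncard_lt_ncard ?_))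
  exact SimpleGraph.edgeSet_ssubset_edgeSet.2 hsub

/-- The colouring of an even cycle. -/
theorem exists_col {G : SimpleGraph V} {v : V} (p : G.Walk v v) (hp : p.IsCycle)
    (he : p.length % 2 = 0) : ∃ c : V → Bool, ∀ x y, s(x, y) ∈ p.edges → c x ≠ c y := by
  classical
  have h3 := hp.three_le_length
  refine ⟨fun x => decide (∃ i < p.length, i % 2 = 0 ∧ p.getVert i = x), ?_⟩
  have key : ∀ i ≤ p.length, (∃ j < p.length, j % 2 = 0 ∧ p.getVert j = p.getVert i) ↔
      i % 2 = 0 := by
    intro i hi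
    constructor
    · rintro ⟨j, hj, hj2, hji⟩
      rcases hi.lt_or_eq with hi | hi
      · have : j = i := hp.getVert_injOn' (by simp only [Set.mem_ofPred_eq]; omega)
          (by simp only [Set.mem_ofPred_eq]; omega) hji
        omega
      · omega
    · intro hi2
      rcases hi.lt_or_eq with hi | hi
      · exact ⟨i, hi, hi2, rfl⟩
      · refine ⟨0, by omega, rfl, ?_⟩
        rw [hi, SimpleGraph.Walk.getVert_zero, SimpleGraph.Walk.getVert_length]
  intro x y hxy
  rw [SimpleGraph.Walk.mk_mem_edges_iff_exists] at hxy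
  obtain ⟨i, hi, hxy⟩ := hxy
  have k1 := key i hi.le
  have k2 := key (i + 1) hi
  simp only [ne_eq, decide_eq_decide]
  rw [Sym2.eq_iff] at hxy
  rcases hxy with ⟨rfl, rfl⟩ | ⟨rfl, rfl⟩
  · rw [k1, k2]
    omega
  · rw [k1, k2]
    omega

/-- A connected graph with an even cycle has a connected cut with at least `n` edges. -/
theorem exists_cut_cycle {G : SimpleGraph V} (hG : G.Connected) {v : V} (p : G.Walk v v)
    (hp : p.IsCycle) (he : p.length % 2 = 0) :
    ∃ c : V → Bool, (cutGraph G c).Connected ∧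
      Fintype.card V ≤ Nat.card (cutGraph G c).edgeSet := by
  classical
  obtain ⟨c0, hc0⟩ := exists_col p hp he
  have htr : ∀ c : V → Bool, (∀ x y, s(x, y) ∈ p.edges → c x ≠ c y) →
      ∀ e ∈ p.edges, e ∈ (cutGraph G c).edgeSet := by
    intro c hc e hemem
    induction e with
    | _ x y => exact ⟨p.adj_of_mem_edges hemem, hc x y hemem⟩
  have hE : ∀ c : V → Bool, (∀ x y, s(x, y) ∈ p.edges → c x ≠ c y) → ∀ x y, s(x, y) ∈ p.edges →
      (cutGraph G c).Reachable v x ∧ (cutGraph G c).Reachable v y := by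
    intro c hc x y hxy
    have hsup : ∀ z ∈ p.support, (cutGraph G c).Reachable v z := by
      intro z hz
      have h4 : z ∈ (p.transfer _ (htr c hc)).support := by
        rwa [SimpleGraph.Walk.support_transfer]
      exact ⟨(p.transfer _ (htr c hc)).takeUntil z h4⟩
    exact ⟨hsup x (p.fst_mem_support_of_mem_edges hxy),
      hsup y (p.snd_mem_support_of_mem_edges hxy)⟩
  obtain ⟨c, hc, hconn, -⟩ := exists_conn hG (fun x y => s(x, y) ∈ p.edges) v c0 hc0 hE
  refine ⟨c, hconn, ?_⟩
  have h1 := hconn.card_vert_le_card_edgeSet_add_one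
  rw [Nat.card_eq_fintype_card] at h1
  by_contra hlt
  have h2 : Nat.card (cutGraph G c).edgeSet + 1 = Nat.card V := by
    rw [Nat.card_eq_fintype_card (α := V)]
    omega
  have h3 : (cutGraph G c).IsTree := SimpleGraph.isTree_iff_connected_and_card.2 ⟨hconn, h2⟩
  exact h3.2 _ (hp.transfer (htr c hc))

/-- A connected graph has a connected maximal cut. -/
theorem exists_cut_conn {G : SimpleGraph V} (hG : G.Connected) :
    ∃ c : V → Bool, (cutGraph G c).Connected ∧
      ∀ c1 : V → Bool, (cutGraph G c1).edgeSet.ncard ≤ (cutGraph G c).edgeSet.ncard := by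
  obtain ⟨v0⟩ := hG.nonempty
  obtain ⟨c, -, hc, hmax⟩ := exists_conn hG (fun _ _ => False) v0 (fun _ => true)
    (fun _ _ h => h.elim) fun _ _ _ _ h => h.elim
  exact ⟨c, hc, fun c1 => hmax c1 fun _ _ h => h.elim⟩

end Pool.Agent.MP3b2d6a
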