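import Pool.Agent.Lib.MP_3b2d6a_co.Cz

/-! Connected near-bipartite spanning subgraphs with an odd cycle. -/

set_option autoImplicit false
set_option linter.unusedSectionVars false

open Finset

namespace Pool.Agent.MP3b2d6a

variable {V : Type*} [Fintype V] [DecidableEq V]

theorem exists_cycle1 {G B : SimpleGraph V} (hB : B ≤ G) {u v : V} {k : ℕ} (huv : G.Adj u v)
    (hn : ¬ B.Adj u v) (h : PathIn B.Adj Finset.univ u v k) :
    ∃ p : G.Walk v v, p.IsCycle ∧ p.length = k + 1 := by
  obtain ⟨p, h1, h2, -⟩ := walk_of_pathIn h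
  refine ⟨.cons huv.symm (p.mapLe hB), ?_, ?_⟩
  · rw [SimpleGraph.Walk.cons_isCycle_iff]
    refine ⟨h1.mapLe _, fun hmem => ?_⟩
    rw [SimpleGraph.Walk.edges_mapLe_eq_edges] at hmem
    exact hn (p.adj_of_mem_edges hmem).symm
  · rw [SimpleGraph.Walk.length_cons, SimpleGraph.Walk.length_mapLe, h2]

theorem exists_cycle2 {G B : SimpleGraph V} (hB : B ≤ G) {x0 y z : V} {k : ℕ} (hyz : y ≠ z)
    (hy : B.Adj x0 y) (hz : B.Adj x0 z) (h : PathIn B.Adj (Finset.univ.erase x0) y z k) :
    ∃ p : G.Walk y y, p.IsCycle ∧ p.length = k + 2 := by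
  obtain ⟨p, h1, h2, h3⟩ := walk_of_pathIn h
  have hx : x0 ∉ p.support := fun hmem => (Finset.mem_erase.1 (h3 _ hmem)).1 rfl
  have hq : (SimpleGraph.Walk.cons hz p.reverse).IsPath := by
    rw [SimpleGraph.Walk.cons_isPath_iff]
    refine ⟨h1.reverse, ?_⟩
    rw [SimpleGraph.Walk.support_reverse, List.mem_reverse]
    exact hx
  have hcyc : (SimpleGraph.Walk.cons hy.symm (.cons hz p.reverse)).IsCycle := by
    rw [SimpleGraph.Walk.cons_isCycle_iff]
    refine ⟨hq, fun hmem => ?_⟩
    rw [SimpleGraph.Walk.edges_cons, List.mem_cons, SimpleGraph.Walk.edges_reverse,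
      List.mem_reverse] at hmem
    rcases hmem with hmem | hmem
    · rw [Sym2.eq_iff] at hmem
      rcases hmem with ⟨e1, -⟩ | ⟨e1, -⟩
      · exact hy.ne e1.symm
      · exact hyz e1
    · exact hx (p.snd_mem_support_of_mem_edges hmem)
  refine ⟨(SimpleGraph.Walk.cons hy.symm (.cons hz p.reverse)).mapLe hB, hcyc.mapLe _, ?_⟩
  rw [SimpleGraph.Walk.length_mapLe, SimpleGraph.Walk.length_cons, SimpleGraph.Walk.length_cons,
    SimpleGraph.Walk.length_reverse, h2]

/-- The subgraph of the edges at `x0` and the edges between the two colour classes. -/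
def nearGraph (G : SimpleGraph V) (c : V → Bool) (x0 : V) : SimpleGraph V where
  Adj u v := G.Adj u v ∧ (u = x0 ∨ v = x0 ∨ c u ≠ c v)
  symm := ⟨fun _ _ h => ⟨h.1.symm, by
    rcases h.2 with h | h | h
    · exact Or.inr (Or.inl h)
    · exact Or.inl h
    · exact Or.inr (Or.inr h.symm)⟩⟩
  loopless := ⟨fun _ h => h.1.ne rfl⟩

instance (G : SimpleGraph V) [DecidableRel G.Adj] (c : V → Bool) (x0 : V) :
    DecidableRel (nearGraph G c x0).Adj := fun _ _ => inferInstanceAs (Decidable (_ ∧ _))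

theorem nearGraph_le (G : SimpleGraph V) (c : V → Bool) (x0 : V) : nearGraph G c x0 ≤ G :=
  fun _ _ h => h.1

theorem exists_conn_near {G : SimpleGraph V} (hG : G.Connected) (E0 : V → V → Prop) (x0 : V)
    (c0 : V → Bool) (h0 : ∀ x y, E0 x y → c0 x ≠ c0 y)
    (hE : ∀ c : V → Bool, (∀ x y, E0 x y → c x ≠ c y) → ∀ x y, E0 x y →
      (nearGraph G c x0).Reachable x0 x ∧ (nearGraph G c x0).Reachable x0 y) :
    ∃ c : V → Bool, (∀ x y, E0 x y → c x ≠ c y) ∧ (nearGraph G c x0).Connected := by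
  classical
  obtain ⟨c, hc, hmax⟩ := Finset.exists_max_image
    (Finset.univ.filter fun c : V → Bool => ∀ x y, E0 x y → c x ≠ c y)
    (fun c => (nearGraph G c x0).edgeSet.ncard) ⟨c0, by simpa using h0⟩
  have hc' : ∀ x y, E0 x y → c x ≠ c y := by simpa using hc
  refine ⟨c, hc', ?_⟩
  by_contra hcon
  obtain ⟨z, hz⟩ : ∃ z, ¬ (nearGraph G c x0).Reachable x0 z := by
    by_contra hall
    push Not at hall
    have : Nonempty V := ⟨x0⟩
    exact hcon (SimpleGraph.Connected.mk fun a b => (hall a).symm.trans (hall b))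
  set S : Set V := {x | (nearGraph G c x0).Reachable x0 x} with hS
  have hx0 : x0 ∈ S := SimpleGraph.Reachable.refl x0
  obtain ⟨w⟩ := hG.preconnected x0 z
  obtain ⟨d, -, hd1, hd2⟩ := w.exists_boundary_dart S hx0 hz
  set c' : V → Bool := fun x => if x ∈ S then c x else !c x with hc'def
  have hin : ∀ x ∈ S, c' x = c x := fun x hx => if_pos hx
  have hout : ∀ x, x ∉ S → c' x = !c x := fun x hx => if_neg hx
  have hc'E : ∀ x y, E0 x y → c' x ≠ c' y := by
    intro x y hxy
    have h1 := hE c hc' x y hxy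
    rw [hin x h1.1, hin y h1.2]
    exact hc' x y hxy
  have hadjS : ∀ x y, (nearGraph G c x0).Adj x y → (x ∈ S ↔ y ∈ S) := by
    intro x y hxy
    exact ⟨fun h => SimpleGraph.Reachable.trans h hxy.reachable,
      fun h => SimpleGraph.Reachable.trans h hxy.symm.reachable⟩
  have hsub : nearGraph G c x0 < nearGraph G c' x0 := by
    rw [lt_iff_le_not_ge]
    constructor
    · intro x y hxy
      refine ⟨hxy.1, ?_⟩
      rcases hxy.2 with h | h | h
      · exact Or.inl h
      · exact Or.inr (Or.inl h)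
      · refine Or.inr (Or.inr ?_)
        by_cases hx : x ∈ S
        · rw [hin x hx, hin y ((hadjS x y hxy).1 hx)]
          exact h
        · rw [hout x hx, hout y fun h' => hx ((hadjS x y hxy).2 h')]
          simpa using h
    · intro hle
      have h3 : ¬ (nearGraph G c x0).Adj d.fst d.snd := fun h => hd2 ((hadjS _ _ h).1 hd1)
      apply h3
      apply hle
      refine ⟨d.adj, Or.inr (Or.inr ?_)⟩
      rw [hin _ hd1, hout _ hd2]
      have h4 : c d.fst = c d.snd := by
        by_contra h5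
        exact h3 ⟨d.adj, Or.inr (Or.inr h5)⟩
      rw [h4]
      cases c d.snd <;> simp
  have h1 := hmax c' (by simpa using hc'E)
  refine absurd h1 (not_le.2 (Set.ncard_lt_ncard ?_))
  exact SimpleGraph.edgeSet_ssubset_edgeSet.2 hsub

/-- The colouring of a cycle without one vertex. -/
theorem exists_col_near {G : SimpleGraph V} {v : V} (p : G.Walk v v) (hp : p.IsCycle) :
    ∃ c : V → Bool, ∀ x y, s(x, y) ∈ p.edges ∧ x ≠ v ∧ y ≠ v → c x ≠ c y := by
  classical
  have h3 := hp.three_le_length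
  refine ⟨fun x => decide (∃ i < p.length, i % 2 = 0 ∧ p.getVert i = x), ?_⟩
  have key : ∀ i < p.length, (∃ j < p.length, j % 2 = 0 ∧ p.getVert j = p.getVert i) ↔
      i % 2 = 0 := by
    intro i hi
    constructor
    · rintro ⟨j, hj, hj2, hji⟩
      have : j = i := hp.getVert_injOn' (by simp only [Set.mem_ofPred_eq]; omega)
          (by simp only [Set.mem_ofPred_eq]; omega) hji
      omega
    · intro hi2
      exact ⟨i, hi, hi2, rfl⟩
  rintro x y ⟨hxy, hx, hy⟩
  rw [SimpleGraph.Walk.mk_mem_edges_iff_exists] at hxy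
  obtain ⟨i, hi, hxy⟩ := hxy
  have hi1 : i + 1 < p.length := by
    by_contra hcon
    have h4 : i + 1 = p.length := by omega
    rw [Sym2.eq_iff, h4, SimpleGraph.Walk.getVert_length] at hxy
    rcases hxy with ⟨-, h5⟩ | ⟨-, h5⟩
    · exact hy h5.symm
    · exact hx h5.symm
  have k1 := key i hi
  have k2 := key (i + 1) hi1
  simp only [ne_eq, decide_eq_decide]
  rw [Sym2.eq_iff] at hxy
  rcases hxy with ⟨rfl, rfl⟩ | ⟨rfl, rfl⟩
  · rw [k1, k2]
    omega
  · rw [k1, k2]
    omega

/-- The two neighbours of the base point of a cycle. -/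
theorem exists_ends {B : SimpleGraph V} {x0 : V} (p : B.Walk x0 x0) (hp : p.IsCycle) :
    ∃ y z, y ≠ z ∧ B.Adj x0 y ∧ B.Adj x0 z ∧ ∃ k, PathIn B.Adj (Finset.univ.erase x0) y z k := by
  cases p with
  | nil => exact absurd hp (by simp)
  | @cons _ y _ h q =>
    rw [SimpleGraph.Walk.cons_isCycle_iff] at hp
    obtain ⟨h1, h2⟩ := hp
    have h3 : q.reverse.IsPath := h1.reverse
    have h4 : s(x0, y) ∉ q.reverse.edges := by
      rw [SimpleGraph.Walk.edges_reverse, List.mem_reverse]
      exact h2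
    generalize q.reverse = w at h3 h4
    cases w with
    | nil => exact absurd rfl h.ne
    | @cons _ z _ h' w =>
      rw [SimpleGraph.Walk.cons_isPath_iff] at h3
      rw [SimpleGraph.Walk.edges_cons, List.mem_cons, not_or] at h4
      refine ⟨z, y, fun hzy => h4.1 (by rw [hzy]), h', h, _,
        pathIn_of_walk w h3.1 _ fun x hx => Finset.mem_erase.2 ⟨?_, Finset.mem_univ _⟩⟩
      rintro rfl
      exact h3.2 hx

/-- A connected graph with a cycle has a connected near-bipartite spanning subgraph which contains a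
cycle through the exceptional vertex. -/
theorem exists_near {G : SimpleGraph V} (hG : G.Connected) {x0 : V} (p : G.Walk x0 x0)
    (hp : p.IsCycle) :
    ∃ c : V → Bool, Fintype.card V ≤ Nat.card (nearGraph G c x0).edgeSet ∧
      ∃ y z, y ≠ z ∧ (nearGraph G c x0).Adj x0 y ∧ (nearGraph G c x0).Adj x0 z ∧
        ∃ k, PathIn (nearGraph G c x0).Adj (Finset.univ.erase x0) y z k := by
  classical
  obtain ⟨c0, hc0⟩ := exists_col_near p hp
  have htr : ∀ c : V → Bool, (∀ x y, s(x, y) ∈ p.edges ∧ x ≠ x0 ∧ y ≠ x0 → c x ≠ c y) →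
      ∀ e ∈ p.edges, e ∈ (nearGraph G c x0).edgeSet := by
    intro c hc e hemem
    induction e with
    | _ x y =>
      refine ⟨p.adj_of_mem_edges hemem, ?_⟩
      by_cases hx : x = x0
      · exact Or.inl hx
      · by_cases hy : y = x0
        · exact Or.inr (Or.inl hy)
        · exact Or.inr (Or.inr (hc x y ⟨hemem, hx, hy⟩))
  have hE : ∀ c : V → Bool, (∀ x y, s(x, y) ∈ p.edges ∧ x ≠ x0 ∧ y ≠ x0 → c x ≠ c y) →
      ∀ x y, s(x, y) ∈ p.edges ∧ x ≠ x0 ∧ y ≠ x0 →
      (nearGraph G c x0).Reachable x0 x ∧ (nearGraph G c x0).Reachable x0 y := by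
    intro c hc x y hxy
    have hsup : ∀ z ∈ p.support, (nearGraph G c x0).Reachable x0 z := by
      intro z hz
      have h4 : z ∈ (p.transfer _ (htr c hc)).support := by
        rwa [SimpleGraph.Walk.support_transfer]
      exact ⟨(p.transfer _ (htr c hc)).takeUntil z h4⟩
    exact ⟨hsup x (p.fst_mem_support_of_mem_edges hxy.1),
      hsup y (p.snd_mem_support_of_mem_edges hxy.1)⟩
  obtain ⟨c, hc, hconn⟩ := exists_conn_near hG
    (fun x y => s(x, y) ∈ p.edges ∧ x ≠ x0 ∧ y ≠ x0) x0 c0 hc0 hE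
  have hcyc := hp.transfer (htr c hc)
  refine ⟨c, ?_, exists_ends _ hcyc⟩
  have h1 := hconn.card_vert_le_card_edgeSet_add_one
  rw [Nat.card_eq_fintype_card] at h1
  by_contra hlt
  have h2 : Nat.card (nearGraph G c x0).edgeSet + 1 = Nat.card V := by
    rw [Nat.card_eq_fintype_card (α := V)]
    omega
  have h3 : (nearGraph G c x0).IsTree := SimpleGraph.isTree_iff_connected_and_card.2 ⟨hconn, h2⟩
  exact h3.2 _ hcyc

theorem pow_one_mod {k : ℕ} (h : (k + 2) % 4 = 3) :
    (-(Complex.I * ((1 : ℝ) : ℂ))) ^ k = -Complex.I := by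
  obtain ⟨q, hq⟩ : ∃ q, k = 4 * q + 1 := ⟨k / 4, by omega⟩
  have h4 : (-Complex.I) ^ 4 = 1 := by rw [neg_pow, Complex.I_pow_four]; norm_num
  rw [hq, Complex.ofReal_one, mul_one, pow_succ, pow_mul, h4, one_pow, one_mul]

theorem pow_one_mod' {k : ℕ} (h : (k + 1) % 4 = 3) :
    (-(Complex.I * ((1 : ℝ) : ℂ))) ^ k = -((1 : ℝ) : ℂ) := by
  obtain ⟨q, hq⟩ : ∃ q, k = 4 * q + 2 := ⟨k / 4, by omega⟩
  have h4 : (-Complex.I) ^ 4 = 1 := by rw [neg_pow, Complex.I_pow_four]; norm_num
  rw [hq, Complex.ofReal_one, mul_one, pow_add, pow_mul, h4, one_pow, one_mul, neg_sq,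
    Complex.I_sq]

theorem pow_neg_mod {k : ℕ} (h : (k + 2) % 4 = 1) :
    (-(Complex.I * ((-1 : ℝ) : ℂ))) ^ k = -Complex.I := by
  obtain ⟨q, hq⟩ : ∃ q, k = 4 * q + 3 := ⟨k / 4, by omega⟩
  have h5 : -(Complex.I * ((-1 : ℝ) : ℂ)) = Complex.I := by push_cast; ring
  rw [h5, hq, pow_add, pow_mul, Complex.I_pow_four, one_pow, one_mul, Complex.I_pow_three]

theorem pow_neg_mod' {k : ℕ} (h : (k + 1) % 4 = 1) :
    (-(Complex.I * ((-1 : ℝ) : ℂ))) ^ k = -((-1 : ℝ) : ℂ) := by
  obtain ⟨q, hq⟩ : ∃ q, k = 4 * q := ⟨k / 4, by omega⟩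
  have h5 : -(Complex.I * ((-1 : ℝ) : ℂ)) = Complex.I := by push_cast; ring
  rw [h5, hq, pow_mul, Complex.I_pow_four, one_pow]
  push_cast
  ring

/-- The case in which all cycles are odd. -/
theorem odd_case {G : SimpleGraph V} [DecidableRel G.Adj] {τ : ℝ} (hG : G.Connected)
    (hτ : (τ = 1 ∧ ∀ (v : V) (p : G.Walk v v), p.IsCycle → p.length % 4 = 3) ∨
      (τ = -1 ∧ ∀ (v : V) (p : G.Walk v v), p.IsCycle → p.length % 4 = 1))
    (hex : ∃ (v : V) (p : G.Walk v v), p.IsCycle)
    {U : Matrix V V ℝ} {lam : V → ℝ} (h1 : U * U.transpose = 1) (h2 : U.transpose * U = 1)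
    (h3 : G.adjMatrix ℝ = U * Matrix.diagonal lam * U.transpose) :
    (Fintype.card V : ℝ) < ∑ i with 0 < τ * lam i, lam i ^ 2 := by
  have hττ : τ * τ = 1 := by rcases hτ with ⟨rfl, -⟩ | ⟨rfl, -⟩ <;> norm_num
  obtain ⟨x0, p, hp⟩ := hex
  obtain ⟨c, hcard, hends⟩ := exists_near hG p hp
  set B := nearGraph G c x0 with hB
  have hBG : B ≤ G := nearGraph_le G c x0
  have hnear : Near B.Adj τ c x0 := by
    refine ⟨fun a b h => h.symm, fun a h => h.ne rfl, fun a b h ha hb => ?_,
      fun y z hyz hy hz k hk => ?_⟩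
    · rcases h.2 with h | h | h
      · exact absurd h ha
      · exact absurd h hb
      · exact h
    · obtain ⟨q, hq, hl⟩ := exists_cycle2 hBG hyz hy hz hk
      rcases hτ with ⟨rfl, h⟩ | ⟨rfl, h⟩
      · exact pow_one_mod (by rw [← hl]; exact h _ q hq)
      · exact pow_neg_mod (by rw [← hl]; exact h _ q hq)
  have hherm := Ar_herm (τ := τ) hnear.symm Finset.univ
  obtain ⟨W, w1, w2, w3⟩ := spec_decomp hherm
  have hU : Ar G.Adj τ Finset.univ = U * Matrix.diagonal (fun i => τ * lam i) * U.transpose := by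
    have h5 : (Matrix.diagonal (fun i => τ * lam i) : Matrix V V ℝ) = τ • Matrix.diagonal lam := by
      ext i j
      by_cases hij : i = j
      · subst hij
        simp
      · simp [hij]
    rw [h5, Matrix.mul_smul, Matrix.smul_mul, ← h3]
    ext a b
    rw [Matrix.smul_apply, SimpleGraph.adjMatrix_apply, smul_eq_mul]
    by_cases hab : G.Adj a b
    · rw [Ar_pos ⟨Finset.mem_univ _, Finset.mem_univ _, hab⟩, if_pos hab, mul_one]
    · rw [Ar_neg fun h => hab h.2.2, if_neg hab, mul_zero]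
  have hdom := domination h1 h2 hU w1 w2 w3 ?_
  · -- the phase
    have htr : ∑ i, hherm.eigenvalues i = 0 := by
      have := hherm.trace_eq_sum_eigenvalues
      simp only [RCLike.ofReal_real_eq_id, id_eq] at this
      rw [← this]
      exact Finset.sum_eq_zero fun i _ => Ar_neg fun h => hnear.irr _ h.2.2
    have hneg : ∀ x, 0 < x → TT (Ar B.Adj τ Finset.univ) x < 0 := fun x hx => hnear.TT_neg hττ hends hx
    have hge := sum_ge hherm htr (k := 0) (fun x hx => by
      rw [zero_mul]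
      exact (hneg x hx).le)
    have hne := sum_ne hherm htr (σ := -1) (fun x hx => by
      have := hneg x hx
      linarith)
    have hpos : 0 < ∑ i, hherm.eigenvalues i * |hherm.eigenvalues i| := by
      rw [mul_zero, neg_zero] at hge
      exact lt_of_le_of_ne hge (Ne.symm hne)
    have hT : (Ar B.Adj τ Finset.univ).transpose = Ar B.Adj τ Finset.univ := by
      have := hherm
      rw [Matrix.IsHermitian, Matrix.conjTranspose_eq_transpose_of_trivial] at this
      exact this
    have hsq : ∑ i, hherm.eigenvalues i ^ 2 = 2 * (B.edgeSet.ncard : ℝ) := by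
      rw [sum_sq w2 w3 hT]
      have h4 : ∀ s t, Ar B.Adj τ Finset.univ s t ^ 2 = if B.Adj s t then 1 else 0 := fun s t => by
        by_cases hst : B.Adj s t
        · rw [if_pos hst, Ar_pos ⟨Finset.mem_univ _, Finset.mem_univ _, hst⟩, pow_two, hττ]
        · rw [if_neg hst, Ar_neg fun h => hst h.2.2]
          norm_num
      have h5 := B.sum_degrees_eq_twice_card_edges
      have h6 : ∀ s, ∑ t, (if B.Adj s t then (1 : ℝ) else 0) = (B.degree s : ℝ) := by
        intro s
        rw [← SimpleGraph.card_neighborFinset_eq_degree, SimpleGraph.neighborFinset_eq_filter]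
        simp
      have h7 : B.edgeSet.ncard = B.edgeFinset.card := by
        rw [← SimpleGraph.coe_edgeFinset, Set.ncard_coe_finset]
      simp only [h4, h6, h7]
      exact_mod_cast h5
    have hle : ∑ i with 0 < τ * lam i, (τ * lam i) ^ 2 = ∑ i with 0 < τ * lam i, lam i ^ 2 := by
      refine Finset.sum_congr rfl fun i _ => ?_
      rw [mul_pow, pow_two τ, hττ, one_mul]
    rw [hle, hsq] at hdom
    rw [Nat.card_coe_set_eq] at hcard
    have hcard' : (Fintype.card V : ℝ) ≤ (B.edgeSet.ncard : ℝ) := by exact_mod_cast hcard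
    linarith
  · intro s t hst
    by_cases hG' : G.Adj s t
    · by_cases hB' : B.Adj s t
      · rw [Ar_pos ⟨Finset.mem_univ _, Finset.mem_univ _, hG'⟩,
          Ar_pos ⟨Finset.mem_univ _, Finset.mem_univ _, hB'⟩] at hst
        exact absurd rfl hst
      · refine ⟨Ar_neg fun h => hB' h.2.2, ?_⟩
        rw [Ar_pos ⟨Finset.mem_univ _, Finset.mem_univ _, hG'⟩]
        refine abs_entry' w1 hG'.ne fun x hx => ?_
        have hinv := hnear.inv hττ hx (u := s) (v := t) fun k hk => by
          obtain ⟨q, hq, hl⟩ := exists_cycle1 hBG hG' hB' hk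
          rcases hτ with ⟨rfl, h⟩ | ⟨rfl, h⟩
          · exact pow_one_mod' (by rw [← hl]; exact h _ q hq)
          · exact pow_neg_mod' (by rw [← hl]; exact h _ q hq)
        rw [re_inv w1 w2 w3 hx] at hinv
        have hx' : 0 < x⁻¹ := inv_pos.2 hx
        have h8 := mul_nonneg hx'.le (neg_nonneg.2 hinv)
        have h9 : x⁻¹ * x = 1 := inv_mul_cancel₀ hx.ne'
        obtain ⟨S1, hS1⟩ : ∃ S1, S1 = ∑ i, (x ^ 2 + hherm.eigenvalues i ^ 2)⁻¹ * (W s i * W t i) :=
          ⟨_, rfl⟩
        rw [← hS1] at h8 ⊢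
        have h10 : x⁻¹ * -(τ * (x * S1)) = -(τ * S1) := by
          linear_combination (-(τ * S1)) * h9
        rw [h10] at h8
        linarith
    · have hB' : ¬ B.Adj s t := fun h => hG' (hBG h)
      rw [Ar_neg fun h => hG' h.2.2, Ar_neg fun h => hB' h.2.2] at hst
      exact absurd rfl hst

end Pool.Agent.MP3b2d6a
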