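import Pool.Agent.Lib.MP_3b2d6a_co.CutC

/-! Path expansion of the adjugate of `s + i τ A`. -/

set_option autoImplicit false
set_option linter.unusedSectionVars false

open Finset Filter Topology Matrix

namespace Pool.Agent.MP3b2d6a

variable {V : Type*} [Fintype V] [DecidableEq V]

/-- `τ` times the adjacency matrix of `r` on `W`. -/
def Ar (r : V → V → Prop) [DecidableRel r] (τ : ℝ) (W : Finset V) : Matrix V V ℝ :=
  fun a b => if a ∈ W ∧ b ∈ W ∧ r a b then τ else 0

variable {r : V → V → Prop} [DecidableRel r] {τ : ℝ}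

theorem Ar_herm (hr : ∀ a b, r a b → r b a) (W : Finset V) : (Ar r τ W).IsHermitian := by
  rw [Matrix.IsHermitian, Matrix.conjTranspose_eq_transpose_of_trivial]
  ext a b
  rw [Matrix.transpose_apply]
  unfold Ar
  by_cases h : a ∈ W ∧ b ∈ W ∧ r a b
  · rw [if_pos h, if_pos ⟨h.2.1, h.1, hr _ _ h.2.2⟩]
  · rw [if_neg h, if_neg fun h' => h ⟨h'.2.1, h'.1, hr _ _ h'.2.2⟩]

theorem Ar_pos {W : Finset V} {a b : V} (h : a ∈ W ∧ b ∈ W ∧ r a b) : Ar r τ W a b = τ := if_pos h

theorem Ar_neg {W : Finset V} {a b : V} (h : ¬ (a ∈ W ∧ b ∈ W ∧ r a b)) : Ar r τ W a b = 0 :=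
  if_neg h

theorem Ar_erase (W : Finset V) (u b : V) : Ar r τ (W.erase u) u b = 0 := by
  unfold Ar
  exact if_neg fun h => (Finset.notMem_erase u W) h.1

theorem Ar_erase' (W : Finset V) (u b : V) : Ar r τ (W.erase u) b u = 0 := by
  unfold Ar
  exact if_neg fun h => (Finset.notMem_erase u W) h.2.1

theorem Ar_ne {W : Finset V} {u a b : V} (ha : a ≠ u) (hb : b ≠ u) :
    Ar r τ (W.erase u) a b = Ar r τ W a b := by
  unfold Ar
  simp only [Finset.mem_erase, ne_eq, ha, hb, not_false_eq_true, true_and]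

theorem NN_apply (M : Matrix V V ℝ) (x : ℝ) (a b : V) :
    NN M x a b = (if a = b then (x : ℂ) else 0) + Complex.I * (M a b : ℂ) := by
  unfold NN cm
  rw [Matrix.add_apply, Matrix.smul_apply, Matrix.smul_apply, Matrix.map_apply, Matrix.one_apply]
  by_cases h : a = b <;> simp [h]

/-- the diagonal entries of the adjugate -/
theorem adj_diag {s : ℝ} (hs : 0 < s) (W : Finset V) (u : V) :
    (NN (Ar r τ W) s).adjugate u u = (NN (Ar r τ (W.erase u)) s).det / s := by
  have hsc : (s : ℂ) ≠ 0 := by exact_mod_cast hs.ne'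
  set M := NN (Ar r τ W) s with hM
  rw [Matrix.adjugate_apply, eq_div_iff hsc, mul_comm]
  have h1 : (M.updateRow u ((s : ℂ) • Pi.single u 1)).det = (s : ℂ) * (M.updateRow u (Pi.single u 1)).det :=
    Matrix.det_updateRow_smul _ _ _ _
  rw [← h1]
  symm
  refine Matrix.det_eq_of_forall_row_eq_smul_add_const (fun i => if i = u then 0 else -(M i u / s)) u
    (if_pos rfl) fun i j => ?_
  by_cases hi : i = u
  · subst hi
    rw [if_pos rfl, zero_mul, add_zero, Matrix.updateRow_self, NN_apply, Ar_erase, Pi.smul_apply,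
      Pi.single_apply]
    by_cases hj : i = j
    · subst hj
      simp
    · rw [if_neg hj, if_neg (Ne.symm hj)]
      simp
  · rw [if_neg hi, Matrix.updateRow_ne hi, Matrix.updateRow_self, Pi.smul_apply, Pi.single_apply]
    by_cases hj : j = u
    · subst hj
      rw [if_pos rfl, NN_apply, Ar_erase', if_neg hi]
      field_simp
      simp
    · rw [if_neg hj, NN_apply, Ar_ne hi hj, hM, NN_apply]
      simp

/-- the pivot formula for the adjugate -/
theorem adj_pivot (hr : ∀ a b, r a b → r b a) {s : ℝ} (hs : 0 < s)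
    {W : Finset V} {u v : V} (huv : u ≠ v) :
    (NN (Ar r τ W) s).adjugate u v = (s : ℂ)⁻¹ *
      ∑ b, -(Complex.I * (Ar r τ W u b : ℂ)) * (NN (Ar r τ (W.erase u)) s).adjugate b v := by
  have hsc : (s : ℂ) ≠ 0 := by exact_mod_cast hs.ne'
  have hd' := det_NN_ne (Ar_herm (τ := τ) hr (W.erase u)) hs
  have hdiag := adj_diag (r := r) (τ := τ) hs W u
  set M := NN (Ar r τ W) s with hM
  set M' := NN (Ar r τ (W.erase u)) s with hM'
  set y : V → ℂ := M'.adjugate *ᵥ Pi.single v 1 with hy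
  have hy' : ∀ b, y b = M'.adjugate b v := fun b => by
    rw [hy, Matrix.mulVec_single_one]
    rfl
  have h1 : M' *ᵥ y = M'.det • Pi.single v 1 := by
    rw [hy, Matrix.mulVec_mulVec, Matrix.mul_adjugate, Matrix.smul_mulVec, Matrix.one_mulVec]
  have h2 : y u = 0 := by
    have h3 := congrFun h1 u
    rw [Pi.smul_apply, Pi.single_eq_of_ne huv, smul_zero] at h3
    have h4 : (M' *ᵥ y) u = s * y u := by
      change ∑ b, M' u b * y b = _
      rw [Finset.sum_eq_single u]
      · rw [hM', NN_apply, Ar_erase, if_pos rfl]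
        simp
      · intro b _ hb
        rw [hM', NN_apply, Ar_erase, if_neg (Ne.symm hb)]
        simp
      · intro h
        exact absurd (Finset.mem_univ _) h
    rw [h4] at h3
    exact (mul_eq_zero.1 h3).resolve_left hsc
  obtain ⟨t, ht⟩ : ∃ t, t = ∑ b, (Complex.I * (Ar r τ W u b : ℂ)) * y b := ⟨_, rfl⟩
  have h3 : M *ᵥ y = M'.det • Pi.single v 1 + t • Pi.single u 1 := by
    rw [← h1]
    ext a
    rw [Pi.add_apply, Pi.smul_apply]
    by_cases ha : a = u
    · subst ha
      rw [h1, Pi.smul_apply, Pi.single_eq_of_ne huv, smul_zero, zero_add, Pi.single_eq_same,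
        smul_eq_mul, mul_one, ht]
      refine Finset.sum_congr rfl fun b _ => ?_
      change M a b * y b = _
      by_cases hb : a = b
      · subst hb
        rw [h2, mul_zero, mul_zero]
      · rw [hM, NN_apply, if_neg hb, zero_add]
    · rw [Pi.single_eq_of_ne ha, smul_zero, add_zero]
      refine Finset.sum_congr rfl fun b _ => ?_
      change M a b * y b = M' a b * y b
      by_cases hb : b = u
      · subst hb
        rw [h2, mul_zero, mul_zero]
      · congr 1
        rw [hM, hM', NN_apply, NN_apply, Ar_ne ha hb]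
  have h5 : M.det • y = M'.det • (M.adjugate *ᵥ Pi.single v 1) +
      t • (M.adjugate *ᵥ Pi.single u 1) := by
    calc M.det • y = M.adjugate *ᵥ (M *ᵥ y) := by
          rw [Matrix.mulVec_mulVec, Matrix.adjugate_mul, Matrix.smul_mulVec, Matrix.one_mulVec]
      _ = _ := by rw [h3, Matrix.mulVec_add, Matrix.mulVec_smul, Matrix.mulVec_smul]
  have h6 := congrFun h5 u
  rw [Pi.smul_apply, h2, smul_zero, Pi.add_apply, Pi.smul_apply, Pi.smul_apply,
    Matrix.mulVec_single_one, Matrix.mulVec_single_one, smul_eq_mul, smul_eq_mul] at h6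
  have h7 : (0 : ℂ) = M'.det * M.adjugate u v + t * M.adjugate u u := h6
  rw [hdiag] at h7
  have h8 : ∑ b, -(Complex.I * (Ar r τ W u b : ℂ)) * M'.adjugate b v = -t := by
    rw [ht, ← Finset.sum_neg_distrib]
    refine Finset.sum_congr rfl fun b _ => ?_
    rw [hy' b]
    ring
  rw [h8]
  have h9 : M'.det * (M.adjugate u v + t / s) = 0 := by
    rw [mul_add]
    linear_combination -h7
  have h10 := (mul_eq_zero.1 h9).resolve_left hd'
  linear_combination h10

theorem adj_symm (hr : ∀ a b, r a b → r b a) (s : ℝ) (W : Finset V) (u v : V) :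
    (NN (Ar r τ W) s).adjugate u v = (NN (Ar r τ W) s).adjugate v u := by
  have h1 : (NN (Ar r τ W) s)ᵀ = NN (Ar r τ W) s := by
    ext a b
    rw [Matrix.transpose_apply, NN_apply, NN_apply]
    have h2 : Ar r τ W b a = Ar r τ W a b := by
      have := congrFun (congrFun (Ar_herm (τ := τ) hr W) a) b
      rw [Matrix.conjTranspose_eq_transpose_of_trivial] at this
      exact this
    rw [h2]
    by_cases h : a = b
    · rw [if_pos h, if_pos h.symm]
    · rw [if_neg h, if_neg (Ne.symm h)]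
  have h2 := Matrix.adjugate_transpose (NN (Ar r τ W) s)
  rw [h1] at h2
  exact (congrFun (congrFun h2 u) v).symm

/-- the determinant in terms of the adjugate after the deletion of one vertex -/
theorem det_expand (hτ : τ * τ = 1) (hr : ∀ a b, r a b → r b a) (hirr : ∀ a, ¬ r a a) {s : ℝ}
    (hs : 0 < s) (W : Finset V) (u : V) :
    (NN (Ar r τ W) s).det = (NN (Ar r τ (W.erase u)) s).det + (s : ℂ)⁻¹ *
      ∑ b, ∑ z, (if (u ∈ W ∧ b ∈ W ∧ r u b) ∧ (u ∈ W ∧ z ∈ W ∧ r u z) then
        (NN (Ar r τ (W.erase u)) s).adjugate z b else 0) := by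
  have hsc : (s : ℂ) ≠ 0 := by exact_mod_cast hs.ne'
  have hττ : (τ : ℂ) * τ = 1 := by exact_mod_cast hτ
  have h1 := congrFun (congrFun (Matrix.mul_adjugate (NN (Ar r τ W) s)) u) u
  rw [Matrix.smul_apply, Matrix.one_apply_eq, smul_eq_mul, mul_one, Matrix.mul_apply] at h1
  rw [← h1, ← Finset.add_sum_erase _ _ (Finset.mem_univ u), adj_diag hs W u, NN_apply,
    if_pos rfl]
  have h2 : Ar r τ W u u = 0 := by
    unfold Ar
    exact if_neg fun h => hirr _ h.2.2
  rw [h2]
  have h3 : ∀ b ∈ Finset.univ.erase u, NN (Ar r τ W) s u b * (NN (Ar r τ W) s).adjugate b u =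
      (s : ℂ)⁻¹ * ∑ z, (if (u ∈ W ∧ b ∈ W ∧ r u b) ∧ (u ∈ W ∧ z ∈ W ∧ r u z) then
        (NN (Ar r τ (W.erase u)) s).adjugate z b else 0) := by
    intro b hb
    have hbu : u ≠ b := (Finset.mem_erase.1 hb).1.symm
    rw [adj_symm hr, adj_pivot hr hs hbu, NN_apply, if_neg hbu, zero_add, mul_left_comm,
      Finset.mul_sum]
    congr 1
    refine Finset.sum_congr rfl fun z _ => ?_
    by_cases e1 : u ∈ W ∧ b ∈ W ∧ r u b
    · by_cases e2 : u ∈ W ∧ z ∈ W ∧ r u z
      · rw [Ar_pos e1, Ar_pos e2, if_pos ⟨e1, e2⟩]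
        linear_combination (-(τ * τ * (NN (Ar r τ (W.erase u)) s).adjugate z b)) * Complex.I_mul_I +
          (NN (Ar r τ (W.erase u)) s).adjugate z b * hττ
      · rw [Ar_neg e2, if_neg fun h => e2 h.2]
        simp
    · rw [Ar_neg e1, if_neg fun h => e1 h.1]
      simp
  rw [Finset.sum_congr rfl h3, ← Finset.mul_sum]
  have h4 : ∑ z, (if (u ∈ W ∧ u ∈ W ∧ r u u) ∧ (u ∈ W ∧ z ∈ W ∧ r u z) then
        (NN (Ar r τ (W.erase u)) s).adjugate z u else 0) = 0 :=
    Finset.sum_eq_zero fun z _ => if_neg fun h => hirr _ h.1.2.2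
  rw [← Finset.add_sum_erase Finset.univ (fun b => ∑ z, (if (u ∈ W ∧ b ∈ W ∧ r u b) ∧
    (u ∈ W ∧ z ∈ W ∧ r u z) then (NN (Ar r τ (W.erase u)) s).adjugate z b else 0))
    (Finset.mem_univ u), h4, zero_add]
  congr 1
  field_simp
  simp

end Pool.Agent.MP3b2d6a
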