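import Pool.Agent.Lib.MP_3b2d6a_co.Cx

/-! Cones which contain the determinants and the entries of the adjugate. -/

set_option autoImplicit false
set_option linter.unusedSectionVars false

open Finset Filter Topology Matrix

namespace Pool.Agent.MP3b2d6a

variable {V : Type*} [Fintype V] [DecidableEq V]

/-- a convex cone in the right half plane -/
structure Cone (D : ℂ → Prop) : Prop where
  zero : D 0
  add : ∀ p q, D p → D q → D (p + q)
  smul : ∀ (t : ℝ) q, 0 < t → D q → D (t * q)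
  re : ∀ q, D q → 0 ≤ q.re

theorem Cone.sum {D : ℂ → Prop} (hD : Cone D) {ι : Type*} (s : Finset ι) (f : ι → ℂ)
    (h : ∀ i ∈ s, D (f i)) : D (∑ i ∈ s, f i) := by
  classical
  induction s using Finset.induction_on with
  | empty => simpa using hD.zero
  | insert a s ha ih =>
    rw [Finset.sum_insert ha]
    exact hD.add _ _ (h a (Finset.mem_insert_self _ _))
      (ih fun i hi => h i (Finset.mem_insert_of_mem hi))

theorem cone_real : Cone fun q => q.im = 0 ∧ 0 ≤ q.re where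
  zero := by simp
  add p q hp hq := by
    rw [Complex.add_im, Complex.add_re, hp.1, hq.1]
    exact ⟨add_zero _, add_nonneg hp.2 hq.2⟩
  smul t q ht hq := by
    rw [Complex.im_ofReal_mul, Complex.re_ofReal_mul, hq.1]
    exact ⟨mul_zero _, mul_nonneg ht.le hq.2⟩
  re q hq := hq.2

theorem cone_quad : Cone fun q => q.im ≤ 0 ∧ 0 ≤ q.re where
  zero := by simp
  add p q hp hq := by
    rw [Complex.add_im, Complex.add_re]
    exact ⟨add_nonpos hp.1 hq.1, add_nonneg hp.2 hq.2⟩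
  smul t q ht hq := by
    rw [Complex.im_ofReal_mul, Complex.re_ofReal_mul]
    exact ⟨mul_nonpos_of_nonneg_of_nonpos ht.le hq.1, mul_nonneg ht.le hq.2⟩
  re q hq := hq.2

variable {r : V → V → Prop} [DecidableRel r] {τ : ℝ}

theorem cone_adj {D : ℂ → Prop} (hD : Cone D) (hτ : τ * τ = 1) (hr : ∀ a b, r a b → r b a)
    (hirr : ∀ a, ¬ r a a) {s : ℝ} (hs : 0 < s) :
    ∀ (n : ℕ) (W : Finset V), W.card = n →
      (∀ W' : Finset V, W' ⊂ W → D (NN (Ar r τ W') s).det ∧ 0 < (NN (Ar r τ W') s).det.re) →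
      ∀ u ∈ W, ∀ v ∈ W, ∀ ω : ℂ, (∀ k, PathIn r W u v k → (-(Complex.I * τ)) ^ k = ω) →
        ∃ q, D q ∧ (NN (Ar r τ W) s).adjugate u v = ω * q ∧
          ((∃ k, PathIn r W u v k) → 0 < q.re) := by
  classical
  have hττ : (τ : ℂ) * τ = 1 := by exact_mod_cast hτ
  intro n
  induction n with
  | zero =>
    intro W hW _ u hu
    rw [Finset.card_eq_zero] at hW
    subst hW
    exact absurd hu (Finset.notMem_empty _)
  | succ n ih =>
    intro W hW hdet u hu v hv ω hω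
    by_cases huv : u = v
    · subst huv
      have h1 := hω 0 (PathIn.nil hu)
      rw [pow_zero] at h1
      have h2 := hdet (W.erase u) (Finset.erase_ssubset hu)
      refine ⟨((s⁻¹ : ℝ) : ℂ) * (NN (Ar r τ (W.erase u)) s).det, hD.smul _ _ (inv_pos.2 hs) h2.1, ?_,
        fun _ => ?_⟩
      · rw [← h1, one_mul, adj_diag hs W u]
        push_cast
        ring
      · rw [Complex.re_ofReal_mul]
        exact mul_pos (inv_pos.2 hs) h2.2
    · have hW' : (W.erase u).card = n := by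
        rw [Finset.card_erase_of_mem hu, hW]
        rfl
      have hv' : v ∈ W.erase u := Finset.mem_erase.2 ⟨fun h => huv h.symm, hv⟩
      have hterm : ∀ b, ∃ q : ℂ, D q ∧ (b ∈ W ∧ r u b →
          (NN (Ar r τ (W.erase u)) s).adjugate b v = (Complex.I * τ * ω) * q ∧
          ((∃ k, PathIn r (W.erase u) b v k) → 0 < q.re)) ∧ (¬ (b ∈ W ∧ r u b) → q = 0) := by
        intro b
        by_cases hb : b ∈ W ∧ r u b
        · have hne : b ≠ u := fun h => hirr u (h ▸ hb.2)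
          obtain ⟨q, h1, h2, h3⟩ := ih (W.erase u) hW'
            (fun W' h => hdet W' (h.trans (Finset.erase_ssubset hu))) b
            (Finset.mem_erase.2 ⟨hne, hb.1⟩) v hv' (Complex.I * τ * ω) fun k hk => by
              have h4 := hω (k + 1) (PathIn.cons hu hb.2 hk)
              rw [← h4, pow_succ]
              linear_combination (-(-(Complex.I * τ)) ^ k * (τ * τ)) * (-Complex.I_mul_I) -
                (-(Complex.I * τ)) ^ k * hττ
          exact ⟨q, h1, fun _ => ⟨h2, h3⟩, fun h => absurd hb h⟩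
        · exact ⟨0, hD.zero, fun h => absurd h hb, fun _ => rfl⟩
      choose q hq1 hq2 hq3 using hterm
      refine ⟨((s⁻¹ : ℝ) : ℂ) * ∑ b, q b, hD.smul _ _ (inv_pos.2 hs)
        (hD.sum _ _ fun b _ => hq1 b), ?_, ?_⟩
      · rw [adj_pivot hr hs huv, mul_left_comm]
        push_cast
        congr 1
        rw [Finset.mul_sum]
        refine Finset.sum_congr rfl fun b _ => ?_
        by_cases hb : b ∈ W ∧ r u b
        · rw [Ar_pos ⟨hu, hb⟩, (hq2 b hb).1]
          linear_combination (-(τ * τ * ω * q b)) * Complex.I_mul_I + (ω * q b) * hττ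
        · rw [Ar_neg fun h => hb h.2, hq3 b hb]
          simp
      · rintro ⟨k, hk⟩
        rw [Complex.re_ofReal_mul, Complex.re_sum]
        refine mul_pos (inv_pos.2 hs) ?_
        cases hk with
        | nil _ => exact absurd rfl huv
        | @cons _ _ w _ k _ h hp =>
          have hw : w ∈ W := (Finset.mem_erase.1 hp.mem_left).2
          exact Finset.sum_pos' (fun b _ => hD.re _ (hq1 b))
            ⟨w, Finset.mem_univ _, (hq2 w ⟨hw, h⟩).2 ⟨k, hp⟩⟩

theorem PathIn.mono {r : V → V → Prop} {W : Finset V} {u v : V} {k : ℕ} (h : PathIn r W u v k) :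
    ∀ W' : Finset V, W ⊆ W' → PathIn r W' u v k := by
  induction h with
  | nil hv => exact fun W' hW => PathIn.nil (hW hv)
  | cons hu h _ ih => exact fun W' hW => PathIn.cons (hW hu) h (ih _ (Finset.erase_subset_erase _ hW))

theorem TT_bip (hr : ∀ a b, r a b → r b a) {c : V → Bool} {W : Finset V}
    (hc : ∀ a ∈ W, ∀ b ∈ W, r a b → c a ≠ c b) {s : ℝ} (hs : 0 < s) : TT (Ar r τ W) s = 0 := by
  refine TT_eq_zero (Ar_herm hr W) (s := fun v => if c v then 1 else -1) ?_ ?_ hs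
  · intro i
    split_ifs <;> norm_num
  · intro u v
    by_cases h1 : u ∈ W ∧ v ∈ W ∧ r u v
    · rw [Ar_pos h1]
      have h2 := hc u h1.1 v h1.2.1 h1.2.2
      cases hu : c u <;> cases hv : c v <;> simp_all
    · rw [Ar_neg h1]
      simp

theorem det_bip (hr : ∀ a b, r a b → r b a) {c : V → Bool} {W : Finset V}
    (hc : ∀ a ∈ W, ∀ b ∈ W, r a b → c a ≠ c b) {s : ℝ} (hs : 0 < s) :
    (NN (Ar r τ W) s).det.im = 0 ∧ 0 < (NN (Ar r τ W) s).det.re := by
  obtain ⟨d, hd, h⟩ := ph_NN (Ar_herm (τ := τ) hr W) hs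
  rw [TT_bip hr hc hs] at h
  rw [h]
  simp [hd]

/-- the data of a graph which is bipartite outside `x0` -/
structure Near (r : V → V → Prop) (τ : ℝ) (c : V → Bool) (x0 : V) : Prop where
  symm : ∀ a b, r a b → r b a
  irr : ∀ a, ¬ r a a
  col : ∀ a b, r a b → a ≠ x0 → b ≠ x0 → c a ≠ c b
  path : ∀ y z, y ≠ z → r x0 y → r x0 z → ∀ k, PathIn r (Finset.univ.erase x0) y z k →
    (-(Complex.I * τ)) ^ k = -Complex.I

theorem Near.colW {c : V → Bool} {x0 : V} (h : Near r τ c x0) {W : Finset V} (hW : x0 ∉ W) :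
    ∀ a ∈ W, ∀ b ∈ W, r a b → c a ≠ c b := fun a ha b hb hab =>
  h.col a b hab (fun h' => hW (h' ▸ ha)) fun h' => hW (h' ▸ hb)

theorem Near.term {c : V → Bool} {x0 : V} (h : Near r τ c x0) (hτ : τ * τ = 1) {s : ℝ} (hs : 0 < s)
    {W : Finset V} (hW : x0 ∉ W) {y z : V} (hy : y ∈ W) (hz : z ∈ W) (hxy : r x0 y)
    (hxz : r x0 z) :
    (NN (Ar r τ W) s).adjugate y z = (NN (Ar r τ W) s).adjugate y z ∧
    ((NN (Ar r τ W) s).adjugate y z).im ≤ 0 ∧ 0 ≤ ((NN (Ar r τ W) s).adjugate y z).re ∧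
    (y ≠ z → (∃ k, PathIn r W y z k) → ((NN (Ar r τ W) s).adjugate y z).im < 0) := by
  refine ⟨rfl, ?_⟩
  have hsub : ∀ W' : Finset V, W' ⊂ W → ((NN (Ar r τ W') s).det.im = 0 ∧
      0 ≤ (NN (Ar r τ W') s).det.re) ∧ 0 < (NN (Ar r τ W') s).det.re := by
    intro W' hW'
    have := det_bip (τ := τ) h.symm (h.colW fun hx => hW (hW'.subset hx)) hs (W := W')
    exact ⟨⟨this.1, this.2.le⟩, this.2⟩
  by_cases hyz : y = z
  · subst hyz
    rw [adj_diag hs W y]
    have h1 := (hsub (W.erase y) (Finset.erase_ssubset hy)).1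
    rw [Complex.div_ofReal_im, Complex.div_ofReal_re, h1.1, zero_div]
    exact ⟨le_rfl, div_nonneg h1.2 hs.le, fun h => absurd rfl h⟩
  · obtain ⟨q, hq1, hq2, hq3⟩ := cone_adj cone_real hτ h.symm h.irr hs _ W rfl hsub y hy z hz
      (-Complex.I) fun k hk => h.path y z hyz hxy hxz k
        (hk.mono _ fun a ha => Finset.mem_erase.2 ⟨fun h' => hW (h' ▸ ha), Finset.mem_univ _⟩)
    rw [hq2]
    have e1 : (-Complex.I * q).im = -q.re := by simp
    have e2 : (-Complex.I * q).re = q.im := by simp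
    rw [e1, e2, hq1.1]
    exact ⟨neg_nonpos.2 hq1.2, le_rfl, fun _ hk => neg_neg_of_pos (hq3 hk)⟩

theorem Near.det {c : V → Bool} {x0 : V} (h : Near r τ c x0) (hτ : τ * τ = 1) {s : ℝ} (hs : 0 < s)
    (W : Finset V) :
    (NN (Ar r τ W) s).det.im ≤ 0 ∧ 0 < (NN (Ar r τ W) s).det.re ∧
    (x0 ∈ W → (∃ y z, y ≠ z ∧ r x0 y ∧ r x0 z ∧ z ∈ W ∧ ∃ k, PathIn r (W.erase x0) y z k) →
      (NN (Ar r τ W) s).det.im < 0) := by
  by_cases hW : x0 ∈ W
  · have hx : x0 ∉ W.erase x0 := Finset.notMem_erase _ _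
    have hd := det_bip (τ := τ) h.symm (h.colW hx) hs
    have hterm : ∀ b z : V,
        (if (x0 ∈ W ∧ b ∈ W ∧ r x0 b) ∧ (x0 ∈ W ∧ z ∈ W ∧ r x0 z) then
          (NN (Ar r τ (W.erase x0)) s).adjugate z b else 0).im ≤ 0 ∧
        0 ≤ (if (x0 ∈ W ∧ b ∈ W ∧ r x0 b) ∧ (x0 ∈ W ∧ z ∈ W ∧ r x0 z) then
          (NN (Ar r τ (W.erase x0)) s).adjugate z b else 0).re ∧
        (z ≠ b → r x0 z → r x0 b → b ∈ W → (∃ k, PathIn r (W.erase x0) z b k) →
          (if (x0 ∈ W ∧ b ∈ W ∧ r x0 b) ∧ (x0 ∈ W ∧ z ∈ W ∧ r x0 z) then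
          (NN (Ar r τ (W.erase x0)) s).adjugate z b else 0).im < 0) := by
      intro b z
      by_cases hbz : (x0 ∈ W ∧ b ∈ W ∧ r x0 b) ∧ (x0 ∈ W ∧ z ∈ W ∧ r x0 z)
      · rw [if_pos hbz]
        have hb : b ∈ W.erase x0 :=
          Finset.mem_erase.2 ⟨fun h' => h.irr x0 (h' ▸ hbz.1.2.2), hbz.1.2.1⟩
        have hz : z ∈ W.erase x0 :=
          Finset.mem_erase.2 ⟨fun h' => h.irr x0 (h' ▸ hbz.2.2.2), hbz.2.2.1⟩
        obtain ⟨-, t1, t2, t3⟩ := h.term hτ hs hx hz hb hbz.2.2.2 hbz.1.2.2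
        exact ⟨t1, t2, fun h1 _ _ _ h2 => t3 h1 h2⟩
      · rw [if_neg hbz]
        refine ⟨by simp, by simp, fun _ h2 h3 h4 ⟨k, hk⟩ => absurd ⟨⟨hW, h4, h3⟩, hW, ?_, h2⟩ hbz⟩
        exact (Finset.mem_erase.1 hk.mem_left).2
    rw [det_expand hτ h.symm h.irr hs W x0]
    have hsi : (s : ℂ)⁻¹ = ((s⁻¹ : ℝ) : ℂ) := by push_cast; rfl
    rw [hsi, Complex.add_im, Complex.add_re, Complex.im_ofReal_mul, Complex.re_ofReal_mul,
      Complex.im_sum, Complex.re_sum, hd.1, zero_add]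
    simp only [Complex.im_sum, Complex.re_sum]
    have hsp : 0 < s⁻¹ := inv_pos.2 hs
    refine ⟨?_, ?_, ?_⟩
    · refine mul_nonpos_of_nonneg_of_nonpos hsp.le ?_
      exact Finset.sum_nonpos fun b _ => Finset.sum_nonpos fun z _ => (hterm b z).1
    · refine add_pos_of_pos_of_nonneg hd.2 (mul_nonneg hsp.le ?_)
      exact Finset.sum_nonneg fun b _ => Finset.sum_nonneg fun z _ => (hterm b z).2.1
    · rintro - ⟨y, z, hyz, hxy, hxz, hzW, hk⟩
      refine mul_neg_of_pos_of_neg hsp ?_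
      rw [← Left.neg_pos_iff, ← Finset.sum_neg_distrib]
      refine Finset.sum_pos' (fun b _ => ?_) ⟨z, Finset.mem_univ _, ?_⟩
      · rw [Left.nonneg_neg_iff]
        exact Finset.sum_nonpos fun z _ => (hterm b z).1
      · rw [← Finset.sum_neg_distrib]
        refine Finset.sum_pos' (fun b _ => ?_) ⟨y, Finset.mem_univ _, ?_⟩
        · rw [Left.nonneg_neg_iff]
          exact (hterm z b).1
        · rw [Left.neg_pos_iff]
          exact (hterm z y).2.2 hyz hxy hxz hzW hk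
  · have hd := det_bip (τ := τ) h.symm (h.colW hW) hs
    exact ⟨hd.1.le, hd.2, fun h' => absurd h' hW⟩

/-- The sign of the entries of the inverse, near-bipartite case. -/
theorem Near.inv {c : V → Bool} {x0 : V} (h : Near r τ c x0) (hτ : τ * τ = 1) {s : ℝ} (hs : 0 < s)
    {u v : V} (huv : ∀ k, PathIn r Finset.univ u v k → (-(Complex.I * τ)) ^ k = -τ) :
    τ * ((NN (Ar r τ Finset.univ) s)⁻¹ u v).re ≤ 0 := by
  have hd := h.det hτ hs Finset.univ
  obtain ⟨q, hq1, hq2, -⟩ := cone_adj cone_quad hτ h.symm h.irr hs _ Finset.univ rfl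
    (fun W' _ => ⟨⟨(h.det hτ hs W').1, (h.det hτ hs W').2.1.le⟩, (h.det hτ hs W').2.1⟩) u
    (Finset.mem_univ _) v (Finset.mem_univ _) (-τ) huv
  have hd0 := det_NN_ne (Ar_herm (τ := τ) h.symm Finset.univ) hs
  set d := (NN (Ar r τ Finset.univ) s).det with hdd
  have h1 : (NN (Ar r τ Finset.univ) s)⁻¹ u v = -τ * (q / d) := by
    rw [Matrix.inv_def, Matrix.smul_apply, hq2, ← hdd, Ring.inverse_eq_inv', smul_eq_mul]
    ring
  rw [h1]
  have h2 : (-(τ : ℂ) * (q / d)).re = -τ * (q / d).re := by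
    rw [← Complex.ofReal_neg, Complex.re_ofReal_mul]
  have h3 : 0 ≤ (q / d).re := by
    rw [Complex.div_re]
    have h4 : 0 ≤ q.re * d.re / Complex.normSq d :=
      div_nonneg (mul_nonneg hq1.2 hd.2.1.le) (Complex.normSq_nonneg _)
    have h5 : 0 ≤ q.im * d.im / Complex.normSq d :=
      div_nonneg (mul_nonneg_of_nonpos_of_nonpos hq1.1 hd.1) (Complex.normSq_nonneg _)
    exact add_nonneg h4 h5
  rw [h2]
  nlinarith

end Pool.Agent.MP3b2d6a
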