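import Pool.Agent.Lib.MP_3b2d6a_co.Bip

/-! Odd cycles. -/

set_option autoImplicit false
set_option linter.unusedSectionVars false

open Finset Filter Topology Matrix

namespace Pool.Agent.MP3b2d6a

/-- Fibonacci polynomials -/
def FP (x : ℝ) : ℕ → ℝ
  | 0 => 0
  | 1 => 1
  | (k + 2) => x * FP x (k + 1) + FP x k

theorem FP_succ (x : ℝ) (k : ℕ) : FP x (k + 2) = x * FP x (k + 1) + FP x k := rfl

theorem FP_nonneg {x : ℝ} (hx : 0 < x) : ∀ k, 0 ≤ FP x k ∧ 0 < FP x (k + 1)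
  | 0 => ⟨le_rfl, one_pos⟩
  | k + 1 => by
    obtain ⟨h1, h2⟩ := FP_nonneg hx k
    refine ⟨h2.le, ?_⟩
    rw [FP_succ]
    positivity

theorem FP_pos {x : ℝ} (hx : 0 < x) {k : ℕ} (hk : 1 ≤ k) : 0 < FP x k := by
  obtain ⟨j, rfl⟩ := Nat.exists_eq_add_of_le hk
  rw [add_comm]
  exact (FP_nonneg hx j).2

theorem FP_step {x : ℝ} (hx : 0 < x) (k : ℕ) : FP x k ≤ FP x (k + 2) := by
  rw [FP_succ]
  have := mul_pos hx (FP_nonneg hx k).2
  linarith

theorem FP_mono {x : ℝ} (hx : 0 < x) (k : ℕ) : ∀ q, FP x k ≤ FP x (k + 2 * q)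
  | 0 => le_rfl
  | q + 1 => (FP_mono hx k q).trans (FP_step hx (k + 2 * q))

theorem path_sum {n j : ℕ} (Y : ℕ → ℂ) :
    ∑ k ∈ range n, (if k = j + 1 ∨ j = k + 1 then Y k else 0) =
      (if j + 1 < n then Y (j + 1) else 0) + (if 1 ≤ j ∧ j - 1 < n then Y (j - 1) else 0) := by
  have h1 : ∀ k, (if k = j + 1 ∨ j = k + 1 then Y k else 0) =
      (if j + 1 = k then Y k else 0) + (if 1 ≤ j then (if j - 1 = k then Y k else 0) else 0) := by
    intro k
    by_cases hk : k = j + 1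
    · rw [if_pos (Or.inl hk), if_pos hk.symm]
      by_cases hj : 1 ≤ j
      · rw [if_pos hj, if_neg (by omega), add_zero]
      · rw [if_neg hj, add_zero]
    · by_cases hk2 : j = k + 1
      · rw [if_pos (Or.inr hk2), if_neg (Ne.symm hk), if_pos (by omega), if_pos (by omega), zero_add]
      · rw [if_neg (by tauto), if_neg (Ne.symm hk)]
        by_cases hj : 1 ≤ j
        · rw [if_pos hj, if_neg (by omega), add_zero]
        · rw [if_neg hj, add_zero]
  rw [Finset.sum_congr rfl fun k _ => h1 k, Finset.sum_add_distrib, Finset.sum_ite_eq]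
  congr 1
  · simp only [mem_range]
  · by_cases hj : 1 ≤ j
    · simp only [if_pos hj, Finset.sum_ite_eq, mem_range]
      by_cases h2 : j - 1 < n
      · rw [if_pos h2, if_pos ⟨hj, h2⟩]
      · rw [if_neg h2, if_neg fun h => h2 h.2]
    · simp only [if_neg hj, Finset.sum_const_zero]
      rw [if_neg fun h => hj h.1]

/-- First column of the inverse. -/
theorem colA {x : ℝ} {n j : ℕ} (hn : 2 ≤ n) (hj : j < n) {u : ℕ → ℂ}
    (hu : ∀ k, u k = (-Complex.I) ^ k * (FP x (n - k) : ℂ)) :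
    (x : ℂ) * u j + Complex.I * ((if j + 1 < n then u (j + 1) else 0) +
      (if 1 ≤ j ∧ j - 1 < n then u (j - 1) else 0)) = if j = 0 then (FP x (n + 1) : ℂ) else 0 := by
  have h1 : (if j + 1 < n then u (j + 1) else 0) = u (j + 1) := by
    split_ifs with h
    · rfl
    · rw [hu, show n - (j + 1) = 0 by omega]
      simp [FP]
  rw [h1]
  rcases Nat.eq_zero_or_pos j with rfl | h0
  · rw [if_neg (by omega), if_pos rfl, hu, hu]
    obtain ⟨m, rfl⟩ := Nat.exists_eq_add_of_le hn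
    rw [show 2 + m - 0 = m + 2 by omega, show 2 + m - (0 + 1) = m + 1 by omega,
      show 2 + m + 1 = (m + 1) + 2 by omega, FP_succ x (m + 1)]
    push_cast
    linear_combination (-(FP x (m + 1) : ℂ)) * Complex.I_mul_I
  · rw [if_pos ⟨h0, by omega⟩, if_neg (by omega), hu, hu, hu]
    obtain ⟨i, rfl⟩ := Nat.exists_eq_add_of_le h0
    obtain ⟨m, rfl⟩ := Nat.exists_eq_add_of_lt hj
    rw [show 1 + i + m + 1 - (1 + i) = m + 1 by omega, show 1 + i + m + 1 - (1 + i + 1) = m by omega,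
      show 1 + i - 1 = i by omega, show 1 + i + m + 1 - i = m + 2 by omega, FP_succ x m,
      show 1 + i + 1 = i + 2 by omega, show 1 + i = i + 1 by omega]
    push_cast
    rw [pow_add, pow_add]
    generalize (-Complex.I) ^ i = z
    linear_combination (z * (FP x m : ℂ) * Complex.I) * Complex.I_mul_I

theorem colB {x : ℝ} {n j : ℕ} (hn : 2 ≤ n) (hj : j < n) {w : ℕ → ℂ}
    (hw : ∀ k, k < n → w k = (-Complex.I) ^ (n - 1 - k) * (FP x (k + 1) : ℂ)) :
    (x : ℂ) * w j + Complex.I * ((if j + 1 < n then w (j + 1) else 0) +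
      (if 1 ≤ j ∧ j - 1 < n then w (j - 1) else 0)) =
        if j = n - 1 then (FP x (n + 1) : ℂ) else 0 := by
  have h := colA (x := x) (j := n - 1 - j) hn (by omega) (u := fun k =>
    (-Complex.I) ^ k * (FP x (n - k) : ℂ)) fun k => rfl
  have e0 : w j = (-Complex.I) ^ (n - 1 - j) * (FP x (n - (n - 1 - j)) : ℂ) := by
    rw [hw j hj, show n - (n - 1 - j) = j + 1 by omega]
  have e1 : (if j + 1 < n then w (j + 1) else 0) = if 1 ≤ n - 1 - j ∧ n - 1 - j - 1 < n then
      (-Complex.I) ^ (n - 1 - j - 1) * (FP x (n - (n - 1 - j - 1)) : ℂ) else 0 := by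
    by_cases h1 : j + 1 < n
    · rw [if_pos h1, if_pos (by omega), hw _ h1, show n - 1 - (j + 1) = n - 1 - j - 1 by omega,
        show n - (n - 1 - j - 1) = j + 1 + 1 by omega]
    · rw [if_neg h1, if_neg (by omega)]
  have e2 : (if 1 ≤ j ∧ j - 1 < n then w (j - 1) else 0) = if n - 1 - j + 1 < n then
      (-Complex.I) ^ (n - 1 - j + 1) * (FP x (n - (n - 1 - j + 1)) : ℂ) else 0 := by
    by_cases h1 : 1 ≤ j
    · rw [if_pos ⟨h1, by omega⟩, if_pos (by omega), hw _ (by omega),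
        show n - 1 - (j - 1) = n - 1 - j + 1 by omega,
        show n - (n - 1 - j + 1) = j - 1 + 1 by omega]
    · rw [if_neg (fun h => h1 h.1), if_neg (by omega)]
  rw [e0, e1, e2, add_comm (if 1 ≤ n - 1 - j ∧ n - 1 - j - 1 < n then
      (-Complex.I) ^ (n - 1 - j - 1) * (FP x (n - (n - 1 - j - 1)) : ℂ) else 0), h]
  by_cases h3 : j = n - 1
  · rw [if_pos h3, if_pos (by omega)]
  · rw [if_neg h3, if_neg (by omega)]

variable {V : Type*} [Fintype V] [DecidableEq V]

/-- `W` is the vertex set of an induced cycle with `2 q + 1` vertices. -/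
structure Cyc (G : SimpleGraph V) (W : Set V) (q : ℕ) (p : ℕ → V) : Prop where
  pos : 1 ≤ q
  inj : ∀ i ≤ 2 * q, ∀ j ≤ 2 * q, p i = p j → i = j
  mem : ∀ v, v ∈ W ↔ ∃ i ≤ 2 * q, p i = v
  adj : ∀ i ≤ 2 * q, ∀ j ≤ 2 * q,
    (G.Adj (p i) (p j) ↔ (j = i + 1 ∨ i = j + 1 ∨ (i = 0 ∧ j = 2 * q) ∨ (i = 2 * q ∧ j = 0)))

variable {G : SimpleGraph V} {W : Set V} {q : ℕ} {p : ℕ → V}

theorem Cyc.col (h : Cyc G W q p) {j : ℕ} (hj : j ≤ 2 * q) : Col G (W \ {p j}) := by
  classical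
  refine ⟨fun v => decide (∃ i ≤ 2 * q, p i = v ∧ ((i < j ∧ i % 2 = 0) ∨ (j < i ∧ i % 2 = 1))),
    ?_⟩
  rintro u ⟨hu, hur⟩ v ⟨hv, hvr⟩ ha
  obtain ⟨a, ha1, rfl⟩ := (h.mem u).1 hu
  obtain ⟨b, hb1, rfl⟩ := (h.mem v).1 hv
  have haj : a ≠ j := fun h' => hur (by rw [h']; rfl)
  have hbj : b ≠ j := fun h' => hvr (by rw [h']; rfl)
  have key : ∀ c ≤ 2 * q, ((∃ i ≤ 2 * q, p i = p c ∧ ((i < j ∧ i % 2 = 0) ∨ (j < i ∧ i % 2 = 1))) ↔
      ((c < j ∧ c % 2 = 0) ∨ (j < c ∧ c % 2 = 1))) := by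
    intro c hc
    constructor
    · rintro ⟨i, hi, hic, h1⟩
      have := h.inj i hi c hc hic
      subst this
      exact h1
    · intro h1
      exact ⟨c, hc, rfl, h1⟩
  rw [h.adj a ha1 b hb1] at ha
  intro hcon
  rw [decide_eq_decide, key a ha1, key b hb1] at hcon
  omega

theorem AW_mulVec_sum (W : Set V) (n : ℕ) (Y : ℕ → ℂ) (s : ℕ → V) (u : V) :
    (cm (AW G W) *ᵥ (fun v => ∑ k ∈ range n, if s k = v then Y k else 0)) u =
      ∑ k ∈ range n, (AW G W u (s k) : ℂ) * Y k := by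
  rw [Matrix.mulVec, dotProduct]
  simp only [Finset.mul_sum]
  rw [Finset.sum_comm]
  refine Finset.sum_congr rfl fun k _ => ?_
  simp only [mul_ite, mul_zero, Finset.sum_ite_eq, Finset.mem_univ, if_true]
  rfl

theorem Cyc.Q_eq (h : Cyc G W q p) {x : ℝ} (hx : 0 < x) :
    Q G W (p 0) x = (2 * (FP x (2 * q) : ℂ) + 2 * (-1) ^ q * Complex.I) / (FP x (2 * q + 1) : ℂ) := by
  obtain ⟨n, hn⟩ : ∃ n, n = 2 * q := ⟨_, rfl⟩
  have hq := h.pos
  have hn2 : 2 ≤ n := by omega
  have hF : (FP x (n + 1) : ℂ) ≠ 0 := by exact_mod_cast (FP_nonneg hx n).2.ne'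
  obtain ⟨u, hu⟩ : ∃ u : ℕ → ℂ, u = fun k => (-Complex.I) ^ k * (FP x (n - k) : ℂ) := ⟨_, rfl⟩
  obtain ⟨w, hw⟩ : ∃ w : ℕ → ℂ, w = fun k => (-Complex.I) ^ (n - 1 - k) * (FP x (k + 1) : ℂ) :=
    ⟨_, rfl⟩
  obtain ⟨Y, hY⟩ : ∃ Y : ℕ → ℂ, Y = fun k => (u k + w k) / (FP x (n + 1) : ℂ) := ⟨_, rfl⟩
  obtain ⟨y, hy⟩ : ∃ y : V → ℂ, y = fun v => ∑ k ∈ range n, if p (k + 1) = v then Y k else 0 :=
    ⟨_, rfl⟩
  -- values of `y`
  have hyp : ∀ j < n, y (p (j + 1)) = Y j := by
    intro j hj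
    rw [hy]
    change (∑ k ∈ range n, if p (k + 1) = p (j + 1) then Y k else 0) = _
    rw [Finset.sum_eq_single_of_mem j (mem_range.2 hj)]
    · rw [if_pos rfl]
    · intro k hk hkj
      rw [if_neg]
      intro h1
      have := h.inj (k + 1) (by have := mem_range.1 hk; omega) (j + 1) (by omega) h1
      omega
  have hyn : ∀ v, v ∉ W \ {p 0} → y v = 0 := by
    intro v hv
    rw [hy]
    refine Finset.sum_eq_zero fun k hk => ?_
    rw [if_neg]
    rintro rfl
    have hk' := mem_range.1 hk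
    refine hv ⟨(h.mem _).2 ⟨k + 1, by omega, rfl⟩, fun h1 => ?_⟩
    have := h.inj (k + 1) (by omega) 0 (by omega) h1
    omega
  have hmem : ∀ j < n, p (j + 1) ∈ W \ {p 0} := by
    intro j hj
    refine ⟨(h.mem _).2 ⟨j + 1, by omega, rfl⟩, fun h1 => ?_⟩
    have := h.inj (j + 1) (by omega) 0 (by omega) h1
    omega
  have hA : ∀ j < n, ∀ k < n, AW G (W \ {p 0}) (p (j + 1)) (p (k + 1)) =
      if k = j + 1 ∨ j = k + 1 then 1 else 0 := by
    intro j hj k hk
    unfold AW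
    have h1 := h.adj (j + 1) (by omega) (k + 1) (by omega)
    by_cases h2 : k = j + 1 ∨ j = k + 1
    · rw [if_pos h2, if_pos ⟨hmem j hj, hmem k hk, h1.2 (by omega)⟩]
    · rw [if_neg h2, if_neg]
      rintro ⟨-, -, h3⟩
      rw [h1] at h3
      omega
  have hav : ∀ k < n, av G W (p 0) (p (k + 1)) = if k = 0 ∨ k = n - 1 then 1 else 0 := by
    intro k hk
    unfold av
    have h1 := h.adj 0 (by omega) (k + 1) (by omega)
    by_cases h2 : k = 0 ∨ k = n - 1
    · rw [if_pos h2, if_pos ⟨(hmem k hk).1, h1.2 (by omega)⟩]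
    · rw [if_neg h2, if_neg]
      rintro ⟨-, h3⟩
      rw [h1] at h3
      omega
  have hav0 : ∀ v, v ∉ W \ {p 0} → av G W (p 0) v = 0 := by
    intro v hv
    unfold av
    rw [if_neg]
    rintro ⟨h1, h2⟩
    refine hv ⟨h1, ?_⟩
    rintro rfl
    exact G.loopless.irrefl _ h2
  have hsol : NN (AW G (W \ {p 0})) x *ᵥ y = cv (av G W (p 0)) := by
    ext v
    rw [NN_mulVec]
    by_cases hv : v ∈ W \ {p 0}
    · obtain ⟨i, hi, hiv⟩ := (h.mem v).1 hv.1
      have hi0 : i ≠ 0 := by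
        rintro rfl
        exact hv.2 hiv.symm
      obtain ⟨j, rfl⟩ := Nat.exists_eq_succ_of_ne_zero hi0
      have hjn : j < n := by omega
      rw [← hiv, Nat.succ_eq_add_one, Pi.add_apply, Pi.smul_apply, Pi.smul_apply, smul_eq_mul,
        smul_eq_mul, hyp j hjn]
      have e1 : (cm (AW G (W \ {p 0})) *ᵥ y) (p (j + 1)) =
          ∑ k ∈ range n, (if k = j + 1 ∨ j = k + 1 then Y k else 0) := by
        rw [hy, AW_mulVec_sum (W \ {p 0}) n Y (fun k => p (k + 1))]
        refine Finset.sum_congr rfl fun k hk => ?_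
        rw [hA j hjn k (mem_range.1 hk)]
        split_ifs <;> simp
      rw [e1, path_sum]
      have a1 := colA (x := x) hn2 hjn (u := u) (fun k => by rw [hu])
      have a2 := colB (x := x) hn2 hjn (w := w) (fun k _ => by rw [hw])
      have e2 : ∀ c : Prop, ∀ [Decidable c], ∀ k : ℕ, (if c then Y k else 0) =
          ((if c then u k else 0) + (if c then w k else 0)) / (FP x (n + 1) : ℂ) := by
        intro c _ k
        split_ifs
        · rw [hY]
        · simp
      have e3 : cv (av G W (p 0)) (p (j + 1)) = (if j = 0 then 1 else 0) +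
          (if j = n - 1 then 1 else 0) := by
        unfold cv
        rw [hav j hjn]
        by_cases h4 : j = 0
        · rw [if_pos (Or.inl h4), if_pos h4, if_neg (by omega)]
          simp
        · by_cases h5 : j = n - 1
          · rw [if_pos (Or.inr h5), if_neg h4, if_pos h5]
            simp
          · rw [if_neg (by tauto), if_neg h4, if_neg h5]
            simp
      rw [e2, e2, e3, hY]
      have e4 : (if j = 0 then (FP x (n + 1) : ℂ) else 0) =
          (if j = 0 then 1 else 0) * (FP x (n + 1) : ℂ) := by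
        split_ifs <;> simp
      have e5 : (if j = n - 1 then (FP x (n + 1) : ℂ) else 0) =
          (if j = n - 1 then 1 else 0) * (FP x (n + 1) : ℂ) := by
        split_ifs <;> simp
      rw [e4] at a1
      rw [e5] at a2
      rw [eq_comm, ← sub_eq_zero]
      field_simp
      linear_combination -a1 - a2
    · rw [Pi.add_apply, Pi.smul_apply, Pi.smul_apply, hyn v hv]
      have e1 : (cm (AW G (W \ {p 0})) *ᵥ y) v = 0 := by
        rw [Matrix.mulVec, dotProduct]
        refine Finset.sum_eq_zero fun k _ => ?_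
        unfold cm
        rw [Matrix.map_apply, AW_zero_left G hv, map_zero, zero_mul]
      rw [e1]
      unfold cv
      rw [hav0 v hv]
      simp
  unfold Q
  rw [qq_of_sol (AW_herm G _) hx hsol]
  have e1 : cv (av G W (p 0)) ⬝ᵥ y = ∑ k ∈ range n, (av G W (p 0) (p (k + 1)) : ℂ) * Y k := by
    rw [hy, dotProduct]
    simp only [Finset.mul_sum]
    rw [Finset.sum_comm]
    refine Finset.sum_congr rfl fun k _ => ?_
    simp only [mul_ite, mul_zero, Finset.sum_ite_eq, Finset.mem_univ, if_true]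
    rfl
  have e2 : cv (av G W (p 0)) ⬝ᵥ y = Y 0 + Y (n - 1) := by
    rw [e1, ← Finset.sum_subset (s₁ := {0, n - 1})]
    · rw [Finset.sum_pair (by omega), hav 0 (by omega), hav (n - 1) (by omega), if_pos (Or.inl rfl),
        if_pos (Or.inr rfl)]
      simp
    · intro k hk
      rw [mem_insert, mem_singleton] at hk
      rw [mem_range]
      omega
    · intro k hk hk2
      rw [mem_insert, mem_singleton] at hk2
      rw [hav k (mem_range.1 hk), if_neg hk2]
      simp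
  rw [e2, hY]
  change (u 0 + w 0) / (FP x (n + 1) : ℂ) + (u (n - 1) + w (n - 1)) / (FP x (n + 1) : ℂ) = _
  rw [hu, hw, ← hn, ← add_div]
  congr 1
  change (-Complex.I) ^ 0 * (FP x (n - 0) : ℂ) + (-Complex.I) ^ (n - 1 - 0) * (FP x (0 + 1) : ℂ) +
    ((-Complex.I) ^ (n - 1) * (FP x (n - (n - 1)) : ℂ) +
      (-Complex.I) ^ (n - 1 - (n - 1)) * (FP x (n - 1 + 1) : ℂ)) = _
  have e6 : (-Complex.I) ^ (n - 1) = (-1) ^ q * Complex.I := by
    obtain ⟨m, rfl⟩ := Nat.exists_eq_add_of_le hq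
    rw [hn, show 2 * (1 + m) - 1 = 2 * m + 1 by omega, pow_succ, pow_mul, neg_sq, Complex.I_sq,
      pow_add, pow_one]
    ring
  rw [show n - (n - 1) = 1 by omega, show n - 1 + 1 = n by omega, show n - 1 - 0 = n - 1 by omega,
    show n - 1 - (n - 1) = 0 by omega, e6, show n - 0 = n by omega]
  have e7 : FP x (0 + 1) = 1 := rfl
  rw [e7]
  push_cast
  ring

theorem Cyc.T_eq (h : Cyc G W q p) {x : ℝ} (hx : 0 < x) :
    T G W x = Real.arctan (2 * (-1) ^ q / (x * FP x (2 * q + 1) + 2 * FP x (2 * q))) := by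
  have h0 : p 0 ∈ W := (h.mem _).2 ⟨0, by omega, rfl⟩
  rw [T_pivot G h0 hx, (h.col (Nat.zero_le _)).T_eq_zero hx, zero_add, h.Q_eq hx]
  have hF := (FP_nonneg hx (2 * q)).2
  have hF0 := (FP_nonneg hx (2 * q)).1
  generalize FP x (2 * q + 1) = a at *
  generalize FP x (2 * q) = b at *
  have e1 : (2 * (b : ℂ) + 2 * (-1) ^ q * Complex.I) / (a : ℂ) =
      ((2 * b / a : ℝ) : ℂ) + ((2 * (-1) ^ q / a : ℝ) : ℂ) * Complex.I := by
    push_cast
    ring
  rw [e1]
  congr 1
  rw [Complex.add_re, Complex.add_im, Complex.re_ofReal_mul, Complex.im_ofReal_mul,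
    Complex.ofReal_re, Complex.ofReal_im, Complex.I_re, Complex.I_im, mul_zero, mul_one, add_zero,
    zero_add]
  field_simp

theorem Cyc.sub (h : Cyc G W q p) {W' : Set V} (hW : W' ⊆ W) :
    W' = W ∨ Col G W' := by
  by_cases h1 : W ⊆ W'
  · exact Or.inl (subset_antisymm hW h1)
  · right
    obtain ⟨v, hv, hv'⟩ := Set.not_subset.1 h1
    obtain ⟨j, hj, rfl⟩ := (h.mem v).1 hv
    refine (h.col hj).mono fun u hu => ⟨hW hu, fun h2 => hv' ?_⟩
    rw [← (h2 : u = p j)]
    exact hu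

theorem Cyc.den_pos (_h : Cyc G W q p) {x : ℝ} (hx : 0 < x) :
    0 < x * FP x (2 * q + 1) + 2 * FP x (2 * q) := by
  have h1 := mul_pos hx (FP_nonneg hx (2 * q)).2
  have h2 := (FP_nonneg hx (2 * q)).1
  linarith

/-- the phase of the cycle with five vertices -/
noncomputable def tau (x : ℝ) : ℝ := Real.arctan (2 / (x ^ 5 + 5 * x ^ 3 + 5 * x))

theorem tau_nonneg {x : ℝ} (hx : 0 < x) : 0 ≤ tau x := by
  unfold tau
  rw [← Real.arctan_zero]
  exact Real.arctan_strictMono.monotone (by positivity)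

theorem Cyc.T_le (h : Cyc G W q p) {x : ℝ} (hx : 0 < x) {W' : Set V} (hW : W' ⊆ W) :
    T G W' x ≤ tau x := by
  have hnn := tau_nonneg hx
  rcases h.sub hW with rfl | hc
  · rw [h.T_eq hx]
    have hd := h.den_pos hx
    rcases Nat.even_or_odd q with he | ho
    · rw [he.neg_one_pow, mul_one]
      have h5 : x ^ 5 + 5 * x ^ 3 + 5 * x ≤ x * FP x (2 * q + 1) + 2 * FP x (2 * q) := by
        have h1 := h.pos
        obtain ⟨m, hm⟩ : ∃ m, q = m + 2 := ⟨q - 2, by
          obtain ⟨r, hr⟩ := he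
          omega⟩
        have h2 := FP_mono hx 5 m
        have h3 := FP_mono hx 4 m
        rw [show 5 + 2 * m = 2 * q + 1 by omega] at h2
        rw [show 4 + 2 * m = 2 * q by omega] at h3
        have h4 : FP x 5 = x ^ 4 + 3 * x ^ 2 + 1 := by
          simp only [FP]
          ring
        have h5 : FP x 4 = x ^ 3 + 2 * x := by
          simp only [FP]
          ring
        have h6 := mul_le_mul_of_nonneg_left h2 hx.le
        rw [h4] at h6
        rw [h5] at h3
        nlinarith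
      refine Real.arctan_strictMono.monotone ?_
      exact div_le_div_of_nonneg_left (by norm_num) (by positivity) h5
    · rw [ho.neg_one_pow]
      refine le_trans ?_ hnn
      rw [← Real.arctan_zero]
      refine Real.arctan_strictMono.monotone ?_
      exact div_nonpos_of_nonpos_of_nonneg (by norm_num) hd.le
  · rw [hc.T_eq_zero hx]
    exact hnn

theorem Cyc.T_nonpos (h : Cyc G W q p) (ho : Odd q) {x : ℝ} (hx : 0 < x) {W' : Set V}
    (hW : W' ⊆ W) : T G W' x ≤ 0 := by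
  rcases h.sub hW with rfl | hc
  · rw [h.T_eq hx, ho.neg_one_pow, ← Real.arctan_zero]
    refine Real.arctan_strictMono.monotone ?_
    exact div_nonpos_of_nonpos_of_nonneg (by norm_num) (h.den_pos hx).le
  · rw [hc.T_eq_zero hx]

theorem Cyc.sgn (h : Cyc G W q p) : ∃ σ : ℝ, Sg σ ∧ (∀ x, 0 < x → 0 < σ * T G W x) ∧
    ∀ W' ⊆ W, ∀ x, 0 < x → 0 ≤ σ * T G W' x := by
  have key : ∃ σ : ℝ, Sg σ ∧ ∀ x, 0 < x → 0 < σ * T G W x := by
    rcases Nat.even_or_odd q with he | ho
    · refine ⟨1, Or.inl rfl, fun x hx => ?_⟩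
      rw [one_mul, h.T_eq hx, he.neg_one_pow, ← Real.arctan_zero]
      refine Real.arctan_strictMono ?_
      have := h.den_pos hx
      positivity
    · refine ⟨-1, Or.inr rfl, fun x hx => ?_⟩
      rw [neg_one_mul, h.T_eq hx, ho.neg_one_pow, neg_pos, ← Real.arctan_zero]
      refine Real.arctan_strictMono ?_
      exact div_neg_of_neg_of_pos (by norm_num) (h.den_pos hx)
  obtain ⟨σ, hσ, h1⟩ := key
  refine ⟨σ, hσ, h1, fun W' hW x hx => ?_⟩
  rcases h.sub hW with rfl | hc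
  · exact (h1 x hx).le
  · rw [hc.T_eq_zero hx, mul_zero]

end Pool.Agent.MP3b2d6a
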