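import Pool.Agent.Lib.MP_3b2d6a_co.Cy

/-! Domination of a near-bipartite spanning subgraph. -/

set_option autoImplicit false
set_option linter.unusedSectionVars false

open Finset Filter Topology Matrix

namespace Pool.Agent.MP3b2d6a

variable {V : Type*} [Fintype V] [DecidableEq V]

/-- the entries of the real part of `(s + i M)⁻¹` -/
theorem re_inv {M U : Matrix V V ℝ} {lam : V → ℝ} (h1 : U * Uᵀ = 1) (h2 : Uᵀ * U = 1)
    (h3 : M = U * diagonal lam * Uᵀ) {s : ℝ} (hs : 0 < s) (u v : V) :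
    ((NN M s)⁻¹ u v).re = s * ∑ i, (s ^ 2 + lam i ^ 2)⁻¹ * (U u i * U v i) := by
  have h6 : (cm U)ᵀ * cm U = 1 := by rw [← cm_transpose, ← cm_mul, h2, cm_one]
  have h7 : cm U * (cm U)ᵀ = 1 := by rw [← cm_transpose, ← cm_mul, h1, cm_one]
  have hD : (diagonal (fun j => (s : ℂ) + lam j * Complex.I) : Matrix V V ℂ) *
      diagonal (fun j => ((s : ℂ) + lam j * Complex.I)⁻¹) = 1 := by
    rw [Matrix.diagonal_mul_diagonal, ← Matrix.diagonal_one]
    congr 1
    ext j
    exact mul_inv_cancel₀ (ne_zero_of_pos hs)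
  have hinv : (NN M s)⁻¹ = cm U * diagonal (fun j => ((s : ℂ) + lam j * Complex.I)⁻¹) * (cm U)ᵀ := by
    refine Matrix.inv_eq_right_inv ?_
    rw [NN_decomp h1 h3]
    calc _ = cm U * (diagonal (fun j => (s : ℂ) + lam j * Complex.I) *
          ((cm U)ᵀ * cm U) * diagonal (fun j => ((s : ℂ) + lam j * Complex.I)⁻¹)) *
            (cm U)ᵀ := by simp only [Matrix.mul_assoc]
      _ = 1 := by rw [h6, Matrix.mul_one, hD, Matrix.mul_one, h7]
  rw [hinv, Matrix.mul_apply, Complex.re_sum, Finset.mul_sum]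
  refine Finset.sum_congr rfl fun i _ => ?_
  rw [Matrix.mul_diagonal, Matrix.transpose_apply]
  have e1 : cm U u i * ((s : ℂ) + lam i * Complex.I)⁻¹ * cm U v i =
      ((U u i * U v i : ℝ) : ℂ) * ((s : ℂ) + lam i * Complex.I)⁻¹ := by
    have a1 : cm U u i = (U u i : ℂ) := rfl
    have a2 : cm U v i = (U v i : ℂ) := rfl
    rw [a1, a2]
    push_cast
    ring
  rw [e1, term_re]
  ring

/-- `|A|` entrywise, from the entries of `(s ^ 2 + A ^ 2)⁻¹` -/
theorem abs_entry' {U : Matrix V V ℝ} {lam : V → ℝ} {τ : ℝ} (h1 : U * Uᵀ = 1) {u v : V}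
    (huv : u ≠ v)
    (hs : ∀ s : ℝ, 0 < s → τ * ∑ i, (s ^ 2 + lam i ^ 2)⁻¹ * (U u i * U v i) ≤ 0) :
    0 ≤ τ * ∑ i, |lam i| * (U u i * U v i) := by
  set g : ℝ → ℝ := fun R => τ * ∑ i, ha (lam i) R * (U u i * U v i) with hg
  have hW : ∑ i, U u i * U v i = 0 := by
    have := congrFun (congrFun h1 u) v
    rw [Matrix.mul_apply, Matrix.one_apply_ne huv] at this
    exact this
  have hgd : ∀ R : ℝ, 0 < R → HasDerivAt g
      (-(R ^ 2) * (τ * ∑ i, (R ^ 2 + lam i ^ 2)⁻¹ * (U u i * U v i))) R := by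
    intro R hR
    have h4 : HasDerivAt g (τ * ∑ i, lam i ^ 2 / (lam i ^ 2 + R ^ 2) * (U u i * U v i)) R := by
      rw [hg]
      exact (HasDerivAt.fun_sum fun i _ => (ha_deriv (lam i) hR).mul_const _).const_mul τ
    refine h4.congr_deriv ?_
    have h5 : ∀ i, lam i ^ 2 / (lam i ^ 2 + R ^ 2) * (U u i * U v i) =
        U u i * U v i - R ^ 2 * ((R ^ 2 + lam i ^ 2)⁻¹ * (U u i * U v i)) := by
      intro i
      have : 0 < R ^ 2 + lam i ^ 2 := by positivity
      rw [add_comm (lam i ^ 2)]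
      field_simp
      ring
    rw [Finset.sum_congr rfl fun i _ => h5 i, Finset.sum_sub_distrib, hW, ← Finset.mul_sum]
    ring
  have hgc : ContinuousOn g (Set.Ici 0) := by
    refine Continuous.continuousOn ?_
    rw [hg]
    exact continuous_const.mul
      (continuous_finsetSum _ fun i _ => (ha_cont _).mul continuous_const)
  have hg0 : g 0 = 0 := by
    simp only [hg, ha_zero, zero_mul, Finset.sum_const_zero, mul_zero]
  have hmono : MonotoneOn g (Set.Ici 0) := by
    refine monotoneOn_of_deriv_nonneg (convex_Ici 0) hgc ?_ ?_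
    · rw [interior_Ici]
      exact fun x hx => (hgd x hx).differentiableAt.differentiableWithinAt
    · rw [interior_Ici]
      intro x hx
      rw [(hgd x hx).deriv]
      have := hs x hx
      have hx' : (0 : ℝ) < x := hx
      have hx2 : 0 < x ^ 2 := by positivity
      nlinarith
  have hlim : Tendsto g atTop (𝓝 (τ * ∑ i, (|lam i| * (Real.pi / 2)) * (U u i * U v i))) := by
    rw [hg]
    exact (tendsto_finsetSum _ fun i _ => (ha_lim (lam i)).mul_const _).const_mul τ
  have hval : τ * ∑ i, (|lam i| * (Real.pi / 2)) * (U u i * U v i) =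
      Real.pi / 2 * (τ * ∑ i, |lam i| * (U u i * U v i)) := by
    have h5 : ∑ i, (|lam i| * (Real.pi / 2)) * (U u i * U v i) =
        Real.pi / 2 * ∑ i, |lam i| * (U u i * U v i) := by
      rw [Finset.mul_sum]
      exact Finset.sum_congr rfl fun i _ => by ring
    rw [h5]
    ring
  rw [hval] at hlim
  have hpi := Real.pi_pos
  have hge : g 0 ≤ Real.pi / 2 * (τ * ∑ i, |lam i| * (U u i * U v i)) := by
    refine ge_of_tendsto hlim ?_
    filter_upwards [eventually_ge_atTop 0] with x hx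
    exact hmono (Set.mem_Ici.2 le_rfl) hx hx
  rw [hg0] at hge
  by_contra hneg
  push Not at hneg
  nlinarith

/-- The positive part of the matrix `MB` is a test matrix for `M = MB + N`. -/
theorem domination {M MB U W : Matrix V V ℝ} {lam mu : V → ℝ} (h1 : U * Uᵀ = 1)
    (h2 : Uᵀ * U = 1) (h3 : M = U * diagonal lam * Uᵀ) (w1 : W * Wᵀ = 1) (w2 : Wᵀ * W = 1)
    (w3 : MB = W * diagonal mu * Wᵀ)
    (hN : ∀ s t, M s t ≠ MB s t → MB s t = 0 ∧
      0 ≤ M s t * ∑ i, |mu i| * (W s i * W t i)) :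
    (∑ i, mu i ^ 2 + ∑ i, mu i * |mu i|) / 2 ≤ ∑ i with 0 < lam i, lam i ^ 2 := by
  set p : V → ℝ := fun k => (|mu k| + mu k) / 2 with hp
  have hp0 : ∀ k, 0 ≤ p k := by
    intro k
    have h4 : -(mu k) ≤ |mu k| := neg_le_abs _
    simp only [hp]
    linarith
  have hpp : ∀ k, p k ^ 2 = (mu k ^ 2 + mu k * |mu k|) / 2 := by
    intro k
    simp only [hp]
    have h4 : |mu k| ^ 2 = mu k ^ 2 := sq_abs _
    linear_combination (1 / 4 : ℝ) * h4
  obtain ⟨m, hm⟩ : ∃ m, m = ∑ k, p k ^ 2 := ⟨_, rfl⟩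
  have hm' : (∑ i, mu i ^ 2 + ∑ i, mu i * |mu i|) / 2 = m := by
    rw [hm, Finset.sum_congr rfl fun k _ => hpp k, ← Finset.sum_div, Finset.sum_add_distrib]
  have hWA : ∀ s t, MB s t = ∑ k, mu k * (W s k * W t k) := by
    intro s t
    rw [w3, Matrix.mul_apply]
    refine Finset.sum_congr rfl fun k _ => ?_
    rw [Matrix.mul_diagonal, Matrix.transpose_apply]
    ring
  set E : V → V → ℝ := fun s t => ∑ k, |mu k| * (W s k * W t k) with hE
  have hP : ∀ s t, ∑ k, p k * (W s k * W t k) = (E s t + MB s t) / 2 := by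
    intro s t
    rw [hWA, hE, ← Finset.sum_add_distrib, Finset.sum_div]
    refine Finset.sum_congr rfl fun k _ => ?_
    simp only [hp]
    ring
  set T : ℝ := ∑ k, p k * ∑ s, ∑ t, M s t * (W s k * W t k) with hT
  have hT1 : T = ∑ s, ∑ t, M s t * ((E s t + MB s t) / 2) := by
    rw [hT]
    simp only [← hP, Finset.mul_sum]
    rw [Finset.sum_comm]
    refine Finset.sum_congr rfl fun s _ => ?_
    rw [Finset.sum_comm]
    refine Finset.sum_congr rfl fun t _ => ?_
    refine Finset.sum_congr rfl fun k _ => ?_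
    ring
  have hT2 : m = ∑ s, ∑ t, MB s t * ((E s t + MB s t) / 2) := by
    have h4 : ∀ k, p k ^ 2 = p k * mu k := by
      intro k
      rw [hpp k]
      simp only [hp]
      ring
    have h5 : ∀ k, ∑ s, ∑ t, MB s t * (W s k * W t k) = mu k := by
      intro k
      have h6 : Wᵀ * MB * W = diagonal mu := by
        rw [w3]
        calc Wᵀ * (W * diagonal mu * Wᵀ) * W = (Wᵀ * W) * diagonal mu * (Wᵀ * W) := by
              simp only [Matrix.mul_assoc]
          _ = _ := by rw [w2, Matrix.one_mul, Matrix.mul_one]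
      have h7 := congrFun (congrFun h6 k) k
      rw [Matrix.mul_apply, Matrix.diagonal_apply_eq] at h7
      rw [← h7, Finset.sum_comm]
      refine Finset.sum_congr rfl fun t _ => ?_
      rw [Matrix.mul_apply, Finset.sum_mul]
      refine Finset.sum_congr rfl fun s _ => ?_
      rw [Matrix.transpose_apply]
      ring
    rw [hm, Finset.sum_congr rfl fun k _ => h4 k]
    have h8 : ∀ k, p k * mu k = ∑ s, ∑ t, p k * (MB s t * (W s k * W t k)) := by
      intro k
      rw [← h5 k]
      simp only [Finset.mul_sum]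
    rw [Finset.sum_congr rfl fun k _ => h8 k]
    simp only [← hP, Finset.mul_sum]
    rw [Finset.sum_comm]
    refine Finset.sum_congr rfl fun s _ => ?_
    rw [Finset.sum_comm]
    refine Finset.sum_congr rfl fun t _ => ?_
    refine Finset.sum_congr rfl fun k _ => ?_
    ring
  have hmT : m ≤ T := by
    rw [hT1, hT2]
    refine Finset.sum_le_sum fun s _ => Finset.sum_le_sum fun t _ => ?_
    by_cases hst : M s t = MB s t
    · rw [hst]
    · obtain ⟨h4, h5⟩ := hN s t hst
      rw [h4, zero_mul, add_zero]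
      have : M s t * (E s t / 2) = (M s t * E s t) / 2 := by ring
      rw [this]
      exact div_nonneg h5 (by norm_num)
  have hm0 : 0 ≤ m := by
    rw [hm]
    exact Finset.sum_nonneg fun k _ => sq_nonneg _
  have h5 := testM (p := p) h1 h2 h3 w1 hp0 (hm0.trans hmT)
  rw [← hm] at h5
  change T ^ 2 ≤ _ at h5
  rw [hm']
  have hS : 0 ≤ ∑ i with 0 < lam i, lam i ^ 2 := Finset.sum_nonneg fun i _ => sq_nonneg _
  rcases hm0.eq_or_lt with h0 | h0
  · rw [← h0]
    exact hS
  · by_contra hcon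
    push Not at hcon
    nlinarith

variable {r : V → V → Prop} [DecidableRel r] {τ : ℝ}

/-- The phase of a near-bipartite graph with an odd cycle is negative. -/
theorem Near.TT_neg {c : V → Bool} {x0 : V} (h : Near r τ c x0) (hτ : τ * τ = 1)
    (hcyc : ∃ y z, y ≠ z ∧ r x0 y ∧ r x0 z ∧ ∃ k, PathIn r (Finset.univ.erase x0) y z k)
    {s : ℝ} (hs : 0 < s) : TT (Ar r τ Finset.univ) s < 0 := by
  have hherm := Ar_herm (τ := τ) h.symm Finset.univ
  have hherm' := Ar_herm (τ := τ) h.symm (Finset.univ.erase x0)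
  have hx : x0 ∉ Finset.univ.erase x0 := Finset.notMem_erase _ _
  have h1 := pivot (r := x0) (a := fun v => Ar r τ Finset.univ v x0) hherm' hherm
    (Ar_neg fun h' => h.irr _ h'.2.2) (fun i => Ar_erase' _ _ _) (fun i => Ar_erase _ _ _) ?_ hs
  · rw [TT_bip h.symm (h.colW hx) hs, zero_add] at h1
    obtain ⟨d, hd, hdet⟩ := ph_NN hherm hs
    obtain ⟨y, z, hyz, hxy, hxz, hk⟩ := hcyc
    have h2 := (h.det hτ hs Finset.univ).2.2 (Finset.mem_univ _)
      ⟨y, z, hyz, hxy, hxz, Finset.mem_univ _, hk⟩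
    rw [hdet, Complex.im_ofReal_mul, Complex.exp_ofReal_mul_I_im] at h2
    by_contra hcon
    push Not at hcon
    have h3 : TT (Ar r τ Finset.univ) s < Real.pi / 2 := by
      rw [h1]
      exact Real.arctan_lt_pi_div_two _
    have h4 : 0 ≤ Real.sin (TT (Ar r τ Finset.univ) s) :=
      Real.sin_nonneg_of_nonneg_of_le_pi hcon (by linarith [Real.pi_pos])
    nlinarith
  · ext a b
    rw [Matrix.add_apply, Matrix.add_apply, vecMulVec_apply, vecMulVec_apply, Pi.single_apply,
      Pi.single_apply]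
    by_cases ha : a = x0
    · subst ha
      rw [Ar_erase, if_pos rfl, zero_add, one_mul]
      by_cases hb : b = a
      · subst hb
        have : Ar r τ Finset.univ b b = 0 := Ar_neg fun h' => h.irr _ h'.2.2
        rw [this]
        simp
      · rw [if_neg hb, mul_zero, zero_add]
        have := congrFun (congrFun hherm b) a
        rw [Matrix.conjTranspose_eq_transpose_of_trivial] at this
        exact this
    · rw [if_neg ha, zero_mul, add_zero]
      by_cases hb : b = x0
      · subst hb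
        rw [Ar_erase', if_pos rfl, mul_one, zero_add]
      · rw [if_neg hb, mul_zero, add_zero, Ar_ne ha hb]

end Pool.Agent.MP3b2d6a
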