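import Pool.Agent.Lib.MP_3b2d6a_co.AdPrim

/-! The exact lemma: the cost of one vertex with a fixed spectral measure. -/

set_option autoImplicit false
set_option linter.unusedSectionVars false

open Finset Filter Topology Matrix

namespace Pool.Agent.MP3b2d6a

/-- a primitive on the half line -/
theorem ex_prim {f : ℝ → ℝ} (hf : ∀ x, 0 < x → ContinuousAt f x) :
    ∃ P : ℝ → ℝ, ∀ x, 0 < x → HasDerivAt P (f x) x := by
  refine ⟨fun x => ∫ t in (1 : ℝ)..x, f t, fun x hx => ?_⟩
  have hcont : ContinuousOn f (Set.Ioi 0) := fun x hx => (hf x hx).continuousWithinAt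
  have hsub : Set.uIcc 1 x ⊆ Set.Ioi (0 : ℝ) := by
    intro t ht
    have : min 1 x ≤ t := ht.1
    exact (lt_min one_pos hx).trans_le this
  refine intervalIntegral.integral_hasDerivAt_right ?_ ?_ (hf x hx)
  · exact (hcont.mono hsub).intervalIntegrable
  · exact hcont.stronglyMeasurableAtFilter isOpen_Ioi x hx

theorem ex_arctan_ge {u : ℝ} (hu : 0 ≤ u) :
    u - u ^ 3 / 3 + u ^ 5 / 5 - u ^ 7 / 7 ≤ Real.arctan u := by
  have hd : ∀ y : ℝ, HasDerivAt (fun y => Real.arctan y - (y - y ^ 3 / 3 + y ^ 5 / 5 - y ^ 7 / 7))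
      (1 / (1 + y ^ 2) - (1 - y ^ 2 + y ^ 4 - y ^ 6)) y := by
    intro y
    have h1 := (((hasDerivAt_id y).fun_sub ((hasDerivAt_pow 3 y).div_const 3)).fun_add
      ((hasDerivAt_pow 5 y).div_const 5)).fun_sub ((hasDerivAt_pow 7 y).div_const 7)
    refine ((Real.hasDerivAt_arctan y).fun_sub h1).congr_deriv ?_
    norm_num
  have hmono : MonotoneOn (fun y => Real.arctan y - (y - y ^ 3 / 3 + y ^ 5 / 5 - y ^ 7 / 7))
      (Set.Ici 0) := by
    refine monotoneOn_of_deriv_nonneg (convex_Ici 0)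
      (fun y _ => (hd y).continuousAt.continuousWithinAt)
      (fun y _ => (hd y).differentiableAt.differentiableWithinAt) ?_
    intro y _
    rw [(hd y).deriv]
    have h1 : (0 : ℝ) < 1 + y ^ 2 := by positivity
    have e : 1 / (1 + y ^ 2) - (1 - y ^ 2 + y ^ 4 - y ^ 6) = y ^ 8 / (1 + y ^ 2) := by
      field_simp
      ring
    rw [e]
    positivity
  have h := hmono (Set.mem_Ici.2 (le_refl (0 : ℝ))) (Set.mem_Ici.2 hu) hu
  simp only [Real.arctan_zero] at h
  norm_num at h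
  linarith

variable {ι : Type*}

/-- the imaginary part -/
noncomputable def exN (s : Finset ι) (w l : ι → ℝ) (x : ℝ) : ℝ :=
  ∑ i ∈ s, w i * (-l i / (x ^ 2 + l i ^ 2))

/-- the real part -/
noncomputable def exR (s : Finset ι) (w l : ι → ℝ) (x : ℝ) : ℝ :=
  ∑ i ∈ s, w i * (x / (x ^ 2 + l i ^ 2))

/-- the negative part of the sum -/
noncomputable def exM (s : Finset ι) (w l : ι → ℝ) (x : ℝ) : ℝ :=
  ∑ i ∈ s, (if l i < 0 then w i * (-l i / (x ^ 2 + l i ^ 2)) else 0)

noncomputable def exf (s : Finset ι) (w l : ι → ℝ) (x : ℝ) : ℝ :=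
  Real.arctan (max (exN s w l x) 0 / (x + exR s w l x))

theorem exR_nonneg {s : Finset ι} {w l : ι → ℝ} (hw : ∀ i ∈ s, 0 ≤ w i) {x : ℝ} (hx : 0 < x) :
    0 ≤ exR s w l x :=
  Finset.sum_nonneg fun i hi => mul_nonneg (hw i hi) (by positivity)

theorem exM_nonneg {s : Finset ι} {w l : ι → ℝ} (hw : ∀ i ∈ s, 0 ≤ w i) {x : ℝ} (hx : 0 < x) :
    0 ≤ exM s w l x := by
  refine Finset.sum_nonneg fun i hi => ?_
  split_ifs with h
  · exact mul_nonneg (hw i hi) (div_nonneg (by linarith) (by positivity))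
  · exact le_refl 0

theorem exN_le_exM {s : Finset ι} {w l : ι → ℝ} (hw : ∀ i ∈ s, 0 ≤ w i) {x : ℝ} (hx : 0 < x) :
    exN s w l x ≤ exM s w l x := by
  refine Finset.sum_le_sum fun i hi => ?_
  split_ifs with h
  · exact le_refl _
  · have h1 : -l i / (x ^ 2 + l i ^ 2) ≤ 0 :=
      div_nonpos_of_nonpos_of_nonneg (by linarith) (by positivity)
    exact mul_nonpos_of_nonneg_of_nonpos (hw i hi) h1

theorem exf_cont {s : Finset ι} {w l : ι → ℝ} (hw : ∀ i ∈ s, 0 ≤ w i) {x : ℝ} (hx : 0 < x) :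
    ContinuousAt (fun x => x * exf s w l x) x := by
  have c1 : ContinuousAt (exN s w l) x := by
    unfold exN
    refine tendsto_finsetSum s fun i _ => ?_
    have : ContinuousAt (fun x : ℝ => w i * (-l i / (x ^ 2 + l i ^ 2))) x :=
      continuousAt_const.mul (ContinuousAt.div continuousAt_const (by fun_prop) (by positivity))
    exact this
  have c2 : ContinuousAt (exR s w l) x := by
    unfold exR
    refine tendsto_finsetSum s fun i _ => ?_
    have : ContinuousAt (fun x : ℝ => w i * (x / (x ^ 2 + l i ^ 2))) x :=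
      continuousAt_const.mul (ContinuousAt.div continuousAt_id (by fun_prop) (by positivity))
    exact this
  have c3 : ContinuousAt (fun x => max (exN s w l x) 0) x :=
    Filter.Tendsto.max c1 tendsto_const_nhds
  have hR := exR_nonneg (l := l) hw hx
  have c4 : ContinuousAt (fun x => max (exN s w l x) 0 / (x + exR s w l x)) x :=
    c3.div (continuousAt_id.add c2)
      (show x + exR s w l x ≠ 0 from (by linarith : (0 : ℝ) < x + exR s w l x).ne')
  exact continuousAt_id.mul (Real.continuous_arctan.continuousAt.comp c4)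

/-- `x f ≤ x N⁺ / (x + R)` -/
theorem exf_le {s : Finset ι} {w l : ι → ℝ} (hw : ∀ i ∈ s, 0 ≤ w i) {x : ℝ} (hx : 0 < x) :
    x * exf s w l x ≤ x * (max (exN s w l x) 0 / (x + exR s w l x)) := by
  have hR := exR_nonneg (l := l) hw hx
  exact mul_le_mul_of_nonneg_left
    (nd_arctan_le (div_nonneg (le_max_right _ _) (by linarith))) hx.le

theorem exf_le_max {s : Finset ι} {w l : ι → ℝ} (hw : ∀ i ∈ s, 0 ≤ w i) {x : ℝ} (hx : 0 < x) :
    x * exf s w l x ≤ max (exN s w l x) 0 := by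
  have hR := exR_nonneg (l := l) hw hx
  refine (exf_le hw hx).trans ?_
  have hp : 0 < x + exR s w l x := by linarith
  rw [mul_div_assoc', div_le_iff₀ hp]
  nlinarith [le_max_right (exN s w l x) 0]

theorem exf_le_exM {s : Finset ι} {w l : ι → ℝ} (hw : ∀ i ∈ s, 0 ≤ w i) {x : ℝ} (hx : 0 < x) :
    x * exf s w l x ≤ exM s w l x :=
  (exf_le_max hw hx).trans (max_le (exN_le_exM hw hx) (exM_nonneg hw hx))

/-- case 1: primitive of one term -/
noncomputable def exa (S K c a x : ℝ) : ℝ :=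
  if a < 0 then (if -S ≤ a then
      (1 - c / (K ^ 2 - a ^ 2)) * Real.arctan (x / (-a)) +
        c / (K ^ 2 - a ^ 2) * (-a / K) * Real.arctan (x / K)
    else Real.arctan (x / (-a))) else 0

noncomputable def exa' (S K a x : ℝ) : ℝ :=
  if a < 0 then (if -S ≤ a then
      -a * (x ^ 2 + S ^ 2) / ((x ^ 2 + a ^ 2) * (x ^ 2 + K ^ 2))
    else -a / (x ^ 2 + a ^ 2)) else 0

theorem ex_atan_deriv {b x : ℝ} (hb : 0 < b) :
    HasDerivAt (fun x => Real.arctan (x / b)) (b / (x ^ 2 + b ^ 2)) x := by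
  refine ((hasDerivAt_id x).div_const b).arctan.congr_deriv ?_
  have h1 : (0 : ℝ) < 1 + (x / b) ^ 2 := by positivity
  have h2 : (0 : ℝ) < x ^ 2 + b ^ 2 := by positivity
  simp only [id]
  rw [div_mul_div_comm, div_eq_div_iff (by positivity) h2.ne']
  field_simp
  ring

theorem exa_deriv {S K c a x : ℝ} (hS : 0 < S) (hc : 0 < c) (hK : 0 < K)
    (hK2 : K ^ 2 = S ^ 2 + c) : HasDerivAt (exa S K c a) (exa' S K a x) x := by
  unfold exa exa'
  split_ifs with h1 h2
  · have hb : 0 < -a := by linarith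
    have hden : 0 < K ^ 2 - a ^ 2 := by nlinarith
    have d1 := (ex_atan_deriv (x := x) hb).const_mul (1 - c / (K ^ 2 - a ^ 2))
    have d2 := (ex_atan_deriv (x := x) hK).const_mul (c / (K ^ 2 - a ^ 2) * (-a / K))
    refine (d1.fun_add d2).congr_deriv ?_
    have e1 : (0 : ℝ) < x ^ 2 + a ^ 2 := by nlinarith [sq_nonneg x, mul_pos hb hb]
    have e2 : (0 : ℝ) < x ^ 2 + K ^ 2 := by positivity
    have e3 : (-a) ^ 2 = a ^ 2 := by ring
    rw [e3]
    have hS2 : S ^ 2 = K ^ 2 - c := by linarith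
    rw [hS2]
    field_simp
    ring
  · exact (ex_atan_deriv (by linarith : 0 < -a)).congr_deriv (by ring)
  · exact hasDerivAt_const x 0

theorem exa_nonneg {S K c a x : ℝ} (hS : 0 < S) (hc : 0 < c) (hK : 0 < K)
    (hK2 : K ^ 2 = S ^ 2 + c) (hx : 0 ≤ x) : 0 ≤ exa S K c a x := by
  unfold exa
  split_ifs with h1 h2
  · have hb : 0 < -a := by linarith
    have hden : 0 < K ^ 2 - a ^ 2 := by nlinarith
    have hc1 : 0 ≤ 1 - c / (K ^ 2 - a ^ 2) := by
      rw [sub_nonneg, div_le_one hden]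
      nlinarith
    have t1 : 0 ≤ Real.arctan (x / (-a)) := by
      rw [← Real.arctan_zero]
      exact Real.arctan_strictMono.monotone (by positivity)
    have t2 : 0 ≤ Real.arctan (x / K) := by
      rw [← Real.arctan_zero]
      exact Real.arctan_strictMono.monotone (by positivity)
    positivity
  · rw [← Real.arctan_zero]
    have hb : 0 < -a := by linarith
    exact Real.arctan_strictMono.monotone (by positivity)
  · exact le_refl 0

theorem exa_le {S K c a y : ℝ} (hS : 0 < S) (hc : 0 < c) (hK : 0 < K)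
    (hK2 : K ^ 2 = S ^ 2 + c) : exa S K c a y ≤
    Real.pi / 2 * (if a < 0 ∧ -S ≤ a then 1 - c / (K * (K + S)) else 1) := by
  have hpi := Real.pi_pos
  unfold exa
  by_cases h1 : a < 0
  · by_cases h2 : -S ≤ a
    · rw [if_pos h1, if_pos h2, if_pos ⟨h1, h2⟩]
      have hb : 0 < -a := by linarith
      have hden : 0 < K ^ 2 - a ^ 2 := by nlinarith
      have hc1 : 0 ≤ 1 - c / (K ^ 2 - a ^ 2) := by
        rw [sub_nonneg, div_le_one hden]
        nlinarith
      have t1 := (Real.arctan_lt_pi_div_two (y / (-a))).le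
      have t2 := (Real.arctan_lt_pi_div_two (y / K)).le
      have hKa : 0 < K - a := by linarith
      have hKS : -a < K := by nlinarith
      have hc2 : 0 ≤ c / (K ^ 2 - a ^ 2) * (-a / K) := by positivity
      have s1 := mul_le_mul_of_nonneg_left t1 hc1
      have s2 := mul_le_mul_of_nonneg_left t2 hc2
      have e : (1 - c / (K ^ 2 - a ^ 2)) + c / (K ^ 2 - a ^ 2) * (-a / K) =
          1 - c / (K * (K - a)) := by
        have hne : K + a ≠ 0 := by linarith
        have e1 : K ^ 2 - a ^ 2 = (K - a) * (K + a) := by ring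
        rw [e1]
        field_simp
        ring
      have e2 : c / (K * (K + S)) ≤ c / (K * (K - a)) :=
        div_le_div_of_nonneg_left hc.le (by positivity)
          (mul_le_mul_of_nonneg_left (by linarith) hK.le)
      calc _ ≤ (1 - c / (K ^ 2 - a ^ 2)) * (Real.pi / 2) +
            c / (K ^ 2 - a ^ 2) * (-a / K) * (Real.pi / 2) := add_le_add s1 s2
        _ = Real.pi / 2 * (1 - c / (K * (K - a))) := by rw [← e]; ring
        _ ≤ _ := mul_le_mul_of_nonneg_left (by linarith) (by positivity)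
    · rw [if_pos h1, if_neg h2, if_neg (fun h => h2 h.2), mul_one]
      exact (Real.arctan_lt_pi_div_two _).le
  · rw [if_neg h1, if_neg (fun h => h1 h.1)]
    positivity

/-- mass of the small negative part -/
noncomputable def exm (s : Finset ι) (w l : ι → ℝ) (S : ℝ) : ℝ :=
  ∑ i ∈ s, (if l i < 0 ∧ -S ≤ l i then w i else 0)

theorem exm_nonneg {s : Finset ι} {w l : ι → ℝ} (hw : ∀ i ∈ s, 0 ≤ w i) (S : ℝ) :
    0 ≤ exm s w l S := by
  refine Finset.sum_nonneg fun i hi => ?_
  split_ifs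
  · exact hw i hi
  · exact le_refl 0

/-- the pointwise comparison of case 1 -/
theorem ex_case1_pt {s : Finset ι} {w l : ι → ℝ} (hw : ∀ i ∈ s, 0 ≤ w i) {S K : ℝ} (hS : 0 < S)
    (hK : 0 < K) (hK2 : K ^ 2 = S ^ 2 + exm s w l S) {x : ℝ} (hx : 0 < x) :
    x * exf s w l x ≤ ∑ i ∈ s, w i * exa' S K (l i) x := by
  obtain ⟨m, hm⟩ : ∃ m, m = exm s w l S := ⟨_, rfl⟩
  rw [← hm] at hK2
  have hm0 : 0 ≤ m := by rw [hm]; exact exm_nonneg hw S
  have hM := exM_nonneg (l := l) hw hx
  have hR0 := exR_nonneg (l := l) hw hx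
  have hxS : (0 : ℝ) < x ^ 2 + S ^ 2 := by positivity
  have hxK : (0 : ℝ) < x ^ 2 + K ^ 2 := by positivity
  -- lower bound of `R`
  have hR : m * (x / (x ^ 2 + S ^ 2)) ≤ exR s w l x := by
    rw [hm]
    unfold exm exR
    rw [Finset.sum_mul]
    refine Finset.sum_le_sum fun i hi => ?_
    have hwi := hw i hi
    split_ifs with h
    · have hb : 0 < -l i := by linarith [h.1]
      have : x / (x ^ 2 + S ^ 2) ≤ x / (x ^ 2 + l i ^ 2) := by
        apply div_le_div_of_nonneg_left hx.le (by nlinarith [sq_nonneg x, mul_pos hb hb])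
        nlinarith [h.1, h.2]
      exact mul_le_mul_of_nonneg_left this hwi
    · rw [zero_mul]
      exact mul_nonneg hwi (by positivity)
  have hden : x * ((x ^ 2 + K ^ 2) / (x ^ 2 + S ^ 2)) ≤ x + exR s w l x := by
    have e : x * ((x ^ 2 + K ^ 2) / (x ^ 2 + S ^ 2)) = x + m * (x / (x ^ 2 + S ^ 2)) := by
      rw [hK2]
      field_simp
      ring
    rw [e]
    linarith
  have hp : 0 < x + exR s w l x := by linarith
  have h1 : x * exf s w l x ≤ exM s w l x * ((x ^ 2 + S ^ 2) / (x ^ 2 + K ^ 2)) := by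
    refine (exf_le hw hx).trans ?_
    have hmax : max (exN s w l x) 0 ≤ exM s w l x := max_le (exN_le_exM hw hx) hM
    rw [mul_div_assoc', div_le_iff₀ hp]
    have hq : 0 < (x ^ 2 + S ^ 2) / (x ^ 2 + K ^ 2) := by positivity
    have e : x = ((x ^ 2 + S ^ 2) / (x ^ 2 + K ^ 2)) *
        (x * ((x ^ 2 + K ^ 2) / (x ^ 2 + S ^ 2))) := by
      field_simp
    calc x * max (exN s w l x) 0 ≤ x * exM s w l x := mul_le_mul_of_nonneg_left hmax hx.le
      _ = exM s w l x * (((x ^ 2 + S ^ 2) / (x ^ 2 + K ^ 2)) *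
        (x * ((x ^ 2 + K ^ 2) / (x ^ 2 + S ^ 2)))) := by rw [← e]; ring
      _ ≤ exM s w l x * (((x ^ 2 + S ^ 2) / (x ^ 2 + K ^ 2)) * (x + exR s w l x)) :=
        mul_le_mul_of_nonneg_left (mul_le_mul_of_nonneg_left hden hq.le) hM
      _ = _ := by ring
  refine h1.trans ?_
  unfold exM
  rw [Finset.sum_mul]
  refine Finset.sum_le_sum fun i hi => ?_
  have hwi := hw i hi
  unfold exa'
  have hq1 : (x ^ 2 + S ^ 2) / (x ^ 2 + K ^ 2) ≤ 1 := by
    rw [div_le_one hxK]
    nlinarith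
  by_cases h1 : l i < 0
  · have hb : 0 < -l i := by linarith
    have hxl : 0 < x ^ 2 + l i ^ 2 := by nlinarith [sq_nonneg x, mul_pos hb hb]
    by_cases h2 : -S ≤ l i
    · rw [if_pos h1, if_pos h1, if_pos h2]
      apply le_of_eq
      field_simp
    · rw [if_pos h1, if_pos h1, if_neg h2]
      have h3 : 0 ≤ w i * (-l i / (x ^ 2 + l i ^ 2)) :=
        mul_nonneg hwi (div_nonneg hb.le hxl.le)
      nlinarith
  · rw [if_neg h1, if_neg h1]
    simp

/-- the negative part, split at `S` -/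
theorem ex_case1 {s : Finset ι} {w l : ι → ℝ} (hw : ∀ i ∈ s, 0 ≤ w i) {d S K : ℝ}
    (hd : ∑ i ∈ s, w i = d) (hS : 0 < S) (hm : 0 < exm s w l S)
    (hK : 0 < K) (hK2 : K ^ 2 = S ^ 2 + exm s w l S) {P : ℝ → ℝ}
    (hP : ∀ x, 0 < x → HasDerivAt P (x * exf s w l x) x) {x y : ℝ} (hx : 0 < x) (hxy : x ≤ y) :
    P y - P x ≤ Real.pi / 2 * (d - exm s w l S ^ 2 / (K * (K + S))) := by
  have hA : ∀ z, 0 < z → HasDerivAt (fun z => ∑ i ∈ s, w i * exa S K (exm s w l S) (l i) z)
      (∑ i ∈ s, w i * exa' S K (l i) z) z := by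
    intro z _
    exact HasDerivAt.fun_sum fun i _ => (exa_deriv hS hm hK hK2).const_mul (w i)
  have h1 := nd_comp hP hA (fun z hz => ex_case1_pt hw hS hK hK2 hz) hx hxy
  have h2 : 0 ≤ ∑ i ∈ s, w i * exa S K (exm s w l S) (l i) x :=
    Finset.sum_nonneg fun i hi => mul_nonneg (hw i hi) (exa_nonneg hS hm hK hK2 hx.le)
  have h3 : ∑ i ∈ s, w i * exa S K (exm s w l S) (l i) y ≤
      Real.pi / 2 * (d - exm s w l S ^ 2 / (K * (K + S))) := by
    have h4 : ∀ i ∈ s, w i * exa S K (exm s w l S) (l i) y ≤ Real.pi / 2 * (w i -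
        (if l i < 0 ∧ -S ≤ l i then w i else 0) * (exm s w l S / (K * (K + S)))) := by
      intro i hi
      have h5 := mul_le_mul_of_nonneg_left (exa_le (a := l i) (y := y) hS hm hK hK2) (hw i hi)
      refine h5.trans (le_of_eq ?_)
      split_ifs
      · ring
      · ring
    refine (Finset.sum_le_sum h4).trans (le_of_eq ?_)
    rw [← Finset.mul_sum, Finset.sum_sub_distrib, ← Finset.sum_mul, hd]
    unfold exm
    ring
  linarith

/-- the total without any gain -/
theorem ex_case0 {s : Finset ι} {w l : ι → ℝ} (hw : ∀ i ∈ s, 0 ≤ w i) {d : ℝ}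
    (hd : ∑ i ∈ s, w i = d) {P : ℝ → ℝ}
    (hP : ∀ x, 0 < x → HasDerivAt P (x * exf s w l x) x) {x y : ℝ} (hx : 0 < x) (hxy : x ≤ y) :
    P y - P x ≤ Real.pi / 2 * d := by
  have hA : ∀ z, 0 < z → HasDerivAt
      (fun z => ∑ i ∈ s, (if l i < 0 then w i * Real.arctan (z / (-l i)) else 0))
      (exM s w l z) z := by
    intro z _
    refine HasDerivAt.fun_sum fun i _ => ?_
    split_ifs with h
    · refine ((ex_atan_deriv (x := z) (by linarith : 0 < -l i)).const_mul (w i)).congr_deriv ?_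
      rw [neg_sq]
    · exact hasDerivAt_const z 0
  have h1 := nd_comp hP hA (fun z hz => exf_le_exM hw hz) hx hxy
  have h2 : 0 ≤ ∑ i ∈ s, (if l i < 0 then w i * Real.arctan (x / (-l i)) else 0) := by
    refine Finset.sum_nonneg fun i hi => ?_
    split_ifs with h
    · have hb : 0 < -l i := by linarith
      have t1 : 0 ≤ Real.arctan (x / (-l i)) := by
        rw [← Real.arctan_zero]
        exact Real.arctan_strictMono.monotone (by positivity)
      exact mul_nonneg (hw i hi) t1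
    · exact le_refl 0
  have h3 : ∑ i ∈ s, (if l i < 0 then w i * Real.arctan (y / (-l i)) else 0) ≤
      Real.pi / 2 * d := by
    rw [← hd, Finset.mul_sum]
    refine Finset.sum_le_sum fun i hi => ?_
    have hpi := Real.pi_pos
    split_ifs with h
    · have := mul_le_mul_of_nonneg_left (Real.arctan_lt_pi_div_two (y / (-l i))).le (hw i hi)
      linarith
    · have := hw i hi
      positivity
  linarith

theorem ex_atan_nonneg {t : ℝ} (ht : 0 ≤ t) : 0 ≤ Real.arctan t := by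
  rw [← Real.arctan_zero]
  exact Real.arctan_strictMono.monotone ht

/-- the primitive of the tail bound -/
noncomputable def exB (d L x : ℝ) : ℝ := d * L / 4 * (-x⁻¹ - Real.arctan (x / L) / L)

theorem exB_deriv {d L x : ℝ} (hL : 0 < L) (hx : 0 < x) :
    HasDerivAt (exB d L) (d * L ^ 3 / (4 * x ^ 2 * (x ^ 2 + L ^ 2))) x := by
  have d1 : HasDerivAt (fun y : ℝ => y⁻¹) (-(x ^ 2)⁻¹) x := hasDerivAt_inv hx.ne'
  have d3 := (d1.fun_neg.fun_sub ((ex_atan_deriv (x := x) hL).div_const L)).const_mul (d * L / 4)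
  refine d3.congr_deriv ?_
  have h9 : (0 : ℝ) < x ^ 2 + L ^ 2 := by positivity
  field_simp
  ring

theorem ex_inv_atan {L y : ℝ} (hL : 0 < L) (hy : 0 < y) :
    Real.arctan (L / y) = Real.pi / 2 - Real.arctan (y / L) := by
  have := Real.arctan_inv_of_pos (x := y / L) (by positivity)
  rw [inv_div] at this
  exact this

theorem exB_le {d L y : ℝ} (hd : 0 < d) (hL : 0 < L) (hy : 0 < y) :
    exB d L y ≤ -(d * Real.pi / 8) := by
  have h1 := nd_arctan_le (t := L / y) (by positivity)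
  rw [ex_inv_atan hL hy] at h1
  unfold exB
  have e : d * L / 4 * (-y⁻¹ - Real.arctan (y / L) / L) =
      -(d / 4 * (L / y + Real.arctan (y / L))) := by
    field_simp
    ring
  rw [e]
  have h2 : Real.pi / 2 ≤ L / y + Real.arctan (y / L) := by linarith
  have h3 := mul_le_mul_of_nonneg_left h2 (by positivity : 0 ≤ d / 4)
  linarith

theorem ex_case2 {s : Finset ι} {w l : ι → ℝ} (hw : ∀ i ∈ s, 0 ≤ w i) {d L S X : ℝ}
    (hd : ∑ i ∈ s, w i = d) (hd0 : 0 < d) (hS : 0 < S) (hX : 0 < X) (hL : 0 < L)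
    (hm : exm s w l S ≤ d / 2)
    (hG : ∀ x, 0 < x → exN s w l x ≤ d * L ^ 3 / (4 * x ^ 2 * (x ^ 2 + L ^ 2))) {P : ℝ → ℝ}
    (hP : ∀ x, 0 < x → HasDerivAt P (x * exf s w l x) x) {x y : ℝ} (hx : 0 < x) (hxy : x ≤ y) :
    P y - P x ≤ Real.pi / 2 * d - d / 2 * Real.arctan (S / X) +
      d / 4 * (L / X - Real.arctan (L / X)) := by
  obtain ⟨A, hAdef⟩ : ∃ A : ℝ → ℝ, A = fun z =>
    ∑ i ∈ s, (if l i < 0 then w i * Real.arctan (z / (-l i)) else 0) := ⟨_, rfl⟩
  have hA : ∀ z, 0 < z → HasDerivAt A (exM s w l z) z := by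
    intro z _
    rw [hAdef]
    refine HasDerivAt.fun_sum fun i _ => ?_
    split_ifs with h
    · refine ((ex_atan_deriv (x := z) (by linarith : 0 < -l i)).const_mul (w i)).congr_deriv ?_
      rw [neg_sq]
    · exact hasDerivAt_const z 0
  have cA : ∀ {u v : ℝ}, 0 < u → u ≤ v → P v - P u ≤ A v - A u := fun hu huv =>
    nd_comp hP hA (fun z hz => exf_le_exM hw hz) hu huv
  have cB : ∀ {u v : ℝ}, 0 < u → u ≤ v → P v - P u ≤ exB d L v - exB d L u := by
    intro u v hu huv
    refine nd_comp hP (fun z hz => exB_deriv hL hz) (fun z hz => ?_) hu huv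
    exact (exf_le_max hw hz).trans (max_le (hG z hz) (by positivity))
  have mA : ∀ {u v : ℝ}, 0 < u → u ≤ v → A u ≤ A v := by
    intro u v hu huv
    have := nd_comp (P := fun _ => (0 : ℝ)) (p := fun _ => (0 : ℝ))
      (fun z _ => hasDerivAt_const z 0) hA (fun z hz => exM_nonneg hw hz) hu huv
    linarith
  have mB : ∀ {u v : ℝ}, 0 < u → u ≤ v → exB d L u ≤ exB d L v := by
    intro u v hu huv
    have := nd_comp (P := fun _ => (0 : ℝ)) (p := fun _ => (0 : ℝ))
      (fun z _ => hasDerivAt_const z 0) (fun z hz => exB_deriv (d := d) hL hz)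
      (fun z hz => by positivity) hu huv
    linarith
  have A0 : ∀ {u : ℝ}, 0 < u → 0 ≤ A u := by
    intro u hu
    rw [hAdef]
    refine Finset.sum_nonneg fun i hi => ?_
    split_ifs with h
    · have hb : 0 < -l i := by linarith
      exact mul_nonneg (hw i hi) (ex_atan_nonneg (by positivity))
    · exact le_refl 0
  have hth : Real.arctan (S / X) ≤ Real.pi / 2 := (Real.arctan_lt_pi_div_two _).le
  have hth0 : 0 ≤ Real.arctan (S / X) := ex_atan_nonneg (by positivity)
  have AX : A X ≤ Real.pi / 2 * d - d / 2 * Real.arctan (S / X) := by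
    have h4 : ∀ i ∈ s, (if l i < 0 then w i * Real.arctan (X / (-l i)) else 0) ≤
        w i * (Real.pi / 2 - Real.arctan (S / X)) +
        (if l i < 0 ∧ -S ≤ l i then w i else 0) * Real.arctan (S / X) := by
      intro i hi
      have hwi := hw i hi
      by_cases h1 : l i < 0
      · have hb : 0 < -l i := by linarith
        by_cases h2 : -S ≤ l i
        · rw [if_pos h1, if_pos ⟨h1, h2⟩]
          have := mul_le_mul_of_nonneg_left (Real.arctan_lt_pi_div_two (X / (-l i))).le hwi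
          linarith
        · rw [if_pos h1, if_neg (fun h => h2 h.2), zero_mul, add_zero]
          apply mul_le_mul_of_nonneg_left _ hwi
          have h3 := ex_inv_atan (L := -l i) (y := X) hb hX
          have h5 : Real.arctan (S / X) ≤ Real.arctan (-l i / X) :=
            Real.arctan_strictMono.monotone (div_le_div_of_nonneg_right (by linarith) hX.le)
          linarith
      · rw [if_neg h1, if_neg (fun h => h1 h.1), zero_mul, add_zero]
        exact mul_nonneg hwi (by linarith)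
    rw [hAdef]
    refine (Finset.sum_le_sum h4).trans ?_
    rw [Finset.sum_add_distrib, ← Finset.sum_mul, ← Finset.sum_mul, hd]
    have h6 : (∑ i ∈ s, (if l i < 0 ∧ -S ≤ l i then w i else 0)) = exm s w l S := rfl
    rw [h6]
    have := mul_le_mul_of_nonneg_right hm hth0
    linarith
  have eB : -(d * Real.pi / 8) - exB d L X = d / 4 * (L / X - Real.arctan (L / X)) := by
    rw [ex_inv_atan hL hX]
    unfold exB
    field_simp
    ring
  have pB := exB_le hd0 hL hX
  have pA := A0 hX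
  rcases le_total y X with hy | hy
  · have h1 := cA hx hxy
    have h2 := mA (hx.trans_le hxy) hy
    have h3 := A0 hx
    linarith
  · rcases le_total x X with hx2 | hx2
    · have h1 := cA hx hx2
      have h2 := cB hX hy
      have h3 := A0 hx
      have h4 := exB_le hd0 hL (hx.trans_le hxy)
      linarith
    · have h1 := cB hx hxy
      have h2 := mB hX hx2
      have h4 := exB_le hd0 hL (hx.trans_le hxy)
      linarith

/-- The exact lemma. -/
theorem ex_lem {s : Finset ι} {w l : ι → ℝ} (hw : ∀ i ∈ s, 0 ≤ w i) {d L g : ℝ}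
    (hd : ∑ i ∈ s, w i = d) (hd0 : 0 < d) (hL : 0 < L) (hLd : L ≤ 2 * d)
    (hG : ∀ x, 0 < x → exN s w l x ≤ d * L ^ 3 / (4 * x ^ 2 * (x ^ 2 + L ^ 2)))
    (hg0 : 0 ≤ g) (hg1 : g ≤ 0.00995 * d) (hg2 : g * (0.08 * d ^ 2 + 0.75 * d) ≤ d ^ 2 / 4) :
    ∃ P : ℝ → ℝ, (∀ x, 0 < x → HasDerivAt P (x * exf s w l x) x) ∧
      ∀ x y, 0 < x → x ≤ y → P y - P x ≤ Real.pi / 2 * (d - g) := by
  obtain ⟨P, hP⟩ := ex_prim (f := fun x => x * exf s w l x) fun x hx => exf_cont hw hx
  refine ⟨P, hP, fun x y hx hxy => ?_⟩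
  have hpi := Real.pi_pos
  have hpi4 := Real.pi_lt_d4
  have hS : 0 < d / 5 := by positivity
  rcases le_total (exm s w l (d / 5)) (d / 2) with hm | hm
  · have hG' : ∀ x, 0 < x → exN s w l x ≤
        d * (2 * d) ^ 3 / (4 * x ^ 2 * (x ^ 2 + (2 * d) ^ 2)) := by
      intro x hx
      refine (hG x hx).trans ?_
      obtain ⟨M, hM⟩ : ∃ M, M = 2 * d := ⟨_, rfl⟩
      rw [← hM] at hLd ⊢
      have hM0 : 0 < M := hL.trans_le hLd
      have key : L ^ 3 / (x ^ 2 + L ^ 2) ≤ M ^ 3 / (x ^ 2 + M ^ 2) := by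
        rw [div_le_div_iff₀ (by positivity) (by positivity)]
        have h1 : L ^ 3 ≤ M ^ 3 := pow_le_pow_left₀ hL.le hLd 3
        have h2 := mul_le_mul_of_nonneg_left h1 (sq_nonneg x)
        have h3 : L ^ 3 * M ^ 2 ≤ M ^ 3 * L ^ 2 := by
          have := mul_le_mul_of_nonneg_left hLd (by positivity : 0 ≤ L ^ 2 * M ^ 2)
          nlinarith
        nlinarith
      calc d * L ^ 3 / (4 * x ^ 2 * (x ^ 2 + L ^ 2)) =
          d / (4 * x ^ 2) * (L ^ 3 / (x ^ 2 + L ^ 2)) := by field_simp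
        _ ≤ d / (4 * x ^ 2) * (M ^ 3 / (x ^ 2 + M ^ 2)) :=
          mul_le_mul_of_nonneg_left key (by positivity)
        _ = _ := by field_simp
    have h1 := ex_case2 (X := 9 / 2 * d) hw hd hd0 hS (by positivity) (by positivity) hm hG' hP
      hx hxy
    have e1 : d / 5 / (9 / 2 * d) = 2 / 45 := by
      field_simp
      norm_num
    have e2 : 2 * d / (9 / 2 * d) = 4 / 9 := by
      field_simp
      norm_num
    rw [e1, e2] at h1
    have a1 := ex_arctan_ge (u := 2 / 45) (by norm_num)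
    have a2 := ex_arctan_ge (u := 4 / 9) (by norm_num)
    norm_num at a1 a2
    have b1 : (0.044415 : ℝ) ≤ Real.arctan (2 / 45) := by
      refine le_trans ?_ a1
      norm_num
    have b2 : (0.418159 : ℝ) ≤ Real.arctan (4 / 9) := by
      refine le_trans ?_ a2
      norm_num
    have c1 := mul_le_mul_of_nonneg_left b1 (by positivity : 0 ≤ d / 2)
    have c2 := mul_le_mul_of_nonneg_left b2 (by positivity : 0 ≤ d / 4)
    have c3 : Real.pi / 2 * g ≤ 0.01563 * d := by
      have h2 : Real.pi / 2 * g ≤ 1.5708 * g := mul_le_mul_of_nonneg_right (by linarith) hg0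
      nlinarith
    nlinarith
  · obtain ⟨m, hmdef⟩ : ∃ m, m = exm s w l (d / 5) := ⟨_, rfl⟩
    rw [← hmdef] at hm
    have hm0 : 0 < m := by linarith
    obtain ⟨K, hK⟩ : ∃ K, K = √((d / 5) ^ 2 + m) := ⟨_, rfl⟩
    have hK0 : 0 < K := by rw [hK]; exact Real.sqrt_pos.2 (by positivity)
    have hK2 : K ^ 2 = (d / 5) ^ 2 + m := by rw [hK]; exact Real.sq_sqrt (by positivity)
    have h1 := ex_case1 hw hd hS (by rw [← hmdef]; exact hm0) hK0 (by rw [← hmdef]; exact hK2) hP
      hx hxy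
    rw [← hmdef] at h1
    refine h1.trans ?_
    apply mul_le_mul_of_nonneg_left _ (by positivity)
    have hKS : K * (K + d / 5) ≤ 0.08 * d ^ 2 + 1.5 * m := by
      have h2 : K * (d / 5) ≤ (d / 5) ^ 2 + m / 2 := by
        nlinarith [sq_nonneg (K - d / 5)]
      nlinarith
    have hpos : 0 < K * (K + d / 5) := by positivity
    have h3 : g ≤ m ^ 2 / (K * (K + d / 5)) := by
      rw [le_div_iff₀ hpos]
      have h4 : g * (K * (K + d / 5)) ≤ g * (0.08 * d ^ 2 + 1.5 * m) :=
        mul_le_mul_of_nonneg_left hKS hg0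
      refine h4.trans ?_
      -- with `r = 2 m / d ≥ 1`
      have h5 : (g * (0.08 * d ^ 2 + 0.75 * d)) * (2 * m / d) ≤ d ^ 2 / 4 * (2 * m / d) :=
        mul_le_mul_of_nonneg_right hg2 (by positivity)
      have hr : 1 ≤ 2 * m / d := by
        rw [le_div_iff₀ hd0]
        linarith
      have h6 : g * (0.08 * d ^ 2 + 1.5 * m) ≤ (g * (0.08 * d ^ 2 + 0.75 * d)) * (2 * m / d) := by
        have e : (g * (0.08 * d ^ 2 + 0.75 * d)) * (2 * m / d) =
            g * (0.08 * d ^ 2 * (2 * m / d) + 1.5 * m) := by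
          field_simp
          ring
        rw [e]
        apply mul_le_mul_of_nonneg_left _ hg0
        have := mul_le_mul_of_nonneg_left hr (by positivity : 0 ≤ 0.08 * d ^ 2)
        linarith
      have h7 : d ^ 2 / 4 * (2 * m / d) ≤ m ^ 2 := by
        have e : d ^ 2 / 4 * (2 * m / d) = d / 2 * m := by
          field_simp
          ring
        rw [e]
        nlinarith
      linarith
    linarith

/-- `150 ≤ d`: the gain is at least `1.49` -/
theorem ex_lem_150 {s : Finset ι} {w l : ι → ℝ} (hw : ∀ i ∈ s, 0 ≤ w i) {d L : ℝ}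
    (hd : ∑ i ∈ s, w i = d) (h150 : 150 ≤ d) (hL : 0 < L) (hLd : L ≤ 2 * d)
    (hG : ∀ x, 0 < x → exN s w l x ≤ d * L ^ 3 / (4 * x ^ 2 * (x ^ 2 + L ^ 2))) :
    ∃ P : ℝ → ℝ, (∀ x, 0 < x → HasDerivAt P (x * exf s w l x) x) ∧
      ∀ x y, 0 < x → x ≤ y → P y - P x ≤ Real.pi / 2 * (d - 149 / 100) :=
  ex_lem hw hd (by linarith) hL hLd hG (by norm_num) (by linarith) (by nlinarith)

/-- `299 ≤ d`: the gain is at least `2.9` -/
theorem ex_lem_299 {s : Finset ι} {w l : ι → ℝ} (hw : ∀ i ∈ s, 0 ≤ w i) {d L : ℝ}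
    (hd : ∑ i ∈ s, w i = d) (h299 : 299 ≤ d) (hL : 0 < L) (hLd : L ≤ 2 * d)
    (hG : ∀ x, 0 < x → exN s w l x ≤ d * L ^ 3 / (4 * x ^ 2 * (x ^ 2 + L ^ 2))) :
    ∃ P : ℝ → ℝ, (∀ x, 0 < x → HasDerivAt P (x * exf s w l x) x) ∧
      ∀ x y, 0 < x → x ≤ y → P y - P x ≤ Real.pi / 2 * (d - 29 / 10) :=
  ex_lem hw hd (by linarith) hL hLd hG (by norm_num) (by linarith) (by nlinarith)

/-- without any condition on the support: no gain, no loss -/
theorem ex_lem_0 {s : Finset ι} {w l : ι → ℝ} (hw : ∀ i ∈ s, 0 ≤ w i) {d : ℝ}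
    (hd : ∑ i ∈ s, w i = d) :
    ∃ P : ℝ → ℝ, (∀ x, 0 < x → HasDerivAt P (x * exf s w l x) x) ∧
      ∀ x y, 0 < x → x ≤ y → P y - P x ≤ Real.pi / 2 * d := by
  obtain ⟨P, hP⟩ := ex_prim (f := fun x => x * exf s w l x) fun x hx => exf_cont hw hx
  exact ⟨P, hP, fun x y hx hxy => ex_case0 hw hd hP hx hxy⟩

end Pool.Agent.MP3b2d6a
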