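import Pool.Agent.Lib.MP_3b2d6a_co.Cut

/-! Gluing two graphs at a vertex. -/

set_option autoImplicit false
set_option linter.unusedSectionVars false

open Finset Filter Topology Matrix

namespace Pool.Agent.MP3b2d6a

theorem arctan_add_le {a b : ℝ} (ha : 0 ≤ a) (hb : 0 ≤ b) :
    Real.arctan (a + b) ≤ Real.arctan a + Real.arctan b := by
  by_cases h : a * b < 1
  · rw [Real.arctan_add h]
    refine Real.arctan_strictMono.monotone ?_
    rw [le_div_iff₀ (by linarith)]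
    nlinarith [mul_nonneg ha hb, mul_nonneg (mul_nonneg ha hb) (add_nonneg ha hb)]
  · push Not at h
    have hb0 : 0 < b := by
      rcases hb.eq_or_lt with h1 | h1
      · rw [← h1, mul_zero] at h
        linarith
      · exact h1
    have h1 : b⁻¹ ≤ a := by
      rw [inv_eq_one_div, div_le_iff₀ hb0]
      exact h
    have h2 := Real.arctan_strictMono.monotone h1
    rw [Real.arctan_inv_of_pos hb0] at h2
    have h3 := Real.arctan_lt_pi_div_two (a + b)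
    linarith

theorem glue_arctan {x R₁ R₂ I₁ I₂ : ℝ} (hx : 0 < x) (hR₁ : 0 ≤ R₁) (hR₂ : 0 ≤ R₂) :
    Real.arctan ((I₁ + I₂) / (x + (R₁ + R₂))) ≤
      max 0 (Real.arctan (I₁ / (x + R₁))) + max 0 (Real.arctan (I₂ / (x + R₂))) := by
  have hm := Real.arctan_strictMono.monotone
  have d1 : 0 < x + R₁ := by linarith
  have d2 : 0 < x + R₂ := by linarith
  have d3 : 0 < x + (R₁ + R₂) := by linarith
  have key : ∀ {R I : ℝ}, 0 ≤ R → R ≤ R₁ + R₂ → 0 ≤ I → I / (x + (R₁ + R₂)) ≤ I / (x + R) := by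
    intro R I hR hR' hI
    exact div_le_div_of_nonneg_left hI (by linarith) (by linarith)
  rcases le_total 0 I₁ with h1 | h1
  · rcases le_total 0 I₂ with h2 | h2
    · calc Real.arctan ((I₁ + I₂) / (x + (R₁ + R₂))) ≤
          Real.arctan (I₁ / (x + R₁) + I₂ / (x + R₂)) := by
            refine hm ?_
            rw [add_div]
            exact add_le_add (key hR₁ (by linarith) h1) (key hR₂ (by linarith) h2)
        _ ≤ Real.arctan (I₁ / (x + R₁)) + Real.arctan (I₂ / (x + R₂)) :=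
            arctan_add_le (div_nonneg h1 d1.le) (div_nonneg h2 d2.le)
        _ ≤ _ := add_le_add (le_max_right _ _) (le_max_right _ _)
    · calc Real.arctan ((I₁ + I₂) / (x + (R₁ + R₂))) ≤ Real.arctan (I₁ / (x + R₁)) := by
            refine hm ?_
            refine le_trans ?_ (key hR₁ (by linarith) h1)
            exact div_le_div_of_nonneg_right (by linarith) d3.le
        _ ≤ max 0 (Real.arctan (I₁ / (x + R₁))) + 0 := by
            rw [add_zero]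
            exact le_max_right _ _
        _ ≤ _ := add_le_add le_rfl (le_max_left _ _)
  · rcases le_total 0 I₂ with h2 | h2
    · calc Real.arctan ((I₁ + I₂) / (x + (R₁ + R₂))) ≤ Real.arctan (I₂ / (x + R₂)) := by
            refine hm ?_
            refine le_trans ?_ (key hR₂ (by linarith) h2)
            exact div_le_div_of_nonneg_right (by linarith) d3.le
        _ ≤ 0 + max 0 (Real.arctan (I₂ / (x + R₂))) := by
            rw [zero_add]
            exact le_max_right _ _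
        _ ≤ _ := add_le_add (le_max_left _ _) le_rfl
    · calc Real.arctan ((I₁ + I₂) / (x + (R₁ + R₂))) ≤ Real.arctan 0 := by
            refine hm ?_
            exact div_nonpos_of_nonpos_of_nonneg (by linarith) d3.le
        _ = 0 + 0 := by rw [Real.arctan_zero, add_zero]
        _ ≤ _ := add_le_add (le_max_left _ _) (le_max_left _ _)

variable {V : Type*} [Fintype V] [DecidableEq V] (G : SimpleGraph V)

theorem T_empty (x : ℝ) (hx : 0 < x) : T G ∅ x = 0 := by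
  have h := T_union G (W₁ := ∅) (W₂ := ∅) (disjoint_bot_left) (by simp) hx
  rw [Set.union_empty] at h
  linarith

/-- `W₁` and `W₂` meet in the vertex `r`, and no edge joins `W₁ \ r` to `W₂ \ r`. -/
structure Cut (W₁ W₂ : Set V) (r : V) : Prop where
  mem₁ : r ∈ W₁
  mem₂ : r ∈ W₂
  inter : ∀ v, v ∈ W₁ → v ∈ W₂ → v = r
  adj : ∀ u ∈ W₁, ∀ v ∈ W₂, u ≠ r → v ≠ r → ¬ G.Adj u v

variable {G}

theorem Cut.symm {W₁ W₂ : Set V} {r : V} (h : Cut G W₁ W₂ r) : Cut G W₂ W₁ r :=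
  ⟨h.mem₂, h.mem₁, fun v h1 h2 => h.inter v h2 h1, fun u hu v hv hur hvr ha =>
    h.adj v hv u hu hvr hur ha.symm⟩

theorem Cut.T_eq {W₁ W₂ : Set V} {r : V} (h : Cut G W₁ W₂ r) {x : ℝ} (hx : 0 < x) :
    T G (W₁ ∪ W₂) x = T G (W₁ \ {r}) x + T G (W₂ \ {r}) x +
      Real.arctan (((Q G W₁ r x).im + (Q G W₂ r x).im) /
        (x + ((Q G W₁ r x).re + (Q G W₂ r x).re))) := by
  rw [T_pivot G (W := W₁ ∪ W₂) (Or.inl h.mem₁) hx, Q_add G h.inter h.adj hx, Complex.add_re,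
    Complex.add_im]
  congr 1
  have hset : (W₁ ∪ W₂) \ {r} = (W₁ \ {r}) ∪ (W₂ \ {r}) := Set.union_sdiff_distrib
  rw [hset]
  refine T_union G ?_ ?_ hx
  · rw [Set.disjoint_left]
    rintro v ⟨hv1, hvr⟩ ⟨hv2, -⟩
    exact hvr (h.inter v hv1 hv2)
  · rintro u ⟨hu, hur⟩ v ⟨hv, hvr⟩
    exact h.adj u hu v hv hur hvr

theorem Cut.T_le {W₁ W₂ : Set V} {r : V} (h : Cut G W₁ W₂ r) {x : ℝ} (hx : 0 < x) {β₁ β₂ : ℝ}
    (h1 : T G W₁ x ≤ β₁) (h1' : T G (W₁ \ {r}) x ≤ β₁) (h2 : T G W₂ x ≤ β₂)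
    (h2' : T G (W₂ \ {r}) x ≤ β₂) : T G (W₁ ∪ W₂) x ≤ β₁ + β₂ := by
  rw [h.T_eq hx]
  have g := glue_arctan (I₁ := (Q G W₁ r x).im) (I₂ := (Q G W₂ r x).im) hx
    (Q_re_nonneg G W₁ r hx) (Q_re_nonneg G W₂ r hx)
  rw [T_pivot G h.mem₁ hx] at h1
  rw [T_pivot G h.mem₂ hx] at h2
  have e1 : T G (W₁ \ {r}) x + max 0 (Real.arctan ((Q G W₁ r x).im / (x + (Q G W₁ r x).re))) ≤
      β₁ := by
    rw [← max_add_add_left, add_zero]
    exact max_le h1' h1
  have e2 : T G (W₂ \ {r}) x + max 0 (Real.arctan ((Q G W₂ r x).im / (x + (Q G W₂ r x).re))) ≤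
      β₂ := by
    rw [← max_add_add_left, add_zero]
    exact max_le h2' h2
  linarith

/-- Restriction of a cut to a set containing `r`. -/
theorem Cut.restrict {W₁ W₂ W : Set V} {r : V} (h : Cut G W₁ W₂ r) (hr : r ∈ W) :
    Cut G (W ∩ W₁) (W ∩ W₂) r :=
  ⟨⟨hr, h.mem₁⟩, ⟨hr, h.mem₂⟩, fun v h1 h2 => h.inter v h1.2 h2.2,
    fun u hu v hv => h.adj u hu.2 v hv.2⟩

theorem Cut.T_not_mem {W₁ W₂ W : Set V} {r : V} (h : Cut G W₁ W₂ r) (hr : r ∉ W) {x : ℝ}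
    (hx : 0 < x) : T G ((W ∩ W₁) ∪ (W ∩ W₂)) x = T G (W ∩ W₁) x + T G (W ∩ W₂) x := by
  have hne : ∀ v ∈ W, v ≠ r := fun v hv hvr => hr (hvr ▸ hv)
  refine T_union G ?_ ?_ hx
  · rw [Set.disjoint_left]
    rintro v ⟨hv, hv1⟩ ⟨-, hv2⟩
    exact hne v hv (h.inter v hv1 hv2)
  · rintro u ⟨hu, hu1⟩ v ⟨hv, hv2⟩
    exact h.adj u hu1 v hv2 (hne u hu) (hne v hv)

theorem sub_split {W₁ W₂ W : Set V} (h : W ⊆ W₁ ∪ W₂) : W = (W ∩ W₁) ∪ (W ∩ W₂) := by
  rw [← Set.inter_union_distrib_left, Set.inter_eq_self_of_subset_left h]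

/-- Hereditary upper bounds add up. -/
theorem Cut.bound {W₁ W₂ : Set V} {r : V} (h : Cut G W₁ W₂ r) {x : ℝ} (hx : 0 < x) {β₁ β₂ : ℝ}
    (h1 : ∀ W ⊆ W₁, T G W x ≤ β₁) (h2 : ∀ W ⊆ W₂, T G W x ≤ β₂) :
    ∀ W ⊆ W₁ ∪ W₂, T G W x ≤ β₁ + β₂ := by
  intro W hW
  rw [sub_split hW]
  by_cases hr : r ∈ W
  · exact (h.restrict hr).T_le hx (h1 _ Set.inter_subset_right)
      (h1 _ (Set.sdiff_subset.trans Set.inter_subset_right)) (h2 _ Set.inter_subset_right)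
      (h2 _ (Set.sdiff_subset.trans Set.inter_subset_right))
  · rw [h.T_not_mem hr hx]
    exact add_le_add (h1 _ Set.inter_subset_right) (h2 _ Set.inter_subset_right)

/-- The phase between two phases, if the second side has phase zero. -/
theorem Cut.T_zero_right {W₁ W₂ : Set V} {r : V} (h : Cut G W₁ W₂ r) {x : ℝ} (hx : 0 < x)
    (h2 : T G W₂ x = 0) (h2' : T G (W₂ \ {r}) x = 0) :
    T G (W₁ ∪ W₂) x = T G (W₁ \ {r}) x +
      Real.arctan ((Q G W₁ r x).im / (x + ((Q G W₁ r x).re + (Q G W₂ r x).re))) := by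
  have h3 : (Q G W₂ r x).im = 0 := by
    rw [T_pivot G h.mem₂ hx, h2', zero_add, Real.arctan_eq_zero_iff] at h2
    have := Q_re_nonneg G W₂ r hx
    rcases div_eq_zero_iff.1 h2 with h4 | h4
    · exact h4
    · linarith
  rw [h.T_eq hx, h2', h3, add_zero, add_zero]

/-- signs -/
def Sg (σ : ℝ) : Prop := σ = 1 ∨ σ = -1

theorem Cut.nonneg {σ : ℝ} (hσ : Sg σ) {W₁ W₂ : Set V} {r : V} (h : Cut G W₁ W₂ r) {x : ℝ}
    (hx : 0 < x) (h2 : T G W₂ x = 0) (h2' : T G (W₂ \ {r}) x = 0) (h1 : 0 ≤ σ * T G W₁ x)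
    (h1' : 0 ≤ σ * T G (W₁ \ {r}) x) : 0 ≤ σ * T G (W₁ ∪ W₂) x ∧
      (0 < σ * T G W₁ x → 0 < σ * T G (W₁ ∪ W₂) x) := by
  rw [h.T_zero_right hx h2 h2']
  rw [T_pivot G h.mem₁ hx] at h1 ⊢
  have hR₁ := Q_re_nonneg G W₁ r hx
  have hR₂ := Q_re_nonneg G W₂ r hx
  generalize (Q G W₁ r x).im = I at *
  generalize (Q G W₁ r x).re = R₁ at *
  generalize (Q G W₂ r x).re = R₂ at *
  generalize T G (W₁ \ {r}) x = t at *
  have d1 : 0 < x + R₁ := by linarith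
  have d3 : 0 < x + (R₁ + R₂) := by linarith
  have hodd : ∀ s : ℝ, σ * Real.arctan s = Real.arctan (σ * s) := by
    intro s
    rcases hσ with rfl | rfl
    · rw [one_mul, one_mul]
    · rw [neg_one_mul, neg_one_mul, Real.arctan_neg]
  rw [mul_add, hodd, ← mul_div_assoc] at h1 ⊢
  rw [mul_add, hodd, ← mul_div_assoc]
  rcases le_or_gt (σ * I) 0 with h0 | h0
  · have h3 : Real.arctan (σ * I / (x + R₁)) ≤ Real.arctan (σ * I / (x + (R₁ + R₂))) := by
      refine Real.arctan_strictMono.monotone ?_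
      rw [div_le_div_iff₀ d1 d3]
      nlinarith [mul_nonneg (neg_nonneg.2 h0) hR₂]
    exact ⟨by linarith, fun h4 => by linarith⟩
  · have h3 : 0 < Real.arctan (σ * I / (x + (R₁ + R₂))) := by
      rw [← Real.arctan_zero]
      exact Real.arctan_strictMono (div_pos h0 d3)
    exact ⟨by linarith, fun _ => by linarith⟩

/-- Hereditary signs. -/
theorem Cut.sign {σ : ℝ} (hσ : Sg σ) {W₁ W₂ : Set V} {r : V} (h : Cut G W₁ W₂ r) {x : ℝ}
    (hx : 0 < x) (h1 : ∀ W ⊆ W₁, 0 ≤ σ * T G W x) (h2 : ∀ W ⊆ W₂, T G W x = 0) :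
    ∀ W ⊆ W₁ ∪ W₂, 0 ≤ σ * T G W x := by
  intro W hW
  rw [sub_split hW]
  by_cases hr : r ∈ W
  · exact ((h.restrict hr).nonneg hσ hx (h2 _ Set.inter_subset_right)
      (h2 _ (Set.sdiff_subset.trans Set.inter_subset_right)) (h1 _ Set.inter_subset_right)
      (h1 _ (Set.sdiff_subset.trans Set.inter_subset_right))).1
  · rw [h.T_not_mem hr hx, h2 _ Set.inter_subset_right, add_zero]
    exact h1 _ Set.inter_subset_right

theorem Cut.strict {σ : ℝ} (hσ : Sg σ) {W₁ W₂ : Set V} {r : V} (h : Cut G W₁ W₂ r) {x : ℝ}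
    (hx : 0 < x) (h1 : ∀ W ⊆ W₁, 0 ≤ σ * T G W x) (h2 : ∀ W ⊆ W₂, T G W x = 0)
    (h3 : 0 < σ * T G W₁ x) : 0 < σ * T G (W₁ ∪ W₂) x :=
  (h.nonneg hσ hx (h2 _ subset_rfl) (h2 _ Set.sdiff_subset) (h1 _ subset_rfl)
      (h1 _ Set.sdiff_subset)).2 h3

end Pool.Agent.MP3b2d6a
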