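import Pool.Agent.Lib.MP_3b2d6a_co.SCE

/-! Growth of the number of edges in a connected graph. -/

set_option autoImplicit false
set_option linter.unusedSectionVars false

open Finset Filter Topology Matrix

namespace Pool.Agent.MP3b2d6a

variable {V : Type*} [Fintype V] [DecidableEq V] {G : SimpleGraph V}

theorem growth_aux {W : Set V} (hc : (G.induce W).Connected) : ∀ (n : ℕ) (U : Set V), U.Nonempty →
    U ⊆ W → (W \ U).ncard = n → ed G U + W.ncard ≤ ed G W + U.ncard := by
  intro n
  induction n with
  | zero =>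
    intro U _ hUW hn
    rw [Set.ncard_eq_zero (Set.toFinite _), Set.sdiff_eq_empty] at hn
    rw [Set.Subset.antisymm hUW hn]
  | succ n ih =>
    intro U hU hUW hn
    obtain ⟨u, hu⟩ := hU
    have hne : (W \ U).Nonempty := by
      apply Set.nonempty_of_ncard_ne_zero
      omega
    obtain ⟨v, hv⟩ := hne
    obtain ⟨p⟩ := hc.preconnected ⟨u, hUW hu⟩ ⟨v, hv.1⟩
    obtain ⟨e, -, he1, he2⟩ := p.exists_boundary_dart {z : W | (z : V) ∈ U} hu hv.2
    obtain ⟨w, hw⟩ : ∃ w : V, w = (e.snd : V) := ⟨_, rfl⟩
    have hwW : w ∈ W := by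
      rw [hw]
      exact e.snd.2
    have hwU : w ∉ U := by
      rw [hw]
      exact he2
    have hadj : G.Adj w (e.fst : V) := by
      rw [hw]
      exact (e.adj : G.Adj (e.fst : V) (e.snd : V)).symm
    have h1 := ih (insert w U) ⟨w, Set.mem_insert _ _⟩ (Set.insert_subset hwW hUW) (by
      have h2 : W \ insert w U = (W \ U) \ {w} := by
        ext z
        simp only [Set.mem_sdiff, Set.mem_insert_iff, Set.mem_singleton_iff, not_or]
        tauto
      have h8 : w ∈ W \ U := ⟨hwW, hwU⟩
      rw [h2, Set.ncard_sdiff_singleton_of_mem h8, hn]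
      rfl)
    have h3 := ed_del (G := G) (W := insert w U) (v := w) (Set.mem_insert _ _)
    have h4 : insert w U \ {w} = U := by
      ext z
      simp only [Set.mem_sdiff, Set.mem_insert_iff, Set.mem_singleton_iff]
      constructor
      · rintro ⟨h5 | h5, h6⟩
        · exact absurd h5 h6
        · exact h5
      · intro h5
        exact ⟨Or.inr h5, fun h6 => hwU (h6 ▸ h5)⟩
    rw [h4] at h3
    have h5 : 1 ≤ dg G (insert w U) w := by
      unfold dg
      exact (Set.ncard_pos (Set.toFinite _)).2 ⟨e.fst, hadj, Set.mem_insert_of_mem _ he1⟩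
    have h6 : (1 : ℝ) ≤ dg G (insert w U) w := by exact_mod_cast h5
    have h7 : ((insert w U).ncard : ℝ) = U.ncard + 1 := by
      rw [Set.ncard_insert_of_notMem hwU (Set.toFinite _)]
      push_cast
      ring
    rw [h3, h7] at h1
    linarith

/-- In a connected graph `ed - card` does not decrease when a nonempty vertex set grows to the
whole. -/
theorem growth {W U : Set V} (hc : (G.induce W).Connected) (hU : U.Nonempty) (hUW : U ⊆ W) :
    ed G U + W.ncard ≤ ed G W + U.ncard :=
  growth_aux hc _ U hU hUW rfl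

end Pool.Agent.MP3b2d6a
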