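import Pool.Agent.Lib.MP_3b2d6a_co.Cyc

/-! At most two positive eigenvalues. -/

set_option autoImplicit false
set_option linter.unusedSectionVars false

open Finset Filter Topology Matrix

namespace Pool.Agent.MP3b2d6a

/-- `arctan` is concave on `[0, ∞)`. -/
theorem arctan_concave : ConcaveOn ℝ (Set.Ici 0) Real.arctan := by
  refine AntitoneOn.concaveOn_of_deriv (convex_Ici 0) Real.continuous_arctan.continuousOn
    Real.differentiable_arctan.differentiableOn ?_
  intro a ha b hb hab
  rw [interior_Ici] at ha hb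
  have ha' : 0 < a := ha
  rw [Real.deriv_arctan]
  refine one_div_le_one_div_of_le (by positivity) ?_
  nlinarith

/-- The chord bound: if `0 ≤ t ≤ a` then `arctan t ≥ (t / a) arctan a`. -/
theorem arctan_chord {t a : ℝ} (ht : 0 ≤ t) (hta : t ≤ a) (ha : 0 < a) :
    t / a * Real.arctan a ≤ Real.arctan t := by
  have hc := arctan_concave.2
  have w0 : 0 ≤ 1 - t / a := by
    rw [sub_nonneg, div_le_one ha]
    exact hta
  have h := hc (Set.mem_Ici.2 le_rfl : (0 : ℝ) ∈ Set.Ici 0) (Set.mem_Ici.2 ha.le) w0
    (div_nonneg ht ha.le) (by ring)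
  rw [Real.arctan_zero, smul_zero, zero_add, zero_add, smul_eq_mul, smul_eq_mul,
    div_mul_cancel₀ _ ha.ne'] at h
  exact h

/-- The second chord: if `b ≤ t ≤ a`, `b < a`. -/
theorem arctan_chord' {b t a : ℝ} (hb : 0 ≤ b) (hbt : b ≤ t) (hta : t ≤ a) (hba : b < a) :
    Real.arctan b + (Real.arctan a - Real.arctan b) / (a - b) * (t - b) ≤ Real.arctan t := by
  have hab : 0 < a - b := by linarith
  have hc := arctan_concave.2
  have w1 : 0 ≤ (a - t) / (a - b) := div_nonneg (by linarith) hab.le
  have w2 : 0 ≤ (t - b) / (a - b) := div_nonneg (by linarith) hab.le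
  have w3 : (a - t) / (a - b) + (t - b) / (a - b) = 1 := by
    rw [← add_div, div_eq_one_iff_eq hab.ne']
    ring
  have h := hc (Set.mem_Ici.2 hb) (Set.mem_Ici.2 (hb.trans hba.le)) w1 w2 w3
  simp only [smul_eq_mul] at h
  have e1 : (a - t) / (a - b) * b + (t - b) / (a - b) * a = t := by
    field_simp
    ring
  rw [e1] at h
  refine le_trans (le_of_eq ?_) h
  field_simp
  ring

/-- Lower bound by a combination of `t` and `min t b`. -/
theorem arctan_lower {a b : ℝ} (hb : 0 < b) (hba : b ≤ a) :
    ∃ s₁ s₂ : ℝ, 0 ≤ s₁ ∧ s₁ * b + s₂ * b = Real.arctan b ∧ s₁ * b + s₂ * a = Real.arctan a ∧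
      ∀ t, 0 ≤ t → t ≤ a → s₁ * min t b + s₂ * t ≤ Real.arctan t := by
  have hmono := Real.arctan_strictMono.monotone
  rcases hba.eq_or_lt with rfl | hlt
  · refine ⟨Real.arctan b / b, 0, div_nonneg (Real.arctan_zero ▸ hmono hb.le) hb.le, by field_simp; ring,
      by field_simp; ring, fun t ht htb => ?_⟩
    rw [min_eq_left htb, zero_mul, add_zero]
    have := arctan_chord ht htb hb
    calc Real.arctan b / b * t = t / b * Real.arctan b := by ring
      _ ≤ _ := this
  · have ha : 0 < a := hb.trans hlt
    obtain ⟨s₂, hs₂⟩ : ∃ s, s = (Real.arctan a - Real.arctan b) / (a - b) := ⟨_, rfl⟩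
    have hab : 0 < a - b := by linarith
    have h2 : s₂ * (a - b) = Real.arctan a - Real.arctan b := by
      rw [hs₂]
      field_simp
    have hch := arctan_chord hb.le hlt.le ha
    -- slope comparison: s₂ ≤ arctan b / b
    have h3 : s₂ * b ≤ Real.arctan b := by
      have h4 : b * Real.arctan a ≤ a * Real.arctan b := by
        have := mul_le_mul_of_nonneg_left hch ha.le
        calc b * Real.arctan a = a * (b / a * Real.arctan a) := by field_simp
          _ ≤ _ := this
      have h5 : s₂ * b * (a - b) ≤ Real.arctan b * (a - b) := by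
        calc s₂ * b * (a - b) = b * (s₂ * (a - b)) := by ring
          _ = b * (Real.arctan a - Real.arctan b) := by rw [h2]
          _ ≤ _ := by nlinarith
      exact le_of_mul_le_mul_right h5 hab
    refine ⟨Real.arctan b / b - s₂, s₂, ?_, by field_simp; ring, ?_, fun t ht hta => ?_⟩
    · rw [sub_nonneg, le_div_iff₀ hb]
      exact h3
    · have : (Real.arctan b / b - s₂) * b + s₂ * a = Real.arctan b + s₂ * (a - b) := by
        field_simp
        ring
      rw [this, h2]
      ring
    · rcases le_total t b with htb | htb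
      · rw [min_eq_left htb]
        have := arctan_chord ht htb hb
        calc (Real.arctan b / b - s₂) * t + s₂ * t = t / b * Real.arctan b := by ring
          _ ≤ _ := this
      · rw [min_eq_right htb]
        have := arctan_chord' hb.le htb hta hlt
        rw [← hs₂] at this
        refine le_trans (le_of_eq ?_) this
        field_simp
        ring

/-- Majorization: if `0 ≤ μ_j ≤ a` and `Σ μ_j = a + b`, `0 ≤ b ≤ a`, then
`Σ arctan μ_j ≥ arctan a + arctan b`. -/
theorem maj_arctan {ι : Type*} (s : Finset ι) {μ : ι → ℝ} {a b : ℝ} (hb : 0 ≤ b) (hba : b ≤ a)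
    (h0 : ∀ j ∈ s, 0 ≤ μ j) (h1 : ∀ j ∈ s, μ j ≤ a) (hs : ∑ j ∈ s, μ j = a + b) :
    Real.arctan a + Real.arctan b ≤ ∑ j ∈ s, Real.arctan (μ j) := by
  classical
  rcases hb.eq_or_lt with rfl | hb'
  · rw [Real.arctan_zero, add_zero]
    rw [add_zero] at hs
    rcases hba.eq_or_lt with rfl | ha
    · rw [Real.arctan_zero]
      exact Finset.sum_nonneg fun j hj => Real.arctan_zero ▸ Real.arctan_strictMono.monotone (h0 j hj)
    · calc Real.arctan a = ∑ j ∈ s, μ j / a * Real.arctan a := by
            rw [← Finset.sum_mul, ← Finset.sum_div, hs, div_self ha.ne', one_mul]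
        _ ≤ _ := Finset.sum_le_sum fun j hj => arctan_chord (h0 j hj) (h1 j hj) ha
  · obtain ⟨s₁, s₂, hs₁, e1, e2, h3⟩ := arctan_lower hb' hba
    -- the sum of `min μ b` is at least `2 b`
    have hmin : 2 * b ≤ ∑ j ∈ s, min (μ j) b := by
      by_cases hbig : ∃ j ∈ s, b < μ j
      · obtain ⟨j, hj, hjb⟩ := hbig
        by_cases hbig2 : ∃ k ∈ s.erase j, b < μ k
        · obtain ⟨k, hk, hkb⟩ := hbig2
          rw [← Finset.add_sum_erase _ _ hj, ← Finset.add_sum_erase _ _ hk, min_eq_right hjb.le,
            min_eq_right hkb.le]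
          have : 0 ≤ ∑ i ∈ (s.erase j).erase k, min (μ i) b := Finset.sum_nonneg fun i hi =>
            le_min (h0 i (Finset.mem_of_mem_erase (Finset.mem_of_mem_erase hi))) hb
          linarith
        · push Not at hbig2
          rw [← Finset.add_sum_erase _ _ hj, min_eq_right hjb.le]
          have h4 : ∑ i ∈ s.erase j, min (μ i) b = ∑ i ∈ s.erase j, μ i :=
            Finset.sum_congr rfl fun i hi => min_eq_left (hbig2 i hi)
          rw [h4]
          rw [← Finset.add_sum_erase _ _ hj] at hs
          have := h1 j hj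
          linarith
      · push Not at hbig
        have h4 : ∑ i ∈ s, min (μ i) b = ∑ i ∈ s, μ i :=
          Finset.sum_congr rfl fun i hi => min_eq_left (hbig i hi)
        rw [h4, hs]
        linarith
    calc Real.arctan a + Real.arctan b = s₁ * (2 * b) + s₂ * (a + b) := by
          rw [← e1, ← e2]
          ring
      _ ≤ s₁ * ∑ j ∈ s, min (μ j) b + s₂ * ∑ j ∈ s, μ j := by
          rw [hs]
          have := mul_le_mul_of_nonneg_left hmin hs₁
          linarith
      _ = ∑ j ∈ s, (s₁ * min (μ j) b + s₂ * μ j) := by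
          rw [Finset.sum_add_distrib, Finset.mul_sum, Finset.mul_sum]
      _ ≤ _ := Finset.sum_le_sum fun j hj => h3 _ (h0 j hj) (h1 j hj)

end Pool.Agent.MP3b2d6a
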