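import Mathlib

/-! Phases of the determinants `det (x + i M)`, `M` a real symmetric matrix. -/

set_option autoImplicit false

open Finset Filter Topology

namespace Pool.Agent.MP3b2d6a

/-- `θ` is an argument of `z`. -/
def Ph (z : ℂ) (θ : ℝ) : Prop := ∃ r : ℝ, 0 < r ∧ z = r * Complex.exp (θ * Complex.I)

theorem Ph.mul {z w : ℂ} {θ φ : ℝ} (h : Ph z θ) (h' : Ph w φ) : Ph (z * w) (θ + φ) := by
  obtain ⟨r, hr, rfl⟩ := h
  obtain ⟨s, hs, rfl⟩ := h'
  refine ⟨r * s, mul_pos hr hs, ?_⟩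
  push_cast
  rw [add_mul, Complex.exp_add]
  ring

theorem ph_pos {r : ℝ} (hr : 0 < r) : Ph r 0 := ⟨r, hr, by simp⟩

theorem ph_one : Ph 1 0 := by simpa using ph_pos one_pos

theorem ph_prod {ι : Type*} (s : Finset ι) {z : ι → ℂ} {θ : ι → ℝ} (h : ∀ i, Ph (z i) (θ i)) :
    Ph (∏ i ∈ s, z i) (∑ i ∈ s, θ i) := by
  classical
  induction s using Finset.induction_on with
  | empty => simpa using ph_one
  | insert a s ha ih =>
    rw [Finset.prod_insert ha, Finset.sum_insert ha]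
    exact (h a).mul ih

theorem Ph.diff {z : ℂ} {θ φ : ℝ} (h : Ph z θ) (h' : Ph z φ) : ∃ n : ℤ, θ - φ = n * (2 * Real.pi) := by
  obtain ⟨r, hr, h1⟩ := h
  obtain ⟨s, hs, h2⟩ := h'
  have h3 : ‖z‖ = r := by
    rw [h1, norm_mul, Complex.norm_exp_ofReal_mul_I, mul_one, Complex.norm_real, Real.norm_eq_abs,
      abs_of_pos hr]
  have h4 : ‖z‖ = s := by
    rw [h2, norm_mul, Complex.norm_exp_ofReal_mul_I, mul_one, Complex.norm_real, Real.norm_eq_abs,
      abs_of_pos hs]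
  have h5 : r = s := h3.symm.trans h4
  subst h5
  have h6 : Complex.exp (θ * Complex.I) = Complex.exp (φ * Complex.I) := by
    have h7 : (r : ℂ) ≠ 0 := by exact_mod_cast hr.ne'
    exact mul_left_cancel₀ h7 (h1.symm.trans h2)
  obtain ⟨n, hn⟩ := Complex.exp_eq_exp_iff_exists_int.1 h6
  refine ⟨n, ?_⟩
  have h8 : ((θ : ℂ) - φ - n * (2 * Real.pi)) * Complex.I = 0 := by
    linear_combination hn
  have h9 := (mul_eq_zero.1 h8).resolve_right Complex.I_ne_zero
  have h10 : ((θ - φ - n * (2 * Real.pi) : ℝ) : ℂ) = 0 := by push_cast; exact h9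
  have h11 : θ - φ - n * (2 * Real.pi) = 0 := by exact_mod_cast h10
  linarith

/-- The argument of `u + i v`, `u > 0`. -/
theorem ph_arctan {u v : ℝ} (hu : 0 < u) : Ph (u + v * Complex.I) (Real.arctan (v / u)) := by
  have hs : 0 < √(1 + (v / u) ^ 2) := Real.sqrt_pos.2 (by positivity)
  refine ⟨u * √(1 + (v / u) ^ 2), mul_pos hu hs, ?_⟩
  rw [Complex.exp_mul_I, ← Complex.ofReal_cos, ← Complex.ofReal_sin, Real.cos_arctan,
    Real.sin_arctan]
  generalize √(1 + (v / u) ^ 2) = w at hs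
  have hs' : (w : ℂ) ≠ 0 := by exact_mod_cast hs.ne'
  have hu' : (u : ℂ) ≠ 0 := by exact_mod_cast hu.ne'
  push_cast
  field_simp

/-- Lifting lemma. -/
theorem lift_zero {F : ℝ → ℝ} (hc : ContinuousOn F (Set.Ioi 0)) (h0 : Tendsto F atTop (𝓝 0))
    (hn : ∀ x, 0 < x → ∃ n : ℤ, F x = n * (2 * Real.pi)) {x : ℝ} (hx : 0 < x) : F x = 0 := by
  have hpi := Real.pi_pos
  have h1 : ∀ᶠ y in atTop, |F y| < Real.pi := by
    have := h0.abs
    rw [abs_zero] at this
    exact this.eventually_lt_const hpi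
  obtain ⟨y, hy1, hy2⟩ := (h1.and (eventually_ge_atTop x)).exists
  by_contra hne
  have h2 : Real.pi < |F x| := by
    obtain ⟨n, hn'⟩ := hn x hx
    have h3 : n ≠ 0 := by
      rintro rfl
      exact hne (by simpa using hn')
    have h4 : (1 : ℝ) ≤ |(n : ℝ)| := by
      rw [← Int.cast_abs]
      exact_mod_cast Int.one_le_abs h3
    rw [hn', abs_mul, abs_of_pos (by positivity : (0 : ℝ) < 2 * Real.pi)]
    nlinarith
  have h5 : ContinuousOn (fun t => |F t|) (Set.Icc x y) :=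
    (hc.mono fun t ht => hx.trans_le ht.1).abs
  obtain ⟨t, ht, ht2⟩ := intermediate_value_Icc' hy2 h5 (show Real.pi ∈ Set.Icc |F y| |F x| from
    ⟨hy1.le, h2.le⟩)
  obtain ⟨n, hn'⟩ := hn t (hx.trans_le ht.1)
  have ht3 : |F t| = Real.pi := ht2
  rw [hn', abs_mul, abs_of_pos (by positivity : (0 : ℝ) < 2 * Real.pi)] at ht3
  have h6 : |(n : ℝ)| * 2 = 1 := by
    have h7 : (|(n : ℝ)| * 2 - 1) * Real.pi = 0 := by linarith
    have := (mul_eq_zero.1 h7).resolve_right hpi.ne'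
    linarith
  rw [← Int.cast_abs] at h6
  have h8 : |n| * 2 = 1 := by exact_mod_cast h6
  omega

end Pool.Agent.MP3b2d6a
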