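import Pool.Agent.Lib.MP_3b2d6a_co.Spec

/-! The pivot formula. -/

set_option autoImplicit false
set_option linter.unusedSectionVars false

open Finset Filter Topology Matrix

namespace Pool.Agent.MP3b2d6a

variable {V : Type*} [Fintype V] [DecidableEq V]

theorem term_re {r x d : ℝ} : ((r : ℂ) * ((x : ℂ) + d * Complex.I)⁻¹).re = r * (x / (x ^ 2 + d ^ 2)) := by
  rw [Complex.re_ofReal_mul, Complex.inv_re]
  congr 1
  simp [Complex.normSq_apply]
  ring_nf

theorem qq_re_nonneg {M : Matrix V V ℝ} (hM : M.IsHermitian) (a : V → ℝ) {x : ℝ} (hx : 0 < x) :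
    0 ≤ (qq M a x).re := by
  obtain ⟨c, hc⟩ := qq_spec hM a
  rw [hc x hx, Complex.re_sum]
  refine Finset.sum_nonneg fun j _ => ?_
  rw [term_re]
  positivity

theorem qq_continuousOn {M : Matrix V V ℝ} (hM : M.IsHermitian) (a : V → ℝ) :
    ContinuousOn (fun x => qq M a x) (Set.Ioi 0) := by
  obtain ⟨c, hc⟩ := qq_spec hM a
  refine ContinuousOn.congr (f := fun x : ℝ => ∑ j, ((c j ^ 2 : ℝ) : ℂ) *
    ((x : ℂ) + hM.eigenvalues j * Complex.I)⁻¹) ?_ (fun x hx => hc x hx)
  refine continuousOn_finsetSum _ fun j _ => ?_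
  refine ContinuousOn.mul continuousOn_const (ContinuousOn.inv₀ ?_ fun x hx => ne_zero_of_pos hx)
  exact (Complex.continuous_ofReal.add continuous_const).continuousOn

theorem qq_tendsto {M : Matrix V V ℝ} (hM : M.IsHermitian) (a : V → ℝ) :
    Tendsto (fun x => qq M a x) atTop (𝓝 0) := by
  obtain ⟨c, hc⟩ := qq_spec hM a
  have h1 : Tendsto (fun x : ℝ => ∑ j, ((c j ^ 2 : ℝ) : ℂ) *
      ((x : ℂ) + hM.eigenvalues j * Complex.I)⁻¹) atTop (𝓝 (∑ _j : V, 0)) := by
    refine tendsto_finsetSum _ fun j _ => ?_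
    rw [← mul_zero ((c j ^ 2 : ℝ) : ℂ)]
    refine Tendsto.const_mul _ ?_
    rw [tendsto_zero_iff_norm_tendsto_zero]
    refine squeeze_zero' (Eventually.of_forall fun _ => norm_nonneg _) ?_ tendsto_inv_atTop_zero
    filter_upwards [eventually_gt_atTop 0] with x hx
    rw [norm_inv]
    refine inv_anti₀ hx ?_
    calc x = |((x : ℂ) + hM.eigenvalues j * Complex.I).re| := by simp [abs_of_pos hx]
      _ ≤ _ := Complex.abs_re_le_norm _
  rw [Finset.sum_const_zero] at h1
  refine h1.congr' ?_
  filter_upwards [eventually_gt_atTop 0] with x hx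
  exact (hc x hx).symm

theorem TT_continuousOn (M : Matrix V V ℝ) : ContinuousOn (TT M) (Set.Ioi 0) := by
  unfold TT
  by_cases h : M.IsHermitian
  · simp only [dif_pos h]
    refine continuousOn_finsetSum _ fun j _ => ?_
    refine Real.continuous_arctan.comp_continuousOn ?_
    exact ContinuousOn.div continuousOn_const continuousOn_id fun x hx => (Set.mem_Ioi.1 hx).ne'
  · simp only [dif_neg h]
    exact continuousOn_const

theorem TT_tendsto (M : Matrix V V ℝ) : Tendsto (TT M) atTop (𝓝 0) := by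
  unfold TT
  by_cases h : M.IsHermitian
  · simp only [dif_pos h]
    have h1 : Tendsto (fun x : ℝ => ∑ j, Real.arctan (h.eigenvalues j / x)) atTop
        (𝓝 (∑ _j : V, 0)) := by
      refine tendsto_finsetSum _ fun j _ => ?_
      have h2 : Tendsto (fun x : ℝ => h.eigenvalues j / x) atTop (𝓝 0) :=
        tendsto_const_nhds.div_atTop tendsto_id
      have h3 := (Real.continuous_arctan.tendsto 0).comp h2
      rw [Real.arctan_zero] at h3
      exact h3
    rw [Finset.sum_const_zero] at h1
    exact h1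
  · simp only [dif_neg h]
    exact tendsto_const_nhds

/-- The determinant after a pivot. -/
theorem det_pivot {N : Matrix V V ℂ} {r : V} {x : ℂ} (hx : x ≠ 0)
    (h1 : ∀ i, N i r = if i = r then x else 0) (h2 : ∀ i, N r i = if i = r then x else 0)
    {a y : V → ℂ} (ha : a r = 0) (hy : N *ᵥ y = a) :
    (N + Complex.I • (vecMulVec a (Pi.single r 1) + vecMulVec (Pi.single r 1) a)).det =
      N.det * (1 + (a ⬝ᵥ y) / x) := by
  have hyr : y r = 0 := by
    have h3 := congrFun hy r
    rw [ha, Matrix.mulVec, dotProduct] at h3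
    simp only [h2, ite_mul, zero_mul, Finset.sum_ite_eq', Finset.mem_univ, if_true] at h3
    exact (mul_eq_zero.1 h3).resolve_left hx
  obtain ⟨Y, hY⟩ : ∃ Y : Matrix V (Fin 2) ℂ, Y = fun i j => if j = 0 then y i else
      (if i = r then x⁻¹ else 0) := ⟨_, rfl⟩
  obtain ⟨W, hW⟩ : ∃ W : Matrix (Fin 2) V ℂ, W = fun j i => if j = 0 then (if i = r then 1 else 0)
      else a i := ⟨_, rfl⟩
  have h4 : N + Complex.I • (vecMulVec a (Pi.single r 1) + vecMulVec (Pi.single r 1) a) =
      N * (1 + (Complex.I • Y) * W) := by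
    rw [Matrix.mul_add, Matrix.mul_one, ← Matrix.mul_assoc, Matrix.mul_smul, Matrix.smul_mul]
    congr 2
    ext i k
    rw [Matrix.mul_apply, Fin.sum_univ_two]
    have e0 : (N * Y) i 0 = a i := by
      rw [← hy, Matrix.mul_apply, hY]
      rfl
    have e1 : (N * Y) i 1 = if i = r then 1 else 0 := by
      rw [Matrix.mul_apply, hY]
      simp only [Fin.isValue, one_ne_zero, if_false, mul_ite, mul_zero, Finset.sum_ite_eq',
        Finset.mem_univ, if_true]
      rw [h1]
      split_ifs
      · exact mul_inv_cancel₀ hx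
      · rw [zero_mul]
    rw [e0, e1, hW]
    simp only [Matrix.add_apply, vecMulVec_apply, Pi.single_apply, if_true, Fin.isValue,
      one_ne_zero, if_false]
  rw [h4, Matrix.det_mul, Matrix.det_one_add_mul_comm, Matrix.det_fin_two]
  congr 1
  have w00 : (W * Y) 0 0 = 0 := by
    rw [Matrix.mul_apply, hW, hY]
    simp [hyr]
  have w01 : (W * Y) 0 1 = x⁻¹ := by
    rw [Matrix.mul_apply, hW, hY]
    simp
  have w10 : (W * Y) 1 0 = a ⬝ᵥ y := by
    rw [Matrix.mul_apply, hW, hY]
    simp [dotProduct]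
  have w11 : (W * Y) 1 1 = 0 := by
    rw [Matrix.mul_apply, hW, hY]
    simp [ha]
  simp only [Matrix.mul_smul, Matrix.add_apply, Matrix.smul_apply, w00, w01, w10, w11,
    Matrix.one_apply_eq, Matrix.one_apply_ne, ne_eq, Fin.isValue, one_ne_zero, zero_ne_one,
    not_false_eq_true, smul_eq_mul]
  linear_combination (-(a ⬝ᵥ y) * x⁻¹) * Complex.I_mul_I

theorem pivot {M' M : Matrix V V ℝ} (hM' : M'.IsHermitian) (hM : M.IsHermitian) {r : V} {a : V → ℝ}
    (ha : a r = 0) (hr : ∀ i, M' i r = 0) (hr' : ∀ i, M' r i = 0)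
    (h : M = M' + (vecMulVec a (Pi.single r 1) + vecMulVec (Pi.single r 1) a)) {x : ℝ}
    (hx : 0 < x) :
    TT M x = TT M' x + Real.arctan ((qq M' a x).im / (x + (qq M' a x).re)) := by
  have hdet : ∀ x : ℝ, 0 < x → (NN M x).det = (NN M' x).det * (1 + qq M' a x / x) := by
    intro x hx
    obtain ⟨y, hy⟩ := exists_sol hM' hx a
    have hxc : (x : ℂ) ≠ 0 := by exact_mod_cast hx.ne'
    rw [qq_of_sol hM' hx hy, ← det_pivot (r := r) hxc _ _ _ hy]
    · congr 1
      unfold NN
      rw [h, cm_add, smul_add, ← add_assoc]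
      congr 2
      ext i j
      simp only [cm, vecMulVec_apply, Pi.single_apply, cv, Matrix.map_apply, Matrix.add_apply,
        mul_ite, mul_one, mul_zero, ite_mul, one_mul, zero_mul, Complex.ofRealHom_eq_coe]
      split_ifs <;> simp
    · intro i
      simp only [NN, cm, Matrix.add_apply, Matrix.smul_apply, Matrix.map_apply, hr, map_zero,
        smul_eq_mul, mul_zero, add_zero, Matrix.one_apply, mul_ite, mul_one]
    · intro i
      simp only [NN, cm, Matrix.add_apply, Matrix.smul_apply, Matrix.map_apply, hr', map_zero,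
        smul_eq_mul, mul_zero, add_zero, Matrix.one_apply, mul_ite, mul_one]
      by_cases hir : i = r
      · rw [if_pos hir, if_pos hir.symm]
      · rw [if_neg hir, if_neg (Ne.symm hir)]
    · simp [cv, ha]
  have hcr : ContinuousOn (fun x => (qq M' a x).re) (Set.Ioi 0) :=
    Complex.continuous_re.comp_continuousOn (qq_continuousOn hM' a)
  have hci : ContinuousOn (fun x => (qq M' a x).im) (Set.Ioi 0) :=
    Complex.continuous_im.comp_continuousOn (qq_continuousOn hM' a)
  have htr : Tendsto (fun x => (qq M' a x).re) atTop (𝓝 0) := by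
    have := (Complex.continuous_re.tendsto 0).comp (qq_tendsto hM' a)
    rw [Complex.zero_re] at this
    exact this
  have hti : Tendsto (fun x => (qq M' a x).im) atTop (𝓝 0) := by
    have := (Complex.continuous_im.tendsto 0).comp (qq_tendsto hM' a)
    rw [Complex.zero_im] at this
    exact this
  have hpos : ∀ x : ℝ, 0 < x → 0 < x + (qq M' a x).re := fun x hx =>
    add_pos_of_pos_of_nonneg hx (qq_re_nonneg hM' a hx)
  have hF := lift_zero (F := fun x => TT M x - TT M' x -
      Real.arctan ((qq M' a x).im / (x + (qq M' a x).re))) ?_ ?_ ?_ hx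
  · linarith
  · refine ((TT_continuousOn M).sub (TT_continuousOn M')).sub
      (Real.continuous_arctan.comp_continuousOn (hci.div (continuousOn_id.add hcr) fun x hx => ?_))
    exact (hpos x hx).ne'
  · have h1 : Tendsto (fun x => (qq M' a x).im / (x + (qq M' a x).re)) atTop (𝓝 0) :=
      hti.div_atTop (tendsto_id.atTop_add htr)
    have h2 := (Real.continuous_arctan.tendsto 0).comp h1
    rw [Real.arctan_zero] at h2
    have h3 := ((TT_tendsto M).sub (TT_tendsto M')).sub h2
    simpa using h3
  · intro x hx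
    have h1 : Ph (1 + qq M' a x / x) (Real.arctan ((qq M' a x).im / (x + (qq M' a x).re))) := by
      have h2 := (ph_pos (inv_pos.2 hx)).mul (ph_arctan (v := (qq M' a x).im) (hpos x hx))
      rw [zero_add] at h2
      convert h2 using 1
      have hxc : (x : ℂ) ≠ 0 := by exact_mod_cast hx.ne'
      push_cast
      field_simp
      rw [add_assoc, Complex.re_add_im]
    have h2 := (ph_NN hM' hx).mul h1
    rw [← hdet x hx] at h2
    obtain ⟨n, hn⟩ := (ph_NN hM hx).diff h2
    exact ⟨n, by rw [← hn]; ring⟩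

end Pool.Agent.MP3b2d6a
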