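import Pool.Agent.Lib.MP_3b2d6a_co.Conv

/-! Degrees inside a vertex set. -/

set_option autoImplicit false
set_option linter.unusedSectionVars false

open Finset Filter Topology Matrix

namespace Pool.Agent.MP3b2d6a

/-- The degree of `u` inside `W`. -/
noncomputable def dg {V : Type*} (G : SimpleGraph V) (W : Set V) (u : V) : ℕ :=
  (G.neighborSet u ∩ W).ncard

end Pool.Agent.MP3b2d6a
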