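import Pool.Agent.Lib.MP_3b2d6a_co.SC0

set_option autoImplicit false
set_option linter.unusedSectionVars false

open Finset Filter Topology Matrix

namespace Pool.Agent.MP3b2d6a

variable {V : Type*} [Fintype V] [DecidableEq V] {G : SimpleGraph V}

/-- A connected graph of maximum degree two with a cycle is that cycle. -/
theorem cyc_data {W : Set V} (hc : (G.induce W).Connected) (h2 : ∀ u ∈ W, dg G W u ≤ 2)
    (hac : ¬ (G.induce W).IsAcyclic) :
    ∃ n : ℕ, ∃ p : ℕ → V, 3 ≤ n ∧ (∀ i < n, ∀ j < n, p i = p j → i = j) ∧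
      (∀ v, v ∈ W ↔ ∃ i < n, p i = v) ∧
      ∀ i < n, ∀ j < n, (G.Adj (p i) (p j) ↔
        (j = i + 1 ∨ i = j + 1 ∨ (i = 0 ∧ j = n - 1) ∨ (i = n - 1 ∧ j = 0))) := by
  classical
  unfold SimpleGraph.IsAcyclic at hac
  push Not at hac
  obtain ⟨v, c, hcyc⟩ := hac
  obtain ⟨n, hn⟩ : ∃ n, n = c.length := ⟨_, rfl⟩
  have h3 : 3 ≤ n := by rw [hn]; exact hcyc.three_le_length
  obtain ⟨g, hg⟩ : ∃ g : ℕ → W, g = c.getVert := ⟨_, rfl⟩
  have hadj : ∀ i < n, (G.induce W).Adj (g i) (g (i + 1)) := fun i hi => by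
    rw [hg]
    exact c.adj_getVert_succ (by omega)
  have hg0 : g 0 = v := by rw [hg]; exact c.getVert_zero
  have hgn : g n = g 0 := by
    rw [hg0, hg, hn]
    exact c.getVert_length
  have hinj : ∀ i < n, ∀ j < n, g i = g j → i = j := by
    intro i hi j hj hij
    rw [hg] at hij
    exact hcyc.getVert_injOn' (by simp only [Set.mem_ofPred_eq]; omega)
      (by simp only [Set.mem_ofPred_eq]; omega) hij
  obtain ⟨nx, hnx⟩ : ∃ nx : ℕ → ℕ, nx = fun i => if i = n - 1 then 0 else i + 1 := ⟨_, rfl⟩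
  obtain ⟨pr, hpr⟩ : ∃ pr : ℕ → ℕ, pr = fun i => if i = 0 then n - 1 else i - 1 := ⟨_, rfl⟩
  have hnx_lt : ∀ i < n, nx i < n := fun i hi => by
    rw [hnx]; dsimp only; split_ifs <;> omega
  have hpr_lt : ∀ i < n, pr i < n := fun i hi => by
    rw [hpr]; dsimp only; split_ifs <;> omega
  have hne : ∀ i < n, nx i ≠ pr i := fun i hi => by
    rw [hnx, hpr]; dsimp only; split_ifs <;> omega
  have hadjn : ∀ i < n, (G.induce W).Adj (g i) (g (nx i)) := by
    intro i hi
    rw [hnx]
    dsimp only
    split_ifs with h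
    · have := hadj i hi
      rw [h, show n - 1 + 1 = n by omega, hgn] at this
      rw [h]
      exact this
    · exact hadj i hi
  have hadjp : ∀ i < n, (G.induce W).Adj (g i) (g (pr i)) := by
    intro i hi
    rw [hpr]
    dsimp only
    split_ifs with h
    · have := hadj (n - 1) (by omega)
      rw [show n - 1 + 1 = n by omega, hgn] at this
      rw [h]
      exact this.symm
    · have := hadj (i - 1) (by omega)
      rw [show i - 1 + 1 = i by omega] at this
      exact this.symm
  have hnb : ∀ i < n, ∀ w : W, (G.induce W).Adj (g i) w → w = g (nx i) ∨ w = g (pr i) := by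
    intro i hi w hw
    by_contra hcon
    push Not at hcon
    obtain ⟨hw1, hw2⟩ := hcon
    have hsub : ({(w : V), (g (nx i) : V), (g (pr i) : V)} : Set V) ⊆
        G.neighborSet (g i) ∩ W := by
      intro u hu
      rcases hu with rfl | rfl | rfl
      · exact ⟨hw, w.2⟩
      · exact ⟨hadjn i hi, (g (nx i)).2⟩
      · exact ⟨hadjp i hi, (g (pr i)).2⟩
    have h3' : ({(w : V), (g (nx i) : V), (g (pr i) : V)} : Set V).ncard = 3 := by
      rw [Set.ncard_eq_three]
      refine ⟨_, _, _, ?_, ?_, ?_, rfl⟩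
      · exact fun h => hw1 (Subtype.ext h)
      · exact fun h => hw2 (Subtype.ext h)
      · exact fun h => hne i hi (hinj _ (hnx_lt i hi) _ (hpr_lt i hi) (Subtype.ext h))
    have h4 := Set.ncard_le_ncard hsub (Set.toFinite _)
    have h5 := h2 (g i) (g i).2
    unfold dg at h5
    omega
  have hall : ∀ w : W, ∃ i < n, g i = w := by
    intro w
    obtain ⟨q⟩ := hc.preconnected v w
    have key : ∀ {a b : W} (q : (G.induce W).Walk a b), (∃ i < n, g i = a) → ∃ i < n, g i = b := by
      intro a b q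
      induction q with
      | nil => exact id
      | @cons a b' c' hab q ih =>
        rintro ⟨i, hi, rfl⟩
        refine ih ?_
        rcases hnb i hi _ hab with h | h
        · exact ⟨nx i, hnx_lt i hi, h.symm⟩
        · exact ⟨pr i, hpr_lt i hi, h.symm⟩
    exact key q ⟨0, by omega, hg0⟩
  refine ⟨n, fun i => (g i : V), h3, fun i hi j hj h => hinj i hi j hj (Subtype.ext h), ?_, ?_⟩
  · intro u
    constructor
    · intro hu
      obtain ⟨i, hi, h⟩ := hall ⟨u, hu⟩
      exact ⟨i, hi, by change (g i : V) = u; rw [h]⟩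
    · rintro ⟨i, hi, rfl⟩
      exact (g i).2
  · intro i hi j hj
    constructor
    · intro h
      rcases hnb i hi (g j) h with h' | h'
      · have := hinj j hj _ (hnx_lt i hi) h'
        rw [hnx] at this
        dsimp only at this
        split_ifs at this <;> omega
      · have := hinj j hj _ (hpr_lt i hi) h'
        rw [hpr] at this
        dsimp only at this
        split_ifs at this <;> omega
    · rintro (rfl | rfl | ⟨rfl, rfl⟩ | ⟨rfl, rfl⟩)
      · exact hadj i hi
      · exact (hadj j hj).symm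
      · have := hadj (n - 1) (by omega)
        rw [show n - 1 + 1 = n by omega, hgn] at this
        exact this.symm
      · have := hadj (n - 1) (by omega)
        rw [show n - 1 + 1 = n by omega, hgn] at this
        exact this

theorem two_reg {W : Set V} (hc : (G.induce W).Connected) (h2 : ∀ u ∈ W, dg G W u ≤ 2) :
    Col G W ∨ ∃ q p, Cyc G W q p := by
  classical
  by_cases hac : (G.induce W).IsAcyclic
  · left
    obtain ⟨c⟩ := hac.colorable_two
    refine ⟨fun v => if hv : v ∈ W then decide (c ⟨v, hv⟩ = 0) else true, fun u hu v hv ha => ?_⟩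
    change (if hv : u ∈ W then decide (c ⟨u, hv⟩ = 0) else true) ≠
      (if hv : v ∈ W then decide (c ⟨v, hv⟩ = 0) else true)
    rw [dif_pos hu, dif_pos hv]
    have h1 : c ⟨u, hu⟩ ≠ c ⟨v, hv⟩ := c.valid (show (G.induce W).Adj ⟨u, hu⟩ ⟨v, hv⟩ from ha)
    generalize c ⟨u, hu⟩ = a at h1
    generalize c ⟨v, hv⟩ = b at h1
    revert h1
    revert a b
    decide
  obtain ⟨n, p, h3, hinj, hmem, hadj⟩ := cyc_data hc h2 hac
  rcases Nat.even_or_odd n with he | ho
  · left
    have hval : ∀ i < n, (decide (∃ k < n, Even k ∧ p k = p i) : Bool) = decide (Even i) := by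
      intro i hi
      congr 1
      refine propext ⟨?_, fun h => ⟨i, hi, h, rfl⟩⟩
      rintro ⟨k, hk, hke, hki⟩
      rwa [← hinj k hk i hi hki]
    refine ⟨fun v => decide (∃ k < n, Even k ∧ p k = v), fun u hu v hv ha => ?_⟩
    obtain ⟨i, hi, rfl⟩ := (hmem u).1 hu
    obtain ⟨j, hj, rfl⟩ := (hmem v).1 hv
    change decide (∃ k < n, Even k ∧ p k = p i) ≠ decide (∃ k < n, Even k ∧ p k = p j)
    rw [hval i hi, hval j hj]
    intro h
    have h4 : Even i ↔ Even j := by simpa using h
    rcases (hadj i hi j hj).1 ha with h5 | h5 | ⟨h5, h6⟩ | ⟨h5, h6⟩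
    · rw [h5, Nat.even_add_one] at h4
      tauto
    · rw [h5, Nat.even_add_one] at h4
      tauto
    · rw [h5, h6] at h4
      obtain ⟨m, hm⟩ := he
      have h7 : Even (n - 1) := h4.1 ⟨0, rfl⟩
      obtain ⟨k, hk⟩ := h7
      omega
    · rw [h5, h6] at h4
      obtain ⟨m, hm⟩ := he
      have h7 : Even (n - 1) := h4.2 ⟨0, rfl⟩
      obtain ⟨k, hk⟩ := h7
      omega
  · right
    obtain ⟨q, hq⟩ := ho
    refine ⟨q, p, by omega, fun i hi j hj => hinj i (by omega) j (by omega), fun v => ?_,
      fun i hi j hj => ?_⟩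
    · rw [hmem v]
      constructor
      · rintro ⟨i, hi, h⟩
        exact ⟨i, by omega, h⟩
      · rintro ⟨i, hi, h⟩
        exact ⟨i, by omega, h⟩
    · rw [hadj i (by omega) j (by omega), show n - 1 = 2 * q by omega]

end Pool.Agent.MP3b2d6a
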