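import Pool.Agent.Lib.MP_3b2d6a_co.SpB
import Pool.Agent.Lib.MP_3b2d6a_co.AdPrim
import Pool.Agent.Lib.MP_3b2d6a_co.SC0

/-! Deletion of a vertex of maximum degree without a bound on the degree: if every induced subgraph
of minimum degree at least `76` has maximum degree at most `300`, then the eigenvalues of an induced
subgraph of maximum degree `d ≥ 300` are at most `√(300 d)`. -/

set_option autoImplicit false
set_option linter.unusedSectionVars false

open Finset Filter Topology Matrix

namespace Pool.Agent.MP3b2d6a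

/-- The cost of a vertex of maximum degree `d`, without a bound on `d`. -/
noncomputable def aE (d : ℕ) (x : ℝ) : ℝ :=
  if d ≤ 300 then ad d x else ad 300 (x * √(300 / d))

theorem aE_small {d : ℕ} (h : d ≤ 300) (x : ℝ) : aE d x = ad d x := if_pos h

theorem aE_nonneg (d : ℕ) {x : ℝ} (hx : 0 < x) : 0 ≤ aE d x := by
  unfold aE
  split_ifs with h
  · exact ad_nonneg d hx
  · have : (0 : ℝ) < d := by exact_mod_cast (by omega : 0 < d)
    exact ad_nonneg 300 (by positivity)

theorem aE_big {d : ℕ} (hd : 300 < d) {x : ℝ} (hx : 0 < x) :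
    aE d x = Real.arctan (min (d / (2 * x * √(x ^ 2 + d)))
      (d * √(300 * d) ^ 3 / (4 * x ^ 3 * (x ^ 2 + √(300 * d) ^ 2)))) := by
  have hd0 : (0 : ℝ) < d := by exact_mod_cast (by omega : 0 < d)
  unfold aE ad
  rw [if_neg (by omega)]
  obtain ⟨s, hs⟩ : ∃ s, s = √(300 / (d : ℝ)) := ⟨_, rfl⟩
  have hs0 : 0 < s := by rw [hs]; exact Real.sqrt_pos.2 (by positivity)
  have hs2 : s ^ 2 = 300 / d := by rw [hs]; exact Real.sq_sqrt (by positivity)
  have hd' : (d : ℝ) = 300 / s ^ 2 := by rw [hs2]; field_simp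
  obtain ⟨r, hr⟩ : ∃ r, r = √(x ^ 2 + (d : ℝ)) := ⟨_, rfl⟩
  have hr0 : 0 < r := by rw [hr]; exact Real.sqrt_pos.2 (by positivity)
  have hr2 : r ^ 2 = x ^ 2 + d := by rw [hr]; exact Real.sq_sqrt (by positivity)
  have h1 : √((x * s) ^ 2 + ((300 : ℕ) : ℝ)) = s * r := by
    rw [Real.sqrt_eq_iff_mul_self_eq (by positivity) (by positivity)]
    have : s * r * (s * r) = s ^ 2 * r ^ 2 := by ring
    rw [this, hr2, hd']
    push_cast
    field_simp
  have h2 : √(300 * (d : ℝ)) = 300 / s := by
    rw [Real.sqrt_eq_iff_mul_self_eq (by positivity) (by positivity), hd']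
    field_simp
  rw [← hs, ← hr, h1, h2]
  congr 2
  · rw [hd']
    push_cast
    field_simp
  · rw [hd']
    push_cast
    field_simp

/-- A primitive of `x a_d (x)` and its total increment, for all `d ≥ 3`. -/
theorem aE_prim {d : ℕ} (h3 : 3 ≤ d) : ∃ (P : ℝ → ℝ) (S : ℝ),
    (∀ x, 0 < x → HasDerivAt P (x * aE d x) x) ∧
    (∀ x y, 0 < x → x ≤ y → P y - P x ≤ S) ∧ S < Real.pi / 2 * (d - 2) := by
  by_cases h : d ≤ 300
  · obtain ⟨P, S, h1, h2, h4⟩ := ad_prim h3 h
    refine ⟨P, S, fun x hx => ?_, h2, h4⟩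
    rw [aE_small h]
    exact h1 x hx
  · have hd : 300 < d := by omega
    have hd0 : (0 : ℝ) < d := by exact_mod_cast (by omega : 0 < d)
    have hd1 : (300 : ℝ) < d := by exact_mod_cast hd
    obtain ⟨P, S, h1, h2, h4⟩ := ad_prim (d := 300) (by norm_num) le_rfl
    obtain ⟨s, hs⟩ : ∃ s, s = √(300 / (d : ℝ)) := ⟨_, rfl⟩
    have hs0 : 0 < s := by rw [hs]; exact Real.sqrt_pos.2 (by positivity)
    have hs2 : s ^ 2 = 300 / d := by rw [hs]; exact Real.sq_sqrt (by positivity)
    refine ⟨fun x => d / 300 * P (x * s), d / 300 * S, fun x hx => ?_, fun x y hx hxy => ?_, ?_⟩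
    · have h5 := h1 (x * s) (by positivity)
      have h6 : HasDerivAt (fun x : ℝ => x * s) s x := by
        simpa using (hasDerivAt_id x).mul_const s
      have h7 := (h5.comp x h6).const_mul ((d : ℝ) / 300)
      refine h7.congr_deriv ?_
      unfold aE
      rw [if_neg h, ← hs]
      have : (d : ℝ) / 300 * (x * s * ad 300 (x * s) * s) =
          (d : ℝ) / 300 * s ^ 2 * (x * ad 300 (x * s)) := by ring
      rw [this, hs2]
      field_simp
    · have h5 := h2 (x * s) (y * s) (by positivity) (mul_le_mul_of_nonneg_right hxy hs0.le)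
      have := mul_le_mul_of_nonneg_left h5 (by positivity : (0 : ℝ) ≤ (d : ℝ) / 300)
      simp only
      linarith
    · have h5 := mul_lt_mul_of_pos_left h4 (by positivity : (0 : ℝ) < (d : ℝ) / 300)
      refine h5.trans_le ?_
      have hpi := Real.pi_pos
      push_cast
      nlinarith

variable {V : Type*} [Fintype V] [DecidableEq V] (G : SimpleGraph V)

/-- Every induced subgraph, inside `W`, of minimum degree at least `76` has maximum degree at most
`300`. -/
def Cls (W : Set V) : Prop :=
  ∀ U : Set V, U ⊆ W → (∀ u ∈ U, 76 ≤ dg G U u) → ∀ u ∈ U, dg G U u ≤ 300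

variable {G} in
theorem Cls.mono {W W' : Set V} (h : Cls G W) (hW : W' ⊆ W) : Cls G W' :=
  fun U hU => h U (hU.trans hW)

theorem dg_eq (U : Set V) (u : V) : dg G U u = ({v | v ∈ U ∧ G.Adj u v} : Set V).ncard := by
  unfold dg
  congr 1
  ext v
  exact and_comm

theorem AW_row' (U : Set V) (u : V) (hu : u ∈ U) : ∑ v, AW G U u v = (dg G U u : ℝ) := by
  rw [dg_eq, ← AW_row G u hu]
  exact Finset.sum_congr rfl fun v _ => (abs_of_nonneg (AW_nonneg G U u v)).symm

theorem AW_split (U : Set V) {r : V} (hr : r ∈ U) (u v : V) :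
    AW G U u v = AW G (U \ {r}) u v + (if u = r then av G U r v else 0) +
      (if v = r then av G U r u else 0) := by
  by_cases hu : u = r
  · subst hu
    rw [if_pos rfl, AW_zero_left G (fun h => h.2 rfl : u ∉ U \ {u}), zero_add]
    by_cases hv : v = u
    · subst hv
      have hl := G.loopless.irrefl v
      rw [if_pos rfl]
      unfold AW av
      rw [if_neg fun h => hl h.2.2, if_neg fun h => hl h.2, add_zero]
    · rw [if_neg hv, add_zero]
      unfold AW av
      by_cases hc : v ∈ U ∧ G.Adj u v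
      · rw [if_pos ⟨hr, hc.1, hc.2⟩, if_pos hc]
      · rw [if_neg fun h => hc h.2, if_neg hc]
  · rw [if_neg hu, add_zero]
    by_cases hv : v = r
    · subst hv
      rw [if_pos rfl, AW_zero_right G (fun h => h.2 rfl : v ∉ U \ {v}), zero_add]
      unfold AW av
      by_cases hc : u ∈ U ∧ G.Adj v u
      · rw [if_pos ⟨hc.1, hr, hc.2.symm⟩, if_pos hc]
      · rw [if_neg fun h => hc ⟨h.1, h.2.2.symm⟩, if_neg hc]
    · rw [if_neg hv, add_zero]
      unfold AW
      by_cases hc : u ∈ U ∧ v ∈ U ∧ G.Adj u v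
      · rw [if_pos hc, if_pos ⟨⟨hc.1, hu⟩, ⟨hc.2.1, hv⟩, hc.2.2⟩]
      · rw [if_neg hc, if_neg fun h => hc ⟨h.1.1, h.2.1.1, h.2.2⟩]

/-- The quadratic form of an induced subgraph of a graph of the class. -/
theorem form_le {Y : Set V} (hG : Cls G Y) {c M : ℝ} (hc : 1 ≤ c) (hM : 75 * c ≤ M) (hM' : 300 ≤ M + 300 / c)
    (y : V → ℝ) (n : ℕ) : ∀ U : Set V, U ⊆ Y → U.ncard = n →
      ∑ u, ∑ v, AW G U u v * (y u * y v) ≤
        M * (∑ u, U.indicator (fun u => y u ^ 2) u) + (∑ u, ∑ v, AW G U u v * y u ^ 2) / c := by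
  induction n using Nat.strong_induction_on with
  | _ n ih =>
    intro U hUY hn
    have hc0 : 0 < c := by linarith
    by_cases h : ∃ r ∈ U, dg G U r ≤ 75
    · obtain ⟨r, hr, hdr⟩ := h
      have hlt : (U \ {r}).ncard < n := by
        rw [← hn]
        exact Set.ncard_sdiff_singleton_lt_of_mem hr (Set.toFinite _)
      have h1 := ih _ hlt (U \ {r}) (Set.sdiff_subset.trans hUY) rfl
      have e1 : ∑ u, ∑ v, AW G U u v * (y u * y v) =
          ∑ u, ∑ v, AW G (U \ {r}) u v * (y u * y v) + 2 * (y r * ∑ v, av G U r v * y v) := by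
        simp only [AW_split G U hr, add_mul, Finset.sum_add_distrib, ite_mul, zero_mul]
        rw [Finset.sum_comm (f := fun u v => if v = r then av G U r u * (y u * y v) else 0)]
        simp only [Finset.sum_ite_irrel, Finset.sum_ite_eq', Finset.mem_univ, if_true,
          Finset.sum_const_zero]
        have e2 : ∀ v, av G U r v * (y r * y v) = y r * (av G U r v * y v) := fun v => by ring
        have e3 : ∀ v, av G U r v * (y v * y r) = y r * (av G U r v * y v) := fun v => by ring
        simp only [e2, e3, ← Finset.mul_sum]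
        ring
      have e4 : ∑ u, ∑ v, AW G U u v * y u ^ 2 =
          ∑ u, ∑ v, AW G (U \ {r}) u v * y u ^ 2 + (∑ v, av G U r v) * y r ^ 2 +
            ∑ v, av G U r v * y v ^ 2 := by
        simp only [AW_split G U hr, add_mul, Finset.sum_add_distrib, ite_mul, zero_mul]
        rw [Finset.sum_comm (f := fun u v => if v = r then av G U r u * y u ^ 2 else 0)]
        simp only [Finset.sum_ite_irrel, Finset.sum_ite_eq', Finset.mem_univ, if_true,
          Finset.sum_const_zero]
        rw [Finset.sum_mul]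
      have e5 : ∑ u, U.indicator (fun u => y u ^ 2) u =
          ∑ u, (U \ {r}).indicator (fun u => y u ^ 2) u + y r ^ 2 := by
        have : ∀ u, U.indicator (fun u => y u ^ 2) u =
            (U \ {r}).indicator (fun u => y u ^ 2) u + (if u = r then y r ^ 2 else 0) := by
          intro u
          by_cases hu : u = r
          · subst hu
            simp [hr]
          · by_cases hu' : u ∈ U
            · simp [hu, hu']
            · simp [hu, hu']
        simp only [this, Finset.sum_add_distrib, Finset.sum_ite_eq', Finset.mem_univ, if_true]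
      have e6 : ∑ v, av G U r v = (dg G U r : ℝ) := by
        rw [← AW_row' G U r hr]
        refine Finset.sum_congr rfl fun v _ => ?_
        unfold av AW
        by_cases hc : v ∈ U ∧ G.Adj r v
        · rw [if_pos hc, if_pos ⟨hr, hc.1, hc.2⟩]
        · rw [if_neg hc, if_neg fun h => hc h.2]
      have e7 : 2 * (y r * ∑ v, av G U r v * y v) ≤
          c * (∑ v, av G U r v) * y r ^ 2 + (∑ v, av G U r v * y v ^ 2) / c := by
        rw [Finset.mul_sum, Finset.mul_sum, Finset.mul_sum, Finset.sum_mul, Finset.sum_div,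
          ← Finset.sum_add_distrib]
        refine Finset.sum_le_sum fun v _ => ?_
        have h2 : 2 * (y r * y v) ≤ c * y r ^ 2 + y v ^ 2 / c := by
          have : c * y r ^ 2 + y v ^ 2 / c - 2 * (y r * y v) = (c * y r - y v) ^ 2 / c := by
            field_simp
            ring
          have h3 : 0 ≤ (c * y r - y v) ^ 2 / c := by positivity
          linarith
        calc 2 * (y r * (av G U r v * y v)) = av G U r v * (2 * (y r * y v)) := by ring
          _ ≤ av G U r v * (c * y r ^ 2 + y v ^ 2 / c) :=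
            mul_le_mul_of_nonneg_left h2 (av_nonneg G U r v)
          _ = _ := by ring
      rw [e1, e4, e5]
      rw [e6] at e7 ⊢
      have h75 : (dg G U r : ℝ) ≤ 75 := by exact_mod_cast hdr
      have h8 : c * (dg G U r : ℝ) * y r ^ 2 ≤ M * y r ^ 2 := by
        refine mul_le_mul_of_nonneg_right ?_ (sq_nonneg _)
        nlinarith
      have h9 : 0 ≤ (dg G U r : ℝ) * y r ^ 2 / c := by positivity
      rw [add_div, add_div]
      linarith
    · push Not at h
      have h300 := hG U hUY fun u hu => h u hu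
      have e1 : ∑ u, ∑ v, AW G U u v * (y u * y v) ≤ ∑ u, (∑ v, AW G U u v) * y u ^ 2 := by
        have h2 : ∑ u, ∑ v, AW G U u v * (y u * y v) ≤
            ∑ u, ∑ v, (AW G U u v * y u ^ 2 / 2 + AW G U u v * y v ^ 2 / 2) := by
          refine Finset.sum_le_sum fun u _ => Finset.sum_le_sum fun v _ => ?_
          have := mul_nonneg (AW_nonneg G U u v) (sq_nonneg (y u - y v))
          nlinarith
        refine h2.trans (le_of_eq ?_)
        simp only [Finset.sum_add_distrib]
        rw [Finset.sum_comm (f := fun u v => AW G U u v * y v ^ 2 / 2)]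
        have h3 : ∀ u v, AW G U u v = AW G U v u := by
          intro u v
          have := (AW_herm G U).apply v u
          simpa using this
        have h4 : ∀ u v, AW G U v u * y u ^ 2 / 2 = AW G U u v * y u ^ 2 / 2 := fun u v => by
          rw [h3 u v]
        simp only [h4]
        rw [← Finset.sum_add_distrib]
        refine Finset.sum_congr rfl fun u _ => ?_
        rw [← Finset.sum_add_distrib, Finset.sum_mul]
        refine Finset.sum_congr rfl fun v _ => ?_
        ring
      refine e1.trans ?_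
      rw [Finset.mul_sum, Finset.sum_div, ← Finset.sum_add_distrib]
      refine Finset.sum_le_sum fun u _ => ?_
      rw [← Finset.sum_mul]
      by_cases hu : u ∈ U
      · rw [Set.indicator_of_mem hu, AW_row' G U u hu]
        have hD : (dg G U u : ℝ) ≤ 300 := by exact_mod_cast h300 u hu
        have h5 : (dg G U u : ℝ) ≤ M + dg G U u / c := by
          have h6 : (dg G U u : ℝ) - dg G U u / c = dg G U u * (1 - 1 / c) := by ring
          have h7 : 0 ≤ 1 - 1 / c := by
            rw [sub_nonneg, div_le_one hc0]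
            exact hc
          have h8 : (dg G U u : ℝ) * (1 - 1 / c) ≤ 300 * (1 - 1 / c) :=
            mul_le_mul_of_nonneg_right hD h7
          have h9 : (300 : ℝ) * (1 - 1 / c) = 300 - 300 / c := by ring
          linarith
        have := mul_le_mul_of_nonneg_right h5 (sq_nonneg (y u))
        calc _ ≤ _ := this
          _ = _ := by ring
      · rw [Set.indicator_of_notMem hu]
        have h0 : ∑ v, AW G U u v = 0 := Finset.sum_eq_zero fun v _ => AW_zero_left G hu
        rw [h0]
        simp

/-- The spectral bound for induced subgraphs of a graph of the class. -/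
theorem eig_le_cls {U : Set V} (hG : Cls G U) {d : ℕ} (hd : 300 ≤ d) (hU : ∀ u ∈ U, dg G U u ≤ d)
    (i : V) : |(AW_herm G U).eigenvalues i| ≤ √(300 * d) := by
  have hd0 : (300 : ℝ) ≤ d := by exact_mod_cast hd
  obtain ⟨c, hc⟩ : ∃ c, c = √((d : ℝ) / 75) := ⟨_, rfl⟩
  have hc2 : c ^ 2 = d / 75 := by rw [hc]; exact Real.sq_sqrt (by positivity)
  have hcd : (d : ℝ) = 75 * c ^ 2 := by rw [hc2]; ring
  have hc0 : 0 ≤ c := by rw [hc]; exact Real.sqrt_nonneg _
  have hc1 : 2 ≤ c := by nlinarith
  have hL : √(300 * (d : ℝ)) = 150 * c := by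
    rw [Real.sqrt_eq_iff_mul_self_eq (by positivity) (by positivity), hcd]
    ring
  have hM' : 300 ≤ 75 * c + 300 / c := by
    have hcp : 0 < c := by linarith
    have : 75 * c + 300 / c - 300 = 75 * (c - 2) ^ 2 / c := by
      field_simp
      ring
    have h2 : 0 ≤ 75 * (c - 2) ^ 2 / c := by positivity
    linarith
  rw [hL]
  obtain ⟨y, hy⟩ : ∃ y : V → ℝ, y = ⇑((AW_herm G U).eigenvectorBasis i) := ⟨_, rfl⟩
  have h1 : AW G U *ᵥ y = (AW_herm G U).eigenvalues i • y := by
    rw [hy]
    exact (AW_herm G U).mulVec_eigenvectorBasis i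
  have hne : y ≠ 0 := by
    intro h0
    apply (AW_herm G U).eigenvectorBasis.orthonormal.ne_zero i
    ext v
    have := congrFun (hy.symm.trans h0) v
    simpa using this
  have hpos : 0 < ∑ u, |y u| ^ 2 := by
    obtain ⟨v, hv⟩ := Function.ne_iff.1 hne
    have hv' : y v ≠ 0 := hv
    exact Finset.sum_pos' (fun u _ => by positivity) ⟨v, Finset.mem_univ v, by positivity⟩
  have h2 := form_le G hG (c := c) (M := 75 * c) (by linarith) le_rfl hM' (fun u => |y u|)
    U.ncard U subset_rfl rfl
  have h3 : (AW_herm G U).eigenvalues i * ∑ u, y u ^ 2 = ∑ u, ∑ v, AW G U u v * (y u * y v) := by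
    rw [Finset.mul_sum]
    refine Finset.sum_congr rfl fun u _ => ?_
    have h4 := congrFun h1 u
    rw [Matrix.mulVec, dotProduct, Pi.smul_apply, smul_eq_mul] at h4
    calc _ = ((AW_herm G U).eigenvalues i * y u) * y u := by ring
      _ = (∑ v, AW G U u v * y v) * y u := by rw [h4]
      _ = _ := by
        rw [Finset.sum_mul]
        exact Finset.sum_congr rfl fun v _ => by ring
  have h5 : |(AW_herm G U).eigenvalues i| * ∑ u, |y u| ^ 2 ≤
      ∑ u, ∑ v, AW G U u v * (|y u| * |y v|) := by
    have e : |(AW_herm G U).eigenvalues i| * ∑ u, |y u| ^ 2 =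
        |(AW_herm G U).eigenvalues i * ∑ u, y u ^ 2| := by
      rw [abs_mul]
      congr 1
      simp only [sq_abs]
      exact (abs_of_nonneg (Finset.sum_nonneg fun u _ => sq_nonneg _)).symm
    rw [e, h3]
    refine (Finset.abs_sum_le_sum_abs _ _).trans (Finset.sum_le_sum fun u _ => ?_)
    refine (Finset.abs_sum_le_sum_abs _ _).trans (Finset.sum_le_sum fun v _ => ?_)
    rw [abs_mul, abs_mul, abs_of_nonneg (AW_nonneg G U u v)]
  have h6 : 75 * c * (∑ u, U.indicator (fun u => |y u| ^ 2) u) +
      (∑ u, ∑ v, AW G U u v * |y u| ^ 2) / c ≤ 150 * c * ∑ u, |y u| ^ 2 := by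
    rw [Finset.mul_sum, Finset.sum_div, ← Finset.sum_add_distrib, Finset.mul_sum]
    refine Finset.sum_le_sum fun u _ => ?_
    rw [← Finset.sum_mul]
    have hcp : 0 < c := by linarith
    by_cases hu : u ∈ U
    · rw [Set.indicator_of_mem hu, AW_row' G U u hu]
      have hD : (dg G U u : ℝ) ≤ 75 * c ^ 2 := by
        rw [← hcd]
        exact_mod_cast hU u hu
      have h7 : (dg G U u : ℝ) / c ≤ 75 * c := by
        rw [div_le_iff₀ hcp]
        nlinarith
      have h8 := mul_le_mul_of_nonneg_right h7 (sq_nonneg |y u|)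
      calc _ = 75 * c * |y u| ^ 2 + (dg G U u : ℝ) / c * |y u| ^ 2 := by ring
        _ ≤ _ := by linarith
    · rw [Set.indicator_of_notMem hu]
      have h0 : ∑ v, AW G U u v = 0 := Finset.sum_eq_zero fun v _ => AW_zero_left G hu
      rw [h0]
      simp only [mul_zero, zero_mul, zero_div, add_zero]
      positivity
  exact le_of_mul_le_mul_right (h5.trans (h2.trans h6)) hpos

theorem T_del_aE {W : Set V} (hG : Cls G W) {r : V} (hr : r ∈ W) {d : ℕ} {x : ℝ}
    (hL : ∀ u ∈ W, dg G W u ≤ d) (hx : 0 < x) :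
    T G W x ≤ T G (W \ {r}) x + aE d x := by
  rcases Nat.lt_or_ge 300 d with hd | hd
  swap
  · rw [aE_small hd]
    exact T_del_ad G hr (fun u hu => by rw [← dg_eq]; exact hL u hu) hx
  rcases Nat.eq_zero_or_pos (dg G W r) with h0 | h0
  · have hav : av G W r = 0 := by
      rw [dg_eq, Set.ncard_eq_zero (Set.toFinite _)] at h0
      ext v
      unfold av
      rw [if_neg]
      · rfl
      · intro hv
        have : v ∈ ({v | v ∈ W ∧ G.Adj r v} : Set V) := hv
        rw [h0] at this
        exact this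
    have hQ : Q G W r x = 0 := by
      unfold Q qq
      rw [hav, cv_zero, zero_dotProduct]
    rw [T_pivot G hr hx, hQ, Complex.zero_im, zero_div, Real.arctan_zero, add_zero]
    have := aE_nonneg d hx
    linarith
  · have hed : (dg G W r : ℝ) ≤ d := by exact_mod_cast hL r hr
    have he0 : (0 : ℝ) < dg G W r := by exact_mod_cast h0
    have hd0 : (0 : ℝ) < d := he0.trans_le hed
    have hL0 : 0 < √(300 * (d : ℝ)) := Real.sqrt_pos.2 (by positivity)
    rw [T_pivot G hr hx, aE_big hd hx]
    have h := qq_le (AW_herm G (W \ {r})) (av G W r) he0 hL0 (by rw [av_dot, dg_eq])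
      (av_mean G W (W \ {r}) r) (eig_le_cls G (hG.mono Set.sdiff_subset) hd.le fun u hu => ?_) hx
    · have h1 := h.1.trans (mono_one hx he0 hed)
      have h2 : (qq (AW G (W \ {r})) (av G W r) x).im / (x + (qq (AW G (W \ {r})) (av G W r) x).re) ≤
          d * √(300 * (d : ℝ)) ^ 3 / (4 * x ^ 3 * (x ^ 2 + √(300 * (d : ℝ)) ^ 2)) := by
        refine h.2.trans (div_le_div_of_nonneg_right ?_ (by positivity))
        exact mul_le_mul_of_nonneg_right hed (by positivity)
      have h3 := Real.arctan_strictMono.monotone (le_min h1 h2)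
      unfold Q
      linarith
    · refine le_trans ?_ (hL u hu.1)
      rw [dg_eq, dg_eq]
      exact Set.ncard_le_ncard (fun v hv => ⟨hv.1.1, hv.2⟩) (Set.toFinite _)

/-- Hereditary form of the deletion of a vertex. -/
theorem del_bound_aE {W : Set V} (hG : Cls G W) (r : V) {d : ℕ} {x β : ℝ}
    (hL : ∀ u ∈ W, dg G W u ≤ d) (hx : 0 < x)
    (h : ∀ W' ⊆ W \ {r}, T G W' x ≤ β) : ∀ W' ⊆ W, T G W' x ≤ β + aE d x := by
  intro W' hW
  by_cases hr : r ∈ W'
  · refine (T_del_aE G (hG.mono hW) hr (d := d) (fun u hu => ?_) hx).trans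
      (add_le_add (h _ (Set.sdiff_subset_sdiff_left hW)) le_rfl)
    refine le_trans ?_ (hL u (hW hu))
    rw [dg_eq, dg_eq]
    exact Set.ncard_le_ncard (fun v hv => ⟨hW hv.1, hv.2⟩) (Set.toFinite _)
  · have h1 := h W' (Set.subset_sdiff_singleton hW hr)
    have := aE_nonneg d hx
    linarith

end Pool.Agent.MP3b2d6a
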