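import Pool.Agent.Lib.MP_3b2d6a_co.SC0

/-! Counting edges: deletion of a vertex, connected sets, odd cycles. -/

set_option autoImplicit false
set_option linter.unusedSectionVars false

open Finset Filter Topology Matrix

namespace Pool.Agent.MP3b2d6a

variable {V : Type*} [Fintype V] [DecidableEq V] {G : SimpleGraph V}

open Classical in
theorem dg_sum (W : Set V) (u : V) :
    (dg G W u : ℝ) = ∑ w, (if w ∈ W ∧ G.Adj u w then (1 : ℝ) else 0) := by
  have h1 : G.neighborSet u ∩ W = ((Finset.univ.filter fun w => w ∈ W ∧ G.Adj u w : Finset V) : Set V) := by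
    ext w
    simp [and_comm]
  rw [dg, h1, Set.ncard_coe_finset, Finset.sum_boole]

open Classical in
theorem ed_dg (W : Set V) : ed G W = (∑ u, (if u ∈ W then (dg G W u : ℝ) else 0)) / 2 := by
  classical
  unfold ed
  congr 1
  refine Finset.sum_congr rfl fun u _ => ?_
  by_cases hu : u ∈ W
  · rw [if_pos hu, dg_sum]
    refine Finset.sum_congr rfl fun w _ => ?_
    simp [AW, hu]
  · rw [if_neg hu]
    refine Finset.sum_eq_zero fun w _ => ?_
    simp [AW, hu]

theorem ed_del {W : Set V} {v : V} (hv : v ∈ W) : ed G W = ed G (W \ {v}) + dg G W v := by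
  classical
  have key : ∀ u w, AW G W u w = AW G (W \ {v}) u w +
      (if u = v then (if w ∈ W ∧ G.Adj v w then (1 : ℝ) else 0) else 0) +
      (if w = v then (if u ∈ W ∧ G.Adj v u then (1 : ℝ) else 0) else 0) := by
    intro u w
    by_cases hu : u = v
    · subst hu
      by_cases hw : w = u
      · subst hw
        simp [AW]
      · simp [AW, hw, hv]
    · by_cases hw : w = v
      · subst hw
        simp [AW, hu, hv, G.adj_comm w u]
      · simp [AW, hu, hw]
  unfold ed
  have h1 : ∑ u, ∑ w, AW G W u w = ∑ u, ∑ w, AW G (W \ {v}) u w + 2 * (dg G W v : ℝ) := by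
    simp_rw [key, Finset.sum_add_distrib]
    have e1 : ∑ u, ∑ w, (if u = v then (if w ∈ W ∧ G.Adj v w then (1 : ℝ) else 0) else 0) =
        (dg G W v : ℝ) := by
      rw [dg_sum, Finset.sum_comm]
      refine Finset.sum_congr rfl fun w _ => ?_
      rw [Finset.sum_ite_eq' Finset.univ v]
      simp
    have e2 : ∑ u, ∑ w, (if w = v then (if u ∈ W ∧ G.Adj v u then (1 : ℝ) else 0) else 0) =
        (dg G W v : ℝ) := by
      rw [dg_sum]
      refine Finset.sum_congr rfl fun w _ => ?_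
      rw [Finset.sum_ite_eq' Finset.univ v]
      simp
    rw [e1, e2]
    ring
  rw [h1]
  ring

theorem dg_mono {U W : Set V} (h : U ⊆ W) (u : V) : dg G U u ≤ dg G W u :=
  Set.ncard_le_ncard (fun _ hx => ⟨hx.1, h hx.2⟩) (Set.toFinite _)

theorem Cyc.dg_eq {W : Set V} {q : ℕ} {p : ℕ → V} (h : Cyc G W q p) {i : ℕ} (hi : i ≤ 2 * q) :
    dg G W (p i) = 2 := by
  have hq := h.pos
  -- the two neighbours
  obtain ⟨a, b, ha, hb, hab, hn⟩ : ∃ a b : ℕ, a ≤ 2 * q ∧ b ≤ 2 * q ∧ a ≠ b ∧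
      ∀ j ≤ 2 * q, ((j = i + 1 ∨ i = j + 1 ∨ (i = 0 ∧ j = 2 * q) ∨ (i = 2 * q ∧ j = 0)) ↔
        (j = a ∨ j = b)) := by
    by_cases h0 : i = 0
    · refine ⟨1, 2 * q, by omega, le_rfl, by omega, fun j hj => by omega⟩
    · by_cases h1 : i = 2 * q
      · refine ⟨0, i - 1, by omega, by omega, by omega, fun j hj => by omega⟩
      · refine ⟨i - 1, i + 1, by omega, by omega, by omega, fun j hj => by omega⟩
  have hset : G.neighborSet (p i) ∩ W = {p a, p b} := by
    ext v
    constructor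
    · rintro ⟨h1, h2⟩
      obtain ⟨j, hj, rfl⟩ := (h.mem v).1 h2
      have h3 := (hn j hj).1 ((h.adj i hi j hj).1 h1)
      rcases h3 with rfl | rfl
      · exact Or.inl rfl
      · exact Or.inr rfl
    · rintro (rfl | rfl)
      · exact ⟨(h.adj i hi a ha).2 ((hn a ha).2 (Or.inl rfl)), (h.mem _).2 ⟨a, ha, rfl⟩⟩
      · exact ⟨(h.adj i hi b hb).2 ((hn b hb).2 (Or.inr rfl)), (h.mem _).2 ⟨b, hb, rfl⟩⟩
  rw [dg, hset, Set.ncard_pair]
  exact fun hpp => hab (h.inj a ha b hb hpp)

theorem Cyc.card {W : Set V} {q : ℕ} {p : ℕ → V} (h : Cyc G W q p) :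
    (W.ncard : ℝ) = ed G W := by
  classical
  rw [ed_dg]
  have h1 : ∀ u, (if u ∈ W then (dg G W u : ℝ) else 0) = 2 * (if u ∈ W then (1 : ℝ) else 0) := by
    intro u
    by_cases hu : u ∈ W
    · obtain ⟨i, hi, rfl⟩ := (h.mem u).1 hu
      rw [if_pos hu, if_pos hu, h.dg_eq hi]
      norm_num
    · rw [if_neg hu, if_neg hu, mul_zero]
  have h2 : W = ((Finset.univ.filter fun w => w ∈ W : Finset V) : Set V) := by
    ext w
    simp
  have h3 : (W.ncard : ℝ) = ∑ u, (if u ∈ W then (1 : ℝ) else 0) := by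
    rw [Finset.sum_boole]
    conv_lhs => rw [h2, Set.ncard_coe_finset]
  rw [Finset.sum_congr rfl fun u _ => h1 u, ← Finset.mul_sum, ← h3]
  ring

theorem conn_ed {W : Set V} (hc : (G.induce W).Connected) : (W.ncard : ℝ) ≤ ed G W + 1 := by
  have h1 := hc.card_vert_le_card_edgeSet_add_one
  rw [ed_eq, ← Nat.card_coe_set_eq]
  exact_mod_cast h1

end Pool.Agent.MP3b2d6a
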