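import Pool.Agent.Lib.MP_3b2d6a_co.SC0

/-! ROW G: the cut decomposition. -/

set_option autoImplicit false
set_option linter.unusedSectionVars false

open Finset Filter Topology Matrix

namespace Pool.Agent.MP3b2d6a

variable {V : Type*} [Fintype V] [DecidableEq V] {G : SimpleGraph V}

/-- A part of `W` containing `r` and closed in `W \ {r}` is connected. -/
theorem scg_conn {W S : Set V} {r : V} (hr : r ∈ S) (hSW : S ⊆ W)
    (hcl : ∀ u ∈ S, u ≠ r → ∀ v ∈ W, v ≠ r → G.Adj u v → v ∈ S)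
    (hc : (G.induce W).Connected) : (G.induce S).Connected := by
  have key : ∀ (a b : W) (_ : (G.induce W).Walk a b), (b : V) = r → ∀ ha : (a : V) ∈ S,
      (G.induce S).Reachable ⟨a, ha⟩ ⟨r, hr⟩ := by
    intro a b p
    induction p with
    | nil =>
      intro hb ha
      simp only [hb]
      exact SimpleGraph.Reachable.refl _
    | @cons u v w hadj p ih =>
      intro hb ha
      have hadj' : G.Adj (u : V) (v : V) := hadj
      by_cases hu : (u : V) = r
      · simp only [hu]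
        exact SimpleGraph.Reachable.refl _
      by_cases hv : (v : V) = r
      · have h1 : (G.induce S).Adj ⟨u, ha⟩ ⟨r, hr⟩ := by
          rw [hv] at hadj'
          exact hadj'
        exact h1.reachable
      · have hvS : (v : V) ∈ S := hcl u ha hu v v.2 hv hadj'
        have h1 : (G.induce S).Adj ⟨u, ha⟩ ⟨v, hvS⟩ := hadj'
        exact h1.reachable.trans (ih hb hvS)
  rw [SimpleGraph.connected_iff_exists_forall_reachable]
  refine ⟨⟨r, hr⟩, fun w => ?_⟩
  obtain ⟨p⟩ := hc.preconnected ⟨w, hSW w.2⟩ ⟨r, hSW hr⟩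
  exact (key _ _ p rfl w.2).symm

theorem exists_cut {W : Set V} (hc : (G.induce W).Connected) {r : V} (hr : r ∈ W)
    (h : ¬ (G.induce (W \ {r})).Preconnected) :
    ∃ W₁ W₂ : Set V, Cut G W₁ W₂ r ∧ W₁ ∪ W₂ = W ∧ (G.induce W₁).Connected ∧
      (G.induce W₂).Connected ∧ W₁.ncard < W.ncard ∧ W₂.ncard < W.ncard := by
  simp only [SimpleGraph.Preconnected, not_forall] at h
  obtain ⟨a, b, hab⟩ := h
  set C : Set V := {v | ∃ hv : v ∈ W \ {r}, (G.induce (W \ {r})).Reachable a ⟨v, hv⟩} with hC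
  have hCW : C ⊆ W := fun v hv => hv.1.1
  have hCr : r ∉ C := fun hv => hv.1.2 rfl
  have haC : (a : V) ∈ C := ⟨a.2, SimpleGraph.Reachable.refl _⟩
  have hbC : (b : V) ∉ C := fun hv => hab hv.2
  have hbr : (b : V) ≠ r := fun e => b.2.2 e
  have hcl : ∀ u ∈ C, ∀ v ∈ W, v ≠ r → G.Adj u v → v ∈ C := by
    rintro u ⟨hu, hau⟩ v hv hvr ha
    refine ⟨⟨hv, hvr⟩, hau.trans ?_⟩
    have h1 : (G.induce (W \ {r})).Adj ⟨u, hu⟩ ⟨v, hv, hvr⟩ := ha
    exact h1.reachable
  have hS1 : insert r C ⊆ W := Set.insert_subset hr hCW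
  refine ⟨insert r C, W \ C, ⟨Set.mem_insert _ _, ⟨hr, hCr⟩, ?_, ?_⟩, ?_, ?_, ?_, ?_, ?_⟩
  · rintro v (rfl | hv) h2
    · rfl
    · exact absurd hv h2.2
  · rintro u (rfl | hu) v hv hur hvr ha
    · exact hur rfl
    · exact hv.2 (hcl u hu v hv.1 hvr ha)
  · rw [Set.insert_union, Set.union_sdiff_cancel hCW, Set.insert_eq_of_mem hr]
  · refine scg_conn (Set.mem_insert _ _) hS1 ?_ hc
    rintro u (rfl | hu) hur v hv hvr ha
    · exact absurd rfl hur
    · exact Or.inr (hcl u hu v hv hvr ha)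
  · refine scg_conn ⟨hr, hCr⟩ Set.sdiff_subset ?_ hc
    intro u hu hur v hv hvr ha
    exact ⟨hv, fun hvC => hu.2 (hcl v hvC u hu.1 hur ha.symm)⟩
  · refine Set.ncard_lt_ncard ⟨hS1, fun hsub => ?_⟩ (Set.toFinite _)
    rcases hsub b.2.1 with h1 | h1
    · exact hbr h1
    · exact hbC h1
  · refine Set.ncard_lt_ncard ⟨Set.sdiff_subset, fun hsub => ?_⟩ (Set.toFinite _)
    exact (hsub a.2.1).2 haC

end Pool.Agent.MP3b2d6a
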