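import Pool.Agent.Lib.MP_3b2d6a_co.SpB
import Pool.Agent.Lib.MP_3b2d6a_co.AdSum
import Pool.Agent.Lib.MP_3b2d6a_co.SCG
import Pool.Agent.Lib.MP_3b2d6a_co.SCC
import Pool.Agent.Lib.MP_3b2d6a_co.SCE

/-! The invariant of a vertex set and its behaviour under gluing and deletion. -/

set_option autoImplicit false
set_option linter.unusedSectionVars false

open Finset Filter Topology Matrix

namespace Pool.Agent.MP3b2d6a

variable {V : Type*} [Fintype V] [DecidableEq V] {G : SimpleGraph V}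

/-- What we know about a vertex set; `ed W + 1 - |W|` is the cyclomatic number. -/
structure Inv (G : SimpleGraph V) (k : ℕ) (L : List ℕ) (W : Set V) : Prop where
  mem : ∀ d ∈ L, 3 ≤ d
  ge : (k : ℝ) + (L.map fun d : ℕ => (d : ℝ) - 1).sum + W.ncard ≤ ed G W + 1
  le : ∀ W' ⊆ W, ∀ x, 0 < x → T G W' x ≤ k * tau x + (L.map fun d : ℕ => aE d x).sum
  col : ed G W + 1 < W.ncard + 1 → Col G W
  sgn : ed G W + 1 < W.ncard + 2 → Col G W ∨ ((W.ncard : ℝ) ≤ ed G W ∧ ∃ σ : ℝ, Sg σ ∧
    (∀ W' ⊆ W, ∀ x, 0 < x → 0 ≤ σ * T G W' x) ∧ ∀ x, 0 < x → 0 < σ * T G W x)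

theorem sumL_nonneg {L : List ℕ} (h : ∀ d ∈ L, 3 ≤ d) :
    0 ≤ (L.map fun d : ℕ => (d : ℝ) - 1).sum := by
  refine List.sum_nonneg fun y hy => ?_
  obtain ⟨d, hd, rfl⟩ := List.mem_map.1 hy
  have h1 : (3 : ℝ) ≤ d := by exact_mod_cast h d hd
  linarith

theorem Inv.glue {j k : ℕ} {L L' : List ℕ} {W₁ W₂ : Set V} {r : V} (hcut : Cut G W₁ W₂ r)
    (i₁ : Inv G j L W₁) (i₂ : Inv G k L' W₂) : Inv G (j + k) (L ++ L') (W₁ ∪ W₂) := by
  have hc := hcut.card_add
  have hc' : ((W₁ ∪ W₂).ncard : ℝ) + 1 = W₁.ncard + W₂.ncard := by exact_mod_cast hc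
  have he := hcut.ed_add
  have g1 := i₁.ge
  have g2 := i₂.ge
  have j0 : (0 : ℝ) ≤ j := Nat.cast_nonneg j
  have k0 : (0 : ℝ) ≤ k := Nat.cast_nonneg k
  have l1 := sumL_nonneg i₁.mem
  have l2 := sumL_nonneg i₂.mem
  refine ⟨fun d hd => ?_, ?_, fun W' hW x hx => ?_, fun hlt => ?_, fun hlt => ?_⟩
  · rcases List.mem_append.1 hd with h | h
    · exact i₁.mem d h
    · exact i₂.mem d h
  · rw [List.map_append, List.sum_append]
    push_cast
    linarith
  · have h5 := hcut.bound hx (fun W hW => i₁.le W hW x hx) (fun W hW => i₂.le W hW x hx) W' hW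
    rw [List.map_append, List.sum_append]
    push_cast
    rw [add_mul]
    linarith
  · exact Col.union hcut (i₁.col (by linarith)) (i₂.col (by linarith))
  · rcases i₁.sgn (by linarith) with c₁ | ⟨c₁, σ, hσ, hs, hp⟩
    · rcases i₂.sgn (by linarith) with c₂ | ⟨c₂, σ, hσ, hs, hp⟩
      · exact Or.inl (Col.union hcut c₁ c₂)
      · right
        refine ⟨by linarith, σ, hσ, fun W' hW x hx => ?_, fun x hx => ?_⟩
        · rw [Set.union_comm] at hW
          exact hcut.symm.sign hσ hx (fun W hW => hs W hW x hx)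
            (fun W hW => (c₁.mono hW).T_eq_zero hx) W' hW
        · rw [Set.union_comm]
          exact hcut.symm.strict hσ hx (fun W hW => hs W hW x hx)
            (fun W hW => (c₁.mono hW).T_eq_zero hx) (hp x hx)
    · have c₂ : Col G W₂ := i₂.col (by linarith)
      right
      refine ⟨by linarith, σ, hσ, fun W' hW x hx => ?_, fun x hx => ?_⟩
      · exact hcut.sign hσ hx (fun W hW => hs W hW x hx)
          (fun W hW => (c₂.mono hW).T_eq_zero hx) W' hW
      · exact hcut.strict hσ hx (fun W hW => hs W hW x hx)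
          (fun W hW => (c₂.mono hW).T_eq_zero hx) (hp x hx)

theorem Inv.ofCol {W : Set V} (hcol : Col G W) (he : (W.ncard : ℝ) ≤ ed G W + 1) :
    Inv G 0 [] W := by
  refine ⟨fun d hd => absurd hd List.not_mem_nil, ?_, fun W' hW x hx => ?_, fun _ => hcol,
    fun _ => Or.inl hcol⟩
  · simpa using he
  · rw [(hcol.mono hW).T_eq_zero hx]
    simp

theorem Inv.ofCyc {q : ℕ} {p : ℕ → V} {W : Set V} (hp : Cyc G W q p)
    (h3 : (W.ncard : ℝ) = ed G W) : Inv G 1 [] W := by
  refine ⟨fun d hd => absurd hd List.not_mem_nil, ?_, fun W' hW x hx => ?_, fun h => ?_,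
    fun _ => Or.inr ⟨h3.le, ?_⟩⟩
  · rw [h3, List.map_nil, List.sum_nil]
    push_cast
    linarith
  · rw [List.map_nil, List.sum_nil]
    push_cast
    rw [one_mul, add_zero]
    exact hp.T_le hx hW
  · linarith
  · obtain ⟨σ, hσ, h4, h5⟩ := hp.sgn
    exact ⟨σ, hσ, h5, h4⟩

theorem Inv.del {d k : ℕ} {L : List ℕ} {W : Set V} {v : V} (hv : v ∈ W) (hd3 : 3 ≤ d)
    (hG : Cls G W) (hdv : dg G W v = d) (hall : ∀ u ∈ W, dg G W u ≤ d)
    (i : Inv G k L (W \ {v})) : Inv G k (d :: L) W := by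
  have hge := i.ge
  have hed := ed_del (G := G) hv
  have hcard : (W \ {v}).ncard + 1 = W.ncard := Set.ncard_sdiff_singleton_add_one hv
  have hcard' : ((W \ {v}).ncard : ℝ) + 1 = W.ncard := by exact_mod_cast hcard
  have h3 : (3 : ℝ) ≤ d := by exact_mod_cast hd3
  have l1 := sumL_nonneg i.mem
  have k0 : (0 : ℝ) ≤ k := Nat.cast_nonneg k
  rw [hdv] at hed
  refine ⟨fun e he => ?_, ?_, fun W' hW x hx => ?_, fun h => ?_, fun h => ?_⟩
  · rcases List.mem_cons.1 he with rfl | h
    · exact hd3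
    · exact i.mem e h
  · rw [List.map_cons, List.sum_cons]
    linarith
  · rw [List.map_cons, List.sum_cons]
    by_cases hvW : v ∈ W'
    · have h1 := T_del_aE G (hG.mono hW) (r := v) (d := d) hvW
        (fun u hu => (dg_mono hW u).trans (hall u (hW hu))) hx
      have h2 := i.le (W' \ {v}) (fun u hu => ⟨hW hu.1, hu.2⟩) x hx
      linarith
    · have h2 := i.le W' (fun u hu => ⟨hW hu, fun h => hvW (h ▸ hu)⟩) x hx
      have h3 := aE_nonneg d hx
      linarith
  · linarith
  · linarith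

/-- Connected graphs: the induction. -/
theorem Inv.conn : ∀ n : ℕ, ∀ W : Set V, W.ncard = n → (G.induce W).Connected → Cls G W →
    ∃ k L, Inv G k L W := by
  intro n
  induction n using Nat.strong_induction_on with
  | _ n ih =>
    intro W hn hc hH
    by_cases hcut : ∃ r ∈ W, ¬ (G.induce (W \ {r})).Preconnected
    · obtain ⟨r, hr, hnp⟩ := hcut
      obtain ⟨W₁, W₂, hC, hU, c₁, c₂, l₁, l₂⟩ := exists_cut hc hr hnp
      have s₁ : W₁ ⊆ W := hU ▸ Set.subset_union_left
      have s₂ : W₂ ⊆ W := hU ▸ Set.subset_union_right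
      obtain ⟨j, L, i₁⟩ := ih W₁.ncard (hn ▸ l₁) W₁ rfl c₁ (hH.mono s₁)
      obtain ⟨k, L', i₂⟩ := ih W₂.ncard (hn ▸ l₂) W₂ rfl c₂ (hH.mono s₂)
      exact ⟨j + k, L ++ L', hU ▸ i₁.glue hC i₂⟩
    · push Not at hcut
      by_cases h2 : ∀ u ∈ W, dg G W u ≤ 2
      · rcases two_reg hc h2 with h | ⟨q, p, hp⟩
        · exact ⟨0, [], Inv.ofCol h (conn_ed hc)⟩
        · exact ⟨1, [], Inv.ofCyc hp hp.card⟩
      · push Not at h2
        obtain ⟨w, hw, hw2⟩ := h2
        obtain ⟨v, hv, hmax⟩ := Set.exists_max_image W (dg G W) (Set.toFinite W) ⟨w, hw⟩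
        have h3 : 3 ≤ dg G W v := by
          have := hmax w hw
          omega
        have hne : (W \ {v}).Nonempty := by
          have h4 : (G.neighborSet v ∩ W).Nonempty := by
            rw [← Set.ncard_pos]
            change 0 < dg G W v
            omega
          obtain ⟨u, hu1, hu2⟩ := h4
          refine ⟨u, hu2, fun h => ?_⟩
          rw [Set.mem_singleton_iff] at h
          subst h
          exact G.loopless.irrefl u hu1
        have hc1 : (G.induce (W \ {v})).Connected := by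
          have := hcut v hv
          obtain ⟨u, hu⟩ := hne
          exact (SimpleGraph.connected_iff _).2 ⟨this, ⟨⟨u, hu⟩⟩⟩
        have hcard : (W \ {v}).ncard + 1 = W.ncard := Set.ncard_sdiff_singleton_add_one hv
        obtain ⟨k, L, i⟩ := ih (W \ {v}).ncard (by omega) (W \ {v}) rfl hc1
          (hH.mono Set.sdiff_subset)
        exact ⟨k, dg G W v :: L, i.del hv h3 hH rfl hmax⟩

/-- `W` has all degrees at most `300`, or few edges. -/
theorem Cls.of_degree {W : Set V} (h : ∀ u ∈ W, dg G W u ≤ 300) : Cls G W :=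
  fun _ hU _ u hu => (dg_mono hU u).trans (h u (hU hu))

end Pool.Agent.MP3b2d6a
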