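import Pool.Agent.Lib.MP_3b2d6a_co.SE1b
import Pool.Agent.Lib.MP_3b2d6a_co.SC0

/-! Elimination of pendant trees from the system `(D + i A) y = a`, and the bound of
`Im aᵀ (x + i A)⁻¹ a` by the degrees inside the core. -/

set_option autoImplicit false
set_option linter.unusedSectionVars false

open Finset Filter Topology Matrix

namespace Pool.Agent.MP3b2d6a

variable {V : Type*} [Fintype V] [DecidableEq V] {G : SimpleGraph V}

/-- `U` arises from `W` by adding successively vertices with at most one neighbour in the set
present. -/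
inductive Peel (G : SimpleGraph V) (W : Set V) : Set V → Prop
  | base : Peel G W W
  | add {U : Set V} {w : V} (h : Peel G W U) (hw : w ∉ U)
      (h1 : (G.neighborSet w ∩ U).ncard ≤ 1) : Peel G W (insert w U)

theorem Peel.sub {W U : Set V} (h : Peel G W U) : W ⊆ U := by
  induction h with
  | base => exact subset_rfl
  | add _ _ _ ih => exact ih.trans (Set.subset_insert _ _)

theorem se_elim {W U : Set V} (hp : Peel G W U) {x : ℝ} (hx : 0 < x) {a : V → ℝ} {y : V → ℂ}
    (ha : ∀ u, u ∉ W → a u = 0) : ∀ {D : V → ℝ}, (∀ u, x ≤ D u) →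
    (∀ u ∈ U, (D u : ℂ) * y u + Complex.I * ∑ v, (AW G U u v : ℂ) * y v = a u) →
    ∃ D' : V → ℝ, (∀ u, x ≤ D' u) ∧
      ∀ u ∈ W, (D' u : ℂ) * y u + Complex.I * ∑ v, (AW G W u v : ℂ) * y v = a u := by
  classical
  induction hp with
  | base => exact fun {D} hD hy => ⟨D, hD, hy⟩
  | @add U w h hw h1 ih =>
    intro D hD hy
    have hDw : 0 < D w := hx.trans_le (hD w)
    have hDc : (D w : ℂ) ≠ 0 := by exact_mod_cast hDw.ne'
    refine ih (D := fun u => D u + if u ∈ U ∧ G.Adj w u then 1 / D w else 0) ?_ ?_
    · intro u
      have h2 : (0 : ℝ) ≤ if u ∈ U ∧ G.Adj w u then 1 / D w else 0 := by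
        split_ifs
        · positivity
        · exact le_rfl
      have := hD u
      linarith
    · intro u hu
      have huw : u ≠ w := fun h' => hw (h' ▸ hu)
      have hsum : ∑ v, (AW G (insert w U) u v : ℂ) * y v =
          ∑ v, (AW G U u v : ℂ) * y v + (AW G (insert w U) u w : ℂ) * y w := by
        have h3 : ∀ v, (AW G (insert w U) u v : ℂ) * y v = (AW G U u v : ℂ) * y v +
            if v = w then (AW G (insert w U) u w : ℂ) * y w else 0 := by
          intro v
          by_cases hv : v = w
          · subst hv
            rw [if_pos rfl]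
            have h4 : AW G U u v = 0 := by
              unfold AW
              exact if_neg fun h' => hw h'.2.1
            rw [h4]
            push_cast
            ring
          · rw [if_neg hv, add_zero]
            have h4 : AW G (insert w U) u v = AW G U u v := by
              unfold AW
              have h5 : (u ∈ insert w U ∧ v ∈ insert w U ∧ G.Adj u v) ↔
                  (u ∈ U ∧ v ∈ U ∧ G.Adj u v) := by
                rw [Set.mem_insert_iff, Set.mem_insert_iff]
                constructor
                · rintro ⟨_, h7 | h7, h8⟩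
                  · exact (hv h7).elim
                  · exact ⟨hu, h7, h8⟩
                · rintro ⟨h6, h7, h8⟩
                  exact ⟨Or.inr h6, Or.inr h7, h8⟩
              by_cases h6 : u ∈ U ∧ v ∈ U ∧ G.Adj u v
              · rw [if_pos h6, if_pos (h5.2 h6)]
              · rw [if_neg h6, if_neg fun h7 => h6 (h5.1 h7)]
            rw [h4]
        rw [Finset.sum_congr rfl fun v _ => h3 v, Finset.sum_add_distrib, Finset.sum_ite_eq']
        simp
      have hyu := hy u (Set.mem_insert_of_mem _ hu)
      rw [hsum] at hyu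
      by_cases hadj : G.Adj w u
      · have hyw := hy w (Set.mem_insert _ _)
        have haw : a w = 0 := ha w fun h' => hw (h.sub h')
        have hone : ∑ v, (AW G (insert w U) w v : ℂ) * y v = y u := by
          rw [Finset.sum_eq_single_of_mem u (Finset.mem_univ _)]
          · have h4 : AW G (insert w U) w u = 1 := by
              unfold AW
              exact if_pos ⟨Set.mem_insert _ _, Set.mem_insert_of_mem _ hu, hadj⟩
            rw [h4]
            push_cast
            ring
          · intro v _ hvu
            have h4 : AW G (insert w U) w v = 0 := by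
              unfold AW
              refine if_neg ?_
              rintro ⟨_, h7, h8⟩
              have hvU : v ∈ U := by
                rcases Set.mem_insert_iff.1 h7 with h9 | h9
                · rw [h9] at h8
                  exact (h8.ne rfl).elim
                · exact h9
              exact hvu ((Set.ncard_le_one (Set.toFinite _)).1 h1 v ⟨h8, hvU⟩ u ⟨hadj, hu⟩)
            rw [h4]
            push_cast
            ring
        rw [hone, haw] at hyw
        have h5 : AW G (insert w U) u w = 1 := by
          unfold AW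
          exact if_pos ⟨Set.mem_insert_of_mem _ hu, Set.mem_insert _ _, hadj.symm⟩
        rw [h5] at hyu
        have h6 : Complex.I * y w = y u / D w := by
          rw [eq_div_iff hDc]
          have h7 : (D w : ℂ) * y w = -(Complex.I * y u) := by
            push_cast at hyw
            linear_combination hyw
          calc Complex.I * y w * D w = Complex.I * ((D w : ℂ) * y w) := by ring
            _ = -(Complex.I * Complex.I) * y u := by rw [h7]; ring
            _ = y u := by rw [Complex.I_mul_I]; ring
        rw [if_pos ⟨hu, hadj⟩, ← hyu]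
        push_cast
        have h8 : Complex.I * (∑ v, (AW G U u v : ℂ) * y v + 1 * y w) =
            Complex.I * ∑ v, (AW G U u v : ℂ) * y v + y u / D w := by
          rw [← h6]
          ring
        rw [h8]
        ring
      · have h5 : AW G (insert w U) u w = 0 := by
          unfold AW
          exact if_neg fun h' => hadj h'.2.2.symm
        rw [h5] at hyu
        rw [if_neg fun h' => hadj h'.2, ← hyu]
        push_cast
        ring

theorem se_dg_row {W : Set V} (u : V) (hu : u ∈ W) : ∑ v, AW G W u v = dg G W u := by
  have h1 := AW_row G u hu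
  have h2 : ∀ v, |AW G W u v| = AW G W u v := fun v => abs_of_nonneg (AW_nonneg G W u v)
  rw [Finset.sum_congr rfl fun v _ => h2 v] at h1
  rw [h1]
  unfold dg
  congr 2
  ext v
  exact ⟨fun h => ⟨h.2, h.1⟩, fun h => ⟨h.2, h.1⟩⟩

/-- The imaginary part of `aᵀ (x + i A_U)⁻¹ a`, `a` the indicator of the neighbours of `r`, is
bounded by the degrees in a part `W` which contains these neighbours and from which `U` arises by
adding pendant trees. -/
theorem gam_bound {W U : Set V} (hp : Peel G W U) {r : V} {L x : ℝ} (hL1 : 0 < L)
    (hL : ∀ u ∈ W, (dg G W u : ℝ) ≤ L) (hN : ∀ u ∈ U, G.Adj r u → u ∈ W) (hx : 0 < x) :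
    (qq (AW G U) (av G U r) x).im ≤ dg G U r * L ^ 3 / (4 * x ^ 2 * (x ^ 2 + L ^ 2)) := by
  classical
  obtain ⟨y, hy⟩ := exists_sol (AW_herm G U) hx (av G U r)
  rw [qq_of_sol (AW_herm G U) hx hy]
  have ha : ∀ u, u ∉ W → av G U r u = 0 := by
    intro u hu
    unfold av
    exact if_neg fun h => hu (hN u h.1 h.2)
  have hy' : ∀ u ∈ U, ((x : ℝ) : ℂ) * y u + Complex.I * ∑ v, (AW G U u v : ℂ) * y v =
      av G U r u := by
    intro u _
    have h1 := congrFun hy u
    rw [NN_mulVec, Pi.add_apply, Pi.smul_apply, Pi.smul_apply, smul_eq_mul, smul_eq_mul] at h1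
    exact h1
  obtain ⟨D, hD, hyD⟩ := se_elim hp hx ha (D := fun _ => x) (fun _ => le_rfl) hy'
  obtain ⟨z, hz⟩ : ∃ z : V → ℂ, z = fun u => if u ∈ W then y u else 0 := ⟨_, rfl⟩
  have hz1 : ∀ u ∈ W, z u = y u := fun u hu => by rw [hz]; exact if_pos hu
  have hz0 : ∀ u, u ∉ W → z u = 0 := fun u hu => by rw [hz]; exact if_neg hu
  have hcm : ∀ u, (cm (AW G W) *ᵥ z) u = ∑ v, (AW G W u v : ℂ) * y v := by
    intro u
    rw [Matrix.mulVec, dotProduct]
    refine Finset.sum_congr rfl fun v _ => ?_
    show (AW G W u v : ℂ) * z v = _
    by_cases hv : v ∈ W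
    · rw [hz1 v hv]
    · rw [AW_zero_right G hv]
      push_cast
      ring
  have hsys : ∀ i, (D i : ℂ) * z i + Complex.I * (cm (AW G W) *ᵥ z) i = av G U r i := by
    intro i
    rw [hcm]
    by_cases hi : i ∈ W
    · rw [hz1 i hi]
      exact hyD i hi
    · rw [hz0 i hi, ha i hi]
      have h1 : ∑ v, (AW G W i v : ℂ) * y v = 0 := by
        refine Finset.sum_eq_zero fun v _ => ?_
        rw [AW_zero_left G hi]
        push_cast
        ring
      rw [h1]
      push_cast
      ring
  have hrow : ∀ u, ∑ v, AW G W u v ≤ L := by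
    intro u
    by_cases hu : u ∈ W
    · rw [se_dg_row u hu]
      exact hL u hu
    · refine le_trans (le_of_eq ?_) hL1.le
      exact Finset.sum_eq_zero fun v _ => AW_zero_left G hu
  have h1 := diag_im_le (AW_herm G W) (AW_nonneg G W) hx hL1 hD (av_nonneg G U r) hrow hsys
  have h2 : cv (av G U r) ⬝ᵥ y = cv (av G U r) ⬝ᵥ z := by
    rw [dotProduct, dotProduct]
    refine Finset.sum_congr rfl fun v _ => ?_
    by_cases hv : v ∈ W
    · rw [hz1 v hv]
    · have h3 : cv (av G U r) v = 0 := by
        show ((av G U r v : ℝ) : ℂ) = 0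
        rw [ha v hv]
        push_cast
        rfl
      rw [h3, zero_mul, zero_mul]
  have h3 : av G U r ⬝ᵥ av G U r = (dg G U r : ℝ) := by
    rw [av_dot]
    unfold dg
    congr 2
    ext v
    exact ⟨fun h => ⟨h.2, h.1⟩, fun h => ⟨h.2, h.1⟩⟩
  rw [h2, ← h3]
  exact h1

end Pool.Agent.MP3b2d6a
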