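import Pool.Agent.Lib.MP_3b2d6a_co.SpB

/-! The imaginary part of `aᵀ (D + i M)⁻¹ a` for a diagonal matrix `D ≥ x`. -/

set_option autoImplicit false
set_option linter.unusedSectionVars false

open Finset Filter Topology Matrix

namespace Pool.Agent.MP3b2d6a

/-- The bound of the numerator by mass, mean and support. -/
theorem se_num {ι : Type*} (s : Finset ι) (w l : ι → ℝ) (hw : ∀ i ∈ s, 0 ≤ w i) {x d L : ℝ}
    (hx : 0 < x) (hL : 0 < L) (hs : ∑ i ∈ s, w i ≤ d) (hm : 0 ≤ ∑ i ∈ s, w i * l i)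
    (hl : ∀ i ∈ s, |l i| ≤ L) :
    ∑ i ∈ s, w i * (-l i / (x ^ 2 + l i ^ 2)) ≤ d * L ^ 3 / (4 * x ^ 2 * (x ^ 2 + L ^ 2)) := by
  have h1 : ∀ i ∈ s, w i * (-l i / (x ^ 2 + l i ^ 2)) ≤
      w i * (L ^ 3 / (4 * x ^ 2 * (x ^ 2 + L ^ 2))) -
        (w i * l i) * ((1 - 3 / 4 * L ^ 2 / (x ^ 2 + L ^ 2)) / x ^ 2) := by
    intro i hi
    have h2 : -l i / (x ^ 2 + l i ^ 2) ≤ L ^ 3 / (4 * x ^ 2 * (x ^ 2 + L ^ 2)) -
        l i * ((1 - 3 / 4 * L ^ 2 / (x ^ 2 + L ^ 2)) / x ^ 2) := by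
      have hp : 0 < x ^ 2 + l i ^ 2 := by positivity
      have hq : 0 < x ^ 2 + L ^ 2 := by positivity
      have e : L ^ 3 / (4 * x ^ 2 * (x ^ 2 + L ^ 2)) -
          l i * ((1 - 3 / 4 * L ^ 2 / (x ^ 2 + L ^ 2)) / x ^ 2) - -l i / (x ^ 2 + l i ^ 2) =
          (L - l i) * (x ^ 2 * (L + 2 * l i) ^ 2 + L ^ 2 * l i ^ 2) /
            (4 * x ^ 2 * (x ^ 2 + L ^ 2) * (x ^ 2 + l i ^ 2)) := by
        field_simp
        ring
      have h3 : 0 ≤ (L - l i) * (x ^ 2 * (L + 2 * l i) ^ 2 + L ^ 2 * l i ^ 2) /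
            (4 * x ^ 2 * (x ^ 2 + L ^ 2) * (x ^ 2 + l i ^ 2)) := by
        have := (abs_le.1 (hl i hi)).2
        refine div_nonneg (mul_nonneg (by linarith) (by positivity)) (by positivity)
      linarith
    calc w i * (-l i / (x ^ 2 + l i ^ 2)) ≤ w i * (L ^ 3 / (4 * x ^ 2 * (x ^ 2 + L ^ 2)) -
        l i * ((1 - 3 / 4 * L ^ 2 / (x ^ 2 + L ^ 2)) / x ^ 2)) :=
          mul_le_mul_of_nonneg_left h2 (hw i hi)
      _ = _ := by ring
  refine (Finset.sum_le_sum h1).trans ?_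
  rw [Finset.sum_sub_distrib, ← Finset.sum_mul, ← Finset.sum_mul]
  have h5 : 0 ≤ (1 - 3 / 4 * L ^ 2 / (x ^ 2 + L ^ 2)) / x ^ 2 := by
    refine div_nonneg ?_ (by positivity)
    rw [sub_nonneg, div_le_one (by positivity)]
    nlinarith [sq_nonneg x, sq_nonneg L]
  have h6 : 0 ≤ L ^ 3 / (4 * x ^ 2 * (x ^ 2 + L ^ 2)) := by positivity
  have h7 := mul_nonneg hm h5
  have h8 := mul_le_mul_of_nonneg_right hs h6
  have h9 : d * (L ^ 3 / (4 * x ^ 2 * (x ^ 2 + L ^ 2))) =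
      d * L ^ 3 / (4 * x ^ 2 * (x ^ 2 + L ^ 2)) := by ring
  linarith

variable {V : Type*} [Fintype V] [DecidableEq V]

/-- `Im aᵀ (D + i M)⁻¹ a` for a nonnegative symmetric matrix `M` with row sums at most `L`, a
diagonal matrix `D ≥ x` and a nonnegative vector `a`; `y` is the solution of `(D + i M) y = a`. -/
theorem diag_im_le {M : Matrix V V ℝ} (hM : M.IsHermitian) (h0 : ∀ i j, 0 ≤ M i j)
    {D a : V → ℝ} {y : V → ℂ} {L x : ℝ} (hx : 0 < x) (hL : 0 < L) (hD : ∀ i, x ≤ D i)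
    (ha : ∀ i, 0 ≤ a i) (hrow : ∀ u, ∑ v, M u v ≤ L)
    (hy : ∀ i, (D i : ℂ) * y i + Complex.I * (cm M *ᵥ y) i = a i) :
    (cv a ⬝ᵥ y).im ≤ (a ⬝ᵥ a) * L ^ 3 / (4 * x ^ 2 * (x ^ 2 + L ^ 2)) := by
  have hD0 : ∀ i, 0 < D i := fun i => hx.trans_le (hD i)
  obtain ⟨S, hS⟩ : ∃ S : V → ℝ, S = fun i => √(D i) := ⟨_, rfl⟩
  have hS0 : ∀ i, 0 < S i := fun i => by rw [hS]; exact Real.sqrt_pos.2 (hD0 i)
  have hS2 : ∀ i, S i * S i = D i := fun i => by rw [hS]; exact Real.mul_self_sqrt (hD0 i).le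
  have hSS : ∀ i j, x ≤ S i * S j := by
    intro i j
    have h1 : √x ≤ S i := by rw [hS]; exact Real.sqrt_le_sqrt (hD i)
    have h2 : √x ≤ S j := by rw [hS]; exact Real.sqrt_le_sqrt (hD j)
    have h3 := Real.mul_self_sqrt hx.le
    have h4 := mul_le_mul h1 h2 (Real.sqrt_nonneg _) (hS0 i).le
    linarith
  obtain ⟨B, hB⟩ : ∃ B : Matrix V V ℝ, B = fun i j => M i j / (S i * S j) := ⟨_, rfl⟩
  have hBij : ∀ i j, B i j = M i j / (S i * S j) := fun i j => by rw [hB]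
  have hBh : B.IsHermitian := by
    ext i j
    rw [Matrix.conjTranspose_apply, hBij, hBij]
    have h1 : M j i = M i j := by
      have := hM.apply i j
      simpa using this
    rw [h1, mul_comm (S j)]
    simp
  have hB0 : ∀ i j, 0 ≤ B i j := fun i j => by
    rw [hBij]
    exact div_nonneg (h0 i j) (mul_pos (hS0 i) (hS0 j)).le
  obtain ⟨a', ha'⟩ : ∃ a' : V → ℝ, a' = fun i => a i / S i := ⟨_, rfl⟩
  obtain ⟨y', hy'⟩ : ∃ y' : V → ℂ, y' = fun i => (S i : ℂ) * y i := ⟨_, rfl⟩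
  have hSc : ∀ i, (S i : ℂ) ≠ 0 := fun i => by exact_mod_cast (hS0 i).ne'
  have hsol : NN B 1 *ᵥ y' = cv a' := by
    rw [NN_mulVec]
    ext i
    have h1 : (cm B *ᵥ y') i = (cm M *ᵥ y) i / S i := by
      rw [Matrix.mulVec, Matrix.mulVec, dotProduct, dotProduct, Finset.sum_div]
      refine Finset.sum_congr rfl fun j _ => ?_
      have h2 : cm B i j = (M i j : ℂ) / (S i * S j) := by
        show ((B i j : ℝ) : ℂ) = _
        rw [hBij]
        push_cast
        rfl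
      have h3 : cm M i j = (M i j : ℂ) := rfl
      rw [h2, h3, hy']
      have := hSc i
      have := hSc j
      field_simp
    rw [Pi.add_apply, Pi.smul_apply, Pi.smul_apply, smul_eq_mul, smul_eq_mul, h1]
    have h4 : cv a' i = (a i : ℂ) / S i := by
      rw [ha']
      show (((a i / S i : ℝ)) : ℂ) = _
      push_cast
      rfl
    rw [h4, ← hy i, hy']
    have h5 : (D i : ℂ) = S i * S i := by
      rw [← hS2 i]
      push_cast
      rfl
    rw [h5]
    have := hSc i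
    field_simp
    push_cast
    ring
  have hq : qq B a' 1 = cv a ⬝ᵥ y := by
    rw [qq_of_sol hBh one_pos hsol, dotProduct, dotProduct]
    refine Finset.sum_congr rfl fun i _ => ?_
    have h4 : cv a' i = (a i : ℂ) / S i := by
      rw [ha']
      show (((a i / S i : ℝ)) : ℂ) = _
      push_cast
      rfl
    have h5 : cv a i = (a i : ℂ) := rfl
    rw [h4, h5, hy']
    have := hSc i
    field_simp
  obtain ⟨c, h1, h2, h3⟩ := qq_spec' hBh a'
  have hmean : 0 ≤ a' ⬝ᵥ (B *ᵥ a') := by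
    have ha0 : ∀ i, 0 ≤ a' i := fun i => by
      rw [ha']
      exact div_nonneg (ha i) (hS0 i).le
    refine Finset.sum_nonneg fun i _ => mul_nonneg (ha0 i) ?_
    exact Finset.sum_nonneg fun j _ => mul_nonneg (hB0 i j) (ha0 j)
  have hmass : a' ⬝ᵥ a' ≤ (a ⬝ᵥ a) / x := by
    rw [dotProduct, dotProduct, Finset.sum_div]
    refine Finset.sum_le_sum fun i _ => ?_
    rw [ha']
    have h4 : a i / S i * (a i / S i) = a i * a i / D i := by
      rw [← hS2 i]
      field_simp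
    rw [h4]
    exact div_le_div_of_nonneg_left (mul_self_nonneg _) hx (hD i)
  have hev : ∀ i, |hBh.eigenvalues i| ≤ L / x := by
    refine eig_le_row hBh fun u => ?_
    refine le_trans (Finset.sum_le_sum (g := fun v => M u v / x) fun v _ => ?_) ?_
    · rw [abs_of_nonneg (hB0 u v), hBij]
      exact div_le_div_of_nonneg_left (h0 u v) hx (hSS u v)
    · rw [← Finset.sum_div]
      exact div_le_div_of_nonneg_right (hrow u) hx.le
  rw [← hq, h3 1 one_pos, Complex.im_sum, Finset.sum_congr rfl fun j _ => term_im]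
  rw [← h2] at hmean
  have h4 := se_num univ (fun j => c j ^ 2) (fun j => hBh.eigenvalues j) (fun i _ => sq_nonneg _)
    (x := 1) (d := (a ⬝ᵥ a) / x) (L := L / x) one_pos (div_pos hL hx) (by rw [h1]; exact hmass)
    hmean (fun i _ => hev i)
  refine h4.trans (le_of_eq ?_)
  field_simp

end Pool.Agent.MP3b2d6a
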