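import Pool.Agent.Lib.MP_3b2d6a_co.SumFull
import Pool.Agent.Lib.MP_3b2d6a_co.ExLem
import Pool.Agent.Lib.MP_3b2d6a_co.SpB
import Pool.Agent.Lib.MP_3b2d6a_co.SC0
import Pool.Agent.Lib.MP_3b2d6a_co.SCE

/-! The final step: the phase of a vertex set cut at a vertex, and the comparison of energies. -/

set_option autoImplicit false
set_option linter.unusedSectionVars false

open Finset Filter Topology Matrix

namespace Pool.Agent.MP3b2d6a

variable {V : Type*} [Fintype V] [DecidableEq V] {G : SimpleGraph V}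

/-- `D(W) = - 1/2 ∑ λ |λ|` -/
noncomputable def Dd (G : SimpleGraph V) (W : Set V) : ℝ :=
  -(1 / 2) * ∑ i, (AW_herm G W).eigenvalues i * |(AW_herm G W).eigenvalues i|

theorem e5_split {WA WB : Set V} {v : V} (h : Cut G WA WB v) {x β : ℝ} (hx : 0 < x)
    (h2 : T G WB x ≤ β) (h2' : T G (WB \ {v}) x ≤ β) :
    T G (WA ∪ WB) x ≤ T G (WA \ {v}) x +
      Real.arctan (max (Q G WA v x).im 0 / (x + (Q G WA v x).re)) + β := by
  rw [h.T_eq hx]
  have g := glue_arctan (I₁ := (Q G WA v x).im) (I₂ := (Q G WB v x).im) hx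
    (Q_re_nonneg G WA v hx) (Q_re_nonneg G WB v hx)
  rw [T_pivot G h.mem₂ hx] at h2
  have e2 : T G (WB \ {v}) x +
      max 0 (Real.arctan ((Q G WB v x).im / (x + (Q G WB v x).re))) ≤ β := by
    rw [← max_add_add_left, add_zero]
    exact max_le h2' h2
  have e1 : max 0 (Real.arctan ((Q G WA v x).im / (x + (Q G WA v x).re))) ≤
      Real.arctan (max (Q G WA v x).im 0 / (x + (Q G WA v x).re)) := by
    have hd : 0 < x + (Q G WA v x).re := by
      have := Q_re_nonneg G WA v hx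
      linarith
    refine max_le ?_ (Real.arctan_strictMono.monotone
      (div_le_div_of_nonneg_right (le_max_left _ _) hd.le))
    have h0 := Real.arctan_strictMono.monotone
      (div_nonneg (le_max_right (Q G WA v x).im 0) hd.le)
    rwa [Real.arctan_zero] at h0
  linarith

theorem e5_dg (W : Set V) (u : V) :
    dg G W u = ({v | v ∈ W ∧ G.Adj u v} : Set V).ncard := by
  unfold dg
  congr 1
  ext v
  exact and_comm

theorem e5_exf (G : SimpleGraph V) (W : Set V) (v : V) :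
    ∃ w l : V → ℝ, (∀ i ∈ (univ : Finset V), 0 ≤ w i) ∧ ∑ i, w i = (dg G W v : ℝ) ∧
      ∀ x, 0 < x → (Q G W v x).im = exN univ w l x ∧ (Q G W v x).re = exR univ w l x := by
  obtain ⟨c, h1, -, h3⟩ := qq_spec' (AW_herm G (W \ {v})) (av G W v)
  refine ⟨fun j => c j ^ 2, (AW_herm G (W \ {v})).eigenvalues, fun i _ => sq_nonneg _, ?_,
    fun x hx => ⟨?_, ?_⟩⟩
  · rw [h1, av_dot, ← e5_dg]
  · unfold Q exN
    rw [h3 x hx, Complex.im_sum]
    exact Finset.sum_congr rfl fun j _ => term_im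
  · unfold Q exR
    rw [h3 x hx, Complex.re_sum]
    exact Finset.sum_congr rfl fun j _ => term_re

theorem e5_list (L : List ℕ) (hL : ∀ d ∈ L, 3 ≤ d) :
    (L.map fun d : ℕ => 2 * ((d : ℝ) - 2)).sum + 2 * L.length ≤
      2 * (L.map fun d : ℕ => (d : ℝ) - 1).sum := by
  induction L with
  | nil => simp
  | cons a L ih =>
    have h1 := ih fun d hd => hL d (List.mem_cons_of_mem a hd)
    simp only [List.map_cons, List.sum_cons, List.length_cons]
    push_cast
    linarith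

theorem e5_step {W WA WB : Set V} {v : V} (hcut : Cut G WA WB v) (hU : WA ∪ WB = W)
    {k : ℕ} {L : List ℕ} {c : ℕ → ℝ → ℝ}
    (hc : ∀ d ∈ L, ∃ (P : ℝ → ℝ) (S : ℝ), (∀ x, 0 < x → HasDerivAt P (x * c d x) x) ∧
      (∀ x y, 0 < x → x ≤ y → P y - P x ≤ S) ∧ S < Real.pi / 2 * (d - 2))
    (h3 : ∀ d ∈ L, 3 ≤ d)
    (hge : (k : ℝ) + (L.map fun d : ℕ => (d : ℝ) - 1).sum + WB.ncard ≤ ed G WB + 1)
    (hle : ∀ W' ⊆ WB, ∀ x, 0 < x → T G W' x ≤ k * tau x + (L.map fun d : ℕ => c d x).sum)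
    (hA : Dd G (WA \ {v}) ≤ ed G (WA \ {v}) - (WA \ {v}).ncard)
    (hcase : (WB.ncard : ℝ) + 1 ≤ ed G WB ∨
      ∃ R : ℝ, 0 < R ∧ R ≤ 2 * dg G WA v ∧ 150 ≤ (dg G WA v : ℝ) ∧
        ∀ x, 0 < x → (Q G WA v x).im ≤ dg G WA v * R ^ 3 / (4 * x ^ 2 * (x ^ 2 + R ^ 2))) :
    Dd G W < ed G W - W.ncard := by
  obtain ⟨w, l, hw, hwd, hQ⟩ := e5_exf G WA v
  -- the bound of the phase
  have hT : ∀ x, 0 < x → TT (AW G W) x ≤ TT (AW G (WA \ {v})) x + exf univ w l x +
      (k * tau x + ((L : Multiset ℕ).map (fun d => c d x)).sum) := by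
    intro x hx
    have h1 := e5_split hcut hx (hle WB subset_rfl x hx)
      (hle (WB \ {v}) Set.sdiff_subset x hx)
    rw [hU, (hQ x hx).1, (hQ x hx).2] at h1
    rw [Multiset.map_coe, Multiset.sum_coe]
    exact h1
  -- counting
  have hed := ed_del (G := G) hcut.mem₁
  have hcard : (WA \ {v}).ncard + 1 = WA.ncard := Set.ncard_sdiff_singleton_add_one hcut.mem₁
  have hcard' : ((WA \ {v}).ncard : ℝ) + 1 = WA.ncard := by exact_mod_cast hcard
  have hca := hcut.card_add
  have hca' : ((WA ∪ WB).ncard : ℝ) + 1 = WA.ncard + WB.ncard := by exact_mod_cast hca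
  have hea := hcut.ed_add
  rw [hU] at hca' hea
  have hlist := e5_list L h3
  have hs2 := sqrt5_gt
  have hs3 : √5 < 2.24 := by
    rw [Real.sqrt_lt' (by norm_num)]
    norm_num
  have k0 : (0 : ℝ) ≤ k := Nat.cast_nonneg k
  have hkk : (√5 - 2) * (k : ℝ) ≤ 0.24 * k := mul_le_mul_of_nonneg_right (by linarith) k0
  have hDA : Dd G (WA \ {v}) = -(1 / 2) * ∑ i, (AW_herm G (WA \ {v})).eigenvalues i *
    |(AW_herm G (WA \ {v})).eigenvalues i| := rfl
  have hDW : Dd G W = -(1 / 2) * ∑ i, (AW_herm G W).eigenvalues i *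
    |(AW_herm G W).eigenvalues i| := rfl
  rcases hcase with hB | ⟨R, hR0, hR2, hd150, hgam⟩
  · obtain ⟨F, hF, hFE⟩ := ex_lem_0 hw hwd
    have hmain := sum_ge_full (AW_herm G W) (AW_herm G (WA \ {v})) (AW_trace G W)
      (AW_trace G (WA \ {v})) (k := (k : ℝ)) c (L : Multiset ℕ) (fun d hd => hc d hd) hF hFE hT
    rw [Multiset.map_coe, Multiset.sum_coe] at hmain
    cases L with
    | nil =>
      have h1 := hmain.1
      simp only [List.map_nil, List.sum_nil] at h1 hge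
      linarith
    | cons a L =>
      have h1 := hmain.2 (by simp)
      simp only [List.length_cons] at hlist
      push_cast at hlist
      have hlen : (0 : ℝ) ≤ L.length := Nat.cast_nonneg _
      linarith
  · obtain ⟨F, hF, hFE⟩ := ex_lem_150 hw hwd hd150 hR0 hR2 fun x hx => by
      rw [← (hQ x hx).1]
      exact hgam x hx
    have hmain := sum_ge_full (AW_herm G W) (AW_herm G (WA \ {v})) (AW_trace G W)
      (AW_trace G (WA \ {v})) (k := (k : ℝ)) c (L : Multiset ℕ) (fun d hd => hc d hd) hF hFE hT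
    rw [Multiset.map_coe, Multiset.sum_coe] at hmain
    have h1 := hmain.1
    have hlen : (0 : ℝ) ≤ L.length := Nat.cast_nonneg _
    linarith

end Pool.Agent.MP3b2d6a
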