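import Pool.Agent.Lib.MP_3b2d6a_co.SCE
import Pool.Agent.Lib.MP_3b2d6a_co.SCG
import Pool.Agent.Lib.MP_3b2d6a_co.SE1

/-! The decomposition at a vertex. -/

set_option autoImplicit false
set_option linter.unusedSectionVars false

open Finset Filter Topology Matrix

namespace Pool.Agent.MP3b2d6a

variable {V : Type*} [Fintype V] [DecidableEq V] {G : SimpleGraph V}

/-- an edge leaves every proper nonempty part of a connected set -/
theorem s9_exit {Z U : Set V} (hc : (G.induce Z).Connected) (hU : U ⊆ Z) (hne : U.Nonempty)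
    (hlt : U ≠ Z) : ∃ u ∈ U, ∃ w ∈ Z \ U, G.Adj u w := by
  by_contra hcon
  push Not at hcon
  obtain ⟨a, ha⟩ := hne
  obtain ⟨b, hb, hbU⟩ : ∃ b ∈ Z, b ∉ U := by
    by_contra h
    push Not at h
    exact hlt (Set.Subset.antisymm hU h)
  obtain ⟨p⟩ := hc.preconnected ⟨a, hU ha⟩ ⟨b, hb⟩
  have key : ∀ (x y : Z) (_ : (G.induce Z).Walk x y), x.1 ∈ U → y.1 ∈ U := by
    intro x y q
    induction q with
    | nil => exact fun h => h
    | @cons x y z h q ih =>
      intro hx
      apply ih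
      by_contra hy
      exact hcon x.1 hx y.1 ⟨y.2, hy⟩ h
  exact hbU (key _ _ p ha)

theorem s9_grow' {Z : Set V} (hc : (G.induce Z).Connected) : ∀ (n : ℕ) (U : Set V), U ⊆ Z →
    U.Nonempty → (Z \ U).ncard = n → ed G U + (n : ℝ) ≤ ed G Z := by
  intro n
  induction n with
  | zero =>
    intro U hU hne hn
    have h1 : Z \ U = ∅ := (Set.ncard_eq_zero (Set.toFinite _)).1 hn
    have hZ : Z = U := Set.Subset.antisymm (Set.sdiff_eq_empty.1 h1) hU
    rw [hZ]
    simp
  | succ n ih =>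
    intro U hU hne hn
    have hlt : U ≠ Z := by
      rintro rfl
      simp at hn
    obtain ⟨u, hu, w, hw, huw⟩ := s9_exit hc hU hne hlt
    have h5 : Z \ insert w U = (Z \ U) \ {w} := by
      ext y
      simp only [Set.mem_sdiff, Set.mem_insert_iff, Set.mem_singleton_iff]
      tauto
    have h1 := ih (insert w U) (Set.insert_subset hw.1 hU) (Set.insert_nonempty _ _) (by
      rw [h5, Set.ncard_sdiff_singleton_of_mem hw, hn]
      rfl)
    have h2 := ed_del (G := G) (W := insert w U) (v := w) (Set.mem_insert _ _)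
    have h3 : insert w U \ {w} = U := by
      ext y
      simp only [Set.mem_sdiff, Set.mem_insert_iff, Set.mem_singleton_iff]
      constructor
      · rintro ⟨h | h, h'⟩
        · exact absurd h h'
        · exact h
      · intro h
        exact ⟨Or.inr h, fun h' => hw.2 (h' ▸ h)⟩
    rw [h3] at h2
    have h4 : (1 : ℝ) ≤ dg G (insert w U) w := by
      have : 0 < dg G (insert w U) w := by
        unfold dg
        rw [Set.ncard_pos (Set.toFinite _)]
        exact ⟨u, huw.symm, Or.inr hu⟩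
      exact_mod_cast this
    push_cast
    linarith

/-- growth: a connected set has at least one edge more for every vertex outside of `U` -/
theorem s9_grow {Z U : Set V} (hc : (G.induce Z).Connected) (hU : U ⊆ Z) (hne : U.Nonempty) :
    ed G U + ((Z \ U).ncard : ℝ) ≤ ed G Z := s9_grow' hc _ U hU hne rfl

theorem s9_card {Z U : Set V} (hU : U ⊆ Z) : (Z.ncard : ℝ) = U.ncard + ((Z \ U).ncard : ℝ) := by
  have h := Set.ncard_sdiff_add_ncard_of_subset hU (Set.toFinite _)
  have h' : Z.ncard = U.ncard + (Z \ U).ncard := by omega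
  exact_mod_cast h'

theorem s9_ed_empty : ed G ∅ = 0 := by
  unfold ed AW
  simp

theorem s9_ed_union {Z₁ Z₂ : Set V} (hd : Disjoint Z₁ Z₂)
    (he : ∀ u ∈ Z₁, ∀ w ∈ Z₂, ¬ G.Adj u w) : ed G (Z₁ ∪ Z₂) = ed G Z₁ + ed G Z₂ := by
  unfold ed
  rw [AW_union G hd he]
  simp only [Matrix.add_apply, Finset.sum_add_distrib]
  ring

theorem s9_card_union {Z₁ Z₂ : Set V} (hd : Disjoint Z₁ Z₂) :
    ((Z₁ ∪ Z₂).ncard : ℝ) = Z₁.ncard + Z₂.ncard := by
  exact_mod_cast Set.ncard_union_eq hd (Set.toFinite _) (Set.toFinite _)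

/-- every part has at most as many edges as vertices -/
def PF (G : SimpleGraph V) (Z : Set V) : Prop := ∀ U ⊆ Z, ed G U ≤ U.ncard

theorem PF_empty : PF G ∅ := by
  intro U hU
  rw [Set.subset_empty_iff.1 hU, s9_ed_empty]
  positivity

theorem PF_conn {Z : Set V} (hc : (G.induce Z).Connected) (h : ed G Z ≤ Z.ncard) : PF G Z := by
  intro U hU
  rcases U.eq_empty_or_nonempty with rfl | hne
  · rw [s9_ed_empty]
    positivity
  · have h1 := s9_grow hc hU hne
    have h2 := s9_card hU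
    linarith

theorem PF_union {Z₁ Z₂ : Set V} (hd : Disjoint Z₁ Z₂) (he : ∀ u ∈ Z₁, ∀ w ∈ Z₂, ¬ G.Adj u w)
    (h1 : PF G Z₁) (h2 : PF G Z₂) : PF G (Z₁ ∪ Z₂) := by
  intro U hU
  have e : U = (U ∩ Z₁) ∪ (U ∩ Z₂) := by
    rw [← Set.inter_union_distrib_left, Set.inter_eq_self_of_subset_left hU]
  have hd' : Disjoint (U ∩ Z₁) (U ∩ Z₂) :=
    hd.mono Set.inter_subset_right Set.inter_subset_right
  rw [e, s9_ed_union hd' fun u hu w hw => he u hu.2 w hw.2, s9_card_union hd']
  exact add_le_add (h1 _ Set.inter_subset_right) (h2 _ Set.inter_subset_right)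

/-- every nonempty closed part has more edges than vertices -/
def KA (G : SimpleGraph V) (Z : Set V) : Prop :=
  ∀ U ⊆ Z, U.Nonempty → (∀ u ∈ U, ∀ w ∈ Z \ U, ¬ G.Adj u w) → (U.ncard : ℝ) + 1 ≤ ed G U

theorem KA_empty : KA G ∅ := by
  intro U hU hne
  exact absurd (Set.subset_empty_iff.1 hU) hne.ne_empty

theorem KA_conn {Z : Set V} (hc : (G.induce Z).Connected) (h : (Z.ncard : ℝ) + 1 ≤ ed G Z) :
    KA G Z := by
  intro U hU hne hcl
  have hUZ : U = Z := by
    by_contra hlt
    obtain ⟨u, hu, w, hw, huw⟩ := s9_exit hc hU hne hlt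
    exact hcl u hu w hw huw
  rw [hUZ]
  exact h

theorem KA_union {Z₁ Z₂ : Set V} (hd : Disjoint Z₁ Z₂) (he : ∀ u ∈ Z₁, ∀ w ∈ Z₂, ¬ G.Adj u w)
    (h1 : KA G Z₁) (h2 : KA G Z₂) : KA G (Z₁ ∪ Z₂) := by
  intro U hU hne hcl
  have e : U = (U ∩ Z₁) ∪ (U ∩ Z₂) := by
    rw [← Set.inter_union_distrib_left, Set.inter_eq_self_of_subset_left hU]
  have hd' : Disjoint (U ∩ Z₁) (U ∩ Z₂) :=
    hd.mono Set.inter_subset_right Set.inter_subset_right
  have c1 : ∀ u ∈ U ∩ Z₁, ∀ w ∈ Z₁ \ (U ∩ Z₁), ¬ G.Adj u w := by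
    intro u hu w hw
    exact hcl u hu.1 w ⟨Or.inl hw.1, fun h => hw.2 ⟨h, hw.1⟩⟩
  have c2 : ∀ u ∈ U ∩ Z₂, ∀ w ∈ Z₂ \ (U ∩ Z₂), ¬ G.Adj u w := by
    intro u hu w hw
    exact hcl u hu.1 w ⟨Or.inr hw.1, fun h => hw.2 ⟨h, hw.1⟩⟩
  rw [e, s9_ed_union hd' fun u hu w hw => he u hu.2 w hw.2, s9_card_union hd']
  rcases (U ∩ Z₁).eq_empty_or_nonempty with e1 | n1
  · rcases (U ∩ Z₂).eq_empty_or_nonempty with e2 | n2
    · rw [e1, e2, Set.union_empty] at e
      exact absurd e hne.ne_empty
    · have := h2 _ Set.inter_subset_right n2 c2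
      rw [e1, s9_ed_empty, Set.ncard_empty]
      push_cast
      linarith
  · have a1 := h1 _ Set.inter_subset_right n1 c1
    rcases (U ∩ Z₂).eq_empty_or_nonempty with e2 | n2
    · rw [e2, s9_ed_empty, Set.ncard_empty]
      push_cast
      linarith
    · have a2 := h2 _ Set.inter_subset_right n2 c2
      linarith

/-- splitting at `v`: two kinds of parts -/
theorem s9_split (PA PB : Set V → Prop) (hA0 : PA ∅) (hB0 : PB ∅)
    (hA : ∀ Z₁ Z₂ : Set V, Disjoint Z₁ Z₂ → (∀ u ∈ Z₁, ∀ w ∈ Z₂, ¬ G.Adj u w) → PA Z₁ → PA Z₂ →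
      PA (Z₁ ∪ Z₂))
    (hB : ∀ Z₁ Z₂ : Set V, Disjoint Z₁ Z₂ → (∀ u ∈ Z₁, ∀ w ∈ Z₂, ¬ G.Adj u w) → PB Z₁ → PB Z₂ →
      PB (Z₁ ∪ Z₂)) {v : V} :
    ∀ (n : ℕ) (W : Set V), W.ncard ≤ n → (G.induce W).Connected → v ∈ W →
      (∀ Z ⊆ W \ {v}, (G.induce Z).Connected → PA Z ∨ PB Z) →
      ∃ W₁ W₂ : Set V, Cut G W₁ W₂ v ∧ W₁ ∪ W₂ = W ∧ (G.induce W₁).Connected ∧
        (G.induce W₂).Connected ∧ PA (W₁ \ {v}) ∧ PB (W₂ \ {v}) := by
  intro n
  induction n with
  | zero =>
    intro W hn hc hv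
    have h0 : W.ncard = 0 := by omega
    rw [Set.ncard_eq_zero (Set.toFinite _)] at h0
    rw [h0] at hv
    exact absurd hv (Set.notMem_empty _)
  | succ n ih =>
    intro W hn hc hv hAB
    have hsing : (G.induce ({v} : Set V)).Connected := by
      have : Nonempty ({v} : Set V) := ⟨⟨v, rfl⟩⟩
      refine ⟨fun a b => ?_⟩
      have hab : a = b := Subtype.ext (a.2.trans b.2.symm)
      rw [hab]
    have hcutl : Cut G W {v} v := ⟨hv, rfl, fun w _ h => h, fun u _ w hw _ hwv => absurd hw hwv⟩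
    by_cases hpre : (G.induce (W \ {v})).Preconnected
    · by_cases hne : (W \ {v}).Nonempty
      · have hconn : (G.induce (W \ {v})).Connected := by
          have : Nonempty (W \ {v} : Set V) := hne.to_subtype
          exact ⟨hpre⟩
        rcases hAB _ (Set.Subset.refl _) hconn with h | h
        · refine ⟨W, {v}, hcutl, ?_, hc, hsing, h, ?_⟩
          · exact Set.union_eq_self_of_subset_right (Set.singleton_subset_iff.2 hv)
          · rw [Set.sdiff_self]
            exact hB0
        · refine ⟨{v}, W, hcutl.symm, ?_, hsing, hc, ?_, h⟩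
          · exact Set.union_eq_self_of_subset_left (Set.singleton_subset_iff.2 hv)
          · rw [Set.sdiff_self]
            exact hA0
      · have h0 : W \ {v} = ∅ := Set.not_nonempty_iff_eq_empty.1 hne
        refine ⟨W, {v}, hcutl, ?_, hc, hsing, ?_, ?_⟩
        · exact Set.union_eq_self_of_subset_right (Set.singleton_subset_iff.2 hv)
        · rw [h0]
          exact hA0
        · rw [Set.sdiff_self]
          exact hB0
    · obtain ⟨W', W'', hcut, hun, hc', hc'', hlt', hlt''⟩ := exists_cut hc hv hpre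
      have hs' : W' ⊆ W := hun ▸ Set.subset_union_left
      have hs'' : W'' ⊆ W := hun ▸ Set.subset_union_right
      obtain ⟨A1, B1, k1, u1, ca1, cb1, pa1, pb1⟩ := ih W' (by omega) hc' hcut.mem₁
        fun Z hZ => hAB Z (hZ.trans (Set.sdiff_subset_sdiff_left hs'))
      obtain ⟨A2, B2, k2, u2, ca2, cb2, pa2, pb2⟩ := ih W'' (by omega) hc'' hcut.mem₂
        fun Z hZ => hAB Z (hZ.trans (Set.sdiff_subset_sdiff_left hs''))
      have sA1 : A1 ⊆ W' := u1 ▸ Set.subset_union_left
      have sB1 : B1 ⊆ W' := u1 ▸ Set.subset_union_right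
      have sA2 : A2 ⊆ W'' := u2 ▸ Set.subset_union_left
      have sB2 : B2 ⊆ W'' := u2 ▸ Set.subset_union_right
      have glue : ∀ X Y : Set V, X ⊆ W' → Y ⊆ W'' →
          Disjoint (X \ {v}) (Y \ {v}) ∧ (∀ u ∈ X \ {v}, ∀ w ∈ Y \ {v}, ¬ G.Adj u w) := by
        intro X Y hX hY
        refine ⟨?_, ?_⟩
        · rw [Set.disjoint_left]
          rintro w ⟨h1, h2⟩ ⟨h3, -⟩
          exact h2 (hcut.inter w (hX h1) (hY h3))
        · rintro u ⟨hu, huv⟩ w ⟨hw, hwv⟩
          exact hcut.adj u (hX hu) w (hY hw) huv hwv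
      have hconnU : ∀ X Y : Set V, v ∈ X → v ∈ Y → (G.induce X).Connected →
          (G.induce Y).Connected → (G.induce (X ∪ Y)).Connected := by
        intro X Y hX hY cX cY
        exact SimpleGraph.induce_union_connected cX.preconnected cY.preconnected ⟨v, hX, hY⟩
      refine ⟨A1 ∪ A2, B1 ∪ B2, ⟨Or.inl k1.mem₁, Or.inl k1.mem₂, ?_, ?_⟩, ?_,
        hconnU _ _ k1.mem₁ k2.mem₁ ca1 ca2, hconnU _ _ k1.mem₂ k2.mem₂ cb1 cb2, ?_, ?_⟩
      · rintro w (h1 | h1) (h2 | h2)
        · exact k1.inter w h1 h2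
        · exact hcut.inter w (sA1 h1) (sB2 h2)
        · exact hcut.inter w (sB1 h2) (sA2 h1)
        · exact k2.inter w h1 h2
      · rintro u (hu | hu) w (hw | hw) huv hwv huw
        · exact k1.adj u hu w hw huv hwv huw
        · exact hcut.adj u (sA1 hu) w (sB2 hw) huv hwv huw
        · exact hcut.adj w (sB1 hw) u (sA2 hu) hwv huv huw.symm
        · exact k2.adj u hu w hw huv hwv huw
      · rw [← hun, ← u1, ← u2]
        ext w
        simp only [Set.mem_union]
        tauto
      · rw [Set.union_sdiff_distrib]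
        obtain ⟨g1, g2⟩ := glue A1 A2 sA1 sA2
        exact hA _ _ g1 g2 pa1 pa2
      · rw [Set.union_sdiff_distrib]
        obtain ⟨g1, g2⟩ := glue B1 B2 sB1 sB2
        exact hB _ _ g1 g2 pb1 pb2

open Classical in
/-- the degree of `v` in a part with all other degrees at least two -/
theorem s9_CB {W C : Set V} {v : V} (hc : (G.induce W).Connected) (hC : C ⊆ W) (hv : v ∈ C)
    (h2 : ∀ u ∈ C, u ≠ v → 2 ≤ dg G C u) :
    (dg G C v : ℝ) ≤ 2 * (ed G W - W.ncard + 1) := by
  have h1 := s9_grow hc hC ⟨v, hv⟩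
  have h3 := s9_card hC
  have h4 := ed_dg (G := G) C
  have h5 : 2 * ((C.ncard : ℝ) - 1) + dg G C v ≤ ∑ u, (if u ∈ C then (dg G C u : ℝ) else 0) := by
    have e1 : (C.ncard : ℝ) = ∑ u, (if u ∈ C then (1 : ℝ) else 0) := by
      rw [Finset.sum_boole]
      have h6 : C = ((Finset.univ.filter fun w => w ∈ C : Finset V) : Set V) := by
        ext w
        simp
      conv_lhs => rw [h6, Set.ncard_coe_finset]
    have e2 : 2 * ((C.ncard : ℝ) - 1) + dg G C v =
        ∑ u, (if u ∈ C then (if u = v then (dg G C v : ℝ) else 2) else 0) := by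
      have e3 : ∀ u, (if u ∈ C then (if u = v then (dg G C v : ℝ) else 2) else 0) =
          2 * (if u ∈ C then (1 : ℝ) else 0) + (if u = v then (dg G C v : ℝ) - 2 else 0) := by
        intro u
        by_cases hu : u = v
        · subst hu
          simp [hv]
        · by_cases huC : u ∈ C
          · simp [hu, huC]
          · simp [hu, huC]
      rw [Finset.sum_congr rfl fun u _ => e3 u, Finset.sum_add_distrib, ← Finset.mul_sum, ← e1,
        Finset.sum_ite_eq' Finset.univ v]
      simp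
      ring
    rw [e2]
    refine Finset.sum_le_sum fun u _ => ?_
    by_cases huC : u ∈ C
    · rw [if_pos huC, if_pos huC]
      by_cases hu : u = v
      · rw [if_pos hu, hu]
      · rw [if_neg hu]
        exact_mod_cast h2 u huC hu
    · rw [if_neg huC, if_neg huC]
  linarith

/-- below a pseudoforest plus one vertex there is no part with large minimum degree -/
theorem s9_class {W : Set V} {v : V} (hP : PF G (W \ {v})) {U : Set V} (hU : U ⊆ W)
    (h : ∀ u ∈ U, 4 ≤ dg G U u) : U = ∅ := by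
  classical
  by_contra hne
  have h1 := hP (U \ {v}) (Set.sdiff_subset_sdiff_left hU)
  have h2 := ed_dg (G := G) (U \ {v})
  have h3 : ∀ u ∈ U \ {v}, 3 ≤ dg G (U \ {v}) u := by
    intro u hu
    have h4 := h u hu.1
    have h5 : G.neighborSet u ∩ U ⊆ insert v (G.neighborSet u ∩ (U \ {v})) := by
      rintro w ⟨hw1, hw2⟩
      by_cases hwv : w = v
      · exact Or.inl hwv
      · exact Or.inr ⟨hw1, hw2, hwv⟩
    have h6 := Set.ncard_le_ncard h5 (Set.toFinite _)
    have h7 := Set.ncard_insert_le v (G.neighborSet u ∩ (U \ {v}))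
    unfold dg at h4 ⊢
    omega
  have h8 : 3 * ((U \ {v}).ncard : ℝ) ≤ 2 * ed G (U \ {v}) := by
    generalize U \ {v} = X at h3
    have e1 : (X.ncard : ℝ) = ∑ u, (if u ∈ X then (1 : ℝ) else 0) := by
      rw [Finset.sum_boole]
      have h6 : X = ((Finset.univ.filter fun w => w ∈ X : Finset V) : Set V) := by
        ext w
        simp
      conv_lhs => rw [h6, Set.ncard_coe_finset]
    rw [ed_dg, e1, Finset.mul_sum, mul_div_cancel₀ _ (two_ne_zero' ℝ)]
    refine Finset.sum_le_sum fun u _ => ?_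
    by_cases hu : u ∈ X
    · rw [if_pos hu, if_pos hu, mul_one]
      exact_mod_cast h3 u hu
    · rw [if_neg hu, if_neg hu, mul_zero]
  have h9 : ((U \ {v}).ncard : ℝ) ≤ 0 := by linarith
  have h10 : (U \ {v}).ncard = 0 := by
    have : ((U \ {v}).ncard : ℝ) = 0 := le_antisymm h9 (by positivity)
    exact_mod_cast this
  rw [Set.ncard_eq_zero (Set.toFinite _)] at h10
  obtain ⟨u, hu⟩ := Set.nonempty_iff_ne_empty.2 hne
  have huv : u = v := by
    by_contra hne'
    have : u ∈ U \ {v} := ⟨hu, hne'⟩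
    rw [h10] at this
    exact this
  have h11 := h u hu
  have h12 : G.neighborSet u ∩ U = ∅ := by
    ext w
    constructor
    · rintro ⟨hw1, hw2⟩
      have hwv : w = v := by
        by_contra hne'
        have : w ∈ U \ {v} := ⟨hw2, hne'⟩
        rw [h10] at this
        exact this
      rw [hwv, huv] at hw1
      exact absurd hw1 (G.loopless.irrefl v)
    · exact fun h => absurd h (Set.notMem_empty _)
  unfold dg at h11
  rw [h12, Set.ncard_empty] at h11
  omega

/-- removing a vertex with at most one neighbour -/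
theorem KA_del {Z : Set V} {w : V} (hw : w ∈ Z) (h1 : dg G Z w ≤ 1) (h : KA G Z) :
    KA G (Z \ {w}) := by
  intro U hU hne hcl
  have hwU : w ∉ U := fun h' => (hU h').2 rfl
  have hUZ : U ⊆ Z := hU.trans Set.sdiff_subset
  by_cases hadj : ∃ u ∈ U, G.Adj u w
  · obtain ⟨u, hu, huw⟩ := hadj
    have hcl' : ∀ a ∈ insert w U, ∀ b ∈ Z \ insert w U, ¬ G.Adj a b := by
      intro a ha b hb hab
      rcases ha with rfl | ha
      · -- two neighbours of w
        have h2 : ({u, b} : Set V) ⊆ G.neighborSet a ∩ Z := by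
          rintro y (rfl | rfl)
          · exact ⟨huw.symm, hUZ hu⟩
          · exact ⟨hab, hb.1⟩
        have h3 := Set.ncard_le_ncard h2 (Set.toFinite _)
        have h4 : u ≠ b := fun e => hb.2 (Or.inr (e ▸ hu))
        rw [Set.ncard_pair h4] at h3
        unfold dg at h1
        omega
      · exact hcl a ha b ⟨⟨hb.1, fun e => hb.2 (Or.inl e)⟩, fun e => hb.2 (Or.inr e)⟩ hab
    have h5 := h (insert w U) (Set.insert_subset hw hUZ) (Set.insert_nonempty _ _) hcl'
    have h6 := ed_del (G := G) (W := insert w U) (v := w) (Set.mem_insert _ _)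
    have h7 : insert w U \ {w} = U := by
      ext y
      simp only [Set.mem_sdiff, Set.mem_insert_iff, Set.mem_singleton_iff]
      constructor
      · rintro ⟨h | h, h'⟩
        · exact absurd h h'
        · exact h
      · intro h
        exact ⟨Or.inr h, fun h' => hwU (h' ▸ h)⟩
    rw [h7] at h6
    have h8 : (dg G (insert w U) w : ℝ) ≤ 1 := by
      have : dg G (insert w U) w ≤ 1 := (dg_mono (Set.insert_subset hw hUZ) w).trans h1
      exact_mod_cast this
    have h9 : (insert w U).ncard = U.ncard + 1 := Set.ncard_insert_of_notMem hwU (Set.toFinite _)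
    rw [h9] at h5
    push_cast at h5
    linarith
  · push Not at hadj
    refine h U hUZ hne ?_
    intro a ha b hb hab
    by_cases hbw : b = w
    · exact hadj a ha (hbw ▸ hab)
    · exact hcl a ha b ⟨⟨hb.1, hbw⟩, hb.2⟩ hab

/-- peeling everything that is not adjacent to `v` -/
theorem s9_peel {v : V} : ∀ (n : ℕ) (Z : Set V), Z.ncard ≤ n → v ∉ Z → KA G Z →
    2 ≤ dg G Z v →
    ∃ U ⊆ Z, Peel G U Z ∧ (∀ u ∈ Z, G.Adj v u → u ∈ U) ∧
      (∀ u ∈ insert v U, 2 ≤ dg G (insert v U) u) := by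
  intro n
  induction n with
  | zero =>
    intro Z hn hv _ hd
    have h0 : Z.ncard = 0 := by omega
    rw [Set.ncard_eq_zero (Set.toFinite _)] at h0
    unfold dg at hd
    rw [h0, Set.inter_empty, Set.ncard_empty] at hd
    omega
  | succ n ih =>
    intro Z hn hv hK hd
    by_cases hex : ∃ w ∈ Z, ¬ G.Adj v w ∧ dg G Z w ≤ 1
    · obtain ⟨w, hw, hvw, hw1⟩ := hex
      have hcard : (Z \ {w}).ncard ≤ n := by
        rw [Set.ncard_sdiff_singleton_of_mem hw]
        omega
      have hd' : 2 ≤ dg G (Z \ {w}) v := by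
        have e : G.neighborSet v ∩ (Z \ {w}) = G.neighborSet v ∩ Z := by
          ext y
          constructor
          · rintro ⟨h1, h2, -⟩
            exact ⟨h1, h2⟩
          · rintro ⟨h1, h2⟩
            exact ⟨h1, h2, fun h => hvw (h ▸ h1)⟩
        unfold dg at hd ⊢
        rw [e]
        exact hd
      obtain ⟨U, hU, hp, hN, h2⟩ := ih (Z \ {w}) hcard (fun h => hv h.1) (KA_del hw hw1 hK) hd'
      refine ⟨U, hU.trans Set.sdiff_subset, ?_, ?_, h2⟩
      · have hins : insert w (Z \ {w}) = Z := by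
          ext y
          simp only [Set.mem_sdiff, Set.mem_insert_iff, Set.mem_singleton_iff]
          constructor
          · rintro (h | h)
            · exact h ▸ hw
            · exact h.1
          · intro h
            by_cases hy : y = w
            · exact Or.inl hy
            · exact Or.inr ⟨h, hy⟩
        rw [← hins]
        refine Peel.add hp (fun h => h.2 rfl) ?_
        exact (Set.ncard_le_ncard (Set.inter_subset_inter_right _ Set.sdiff_subset)
          (Set.toFinite _)).trans hw1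
      · intro u hu hvu
        exact hN u ⟨hu, fun h => hvw (h ▸ hvu)⟩ hvu
    · push Not at hex
      refine ⟨Z, Set.Subset.refl _, Peel.base, fun u hu _ => hu, ?_⟩
      intro u hu
      rcases hu with rfl | hu
      · exact hd.trans (dg_mono (Set.subset_insert _ _) _)
      · by_cases hvu : G.Adj v u
        · -- at least one neighbour in Z, and v
          have h1 : 1 ≤ dg G Z u := by
            by_contra hlt
            have h0 : dg G Z u = 0 := by omega
            unfold dg at h0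
            rw [Set.ncard_eq_zero (Set.toFinite _)] at h0
            have h3 := hK {u} (Set.singleton_subset_iff.2 hu) (Set.singleton_nonempty u) (by
              rintro a rfl b hb hab
              have : b ∈ G.neighborSet a ∩ Z := ⟨hab, hb.1⟩
              rw [h0] at this
              exact this)
            have h4 := ed_del (G := G) (W := {u}) (v := u) rfl
            have h5 : dg G {u} u = 0 := by
              have := dg_mono (G := G) (Set.singleton_subset_iff.2 hu : {u} ⊆ Z) u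
              unfold dg at this ⊢
              rw [h0, Set.ncard_empty] at this
              omega
            rw [Set.sdiff_self, h5, s9_ed_empty] at h4
            rw [h4, Set.ncard_singleton] at h3
            norm_num at h3
          have h6 : insert v (G.neighborSet u ∩ Z) ⊆ G.neighborSet u ∩ insert v Z := by
            rintro y (rfl | ⟨h7, h8⟩)
            · exact ⟨hvu.symm, Or.inl rfl⟩
            · exact ⟨h7, Or.inr h8⟩
          have h9 := Set.ncard_le_ncard h6 (Set.toFinite _)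
          have h10 : v ∉ G.neighborSet u ∩ Z := fun h => hv h.2
          rw [Set.ncard_insert_of_notMem h10 (Set.toFinite _)] at h9
          unfold dg at h1 ⊢
          omega
        · have := hex u hu hvu
          have h3 := dg_mono (G := G) (Set.subset_insert v Z) u
          omega

/-- ROW E4: the splitting of `W` at the vertex `v` of maximal degree in the core `C`. -/
theorem s9_main {W C : Set V} {v : V} (hc : (G.induce W).Connected) (hC : C ⊆ W) (hv : v ∈ C)
    (hC2 : ∀ u ∈ C, 2 ≤ dg G C u)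
    (hCm : ∀ U ⊆ W, (∀ u ∈ U, 2 ≤ dg G U u) → U ⊆ C)
    (hmax : ∀ u ∈ C, dg G C u ≤ dg G C v)
    (PA : Set V → Prop) (hA0 : PA ∅)
    (hA : ∀ Z ⊆ W \ {v}, (G.induce Z).Connected → (Z.ncard : ℝ) + 1 ≤ ed G Z → PA Z)
    (hAu : ∀ Z₁ Z₂ : Set V, Disjoint Z₁ Z₂ → (∀ u ∈ Z₁, ∀ w ∈ Z₂, ¬ G.Adj u w) → PA Z₁ → PA Z₂ →
      PA (Z₁ ∪ Z₂)) :
    ∃ WA WB : Set V, Cut G WA WB v ∧ WA ∪ WB = W ∧ (G.induce WA).Connected ∧
      (G.induce WB).Connected ∧ PA (WA \ {v}) ∧ PF G (WB \ {v}) ∧
      (∀ U ⊆ WB, (∀ u ∈ U, 4 ≤ dg G U u) → U = ∅) ∧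
      (dg G C v : ℝ) ≤ dg G WA v + 2 * (ed G WB - WB.ncard + 1) ∧
      (2 ≤ dg G WA v → ∃ U ⊆ WA \ {v}, Peel G U (WA \ {v}) ∧
        (∀ u ∈ WA \ {v}, G.Adj v u → u ∈ U) ∧ ∀ u ∈ U, dg G U u ≤ dg G C v) := by
  obtain ⟨WA, WB, hcut, hun, hcA, hcB, ⟨hPA, hKA⟩, hPF⟩ :=
    s9_split (G := G) (fun Z => PA Z ∧ KA G Z) (PF G) ⟨hA0, KA_empty⟩ PF_empty
      (fun Z₁ Z₂ hd he h1 h2 => ⟨hAu Z₁ Z₂ hd he h1.1 h2.1, KA_union hd he h1.2 h2.2⟩)
      (fun Z₁ Z₂ hd he h1 h2 => PF_union hd he h1 h2) (v := v) W.ncard W le_rfl hc (hC hv)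
      (fun Z hZ hcZ => by
        by_cases h : ed G Z ≤ Z.ncard
        · exact Or.inr (PF_conn hcZ h)
        · refine Or.inl ?_
          have h' : (Z.ncard : ℝ) + 1 ≤ ed G Z := by
            rw [ed_eq] at h ⊢
            push Not at h
            have h2 : Z.ncard < Nat.card (G.induce Z).edgeSet := by exact_mod_cast h
            exact_mod_cast h2
          exact ⟨hA Z hZ hcZ h', KA_conn hcZ h'⟩)
  have hsA : WA ⊆ W := hun ▸ Set.subset_union_left
  have hsB : WB ⊆ W := hun ▸ Set.subset_union_right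
  refine ⟨WA, WB, hcut, hun, hcA, hcB, hPA, hPF, fun U hU h => s9_class hPF hU h, ?_, ?_⟩
  · -- the degree of v in the two parts of the core
    have h1 : ∀ u ∈ C ∩ WB, u ≠ v → 2 ≤ dg G (C ∩ WB) u := by
      intro u hu huv
      have h2 := hC2 u hu.1
      have h3 : G.neighborSet u ∩ C ⊆ G.neighborSet u ∩ (C ∩ WB) := by
        rintro y ⟨hy1, hy2⟩
        refine ⟨hy1, hy2, ?_⟩
        have hyW : y ∈ WA ∪ WB := hun ▸ hC hy2
        rcases hyW with h | h
        · by_cases hyv : y = v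
          · exact hyv ▸ hcut.mem₂
          · exact absurd hy1.symm (hcut.adj y h u hu.2 hyv huv)
        · exact h
      exact h2.trans (Set.ncard_le_ncard h3 (Set.toFinite _))
    have h4 := s9_CB hcB (Set.inter_subset_right : C ∩ WB ⊆ WB) ⟨hv, hcut.mem₂⟩ h1
    have h5 : dg G C v ≤ dg G WA v + dg G (C ∩ WB) v := by
      have h6 : G.neighborSet v ∩ C ⊆ (G.neighborSet v ∩ WA) ∪ (G.neighborSet v ∩ (C ∩ WB)) := by
        rintro y ⟨hy1, hy2⟩
        have hyW : y ∈ WA ∪ WB := hun ▸ hC hy2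
        rcases hyW with h | h
        · exact Or.inl ⟨hy1, h⟩
        · exact Or.inr ⟨hy1, hy2, h⟩
      exact (Set.ncard_le_ncard h6 (Set.toFinite _)).trans (Set.ncard_union_le _ _)
    have h6 : (dg G C v : ℝ) ≤ dg G WA v + dg G (C ∩ WB) v := by exact_mod_cast h5
    linarith
  · intro h2
    have hd : 2 ≤ dg G (WA \ {v}) v := by
      have e : G.neighborSet v ∩ (WA \ {v}) = G.neighborSet v ∩ WA := by
        ext y
        constructor
        · rintro ⟨h1, h2, -⟩
          exact ⟨h1, h2⟩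
        · rintro ⟨h1, h2⟩
          exact ⟨h1, h2, fun h => (G.loopless.irrefl v) (h ▸ h1)⟩
      unfold dg at h2 ⊢
      rw [e]
      exact h2
    obtain ⟨U, hU, hp, hN, h3⟩ := s9_peel _ (WA \ {v}) le_rfl (fun h => h.2 rfl) hKA hd
    refine ⟨U, hU, hp, hN, fun u hu => ?_⟩
    have h4 : insert v U ⊆ C := hCm _
      (Set.insert_subset (hC hv) (hU.trans (Set.sdiff_subset.trans hsA))) h3
    exact (dg_mono ((Set.subset_insert v U).trans h4) u).trans (hmax u (h4 (Or.inr hu)))

/-- the core of `W` -/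
theorem s9_core (W : Set V) : ∃ C ⊆ W, (∀ u ∈ C, 2 ≤ dg G C u) ∧
    ∀ U ⊆ W, (∀ u ∈ U, 2 ≤ dg G U u) → U ⊆ C := by
  refine ⟨{u | ∃ U ⊆ W, u ∈ U ∧ ∀ z ∈ U, 2 ≤ dg G U z}, ?_, ?_, ?_⟩
  · rintro u ⟨U, hU, hu, -⟩
    exact hU hu
  · rintro u ⟨U, hU, hu, h⟩
    have hs : U ⊆ {u | ∃ U ⊆ W, u ∈ U ∧ ∀ z ∈ U, 2 ≤ dg G U z} := fun z hz => ⟨U, hU, hz, h⟩
    exact (h u hu).trans (dg_mono hs u)
  · intro U hU h u hu
    exact ⟨U, hU, hu, h⟩

/-- a connected set with more edges than vertices has a nonempty core -/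
theorem s9_core_ne {W C : Set V} (h : (W.ncard : ℝ) + 1 ≤ ed G W)
    (hCm : ∀ U ⊆ W, (∀ u ∈ U, 2 ≤ dg G U u) → U ⊆ C) : C.Nonempty := by
  -- remove vertices of degree at most one as long as possible
  have key : ∀ (n : ℕ) (U : Set V), U ⊆ W → U.ncard ≤ n → (U.ncard : ℝ) + 1 ≤ ed G U →
      C.Nonempty := by
    intro n
    induction n with
    | zero =>
      intro U _ hn h1
      have h0 : U.ncard = 0 := by omega
      rw [Set.ncard_eq_zero (Set.toFinite _)] at h0
      rw [h0, s9_ed_empty, Set.ncard_empty] at h1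
      norm_num at h1
    | succ n ih =>
      intro U hU hn h1
      by_cases hex : ∃ w ∈ U, dg G U w ≤ 1
      · obtain ⟨w, hw, hw1⟩ := hex
        have h2 := ed_del (G := G) hw
        have h3 : (U \ {w}).ncard + 1 = U.ncard := Set.ncard_sdiff_singleton_add_one hw
        refine ih (U \ {w}) (Set.sdiff_subset.trans hU) (by omega) ?_
        have h4 : (dg G U w : ℝ) ≤ 1 := by exact_mod_cast hw1
        have h5 : ((U \ {w}).ncard : ℝ) + 1 = U.ncard := by exact_mod_cast h3
        linarith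
      · push Not at hex
        have hUne : U.Nonempty := by
          rw [Set.nonempty_iff_ne_empty]
          rintro rfl
          rw [s9_ed_empty, Set.ncard_empty] at h1
          norm_num at h1
        obtain ⟨u, hu⟩ := hUne
        exact ⟨u, hCm U hU (fun z hz => hex z hz) hu⟩
  exact key _ W (Set.Subset.refl _) le_rfl h

end Pool.Agent.MP3b2d6a
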