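import Pool.Agent.Lib.MP_3b2d6a_co.SE5a
import Pool.Agent.Lib.MP_3b2d6a_co.SCF
import Pool.Agent.Lib.MP_3b2d6a_co.SK9

/-! The final induction: `D(W) < ed W - |W|` for connected `W` with more edges than vertices. -/

set_option autoImplicit false
set_option linter.unusedSectionVars false

open Finset Filter Topology Matrix

namespace Pool.Agent.MP3b2d6a

variable {V : Type*} [Fintype V] [DecidableEq V] {G : SimpleGraph V}

theorem e5_union {X Y : Set V} (hd : Disjoint X Y) (he : ∀ u ∈ X, ∀ w ∈ Y, ¬ G.Adj u w) :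
    Dd G (X ∪ Y) ≤ Dd G X + Dd G Y := by
  obtain ⟨g, hg⟩ : ∃ g : ℝ → ℝ, g = fun x => Hs (AW G (X ∪ Y)) x -
    (Hs (AW G X) x + Hs (AW G Y) x) := ⟨_, rfl⟩
  have hder : ∀ x, 0 < x → HasDerivAt g 0 x := by
    intro x hx
    have h1 := (Hs_deriv (AW_herm G (X ∪ Y)) hx).fun_sub
      ((Hs_deriv (AW_herm G X) hx).fun_add (Hs_deriv (AW_herm G Y) hx))
    have h2 : x * TT (AW G (X ∪ Y)) x - (x * TT (AW G X) x + x * TT (AW G Y) x) = 0 := by
      have h3 : TT (AW G (X ∪ Y)) x = TT (AW G X) x + TT (AW G Y) x := T_union G hd he hx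
      rw [h3]
      ring
    rw [h2] at h1
    rw [hg]
    exact h1
  have hanti : AntitoneOn g (Set.Ioi 0) := by
    refine antitoneOn_of_deriv_nonpos (convex_Ioi 0)
      (fun x hx => (hder x hx).continuousAt.continuousWithinAt)
      (fun x hx => (hder x (interior_subset hx)).differentiableAt.differentiableWithinAt) ?_
    intro x hx
    rw [(hder x (interior_subset hx)).deriv]
  have h0 := (Hs_zero (AW_herm G (X ∪ Y))).sub
    ((Hs_zero (AW_herm G X)).add (Hs_zero (AW_herm G Y)))
  have h1 := (Hs_atTop (AW_herm G (X ∪ Y)) (AW_trace G _)).sub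
    ((Hs_atTop (AW_herm G X) (AW_trace G _)).add (Hs_atTop (AW_herm G Y) (AW_trace G _)))
  rw [← hg] at h0 h1
  have h2 := lim_anti hanti h0 h1 one_pos
  have h3 := h2.1.trans h2.2
  have hpi := Real.pi_pos
  unfold Dd
  have h4 : 0 ≤ Real.pi / 4 * ((∑ i, (AW_herm G (X ∪ Y)).eigenvalues i *
      |(AW_herm G (X ∪ Y)).eigenvalues i|) - ((∑ i, (AW_herm G X).eigenvalues i *
      |(AW_herm G X).eigenvalues i|) + ∑ i, (AW_herm G Y).eigenvalues i *
      |(AW_herm G Y).eigenvalues i|)) := by
    linarith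
  have h5 := nonneg_of_mul_nonneg_right h4 (by positivity)
  linarith

theorem e5_Dd_empty : Dd G ∅ = 0 := by
  unfold Dd
  rw [sum_eq (AW_herm G ∅) (AW_trace G ∅) fun x hx => T_empty G x hx, mul_zero]

theorem e5_av (G : SimpleGraph V) (W : Set V) (v : V) : av G (W \ {v}) v = av G W v := by
  ext u
  unfold av
  by_cases h : u ∈ W ∧ G.Adj v u
  · rw [if_pos h, if_pos ⟨⟨h.1, h.2.ne'⟩, h.2⟩]
  · rw [if_neg h, if_neg fun h' => h ⟨h'.1.1, h'.2⟩]

theorem e5_dg_sdiff (G : SimpleGraph V) (A : Set V) (v : V) : dg G (A \ {v}) v = dg G A v := by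
  unfold dg
  congr 1
  ext u
  constructor
  · rintro ⟨h1, h2, -⟩
    exact ⟨h1, h2⟩
  · rintro ⟨h1, h2⟩
    exact ⟨h1, h2, fun h3 => G.loopless.irrefl v (h3 ▸ h1 : G.Adj v v)⟩

theorem e5_main (n : ℕ) : ∀ W : Set V, W.ncard = n → (G.induce W).Connected →
    (W.ncard : ℝ) + 1 ≤ ed G W → Dd G W < ed G W - W.ncard := by
  induction n using Nat.strong_induction_on with
  | _ n ih =>
    intro W hn hc he
    obtain ⟨C, hCW, hC2, hCm⟩ := s9_core (G := G) W
    have hCne := s9_core_ne he hCm
    obtain ⟨v, hv, hmax⟩ := Set.exists_max_image C (dg G C) (Set.toFinite C) hCne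
    by_cases h300 : dg G C v ≤ 300
    · have hcls : Cls G W := by
        intro U hU h76 u hu
        have hUC := hCm U hU fun z hz => by
          have := h76 z hz
          omega
        exact (dg_mono hUC u).trans ((hmax u (hUC hu)).trans h300)
      obtain ⟨k, L, i⟩ := Inv.conn n W hn hc hcls
      have hcut : Cut G {v} W v :=
        ⟨rfl, hCW hv, fun u hu _ => hu, fun u hu w _ huv _ => absurd hu huv⟩
      refine e5_step (c := fun d => aE d) hcut (Set.union_eq_self_of_subset_left
        (Set.singleton_subset_iff.2 (hCW hv))) (fun d hd => aE_prim (i.mem d hd)) i.mem i.ge i.le ?_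
        (Or.inl he)
      rw [sdiff_self, Set.bot_eq_empty, e5_Dd_empty, s9_ed_empty, Set.ncard_empty]
      simp
    · push Not at h300
      obtain ⟨WA, WB, hcut, hU, hcA, hcB, hPA, -, h4, hdeg, hpeel⟩ := s9_main hc hCW hv hC2 hCm hmax
        (fun Z => Dd G Z ≤ ed G Z - Z.ncard)
        (by rw [e5_Dd_empty, s9_ed_empty, Set.ncard_empty]; simp)
        (fun Z hZ hZc hZe => by
          refine (ih Z.ncard ?_ Z rfl hZc hZe).le
          rw [← hn]
          refine Set.ncard_lt_ncard ⟨fun z hz => (hZ hz).1, fun h => ?_⟩ (Set.toFinite _)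
          exact (hZ (h (hCW hv))).2 rfl)
        (fun Z₁ Z₂ hd he h1 h2 => by
          have h3 := e5_union hd he
          have h5 := s9_ed_union hd he
          have h6 := s9_card_union hd
          rw [h5, h6]
          linarith)
      obtain ⟨k, L, i⟩ := Inv.conn WB.ncard WB rfl hcB fun U hU' h76 => by
        rw [h4 U hU' fun u hu => by
          have := h76 u hu
          omega]
        exact fun u hu => absurd hu (Set.notMem_empty u)
      refine e5_step (c := fun d => aE d) hcut hU (fun d hd => aE_prim (i.mem d hd)) i.mem i.ge i.le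
        hPA ?_
      by_cases hB : (WB.ncard : ℝ) + 1 ≤ ed G WB
      · exact Or.inl hB
      · right
        have hB2 : ed G WB ≤ WB.ncard := by
          rw [ed_eq] at hB ⊢
          have h1 : ¬ (WB.ncard + 1 ≤ Nat.card (G.induce WB).edgeSet) :=
            fun h2 => hB (by exact_mod_cast h2)
          have h2 : Nat.card (G.induce WB).edgeSet ≤ WB.ncard := by omega
          exact_mod_cast h2
        have h301 : (301 : ℝ) ≤ dg G C v := by
          have : 301 ≤ dg G C v := by omega
          exact_mod_cast this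
        have h299 : (299 : ℝ) ≤ dg G WA v := by linarith
        obtain ⟨U, hUA, hP, hN, hU2⟩ := hpeel (by
          have : 299 ≤ dg G WA v := by exact_mod_cast h299
          omega)
        refine ⟨dg G C v, by linarith, by linarith, by linarith, fun x hx => ?_⟩
        have h5 := gam_bound hP (r := v) (L := (dg G C v : ℝ)) (by linarith)
          (fun u hu => by exact_mod_cast hU2 u hu) hN hx
        rw [e5_av, e5_dg_sdiff] at h5
        exact h5

/-- The black box of the final theorem. -/
theorem main_conn {W : Set V} (hc : (G.induce W).Connected) (h : (W.ncard : ℝ) + 1 ≤ ed G W) :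
    -(∑ i, (AW_herm G W).eigenvalues i * |(AW_herm G W).eigenvalues i|) / 2 <
      ed G W - W.ncard := by
  have h1 := e5_main W.ncard W rfl hc h
  unfold Dd at h1
  linarith

end Pool.Agent.MP3b2d6a
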