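import Mathlib

/-! Signs of the entries of `(s + K)⁻¹`, `K` the skew matrix of a bipartite graph. -/

set_option autoImplicit false
set_option linter.unusedSectionVars false

open Finset Filter Topology Matrix

namespace Pool.Agent.MP3b2d6a

variable {V : Type*} [Fintype V] [DecidableEq V]

/-- `PathIn r W u v k`: a path of length `k` from `u` to `v` in `W` without repeated vertex. -/
inductive PathIn (r : V → V → Prop) : Finset V → V → V → ℕ → Prop
  | nil {W : Finset V} {v : V} (hv : v ∈ W) : PathIn r W v v 0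
  | cons {W : Finset V} {u w v : V} {k : ℕ} (hu : u ∈ W) (h : r u w)
      (hp : PathIn r (W.erase u) w v k) : PathIn r W u v (k + 1)

/-- The sign of an alternating path. -/
def eps : Bool → ℕ → ℝ
  | _, 0 => 1
  | b, (k + 1) => (if b then 1 else -1) * eps (!b) k

theorem eps_add_four (b : Bool) (k : ℕ) : eps b (k + 4) = eps b k := by
  cases b <;> simp [eps]

theorem eps_two (b : Bool) : eps b 2 = -1 := by
  cases b <;> simp [eps]

theorem eps_of_mod (b : Bool) {k : ℕ} (hk : k % 4 = 2) : eps b k = -1 := by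
  obtain ⟨q, hq⟩ : ∃ q, k = 2 + 4 * q := ⟨k / 4, by omega⟩
  subst hq
  clear hk
  induction q with
  | zero => exact eps_two b
  | succ q ih =>
    rw [show 2 + 4 * (q + 1) = (2 + 4 * q) + 4 by ring, eps_add_four, ih]

theorem eps_zero_mod (b : Bool) {k : ℕ} (hk : k % 4 = 0) : eps b k = 1 := by
  obtain ⟨q, hq⟩ : ∃ q, k = 4 * q := ⟨k / 4, by omega⟩
  subst hq
  clear hk
  induction q with
  | zero => simp [eps]
  | succ q ih =>
    rw [show 4 * (q + 1) = (4 * q) + 4 by ring, eps_add_four, ih]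

section skew

variable {K : Matrix V V ℝ}

theorem dot_skew (hK : Kᵀ = -K) (y : V → ℝ) : y ⬝ᵥ (K *ᵥ y) = 0 := by
  have h1 : y ⬝ᵥ (K *ᵥ y) = y ⬝ᵥ (Kᵀ *ᵥ y) := by
    rw [Matrix.dotProduct_mulVec, ← Matrix.mulVec_transpose, dotProduct_comm]
  rw [hK, Matrix.neg_mulVec, dotProduct_neg] at h1
  linarith

theorem dot_M (hK : Kᵀ = -K) (s : ℝ) (y : V → ℝ) :
    y ⬝ᵥ ((s • (1 : Matrix V V ℝ) + K) *ᵥ y) = s * (y ⬝ᵥ y) := by
  rw [Matrix.add_mulVec, dotProduct_add, dot_skew hK, Matrix.smul_mulVec, Matrix.one_mulVec,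
    dotProduct_smul, smul_eq_mul, add_zero]

theorem isUnit_M (hK : Kᵀ = -K) {s : ℝ} (hs : 0 < s) :
    IsUnit (s • (1 : Matrix V V ℝ) + K).det := by
  rw [isUnit_iff_ne_zero]
  intro h
  obtain ⟨y, hy, h0⟩ := Matrix.exists_mulVec_eq_zero_iff.2 h
  have h1 := dot_M hK s y
  rw [h0, dotProduct_zero] at h1
  rcases mul_eq_zero.1 h1.symm with h2 | h2
  · exact hs.ne' h2
  · exact hy (dotProduct_self_eq_zero.1 h2)

theorem diag_pos (hK : Kᵀ = -K) {s : ℝ} (hs : 0 < s) (u : V) :
    0 < (s • (1 : Matrix V V ℝ) + K)⁻¹ u u := by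
  have hU := isUnit_M hK hs
  set M := s • (1 : Matrix V V ℝ) + K with hM
  set y : V → ℝ := M⁻¹ *ᵥ Pi.single u 1 with hy
  have h1 : M *ᵥ y = Pi.single u 1 := by
    rw [hy, Matrix.mulVec_mulVec, Matrix.mul_nonsing_inv _ hU, Matrix.one_mulVec]
  have h2 : y u = M⁻¹ u u := by
    rw [hy, Matrix.mulVec_single_one]
    rfl
  have h3 := dot_M hK s y
  rw [← hM, h1, dotProduct_single, mul_one] at h3
  rw [← h2, h3]
  have h4 : y ≠ 0 := by
    intro h
    rw [h, Matrix.mulVec_zero] at h1
    have := congrFun h1 u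
    simp at this
  have h5 : 0 < y ⬝ᵥ y := by
    have h6 : 0 ≤ y ⬝ᵥ y := Finset.sum_nonneg fun i _ => mul_self_nonneg _
    exact lt_of_le_of_ne h6 fun h7 => h4 (dotProduct_self_eq_zero.1 h7.symm)
  positivity

end skew

/-- The skew matrix of the relation `r` on `W`, with colouring `c`. -/
def sk (r : V → V → Prop) [DecidableRel r] (c : V → Bool) (W : Finset V) : Matrix V V ℝ :=
  fun a b => if a ∈ W ∧ b ∈ W ∧ r a b then (if c a then -1 else 1) else 0

variable {r : V → V → Prop} [DecidableRel r] {c : V → Bool}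

theorem PathIn.mem_left {r : V → V → Prop} {W : Finset V} {u v : V} {k : ℕ}
    (h : PathIn r W u v k) : u ∈ W := by
  cases h with
  | nil h => exact h
  | cons h _ _ => exact h

theorem sk_skew (hr : ∀ a b, r a b → r b a) (hc : ∀ a b, r a b → c a ≠ c b) (W : Finset V) :
    (sk r c W)ᵀ = -sk r c W := by
  ext a b
  rw [Matrix.transpose_apply, Matrix.neg_apply]
  unfold sk
  by_cases h : a ∈ W ∧ b ∈ W ∧ r a b
  · rw [if_pos h, if_pos ⟨h.2.1, h.1, hr _ _ h.2.2⟩]
    have := hc _ _ h.2.2
    cases ha : c a <;> cases hb : c b <;> simp_all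
  · rw [if_neg h, if_neg fun h' => h ⟨h'.2.1, h'.1, hr _ _ h'.2.2⟩]
    simp

theorem sk_erase (W : Finset V) (u b : V) : sk r c (W.erase u) u b = 0 := by
  unfold sk
  exact if_neg fun h => (Finset.notMem_erase u W) h.1

/-- The pivot formula. -/
theorem skew_pivot (hr : ∀ a b, r a b → r b a) (hc : ∀ a b, r a b → c a ≠ c b) {s : ℝ} (hs : 0 < s)
    {W : Finset V} {u v : V} (huv : u ≠ v) :
    (s • (1 : Matrix V V ℝ) + sk r c W)⁻¹ u v =
      (s • (1 : Matrix V V ℝ) + sk r c W)⁻¹ u u *
        ∑ b, -sk r c W u b * (s • (1 : Matrix V V ℝ) + sk r c (W.erase u))⁻¹ b v := by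
  have hU := isUnit_M (sk_skew hr hc W) hs
  have hU' := isUnit_M (sk_skew hr hc (W.erase u)) hs
  set M := s • (1 : Matrix V V ℝ) + sk r c W with hM
  set M' := s • (1 : Matrix V V ℝ) + sk r c (W.erase u) with hM'
  set y : V → ℝ := M'⁻¹ *ᵥ Pi.single v 1 with hy
  have hy' : ∀ b, y b = M'⁻¹ b v := fun b => by
    rw [hy, Matrix.mulVec_single_one]
    rfl
  have h1 : M' *ᵥ y = Pi.single v 1 := by
    rw [hy, Matrix.mulVec_mulVec, Matrix.mul_nonsing_inv _ hU', Matrix.one_mulVec]
  have h2 : y u = 0 := by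
    have := congrFun h1 u
    rw [Pi.single_eq_of_ne huv, hM', Matrix.add_mulVec, Matrix.smul_mulVec, Matrix.one_mulVec,
      Pi.add_apply, Pi.smul_apply, smul_eq_mul] at this
    have h3 : (sk r c (W.erase u) *ᵥ y) u = 0 := by
      refine Finset.sum_eq_zero fun b _ => ?_
      change sk r c (W.erase u) u b * y b = 0
      rw [sk_erase, zero_mul]
    rw [h3, add_zero] at this
    exact (mul_eq_zero.1 this).resolve_left hs.ne'
  obtain ⟨t, ht⟩ : ∃ t, t = ∑ b, sk r c W u b * y b := ⟨_, rfl⟩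
  have h3 : M *ᵥ y = Pi.single v 1 + t • Pi.single u 1 := by
    rw [← h1]
    ext a
    rw [Pi.add_apply, Pi.smul_apply, hM, hM', Matrix.add_mulVec, Matrix.add_mulVec, Pi.add_apply,
      Pi.add_apply]
    have h4 : (sk r c W *ᵥ y) a = (sk r c (W.erase u) *ᵥ y) a + t • (Pi.single u 1 : V → ℝ) a := by
      by_cases ha : a = u
      · subst ha
        have h5 : (sk r c (W.erase a) *ᵥ y) a = 0 := by
          refine Finset.sum_eq_zero fun b _ => ?_
          change sk r c (W.erase a) a b * y b = 0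
          rw [sk_erase, zero_mul]
        rw [h5, Pi.single_eq_same, smul_eq_mul, mul_one, zero_add, ht]
        rfl
      · rw [Pi.single_eq_of_ne ha, smul_zero, add_zero]
        refine Finset.sum_congr rfl fun b _ => ?_
        by_cases hb : b = u
        · subst hb
          rw [h2, mul_zero, mul_zero]
        · congr 1
          unfold sk
          simp only [Finset.mem_erase, ne_eq, ha, hb, not_false_eq_true, true_and]
    rw [h4, add_assoc]
  have h5 : y = M⁻¹ *ᵥ Pi.single v 1 + t • (M⁻¹ *ᵥ Pi.single u 1) := by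
    rw [← Matrix.mulVec_smul, ← Matrix.mulVec_add, ← h3, Matrix.mulVec_mulVec,
      Matrix.nonsing_inv_mul _ hU, Matrix.one_mulVec]
  have h6 := congrFun h5 u
  rw [h2, Pi.add_apply, Pi.smul_apply, Matrix.mulVec_single_one, Matrix.mulVec_single_one,
    smul_eq_mul] at h6
  have h7 : ∑ b, -sk r c W u b * M'⁻¹ b v = -t := by
    rw [ht, ← Finset.sum_neg_distrib]
    refine Finset.sum_congr rfl fun b _ => ?_
    rw [hy' b]
    ring
  rw [h7]
  have h8 : (0 : ℝ) = M⁻¹ u v + t * M⁻¹ u u := h6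
  linarith

/-- The sign of the entries of the inverse. -/
theorem sign_inv (hr : ∀ a b, r a b → r b a) (hc : ∀ a b, r a b → c a ≠ c b) {s : ℝ} (hs : 0 < s) :
    ∀ (n : ℕ) (W : Finset V), W.card = n → ∀ u ∈ W, ∀ v ∈ W, ∀ σ : ℝ,
      (∀ k, PathIn r W u v k → eps (c u) k = σ) →
        0 ≤ σ * (s • (1 : Matrix V V ℝ) + sk r c W)⁻¹ u v ∧
        ((∃ k, PathIn r W u v k) → 0 < σ * (s • (1 : Matrix V V ℝ) + sk r c W)⁻¹ u v) := by
  intro n
  induction n with
  | zero =>
    intro W hW u hu
    rw [Finset.card_eq_zero] at hW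
    subst hW
    exact absurd hu (Finset.notMem_empty _)
  | succ n ih =>
    intro W hW u hu v hv σ hσ
    have hd := diag_pos (sk_skew hr hc W) hs u
    by_cases huv : u = v
    · subst huv
      have h1 := hσ 0 (PathIn.nil hu)
      have h2 : σ = 1 := by rw [← h1]; simp [eps]
      rw [h2, one_mul]
      exact ⟨hd.le, fun _ => hd⟩
    · have hW' : (W.erase u).card = n := by
        rw [Finset.card_erase_of_mem hu, hW]
        rfl
      have hv' : v ∈ W.erase u := Finset.mem_erase.2 ⟨fun h => huv h.symm, hv⟩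
      set a : ℝ := if c u then 1 else -1 with ha
      have haa : a * a = 1 := by
        rw [ha]
        split_ifs <;> norm_num
      -- the terms
      have hterm : ∀ b, b ∈ W → r u b →
          0 ≤ (a * σ) * (s • (1 : Matrix V V ℝ) + sk r c (W.erase u))⁻¹ b v ∧
          ((∃ k, PathIn r (W.erase u) b v k) →
            0 < (a * σ) * (s • (1 : Matrix V V ℝ) + sk r c (W.erase u))⁻¹ b v) := by
        intro b hb hub
        have hne : b ≠ u := fun h => hc _ _ hub (by rw [h])
        refine ih (W.erase u) hW' b (Finset.mem_erase.2 ⟨hne, hb⟩) v hv' (a * σ) fun k hk => ?_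
        have h1 := hσ (k + 1) (PathIn.cons hu hub hk)
        have h2 : c b = !c u := by
          have := hc _ _ hub
          cases hcu : c u <;> cases hcb : c b <;> simp_all
        rw [h2]
        have h3 : eps (c u) (k + 1) = a * eps (!c u) k := rfl
        rw [h3] at h1
        rw [← h1, ← mul_assoc, haa, one_mul]
      have hval : ∀ b, -sk r c W u b =
          if b ∈ W ∧ r u b then a else 0 := by
        intro b
        unfold sk
        by_cases h : b ∈ W ∧ r u b
        · rw [if_pos ⟨hu, h⟩, if_pos h, ha]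
          split_ifs <;> norm_num
        · rw [if_neg fun h' => h h'.2, if_neg h, neg_zero]
      have key : σ * (s • (1 : Matrix V V ℝ) + sk r c W)⁻¹ u v =
          (s • (1 : Matrix V V ℝ) + sk r c W)⁻¹ u u * ∑ b, if b ∈ W ∧ r u b then
            (a * σ) * (s • (1 : Matrix V V ℝ) + sk r c (W.erase u))⁻¹ b v else 0 := by
        rw [skew_pivot hr hc hs huv, mul_left_comm, Finset.mul_sum]
        congr 1
        refine Finset.sum_congr rfl fun b _ => ?_
        rw [hval b]
        split_ifs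
        · ring
        · ring
      have hnn : ∀ b ∈ (Finset.univ : Finset V), (0 : ℝ) ≤ if b ∈ W ∧ r u b then
            (a * σ) * (s • (1 : Matrix V V ℝ) + sk r c (W.erase u))⁻¹ b v else 0 := by
        intro b _
        split_ifs with h
        · exact (hterm b h.1 h.2).1
        · exact le_rfl
      rw [key]
      refine ⟨mul_nonneg hd.le (Finset.sum_nonneg hnn), fun hk => mul_pos hd ?_⟩
      obtain ⟨k, hk⟩ := hk
      cases hk with
      | nil _ => exact absurd rfl huv
      | @cons _ _ w _ k _ h hp =>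
        have hw : w ∈ W := (Finset.mem_erase.1 hp.mem_left).2
        refine Finset.sum_pos' hnn ⟨w, Finset.mem_univ _, ?_⟩
        rw [if_pos ⟨hw, h⟩]
        exact (hterm w hw h).2 ⟨k, hp⟩

end Pool.Agent.MP3b2d6a
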