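import Pool.Agent.Lib.MP_3b2d6a_co.AdSum

/-! Comparison of the sums `∑ λ |λ|` of two matrices from a comparison of their phases. -/

set_option autoImplicit false
set_option linter.unusedSectionVars false

open Finset Filter Topology Matrix

namespace Pool.Agent.MP3b2d6a

variable {V : Type*} [Fintype V] [DecidableEq V]

/-- `∑ λ |λ|` for `M` from `TT M ≤ TT M' + f + k tau + ∑ c_d`; `f` and the `c_d` through the
increments of primitives of `x f x` and `x c_d x`. -/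
theorem sum_ge_full {M M' : Matrix V V ℝ} (hM : M.IsHermitian) (hM' : M'.IsHermitian)
    (htr : ∑ i, hM.eigenvalues i = 0) (htr' : ∑ i, hM'.eigenvalues i = 0)
    {k : ℝ} (c : ℕ → ℝ → ℝ) (L : Multiset ℕ)
    (hL : ∀ d ∈ L, ∃ (P : ℝ → ℝ) (S : ℝ), (∀ x, 0 < x → HasDerivAt P (x * c d x) x) ∧
      (∀ x y, 0 < x → x ≤ y → P y - P x ≤ S) ∧ S < Real.pi / 2 * (d - 2))
    {f F : ℝ → ℝ} {E : ℝ} (hF : ∀ x, 0 < x → HasDerivAt F (x * f x) x)
    (hE : ∀ x y, 0 < x → x ≤ y → F y - F x ≤ Real.pi / 2 * E)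
    (h : ∀ x, 0 < x →
      TT M x ≤ TT M' x + f x + (k * tau x + (L.map (fun d => c d x)).sum)) :
    ∑ i, hM'.eigenvalues i * |hM'.eigenvalues i| - (2 * E + (2 * (√5 - 2) * k +
        (L.map (fun d : ℕ => 2 * ((d : ℝ) - 2))).sum)) ≤
        ∑ i, hM.eigenvalues i * |hM.eigenvalues i| ∧
      (L ≠ 0 → ∑ i, hM'.eigenvalues i * |hM'.eigenvalues i| - (2 * E + (2 * (√5 - 2) * k +
        (L.map (fun d : ℕ => 2 * ((d : ℝ) - 2))).sum)) <
        ∑ i, hM.eigenvalues i * |hM.eigenvalues i|) := by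
  have hs := sqrt5_gt
  have hpi := Real.pi_pos
  -- the primitives
  have hch : ∀ d : ℕ, ∃ (P : ℝ → ℝ) (S : ℝ), d ∈ L →
      (∀ x, 0 < x → HasDerivAt P (x * c d x) x) ∧
      (∀ x y, 0 < x → x ≤ y → P y - P x ≤ S) ∧ S < Real.pi / 2 * (d - 2) := by
    intro d
    by_cases hd : d ∈ L
    · obtain ⟨P, S, h1⟩ := hL d hd
      exact ⟨P, S, fun _ => h1⟩
    · exact ⟨fun _ => 0, 0, fun h' => absurd h' hd⟩
  choose Q S hQ using hch
  obtain ⟨P, hP⟩ : ∃ P : ℝ → ℝ, P = fun x => Fi 2 x + 2 * Fi ((√5 - 1) / 2) x +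
    2 * Fi (-(√5 + 1) / 2) x := ⟨_, rfl⟩
  have hPd : ∀ x, 0 < x → HasDerivAt P (x * tau x) x := fun x hx => by
    rw [hP]
    exact tau_prim hx
  have hP0 : Tendsto P (𝓝[>] 0) (𝓝 (Real.pi / 4 * (4 - 2 * √5))) := by
    have h1 := ((Fi_zero 2).add ((Fi_zero ((√5 - 1) / 2)).const_mul 2)).add
      ((Fi_zero (-(√5 + 1) / 2)).const_mul 2)
    rw [hP]
    have e1 : |(2 : ℝ)| = 2 := abs_of_pos (by norm_num)
    have e2 : |(√5 - 1) / 2| = (√5 - 1) / 2 := abs_of_pos (by linarith)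
    have e3 : |-(√5 + 1) / 2| = (√5 + 1) / 2 := by
      rw [abs_of_neg (by linarith)]
      ring
    rw [e1, e2, e3] at h1
    have e4 : Real.pi / 4 * (4 - 2 * √5) = Real.pi / 4 * (2 * 2) +
        2 * (Real.pi / 4 * ((√5 - 1) / 2 * ((√5 - 1) / 2))) +
        2 * (Real.pi / 4 * (-(√5 + 1) / 2 * ((√5 + 1) / 2))) := by
      ring
    rw [e4]
    exact h1
  have hPi : Tendsto P atTop (𝓝 0) := by
    have h1 := ((Fi_atTop 2).add ((Fi_atTop ((√5 - 1) / 2)).const_mul 2)).add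
      ((Fi_atTop (-(√5 + 1) / 2)).const_mul 2)
    rw [mul_zero, add_zero, add_zero] at h1
    rw [hP]
    refine h1.congr fun x => ?_
    ring
  obtain ⟨T, hT⟩ : ∃ T : ℝ, T = (L.map S).sum := ⟨_, rfl⟩
  obtain ⟨Z, hZ⟩ : ∃ Z : ℝ, Z = ∑ i, hM.eigenvalues i * |hM.eigenvalues i| := ⟨_, rfl⟩
  obtain ⟨Z', hZ'⟩ : ∃ Z' : ℝ, Z' = ∑ i, hM'.eigenvalues i * |hM'.eigenvalues i| := ⟨_, rfl⟩
  obtain ⟨EE, hEE⟩ : ∃ EE : ℝ, EE = Real.pi / 2 * E := ⟨_, rfl⟩
  rw [← hEE] at hE
  -- one increment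
  have hinc : ∀ x y, 0 < x → x ≤ y →
      Hs M y - Hs M x ≤ (Hs M' y - Hs M' x) + EE + (k * (P y - P x) + T) := by
    intro x y hx hxy
    have hd : ∀ z ∈ Set.Icc x y, HasDerivAt (fun z => Hs M z - (Hs M' z + F z + (k * P z +
        (L.map (fun d => Q d z)).sum))) (z * TT M z - (z * TT M' z + z * f z + (k * (z * tau z) +
        (L.map (fun d => z * c d z)).sum))) z := by
      intro z hz
      have hz0 : 0 < z := hx.trans_le hz.1
      exact (Hs_deriv hM hz0).fun_sub (((Hs_deriv hM' hz0).fun_add (hF z hz0)).fun_add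
        (((hPd z hz0).const_mul k).fun_add
        (nd_deriv L Q (fun d => z * c d z) z fun d hd => (hQ d hd).1 z hz0)))
    have hanti : AntitoneOn (fun z => Hs M z - (Hs M' z + F z + (k * P z +
        (L.map (fun d => Q d z)).sum))) (Set.Icc x y) := by
      refine antitoneOn_of_deriv_nonpos (convex_Icc x y)
        (fun z hz => (hd z hz).continuousAt.continuousWithinAt)
        (fun z hz => (hd z (interior_subset hz)).differentiableAt.differentiableWithinAt) ?_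
      intro z hz
      have hz' := interior_subset hz
      have hz0 : 0 < z := hx.trans_le hz'.1
      rw [(hd z hz').deriv, nd_mul]
      have := mul_le_mul_of_nonneg_left (h z hz0) hz0.le
      linarith
    have h1 := hanti ⟨le_refl x, hxy⟩ ⟨hxy, le_refl y⟩ hxy
    simp only at h1
    have h2 := nd_diff L Q S x y fun d hd => (hQ d hd).2.1 x y hx hxy
    have h3 := hE x y hx hxy
    rw [← hT] at h2
    linarith
  -- the limit at infinity
  have hinf : ∀ x, 0 < x → 0 - Hs M x ≤ (0 - Hs M' x) + EE + (k * (0 - P x) + T) := by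
    intro x hx
    have l1 : Tendsto (fun y => Hs M y - Hs M x) atTop (𝓝 (0 - Hs M x)) :=
      (Hs_atTop hM htr).sub tendsto_const_nhds
    have l2 : Tendsto (fun y => (Hs M' y - Hs M' x) + EE + (k * (P y - P x) + T)) atTop
        (𝓝 ((0 - Hs M' x) + EE + (k * (0 - P x) + T))) :=
      (((Hs_atTop hM' htr').sub tendsto_const_nhds).add tendsto_const_nhds).add
        (((hPi.sub tendsto_const_nhds).const_mul k).add tendsto_const_nhds)
    refine le_of_tendsto_of_tendsto l1 l2 ?_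
    filter_upwards [eventually_ge_atTop x] with y hy
    exact hinc x y hx hy
  have hzero : 0 - Real.pi / 4 * Z ≤ (0 - Real.pi / 4 * Z') + EE +
      (k * (0 - Real.pi / 4 * (4 - 2 * √5)) + T) := by
    have hz := Hs_zero hM
    rw [← hZ] at hz
    have hz' := Hs_zero hM'
    rw [← hZ'] at hz'
    have l1 : Tendsto (fun x => 0 - Hs M x) (𝓝[>] 0) (𝓝 (0 - Real.pi / 4 * Z)) :=
      tendsto_const_nhds.sub hz
    have l2 : Tendsto (fun x => (0 - Hs M' x) + EE + (k * (0 - P x) + T)) (𝓝[>] 0)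
        (𝓝 ((0 - Real.pi / 4 * Z') + EE + (k * (0 - Real.pi / 4 * (4 - 2 * √5)) + T))) :=
      ((tendsto_const_nhds.sub hz').add tendsto_const_nhds).add
        (((tendsto_const_nhds.sub hP0).const_mul k).add tendsto_const_nhds)
    refine le_of_tendsto_of_tendsto l1 l2 ?_
    filter_upwards [self_mem_nhdsWithin] with x hx
    exact hinf x hx
  have hlt := nd_sum L S (fun d => Real.pi / 2 * ((d : ℝ) - 2)) fun d hd => (hQ d hd).2.2
  rw [nd_mul, ← hT] at hlt
  have hm : (L.map (fun d : ℕ => 2 * ((d : ℝ) - 2))).sum =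
      2 * (L.map (fun d : ℕ => (d : ℝ) - 2)).sum := nd_mul L (fun d : ℕ => (d : ℝ) - 2) 2
  obtain ⟨W, hW⟩ : ∃ W : ℝ, W = (L.map (fun d : ℕ => (d : ℝ) - 2)).sum := ⟨_, rfl⟩
  rw [← hW] at hm
  rw [← hW] at hlt
  rw [hm, ← hZ, ← hZ']
  rw [hEE] at hzero
  constructor
  · have h1 := hlt.1
    have h9 : Real.pi / 4 * (Z' - (2 * E + (2 * (√5 - 2) * k + 2 * W))) ≤ Real.pi / 4 * Z := by
      linarith
    exact le_of_mul_le_mul_left h9 (by positivity)
  · intro hne
    have h1 := hlt.2 hne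
    have h9 : Real.pi / 4 * (Z' - (2 * E + (2 * (√5 - 2) * k + 2 * W))) < Real.pi / 4 * Z := by
      linarith
    exact lt_of_mul_lt_mul_left h9 (by positivity)

end Pool.Agent.MP3b2d6a
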