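import Pool.Agent.Lib.MP_3b2d6a_co.Maj

/-! At most two positive eigenvalues: the phase is at most `0`. -/

set_option autoImplicit false
set_option linter.unusedSectionVars false

open Finset Filter Topology Matrix

namespace Pool.Agent.MP3b2d6a

variable {V : Type*} [Fintype V] [DecidableEq V]

theorem form_eq {M U : Matrix V V ℝ} {d : V → ℝ} (h3 : M = U * diagonal d * Uᵀ) (y : V → ℝ) :
    y ⬝ᵥ (M *ᵥ y) = ∑ j, d j * (Uᵀ *ᵥ y) j ^ 2 := by
  rw [h3, ← Matrix.mulVec_mulVec, ← Matrix.mulVec_mulVec, Matrix.dotProduct_mulVec,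
    ← Matrix.mulVec_transpose, dotProduct]
  refine Finset.sum_congr rfl fun j _ => ?_
  rw [Matrix.mulVec_diagonal]
  ring

theorem norm_eq {U : Matrix V V ℝ} (h1 : U * Uᵀ = 1) (y : V → ℝ) :
    y ⬝ᵥ y = ∑ j, (Uᵀ *ᵥ y) j ^ 2 := by
  have h := form_eq (M := 1) (U := U) (d := fun _ => 1)
    (by rw [Matrix.diagonal_one, Matrix.mul_one, h1]) y
  rw [Matrix.one_mulVec] at h
  rw [h]
  simp

/-- The number of positive eigenvalues does not grow under compression. -/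
theorem pos_le {V' : Type*} [Fintype V'] [DecidableEq V'] {M : Matrix V V ℝ} {M' : Matrix V' V' ℝ}
    {P : Matrix V V' ℝ} (hM : M.IsHermitian) (hM' : M'.IsHermitian) (h : M' = Pᵀ * M * P) :
    #{i | 0 < hM'.eigenvalues i} ≤ #{i | 0 < hM.eigenvalues i} := by
  classical
  by_contra hcon
  push Not at hcon
  obtain ⟨U, h1, h2, h3⟩ := spec_decomp hM
  obtain ⟨U', h1', h2', h3'⟩ := spec_decomp hM'
  obtain ⟨d, hd⟩ : ∃ d, d = hM.eigenvalues := ⟨_, rfl⟩
  obtain ⟨d', hd'⟩ : ∃ d, d = hM'.eigenvalues := ⟨_, rfl⟩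
  rw [← hd, ← hd'] at hcon
  rw [← hd] at h3
  rw [← hd'] at h3'
  obtain ⟨K, hK⟩ : ∃ K : Matrix V V' ℝ, K = Uᵀ * P * U' := ⟨_, rfl⟩
  let S' : Type _ := {j : V' // 0 < d' j}
  let S : Type _ := {i : V // 0 < d i}
  let Φ : (S' → ℝ) →ₗ[ℝ] (S → ℝ) := Matrix.mulVecLin (fun (i : S) (j : S') => K i.1 j.1)
  have hlt : Module.finrank ℝ (S → ℝ) < Module.finrank ℝ (S' → ℝ) := by
    rw [Module.finrank_fintype_fun_eq_card, Module.finrank_fintype_fun_eq_card,
      Fintype.card_subtype, Fintype.card_subtype]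
    exact hcon
  obtain ⟨c, hc, hc0⟩ := (Submodule.ne_bot_iff _).1 (LinearMap.ker_ne_bot_of_finrank_lt (f := Φ) hlt)
  -- extension by zero
  obtain ⟨e, he⟩ : ∃ e : V' → ℝ, e = fun j => if hj : 0 < d' j then c ⟨j, hj⟩ else 0 := ⟨_, rfl⟩
  have heS : ∀ j : S', e j.1 = c j := fun j => by
    rw [he]
    exact dif_pos j.2
  have heN : ∀ j, ¬ 0 < d' j → e j = 0 := fun j hj => by
    rw [he]
    exact dif_neg hj
  have hKe : ∀ i, 0 < d i → (K *ᵥ e) i = 0 := by
    intro i hi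
    have h4 : ∑ j : S', K i j.1 * c j = 0 := congrFun (LinearMap.mem_ker.1 hc) ⟨i, hi⟩
    rw [Matrix.mulVec, dotProduct]
    rw [← h4, ← Finset.sum_subset (Finset.subset_univ (univ.filter fun j => 0 < d' j))]
    · rw [Finset.sum_subtype (univ.filter fun j => 0 < d' j) (p := fun j => 0 < d' j)
        (fun j => by simp)]
      refine Finset.sum_congr rfl fun j _ => ?_
      rw [heS]
    · intro j _ hj
      rw [heN j (by simpa using hj), mul_zero]
  have hy1 : (U' *ᵥ e) ⬝ᵥ (M' *ᵥ (U' *ᵥ e)) = ∑ j, d' j * e j ^ 2 := by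
    rw [form_eq h3', Matrix.mulVec_mulVec, h2', Matrix.one_mulVec]
  have hy2 : (U' *ᵥ e) ⬝ᵥ (M' *ᵥ (U' *ᵥ e)) = ∑ j, d j * (K *ᵥ e) j ^ 2 := by
    have h5 : (U' *ᵥ e) ⬝ᵥ (M' *ᵥ (U' *ᵥ e)) = (P *ᵥ (U' *ᵥ e)) ⬝ᵥ (M *ᵥ (P *ᵥ (U' *ᵥ e))) := by
      rw [h, ← Matrix.mulVec_mulVec, ← Matrix.mulVec_mulVec, Matrix.dotProduct_mulVec,
        ← Matrix.mulVec_transpose, Matrix.transpose_transpose]
    rw [h5, form_eq h3, hK, Matrix.mul_assoc, ← Matrix.mulVec_mulVec, ← Matrix.mulVec_mulVec]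
  have hpos : 0 < ∑ j, d' j * e j ^ 2 := by
    obtain ⟨j, hj⟩ := Function.ne_iff.1 hc0
    refine Finset.sum_pos' (fun i _ => ?_) ⟨j.1, Finset.mem_univ _, ?_⟩
    · by_cases hi : 0 < d' i
      · positivity
      · rw [heN i hi]
        simp
    · have h6 : c j ≠ 0 := hj
      rw [heS]
      exact mul_pos j.2 (by positivity)
  have hneg : ∑ j, d j * (K *ᵥ e) j ^ 2 ≤ 0 := by
    refine Finset.sum_nonpos fun i _ => ?_
    by_cases hi : 0 < d i
    · rw [hKe i hi]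
      simp
    · exact mul_nonpos_of_nonpos_of_nonneg (not_lt.1 hi) (sq_nonneg _)
  rw [← hy1, hy2] at hpos
  linarith

/-- Perron: the largest eigenvalue of a nonnegative symmetric matrix dominates all the others. -/
theorem perron {M : Matrix V V ℝ} (hM : M.IsHermitian) (h0 : ∀ i j, 0 ≤ M i j) {a : ℝ}
    (ha : ∀ i, hM.eigenvalues i ≤ a) (j : V) : -hM.eigenvalues j ≤ a := by
  obtain ⟨U, h1, h2, h3⟩ := spec_decomp hM
  obtain ⟨d, hd⟩ : ∃ d, d = hM.eigenvalues := ⟨_, rfl⟩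
  rw [← hd] at h3 ha ⊢
  obtain ⟨y, hy⟩ : ∃ y : V → ℝ, y = U *ᵥ (Pi.single j 1) := ⟨_, rfl⟩
  obtain ⟨z, hz⟩ : ∃ z : V → ℝ, z = fun i => |y i| := ⟨_, rfl⟩
  have e1 : Uᵀ *ᵥ y = Pi.single j 1 := by
    rw [hy, Matrix.mulVec_mulVec, h2, Matrix.one_mulVec]
  have e2 : y ⬝ᵥ (M *ᵥ y) = d j := by
    rw [form_eq h3, e1, Finset.sum_eq_single_of_mem j (Finset.mem_univ _)]
    · simp
    · intro i _ hij
      simp [hij]
  have e3 : y ⬝ᵥ y = 1 := by
    rw [norm_eq h1, e1, Finset.sum_eq_single_of_mem j (Finset.mem_univ _)]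
    · simp
    · intro i _ hij
      simp [hij]
  have e4 : z ⬝ᵥ z = 1 := by
    rw [← e3, hz]
    simp only [dotProduct, abs_mul_abs_self]
  have e5 : z ⬝ᵥ (M *ᵥ z) ≤ a := by
    rw [form_eq h3]
    calc ∑ j, d j * (Uᵀ *ᵥ z) j ^ 2 ≤ ∑ j, a * (Uᵀ *ᵥ z) j ^ 2 :=
          Finset.sum_le_sum fun i _ => mul_le_mul_of_nonneg_right (ha i) (sq_nonneg _)
      _ = a := by rw [← Finset.mul_sum, ← norm_eq h1, e4, mul_one]
  have e6 : -(y ⬝ᵥ (M *ᵥ y)) ≤ z ⬝ᵥ (M *ᵥ z) := by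
    simp only [dotProduct, Matrix.mulVec, Finset.mul_sum]
    rw [← Finset.sum_neg_distrib]
    refine Finset.sum_le_sum fun i _ => ?_
    rw [← Finset.sum_neg_distrib]
    refine Finset.sum_le_sum fun k _ => ?_
    rw [hz]
    calc -(y i * (M i k * y k)) ≤ |y i * (M i k * y k)| := neg_le_abs _
      _ = |y i| * (M i k * |y k|) := by
          rw [abs_mul, abs_mul, abs_of_nonneg (h0 i k)]
  rw [e2] at e6
  linarith

theorem TT_nonpos {M : Matrix V V ℝ} (hM : M.IsHermitian) (h0 : ∀ i j, 0 ≤ M i j)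
    (htr : ∑ i, hM.eigenvalues i = 0) (h2 : #{i | 0 < hM.eigenvalues i} ≤ 2) {x : ℝ} (hx : 0 < x) :
    TT M x ≤ 0 := by
  classical
  rw [TT, dif_pos hM]
  have hper := fun {a : ℝ} => perron hM h0 (a := a)
  generalize hM.eigenvalues = d at *
  obtain ⟨P, hP⟩ : ∃ P : Finset V, P = univ.filter fun i => 0 < d i := ⟨_, rfl⟩
  have hPm : ∀ i, i ∈ P ↔ 0 < d i := fun i => by rw [hP]; simp
  have hPc : ∀ i, i ∈ Pᶜ → d i ≤ 0 := fun i hi => by
    rw [Finset.mem_compl, hPm, not_lt] at hi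
    exact hi
  have hsplit : ∀ f : V → ℝ, ∑ i, f i = ∑ i ∈ P, f i + ∑ i ∈ Pᶜ, f i := fun f =>
    (Finset.sum_add_sum_compl P f).symm
  have hneg : ∑ i ∈ Pᶜ, Real.arctan (d i / x) = -∑ i ∈ Pᶜ, Real.arctan (-d i / x) := by
    rw [← Finset.sum_neg_distrib]
    refine Finset.sum_congr rfl fun i _ => ?_
    rw [neg_div, Real.arctan_neg, neg_neg]
  have hμ0 : ∀ i ∈ Pᶜ, 0 ≤ -d i / x := fun i hi =>
    div_nonneg (neg_nonneg.2 (hPc i hi)) hx.le
  have hμs : ∑ i ∈ Pᶜ, -d i / x = (∑ i ∈ P, d i) / x := by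
    rw [← Finset.sum_div, Finset.sum_neg_distrib]
    congr 1
    rw [hsplit] at htr
    linarith
  rw [hsplit, hneg]
  rw [← hP] at h2
  -- the three cases
  have key : ∀ a b : ℝ, 0 ≤ b → b ≤ a → (∀ i, d i ≤ a) → ∑ i ∈ P, d i = a + b →
      ∑ i ∈ P, Real.arctan (d i / x) = Real.arctan (a / x) + Real.arctan (b / x) →
      ∑ i ∈ P, Real.arctan (d i / x) + -∑ i ∈ Pᶜ, Real.arctan (-d i / x) ≤ 0 := by
    intro a b hb hba ha hs hs'
    have h5 := maj_arctan Pᶜ (μ := fun i => -d i / x) (a := a / x) (b := b / x)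
      (div_nonneg hb hx.le) (div_le_div_of_nonneg_right hba hx.le) hμ0
      (fun i _ => div_le_div_of_nonneg_right (hper ha i) hx.le) (by rw [hμs, hs, add_div])
    rw [hs']
    linarith
  have hcase : #P = 0 ∨ #P = 1 ∨ #P = 2 := by omega
  rcases hcase with h | h | h
  · rw [Finset.card_eq_zero] at h
    rw [h, Finset.sum_empty, zero_add, neg_nonpos, ← h]
    refine Finset.sum_nonneg fun i hi => ?_
    rw [← Real.arctan_zero]
    exact Real.arctan_strictMono.monotone (hμ0 i hi)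
  · obtain ⟨i, hi⟩ := Finset.card_eq_one.1 h
    have hi0 : 0 < d i := (hPm i).1 (by rw [hi]; simp)
    refine key (d i) 0 le_rfl hi0.le ?_ (by rw [hi]; simp) (by rw [hi]; simp)
    intro k
    by_cases hk : k ∈ P
    · rw [hi, Finset.mem_singleton] at hk
      rw [hk]
    · rw [hPm, not_lt] at hk
      linarith
  · obtain ⟨i, j, hij, hi⟩ := Finset.card_eq_two.1 h
    have hi0 : 0 < d i := (hPm i).1 (by rw [hi]; simp)
    have hj0 : 0 < d j := (hPm j).1 (by rw [hi]; simp)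
    have hall : ∀ k, d k ≤ d i ∨ d k ≤ d j := by
      intro k
      by_cases hk : k ∈ P
      · rw [hi, Finset.mem_insert, Finset.mem_singleton] at hk
        rcases hk with rfl | rfl
        · exact Or.inl le_rfl
        · exact Or.inr le_rfl
      · rw [hPm, not_lt] at hk
        exact Or.inl (by linarith)
    rcases le_total (d j) (d i) with hle | hle
    · refine key (d i) (d j) hj0.le hle (fun k => ?_) (by rw [hi, Finset.sum_pair hij])
        (by rw [hi, Finset.sum_pair hij])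
      rcases hall k with h6 | h6 <;> linarith
    · refine key (d j) (d i) hi0.le hle (fun k => ?_) (by rw [hi, Finset.sum_pair hij, add_comm])
        (by rw [hi, Finset.sum_pair hij, add_comm])
      rcases hall k with h6 | h6 <;> linarith

variable (G : SimpleGraph V)

/-- The number of positive eigenvalues of the adjacency matrix of `G` restricted to `W`. -/
noncomputable def posCount (W : Set V) : ℕ :=
  #{i | 0 < (AW_herm G W).eigenvalues i}

theorem AW_nonneg (W : Set V) (i j : V) : 0 ≤ AW G W i j := by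
  unfold AW
  split_ifs
  · exact zero_le_one
  · exact le_rfl

theorem AW_trace (W : Set V) : ∑ i, (AW_herm G W).eigenvalues i = 0 := by
  have h := (AW_herm G W).trace_eq_sum_eigenvalues
  have h2 : (AW G W).trace = 0 := by
    rw [Matrix.trace]
    refine Finset.sum_eq_zero fun i _ => ?_
    rw [Matrix.diag_apply]
    unfold AW
    exact if_neg fun h => G.loopless.irrefl i h.2.2
  rw [h2] at h
  exact h.symm

theorem AW_compress {W W' : Set V} (h : W' ⊆ W) : ∃ P : Matrix V V ℝ, AW G W' = Pᵀ * AW G W * P := by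
  classical
  refine ⟨diagonal fun v => if v ∈ W' then 1 else 0, ?_⟩
  rw [Matrix.diagonal_transpose]
  ext u v
  rw [Matrix.mul_diagonal, Matrix.diagonal_mul]
  by_cases hu : u ∈ W'
  · by_cases hv : v ∈ W'
    · rw [if_pos hu, if_pos hv, one_mul, mul_one]
      unfold AW
      by_cases ha : G.Adj u v
      · rw [if_pos ⟨hu, hv, ha⟩, if_pos ⟨h hu, h hv, ha⟩]
      · rw [if_neg fun h' => ha h'.2.2, if_neg fun h' => ha h'.2.2]
    · rw [AW_zero_right G hv, if_neg hv, mul_zero]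
  · rw [AW_zero_left G hu, if_neg hu, zero_mul, zero_mul]

theorem posCount_mono {W W' : Set V} (h : W' ⊆ W) : posCount G W' ≤ posCount G W := by
  obtain ⟨P, hP⟩ := AW_compress G h
  exact pos_le (AW_herm G W) (AW_herm G W') hP

theorem T_nonpos {W : Set V} (h : posCount G W ≤ 2) {W' : Set V} (hW : W' ⊆ W) {x : ℝ}
    (hx : 0 < x) : T G W' x ≤ 0 :=
  TT_nonpos (AW_herm G W') (AW_nonneg G W') (AW_trace G W') ((posCount_mono G hW).trans h) hx

end Pool.Agent.MP3b2d6a
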